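import Pool.Agent.SplGd.Defs
import Pool.Agent.SplTr.Asm
import Pool.Agent.SplTr.Dorm

set_option autoImplicit false

/-!
# The parts give the grid theorem
-/

namespace Pool.Agent.SplGd

open Pool.Agent.SplLog Pool.Agent.SplLs Pool.Agent.SplDq Pool.Agent.SplTr
open scoped Classical

variable {S : Sys} {r r' : Rnd} {D : ℕ}

/-- A pair has a round of the general kind. -/
def HasG (S : Sys) (P : Rnd → Prop) (t g : ℕ) : Prop := ∃ r, Rg S r ∧ P r ∧ r.t = t ∧ r.g = g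

theorem m_le (h : GridH S D) : S.m ≤ D := by
  rcases Nat.eq_zero_or_pos S.m with h0 | h0
  · omega
  · have h1 := h 0 (by omega)
    have h2 : (cel S 0).card = S.m := by
      unfold cel Pool.Agent.SplPat.cells
      rw [Finset.card_image_of_injOn]
      · simp
      · intro a _ b _ hab
        simp only [pow_zero, Nat.div_one, Prod.mk.injEq] at hab
        exact hab.1
    rw [h2] at h1
    omega

theorem kl_no_kp {S : Sys} {t g p : ℕ} (h : S.Kl t g p) : ¬ S.Kp t g := fun h' =>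
  Sys.not_kp_kl h' h

theorem rg_t_eq (h : Rg S r) (h' : Rg S r') (hs : r.s = r'.s) (hg : r.g = r'.g) : r.t = r'.t := by
  rcases Nat.lt_trichotomy r.t r'.t with h1 | h1 | h1
  · exfalso
    have h2 := h'.ne r.t (by rw [← hs]; exact h.st) h1 (by rw [← hg]; exact Sys.R_E h.kl.1)
    rw [← hg] at h2
    exact Sys.not_kp_kl h2.2.1 h.kl
  · exact h1
  · exfalso
    have h2 := h.ne r'.t (by rw [hs]; exact h'.st) h1 (by rw [hg]; exact Sys.R_E h'.kl.1)
    rw [hg] at h2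
    exact Sys.not_kp_kl h2.2.1 h'.kl

/-- A bad round gives an element. -/
theorem el_of_bad (h : Rg S r) (hb : ¬ Ok S r) : El S ⟨r.s, r.g, r.q, r.h, r.rel⟩ := by
  have h1 := h.rs
  have h2 := h.rt
  have h3 := h.kl.1.1
  have h4 := h.rg
  unfold Ok at hb
  exact ⟨h.sk, h.q0, h.ht, h1, by show r.rel < S.m; omega, h.rq, h4, h.nr, by
    show r.rel + S.X r.rel < r.g + r.s
    omega⟩

theorem cnt_bad : S.cnt (HasG S (fun r => ¬ Ok S r)) ≤
    S.cnt (fun s g => ∃ e, El S e ∧ e.s = s ∧ e.g = g) := by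
  have hch : ∀ t g, ∃ r : Rnd, HasG S (fun r => ¬ Ok S r) t g →
      Rg S r ∧ ¬ Ok S r ∧ r.t = t ∧ r.g = g := by
    intro t g
    by_cases h : HasG S (fun r => ¬ Ok S r) t g
    · obtain ⟨r, hr⟩ := h
      exact ⟨r, fun _ => hr⟩
    · exact ⟨⟨0, 0, 0, 0, 0, 0, 0⟩, fun h' => absurd h' h⟩
  choose f hf using hch
  refine Sys.cnt_le_of_inj (S.set (fun s g => ∃ e, El S e ∧ e.s = s ∧ e.g = g))
    (fun t g => ((f t g).s, g)) ?_ ?_
  · intro t g _ hg h
    obtain ⟨h1, h2, h3, h4⟩ := hf t g h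
    rw [Sys.mem_set]
    have h5 := el_of_bad h1 h2
    exact ⟨lt_trans h1.st h1.kl.1.1, hg, _, h5, rfl, h4⟩
  · intro t g t' g' _ _ h _ _ h' he
    obtain ⟨h1, h2, h3, h4⟩ := hf t g h
    obtain ⟨h1', h2', h3', h4'⟩ := hf t' g' h'
    simp only [Prod.mk.injEq] at he
    obtain ⟨e1, e2⟩ := he
    refine ⟨?_, e2⟩
    rw [← h3, ← h3']
    exact rg_t_eq h1 h1' e1 (by rw [h4, h4', e2])

/-- Pairs with rounds in classes. -/
theorem cnt_farG (P : Rnd → Prop) (sc : Rnd → ℕ) {A B : ℕ}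
    (h : ∀ (k : ℕ) (F : Finset Rnd), (∀ r ∈ F, Rg S r ∧ P r ∧ sc r = k) →
      A * (k + 1) ^ 2 * F.card ≤ 24 * B) :
    A * S.cnt (HasG S P) ≤ 48 * B := by
  have hch : ∀ t g, ∃ r : Rnd, HasG S P t g → Rg S r ∧ P r ∧ r.t = t ∧ r.g = g := by
    intro t g
    by_cases h : HasG S P t g
    · obtain ⟨r, hr⟩ := h
      exact ⟨r, fun _ => hr⟩
    · exact ⟨⟨0, 0, 0, 0, 0, 0, 0⟩, fun h' => absurd h' h⟩
  choose f hf using hch
  set E : Finset Rnd := (S.set (HasG S P)).image (fun q => f q.1 q.2) with hE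
  have h1 : S.cnt (HasG S P) = E.card := by
    rw [hE, Finset.card_image_of_injOn]
    · rfl
    · rintro ⟨t, g⟩ hq ⟨t', g'⟩ hq' he
      rw [Finset.mem_coe, Sys.mem_set] at hq hq'
      simp only at he
      obtain ⟨_, _, h3, h4⟩ := hf t g hq.2.2
      obtain ⟨_, _, h3', h4'⟩ := hf t' g' hq'.2.2
      rw [he] at h3 h4
      have e1 : t = t' := h3.symm.trans h3'
      have e2 : g = g' := h4.symm.trans h4'
      rw [e1, e2]
  have h2 : ∀ r ∈ E, Rg S r ∧ P r := by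
    intro r hr
    rw [hE, Finset.mem_image] at hr
    obtain ⟨q, hq, rfl⟩ := hr
    rw [Sys.mem_set] at hq
    obtain ⟨h3, h4, _⟩ := hf q.1 q.2 hq.2.2
    exact ⟨h3, h4⟩
  rw [h1]
  apply scales E sc
  intro k
  apply h k
  intro r hr
  rw [Finset.mem_filter] at hr
  exact ⟨(h2 r hr.1).1, (h2 r hr.1).2, hr.2⟩

/-- One side. -/
theorem one_sideG {K : ℕ} (hK : 0 < K) (hB : BadG) (hN : NearG) (h2 : ClsSG) (h2' : ClsFG)
    (h3 : ClsCardG) (A : ℕ) :
    ∃ C : ℕ, ∀ (S : Sys) (D : ℕ), GrK K S D →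
      A * S.cnt (fun t g => ∃ r, Rg S r ∧ (Same S r ∨ Flip S r) ∧ r.t = t ∧ r.g = g) ≤
        97 * tch S + C * (S.top + D) := by
  obtain ⟨C1, hC1⟩ := h3 A
  obtain ⟨C2, hC2⟩ := hB K hK A
  obtain ⟨C3, hC3⟩ := hN
  refine ⟨C2 + A * C3 + 96 * C1, fun S D hS' => ?_⟩
  have hBd := hC2 S D hS'.grid
  have hS : Gr S D := hS'.half
  have hNr := hC3 S D hS
  have e2 := cnt_bad (S := S)
  have e4 : A * S.cnt (HasG S (fun r => Ok S r ∧ ¬ N1 S r ∧ Same S r)) ≤
      48 * (tch S + C1 * (S.top + D)) := by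
    apply cnt_farG _ (fun r => Nat.log 2 (r.g - r.p))
    intro k F hF
    obtain ⟨P, hP1, hP2⟩ := h2 S k F (fun r hr => by
      obtain ⟨a1, ⟨a2, a3, a4⟩, a5⟩ := hF r hr
      have a6 := (Sys.kl_facts a1.kl).2.1
      refine ⟨a1, a2, a3, a4, ?_, ?_⟩
      · rw [← a5]
        exact Nat.pow_log_le_self 2 (by omega)
      · rw [← a5]
        exact Nat.lt_pow_succ_log_self (by norm_num) _)
    exact cover_le hP1 (fun i => hC1 S D hS k (P i) (hP2 i))
  have e5 : A * S.cnt (HasG S (fun r => Ok S r ∧ ¬ N2 S r ∧ Flip S r)) ≤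
      48 * (tch S + C1 * (S.top + D)) := by
    apply cnt_farG _ (fun r => Nat.log 2 (r.h - r.g))
    intro k F hF
    obtain ⟨P, hP1, hP2⟩ := h2' S k F (fun r hr => by
      obtain ⟨a1, ⟨a2, a3, a4⟩, a5⟩ := hF r hr
      have a6 := S.lt_rho r.t a1.kl.1.1.le r.g a1.kl.1.2.1
      rw [a1.hh] at a6
      refine ⟨a1, a2, a3, a4, ?_, ?_⟩
      · rw [← a5]
        exact Nat.pow_log_le_self 2 (by omega)
      · rw [← a5]
        exact Nat.lt_pow_succ_log_self (by norm_num) _)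
    exact cover_le hP1 (fun i => hC1 S D hS k (P i) (hP2 i))
  have e1 : S.cnt (fun t g => ∃ r, Rg S r ∧ (Same S r ∨ Flip S r) ∧ r.t = t ∧ r.g = g) ≤
      S.cnt (HasG S (fun r => ¬ Ok S r)) +
      (S.cnt (fun t g => ∃ r, Rg S r ∧ Ok S r ∧ (N1 S r ∨ N2 S r) ∧ r.t = t ∧ r.g = g) +
      (S.cnt (HasG S (fun r => Ok S r ∧ ¬ N1 S r ∧ Same S r)) +
      S.cnt (HasG S (fun r => Ok S r ∧ ¬ N2 S r ∧ Flip S r)))) := by
    refine le_trans ?_ (Nat.add_le_add_left (Nat.add_le_add_left (cnt_or _ _) _) _)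
    refine le_trans ?_ (Nat.add_le_add_left (cnt_or _ _) _)
    refine le_trans ?_ (cnt_or _ _)
    apply cnt_mono
    rintro t g _ _ ⟨r, hr, hsf, rfl, rfl⟩
    by_cases c1 : Ok S r
    · right
      by_cases c2 : N1 S r ∨ N2 S r
      · exact Or.inl ⟨r, hr, c1, c2, rfl, rfl⟩
      · right
        rcases hsf with c3 | c3
        · exact Or.inl ⟨r, hr, ⟨c1, fun c4 => c2 (Or.inl c4), c3⟩, rfl, rfl⟩
        · exact Or.inr ⟨r, hr, ⟨c1, fun c4 => c2 (Or.inr c4), c3⟩, rfl, rfl⟩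
    · exact Or.inl ⟨r, hr, c1, rfl, rfl⟩
  have e6 := Nat.mul_le_mul_left A e1
  have e7 := Nat.mul_le_mul_left A e2
  have e8 := Nat.mul_le_mul_left A hNr
  rw [Nat.mul_add, Nat.mul_add, Nat.mul_add] at e6
  have e9 : A * (C3 * D) = A * C3 * D := by ring
  rw [e9] at e8
  have e10 : (C2 + A * C3 + 96 * C1) * (S.top + D) =
      C2 * D + A * C3 * D + 96 * (C1 * (S.top + D)) + (C2 * S.top + A * C3 * S.top) := by ring
  rw [e10]
  omega

theorem grid_mm {K : ℕ} (h : Grid K S D) : Grid K S.mir.mir D := by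
  intro j hj
  have h1 := h j hj
  have h2 : cel S.mir.mir j = cel S j := by
    unfold cel Pool.Agent.SplPat.cells
    apply Finset.image_congr
    intro t ht
    have h3 : t < S.m := Finset.mem_range.1 (Finset.mem_coe.1 ht)
    have h4 := S.key _ (S.req t h3)
    have h5 : S.mir.mir.X t = S.top - (S.top - S.X t) := rfl
    simp only [h5]
    rw [Nat.sub_sub_self h4.2.le]
  rw [h2]
  exact h1

theorem gr_mir {K : ℕ} (h : GrK K S D) : GrK K S.mir D :=
  ⟨h.thr', thr_mm h.thr, h.grid', grid_mm h.grid⟩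

/-- **The assembly.** -/
theorem linG_of (hT : TLe) (h0 : ThetaG) (h1 : HotG) (hB : BadG) (hN : NearG) (h2 : ClsSG)
    (h2' : ClsFG) (h3 : ClsCardG) : LinG := by
  intro K hK
  obtain ⟨C0, hC0⟩ := h0
  obtain ⟨C1, hC1⟩ := h1
  obtain ⟨C2, hC2⟩ := one_sideG hK hB hN h2 h2' h3 2000
  refine ⟨49 * (2000 * C0 + 12000 * C1) + 18 * C2, fun S D hS => ?_⟩
  have hS' : GrK K S.mir D := gr_mir hS
  have a0 := hC0 S hS.thr hS.thr'
  have a1 := hC1 S hS.thr
  have a2 := hC2 S D hS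
  have b1 := hC1 S.mir hS.thr'
  have b2 := hC2 S.mir D hS'
  have c1 := hT S D hS.grid.half
  have c2 := hT S.mir D hS.grid'.half
  have c2' := hT S.mir.mir D (grid_mm hS.grid).half
  have c3 := m_le hS.grid.half
  have c4 : S.top + S.m + TT S ≤ 49 * (S.top + D) := by
    unfold TT
    omega
  have c5 : S.mir.top + S.mir.m + TT S.mir ≤ 49 * (S.top + D) := by
    rw [mir_top, mir_m]
    unfold TT
    omega
  rw [tch_mir, mir_top] at b2
  have d0 := Nat.mul_le_mul_left C0 c4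
  have d1 := Nat.mul_le_mul_left C1 c4
  have d2 := Nat.mul_le_mul_left C1 c5
  set n := S.top + D with hn
  set N1 := S.cnt (fun t g => ∃ r, Rg S r ∧ (Same S r ∨ Flip S r) ∧ r.t = t ∧ r.g = g)
  set N2 := S.mir.cnt (fun t g => ∃ r, Rg S.mir r ∧ (Same S.mir r ∨ Flip S.mir r) ∧
    r.t = t ∧ r.g = g)
  have e0 : C0 * (49 * n) = 49 * (C0 * n) := by ring
  have e1 : C1 * (49 * n) = 49 * (C1 * n) := by ring
  have e : (49 * (2000 * C0 + 12000 * C1) + 18 * C2) * n =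
      2000 * (49 * (C0 * n)) + 12000 * (49 * (C1 * n)) + 18 * (C2 * n) := by ring
  rw [e0] at d0
  rw [e1] at d1 d2
  rw [e]
  omega

end Pool.Agent.SplGd
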