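import Pool.Agent.SplGd.GNear

set_option autoImplicit false

/-!
# The F-family: classes
-/

namespace Pool.Agent.SplGd

open Pool.Agent.SplLog Pool.Agent.SplLs Pool.Agent.SplDq Pool.Agent.SplTr
open scoped Classical

variable {S : Sys} {s t u v w g h p q a b τ k μ : ℕ} {r r' : Rnd}

namespace GF

theorem rg (h : GF S k r) : Rg S r := h.1

theorem far1 (h : GF S k r) : S.X r.t + 64 * 2 ^ k ≤ r.p := by
  have h1 := h.2.2.1
  have h2 := h.rg.Xp
  have h3 := h.2.2.2.2.1
  by_contra hc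
  refine h1 ⟨h.2.2.2.1, ?_⟩
  have : 64 * 2 ^ k ≤ GM * (r.h - r.g) := Nat.mul_le_mul le_rfl h3
  omega

/-- two touched nodes with `μ` in the gap above them are equal -/
theorem gap_eq (h1 : S.R t v) (h2 : S.R t w) (h3 : v < μ) (h4 : w < μ) (h5 : μ ≤ S.rho t v)
    (h6 : μ ≤ S.rho t w) : v = w := by
  rcases lt_trichotomy v w with h | h | h
  · have := (Sys.R_above h1 h2 h).1
    omega
  · exact h
  · have := (Sys.R_above h2 h1 h).1
    omega

theorem aux (h : GF S k r) (hμ : r.g < μ) (hμ' : μ ≤ r.g + 2 ^ k) :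
    μ ≤ r.h ∧ S.X r.t + 64 * 2 ^ k ≤ μ := by
  have h1 := h.2.2.2.2.1
  have h2 := h.far1
  have h3 := h.rg.pg
  have h4 := h.rg.gh
  omega

/-- The alive periods of the rounds at one cell are disjoint. -/
theorem disj (hr : GF S k r) (hr' : GF S k r') (h1 : r.g < μ) (h2 : μ ≤ r.g + 2 ^ k)
    (h1' : r'.g < μ) (h2' : μ ≤ r'.g + 2 ^ k) (ht : r.t < r'.t) : r.t < r'.s := by
  have a := hr.aux h1 h2
  have a' := hr'.aux h1' h2'
  have hk : 1 ≤ 2 ^ k := Nat.one_le_two_pow
  have hX : S.X r.t < r'.g := by omega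
  have hR := kl_R hr.rg.kl
  have hX' := hr'.rg.Xp
  have hpg' := hr'.rg.pg
  by_contra hc
  push Not at hc
  rcases Nat.eq_or_lt_of_le hc with hc | hc
  · -- the same request
    rcases hr'.rg.sk with h3 | h3
    · have h4 := h3.1
      have h5 := (Sys.kl_facts h4).2.2.2.2.2
      rw [hc] at h4 h5
      have h6 := h3.2
      rw [hc] at h6
      have h7 := gap_eq (kl_R h4) hR h1' h1 (by omega) (by rw [hr.rg.hh]; exact a.1)
      obtain ⟨u, hu1, hu2, hu3⟩ := hr.2.2.2.1
      rw [← h7] at hu2 hu3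
      rcases lt_trichotomy u r'.t with h8 | h8 | h8
      · have h9 := (hr'.rg.ne u (by omega) h8 (Sys.L_E hu2)).2.1
        exact Sys.not_R_L h9.1 hu2
      · rw [h8] at hu2
        exact Sys.not_R_L (kl_R hr'.rg.kl) hu2
      · exact hu3 r'.t (by omega) h8 (Sys.R_E (kl_R hr'.rg.kl))
    · have h4 := h3.1.1.2.2.1
      rw [hc] at h4
      omega
  · have hrho := hr'.rg.rho_aft hc ht.le
    have hgh := hr'.rg.gh
    have htm := hR.1
    by_cases hE : S.E r.t r'.g
    · have h3 := (hr'.rg.ne r.t hc ht hE).2.1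
      have h7 := gap_eq h3.1 hR h1' h1 (by omega) (by rw [hr.rg.hh]; exact a.1)
      rw [h7] at h3
      exact Sys.not_kp_kl h3 hr.rg.kl
    · have hl : S.X r.t ≤ S.lam r.t r'.g :=
        (not_R htm hr'.rg.gK hX (fun h => hE (Sys.R_E h))).1
      rcases lt_trichotomy r.g r'.g with h3 | h3 | h3
      · have h4 : r.g ≤ S.lam r.t r'.g := by
          have h5 := hr.rg.hh
          have h6 := R_lam hR
          rcases S.lamin r.t htm.le r.g hr.rg.gK r'.g hr'.rg.gK h3 with h4 | h4 | h4 <;> omega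
        have h5 := hr'.rg.lam_aft hc ht.le le_rfl
        have h6 := R_lam (kl_R hr'.rg.kl)
        omega
      · rw [← h3] at hE
        exact hE (Sys.R_E hR)
      · have h6 := R_lam hR
        rcases S.lamin r.t htm.le r'.g hr'.rg.gK r.g hr.rg.gK h3 with h4 | h4 | h4 <;> omega

/-- One kill per request and cell. -/
theorem same (hr : GF S k r) (hr' : GF S k r') (h1 : r.g < μ) (h2 : μ ≤ r.g + 2 ^ k)
    (h1' : r'.g < μ) (h2' : μ ≤ r'.g + 2 ^ k) (ht : r.t = r'.t) : r = r' := by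
  have a := hr.aux h1 h2
  have a' := hr'.aux h1' h2'
  have h3 := kl_R hr'.rg.kl
  have h4 := hr'.rg.hh
  rw [← ht] at h3 h4
  exact Rg.ext hr.rg hr'.rg ht (gap_eq (kl_R hr.rg.kl) h3 h1 h1' (by rw [hr.rg.hh]; exact a.1)
    (by rw [h4]; exact a'.1))

/-- (H2): in between there is a request in `(g, h)`. -/
theorem two (hr : GF S k r) (hr' : GF S k r') (hg : r.g = r'.g) (hlt : r.rel < r'.rel) :
    ∃ u, r.rel ≤ u ∧ u ≤ r'.s ∧ r.g < S.X u + 2 ^ (k + 1) ∧ S.X u < r.g + 2 ^ (k + 1) := by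
  obtain ⟨u, hu1, hu2, hu3⟩ := hr.2.2.2.1
  have hord := Rg.order hr.rg hr'.rg hg hlt
  have hst := hr'.rg.st
  have hR' := kl_R hr'.rg.kl
  rw [← hg] at hR'
  have hut : u < r'.t := by
    rcases lt_trichotomy u r'.t with h8 | h8 | h8
    · exact h8
    · rw [h8] at hu2
      exact absurd hu2 (fun h => Sys.not_R_L hR' h)
    · exact absurd (Sys.R_E hR') (hu3 r'.t (by omega) h8)
  have hus : u ≤ r'.s := by
    by_contra hc
    push Not at hc
    have h1 := (hr'.rg.ne u hc hut (by rw [← hg]; exact Sys.L_E hu2)).2.1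
    rw [← hg] at h1
    exact Sys.not_R_L h1.1 hu2
  have h1 : S.rho u r.g = r.h := by
    rw [(Sys.NE_const hr.rg.gK (show r.t + 1 ≤ u by omega) hu2.1.le hu3).2,
      (Sys.kl_facts hr.rg.kl).2.2.2.2.2, hr.rg.hh]
  have h2 := hu2.2.2.1
  have h3 := hu2.2.2.2
  have h7 := hr.2.2.2.2.2
  have h8 := hr.rg.gh
  have h9 := hr.rg.rt
  exact ⟨u, by omega, hus, by omega, by omega⟩

end GF

theorem clsFG : ClsFG := by
  intro S k F hF
  refine ⟨fun i => F.filter (fun r => (r.g / 2 ^ k) % 8 = i.1), ?_, ?_⟩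
  · intro r hr
    refine ⟨⟨(r.g / 2 ^ k) % 8, by omega⟩, Finset.mem_filter.2 ⟨hr, rfl⟩⟩
  · intro i
    have hk : 0 < 2 ^ k := Nat.two_pow_pos k
    have hmu : ∀ x, x < (x / 2 ^ k + 1) * 2 ^ k ∧ (x / 2 ^ k + 1) * 2 ^ k ≤ x + 2 ^ k := by
      intro x
      have h1 := Nat.div_add_mod x (2 ^ k)
      have h2 := Nat.mod_lt x hk
      have h3 : (x / 2 ^ k + 1) * 2 ^ k = 2 ^ k * (x / 2 ^ k) + 2 ^ k := by ring
      omega
    refine ⟨?_, ?_, ?_, ?_, ?_, ?_⟩
    · intro r hr
      exact (hF r (Finset.mem_filter.1 hr).1).rg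
    · intro r hr
      exact (hF r (Finset.mem_filter.1 hr).1).2.1
    · rintro r hr r' hr' hlt ⟨τ, h1, h2⟩
      obtain ⟨hr, hc⟩ := Finset.mem_filter.1 hr
      obtain ⟨hr', hc'⟩ := Finset.mem_filter.1 hr'
      have f := hF r hr
      have f' := hF r' hr'
      by_cases he : r.g / 2 ^ k = r'.g / 2 ^ k
      · exfalso
        obtain ⟨m1, m2⟩ := hmu r.g
        obtain ⟨m1', m2'⟩ := hmu r'.g
        rw [← he] at m1' m2'
        rcases lt_trichotomy r.t r'.t with h3 | h3 | h3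
        · have h4 := GF.disj f f' m1 m2 m1' m2' h3
          have := f.rg.rt
          have := h1.2
          have := h2.1
          omega
        · have := GF.same f f' m1 m2 m1' m2' h3
          rw [this] at hlt
          exact lt_irrefl _ hlt
        · have h4 := GF.disj f' f m1' m2' m1 m2 h3
          have := f'.rg.rt
          have := h2.2
          have := h1.1
          omega
      · have h3 : r.g / 2 ^ k ≤ r'.g / 2 ^ k := Nat.div_le_div_right hlt.le
        have h4 : r.g / 2 ^ k + 8 ≤ r'.g / 2 ^ k := by omega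
        have h5 : (r.g / 2 ^ k + 8) * 2 ^ k ≤ (r'.g / 2 ^ k) * 2 ^ k :=
          Nat.mul_le_mul_right _ h4
        have h6 := Nat.div_mul_le_self r'.g (2 ^ k)
        have h7 := (hmu r.g).1
        have h8 : (r.g / 2 ^ k + 8) * 2 ^ k = (r.g / 2 ^ k + 1) * 2 ^ k + 7 * 2 ^ k := by ring
        omega
    · intro r hr r' hr' hg hlt
      exact GF.two (hF r (Finset.mem_filter.1 hr).1) (hF r' (Finset.mem_filter.1 hr').1) hg hlt
    · intro r hr
      have f := hF r (Finset.mem_filter.1 hr).1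
      have h1 := f.far1
      have h2 := f.rg.pg
      have h3 := f.rg.zy
      omega
    · intro r hr r' hr' hg hrel
      exact Rg.ext_rel (hF r (Finset.mem_filter.1 hr).1).rg (hF r' (Finset.mem_filter.1 hr').1).rg
        hrel hg

end Pool.Agent.SplGd
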