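import Mathlib

set_option autoImplicit false

/-!
# The abstract group lemma (section 3.4 of the grid theorem)

`G` is a finite set of elements, every element `x` has a time `s x`, a position `mu x`, a victim
`g x`, a right end `w x` and a symbol `sy x`; `T` is a set of touches (time, key).  The elements are
ordered by `(s, mu)`; a change is an element whose predecessor has another symbol.
-/

namespace Pool.Agent.SplGd

open scoped Classical

section
variable {ι σ : Type*}

/-- The order by `(s, mu)`. -/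
def GLt (s mu : ι → ℕ) (x y : ι) : Prop := s x < s y ∨ (s x = s y ∧ mu x < mu y)

/-- The changes: elements whose predecessor has another symbol. -/
noncomputable def Chg (G : Finset ι) (s mu : ι → ℕ) (sy : ι → σ) : Finset ι :=
  G.filter (fun x => ∃ y ∈ G, GLt s mu y x ∧ sy y ≠ sy x ∧
    ∀ z ∈ G, ¬ (GLt s mu y z ∧ GLt s mu z x))

/-- The hypotheses of the group lemma. -/
structure GrpH (G : Finset ι) (s mu g w : ι → ℕ) (sy : ι → σ) (T : Finset (ℕ × ℕ)) : Prop where
  /-- `s` and `mu` determine the element -/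
  h1 : ∀ x ∈ G, ∀ y ∈ G, s x = s y → mu x = mu y → x = y
  /-- every key is victim at most once -/
  h3 : ∀ x ∈ G, ∀ y ∈ G, g x = g y → x = y
  /-- the pair lemma -/
  h4 : ∀ x ∈ G, ∀ b ∈ G, ∀ y ∈ G, mu x = mu y → mu x < mu b → s x ≤ s b → s b < s y →
    w b ≤ g y ∨ ∃ u, s x ≤ u ∧ u ≤ s b ∧ (u, g y) ∈ T
  /-- dead positions -/
  h5 : ∀ x ∈ G, ∀ y ∈ G, s x < s y → mu x < mu y → mu y ≤ g x → False
  h6 : ∀ x ∈ G, mu x < g x ∧ g x < w x
  /-- the symbol determines `mu` -/
  h7 : ∀ x ∈ G, ∀ y ∈ G, sy x = sy y → mu x = mu y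
  /-- the symbols over one `mu` are contiguous -/
  h8 : ∀ x ∈ G, ∀ y ∈ G, ∀ z ∈ G, mu x = mu y → mu y = mu z → s x < s y → s y < s z →
    sy x = sy z → sy x = sy y
  h9 : ∀ x ∈ G, ∀ y ∈ G, s x = s y → mu x < mu y → g x < mu y
  h10 : ∀ x ∈ G, ∀ y ∈ G, s x < s y → mu y < mu x → mu x ≤ g y → w x ≤ g y

variable {G : Finset ι} {s mu g w : ι → ℕ} {sy : ι → σ} {T : Finset (ℕ × ℕ)}

theorem GLt.tri (H : GrpH G s mu g w sy T) {x y : ι} (hx : x ∈ G) (hy : y ∈ G) :
    GLt s mu x y ∨ x = y ∨ GLt s mu y x := by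
  rcases lt_trichotomy (s x) (s y) with h | h | h
  · exact Or.inl (Or.inl h)
  · rcases lt_trichotomy (mu x) (mu y) with h' | h' | h'
    · exact Or.inl (Or.inr ⟨h, h'⟩)
    · exact Or.inr (Or.inl (H.h1 x hx y hy h h'))
    · exact Or.inr (Or.inr (Or.inr ⟨h.symm, h'⟩))
  · exact Or.inr (Or.inr (Or.inl h))

/-- Counting: elements with less than `R` larger elements. -/
theorem grp_count (S P : Finset ι) (s : ι → ℕ) (R : ℕ) (hPS : P ⊆ S)
    (hinj : ∀ x ∈ S, ∀ y ∈ S, s x = s y → x = y)
    (hP : ∀ x ∈ P, (S.filter (fun y => s x < s y)).card < R) : P.card ≤ R := by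
  rcases P.eq_empty_or_nonempty with h | h
  · simp [h]
  · obtain ⟨x, hx, hmin⟩ := P.exists_min_image s h
    have h1 : P.erase x ⊆ S.filter (fun y => s x < s y) := by
      intro y hy
      rw [Finset.mem_erase] at hy
      rw [Finset.mem_filter]
      refine ⟨hPS hy.2, lt_of_le_of_ne (hmin y hy.2) fun h2 => hy.1 ?_⟩
      exact (hinj x (hPS hx) y (hPS hy.2) h2).symm
    have h2 := Finset.card_le_card h1
    rw [Finset.card_erase_of_mem hx] at h2
    have h3 := hP x hx
    omega

/-- The returns: `y` is the next element over the same position, `b` is in between, over a larger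
position. -/
def IsRet (G : Finset ι) (s mu : ι → ℕ) (x b y : ι) : Prop :=
  b ∈ G ∧ y ∈ G ∧ mu y = mu x ∧ mu x < mu b ∧ s x ≤ s b ∧ s b < s y ∧
    ∀ z ∈ G, mu z = mu x → ¬ (s x < s z ∧ s z < s y)

noncomputable def Ret (G : Finset ι) (s mu : ι → ℕ) : Finset ι :=
  G.filter (fun x => ∃ b y, IsRet G s mu x b y)

theorem mus_le (H : GrpH G s mu g w sy T) : (G.image mu).card ≤ (G.image sy).card := by
  rcases isEmpty_or_nonempty ι with hι | hι
  · rw [Finset.eq_empty_of_isEmpty G]
    simp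
  have h : ∀ m ∈ G.image mu, ∃ x ∈ G, mu x = m := fun m hm => Finset.mem_image.1 hm
  choose! f hf hf' using h
  refine Finset.card_le_card_of_injOn (fun m => sy (f m))
    (fun m hm => Finset.mem_image_of_mem sy (hf m hm)) ?_
  intro m hm m' hm' heq
  have h1 := H.h7 (f m) (hf m hm) (f m') (hf m' hm') heq
  rwa [hf' m hm, hf' m' hm'] at h1

/-- Changes over the same position. -/
theorem chgA_le (H : GrpH G s mu g w sy T) :
    (G.filter (fun x => ∃ y ∈ G, mu y = mu x ∧ GLt s mu y x ∧ sy y ≠ sy x ∧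
      ∀ z ∈ G, ¬ (GLt s mu y z ∧ GLt s mu z x))).card ≤ (G.image sy).card := by
  refine Finset.card_le_card_of_injOn sy
    (fun x hx => Finset.mem_image_of_mem sy (Finset.mem_filter.1 hx).1) ?_
  -- it is enough to exclude `s x < s x'`
  have key : ∀ x ∈ G, ∀ x' ∈ G, sy x = sy x' → s x < s x' → ∀ y ∈ G, mu y = mu x' →
      GLt s mu y x' → sy y ≠ sy x' → (∀ z ∈ G, ¬ (GLt s mu y z ∧ GLt s mu z x')) → False := by
    intro x hx x' hx' hsy hs y hy hmy hlt hne hno
    have hmx := H.h7 x hx x' hx' hsy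
    have h1 : s y < s x' := by
      rcases hlt with h | h
      · exact h
      · omega
    have h2 : ¬ GLt s mu y x := fun h => hno x hx ⟨h, Or.inl hs⟩
    rcases lt_trichotomy (s x) (s y) with h | h | h
    · exact hne ((H.h8 x hx y hy x' hx' (by omega) (by omega) h h1 hsy).symm.trans hsy)
    · have h3 := H.h1 x hx y hy h (by omega)
      exact hne (h3 ▸ hsy)
    · exact h2 (Or.inl h)
  intro x hx x' hx' heq
  rw [Finset.mem_coe, Finset.mem_filter] at hx hx'
  obtain ⟨hxG, y, hy, h1, h2, h3, h4⟩ := hx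
  obtain ⟨hxG', y', hy', h1', h2', h3', h4'⟩ := hx'
  rcases lt_trichotomy (s x) (s x') with h | h | h
  · exact (key x hxG x' hxG' heq h y' hy' h1' h2' h3' h4').elim
  · exact H.h1 x hxG x' hxG' h (H.h7 x hxG x' hxG' heq)
  · exact (key x' hxG' x hxG heq.symm h y hy h1 h2 h3 h4).elim

/-- Changes with a predecessor over a larger position. -/
theorem chgB_le (H : GrpH G s mu g w sy T) :
    (G.filter (fun x => ∃ y ∈ G, mu x < mu y ∧ GLt s mu y x ∧
      ∀ z ∈ G, ¬ (GLt s mu y z ∧ GLt s mu z x))).card ≤ (G.image mu).card + (Ret G s mu).card := by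
  set B := G.filter (fun x => ∃ y ∈ G, mu x < mu y ∧ GLt s mu y x ∧
      ∀ z ∈ G, ¬ (GLt s mu y z ∧ GLt s mu z x)) with hB
  -- the first elements over their position
  have h1 : (B.filter (fun x => ∀ z ∈ G, mu z = mu x → s x ≤ s z)).card ≤ (G.image mu).card := by
    refine Finset.card_le_card_of_injOn mu (fun x hx => Finset.mem_image_of_mem mu
      (Finset.mem_filter.1 (Finset.mem_filter.1 hx).1).1) ?_
    intro x hx x' hx' heq
    rw [Finset.mem_coe, Finset.mem_filter] at hx hx'
    have hxG := (Finset.mem_filter.1 hx.1).1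
    have hxG' := (Finset.mem_filter.1 hx'.1).1
    exact H.h1 x hxG x' hxG' (le_antisymm (hx.2 x' hxG' heq.symm) (hx'.2 x hxG heq)) heq
  -- the others
  have h2 : (B.filter (fun x => ¬ ∀ z ∈ G, mu z = mu x → s x ≤ s z)).card ≤
      (Ret G s mu).card := by
    have hex : ∀ x ∈ B.filter (fun x => ¬ ∀ z ∈ G, mu z = mu x → s x ≤ s z), ∃ y ∈ Ret G s mu,
        mu y = mu x ∧ s y < s x ∧ ∀ z ∈ G, mu z = mu x → ¬ (s y < s z ∧ s z < s x) := by
      intro x hx
      rw [Finset.mem_filter] at hx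
      obtain ⟨hxB, hx2⟩ := hx
      obtain ⟨hxG, b, hbG, hb1, hb2, hb3⟩ := Finset.mem_filter.1 hxB
      push Not at hx2
      obtain ⟨z, hz, hz1, hz2⟩ := hx2
      obtain ⟨y, hy, hmax⟩ := (G.filter (fun z => mu z = mu x ∧ s z < s x)).exists_max_image s
        ⟨z, Finset.mem_filter.2 ⟨hz, hz1, hz2⟩⟩
      obtain ⟨hyG, hy1, hy2⟩ := Finset.mem_filter.1 hy
      have hno : ∀ z ∈ G, mu z = mu x → ¬ (s y < s z ∧ s z < s x) := by
        intro z hz hmz hc
        have := hmax z (Finset.mem_filter.2 ⟨hz, hmz, hc.2⟩)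
        omega
      have hbx : s b < s x := by
        rcases hb2 with h | h
        · exact h
        · omega
      have hyb : s y ≤ s b := by
        by_contra hcon
        exact hb3 y hyG ⟨Or.inl (by omega), Or.inl hy2⟩
      refine ⟨y, Finset.mem_filter.2 ⟨hyG, b, x, hbG, hxG, hy1.symm, by omega, hyb, hbx, ?_⟩,
        hy1, hy2, hno⟩
      intro z hz hmz
      exact hno z hz (hmz.trans hy1)
    choose! f hf1 hf2 hf3 hf4 using hex
    refine Finset.card_le_card_of_injOn f hf1 ?_
    intro x hx x' hx' heq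
    rw [Finset.mem_coe] at hx hx'
    have hxG := (Finset.mem_filter.1 (Finset.mem_filter.1 hx).1).1
    have hxG' := (Finset.mem_filter.1 (Finset.mem_filter.1 hx').1).1
    have e1 := hf2 x hx
    have e2 := hf2 x' hx'
    rw [← heq] at e2
    have e3 := hf3 x hx
    have e4 := hf3 x' hx'
    rw [← heq] at e4
    have e5 := hf4 x hx x' hxG' (by omega)
    have e6 := hf4 x' hx' x hxG (by omega)
    rw [← heq] at e6
    exact H.h1 x hxG x' hxG' (by omega) (by omega)
  have h3 := Finset.card_filter_add_card_filter_not (s := B)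
    (fun x => ∀ z ∈ G, mu z = mu x → s x ≤ s z)
  omega

/-- Changes with a predecessor over a smaller position. -/
theorem chgC_le (H : GrpH G s mu g w sy T) :
    (G.filter (fun x => ∃ y ∈ G, mu y < mu x ∧ GLt s mu y x ∧
      ∀ z ∈ G, ¬ (GLt s mu y z ∧ GLt s mu z x))).card ≤ (G.image mu).card + (Ret G s mu).card := by
  set B := G.filter (fun x => ∃ y ∈ G, mu y < mu x ∧ GLt s mu y x ∧
      ∀ z ∈ G, ¬ (GLt s mu y z ∧ GLt s mu z x)) with hB
  have hpr : ∀ x ∈ B, ∃ y ∈ G, mu y < mu x ∧ GLt s mu y x ∧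
      ∀ z ∈ G, ¬ (GLt s mu y z ∧ GLt s mu z x) := fun x hx => (Finset.mem_filter.1 hx).2
  choose! f hf1 hf2 hf3 hf4 using hpr
  have hBG : ∀ x ∈ B, x ∈ G := fun x hx => (Finset.mem_filter.1 hx).1
  have hfinj : ∀ x ∈ B, ∀ x' ∈ B, f x = f x' → x = x' := by
    intro x hx x' hx' heq
    rcases GLt.tri H (hBG x hx) (hBG x' hx') with h | h | h
    · exact (hf4 x' hx' x (hBG x hx) ⟨heq ▸ hf3 x hx, h⟩).elim
    · exact h
    · exact (hf4 x hx x' (hBG x' hx') ⟨heq ▸ hf3 x' hx', h⟩).elim
  have h1 : (B.filter (fun x => ∀ z ∈ G, mu z = mu (f x) → s z ≤ s (f x))).card ≤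
      (G.image mu).card := by
    refine Finset.card_le_card_of_injOn (fun x => mu (f x)) (fun x hx =>
      Finset.mem_image_of_mem mu (hf1 x (Finset.mem_filter.1 hx).1)) ?_
    intro x hx x' hx' heq
    rw [Finset.mem_coe, Finset.mem_filter] at hx hx'
    have heq' : mu (f x) = mu (f x') := heq
    have a1 := hx.2 (f x') (hf1 x' hx'.1) heq'.symm
    have a2 := hx'.2 (f x) (hf1 x hx.1) heq'
    exact hfinj x hx.1 x' hx'.1 (H.h1 _ (hf1 x hx.1) _ (hf1 x' hx'.1) (by omega) heq')
  have h2 : (B.filter (fun x => ¬ ∀ z ∈ G, mu z = mu (f x) → s z ≤ s (f x))).card ≤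
      (Ret G s mu).card := by
    refine Finset.card_le_card_of_injOn f ?_ (fun x hx x' hx' heq =>
      hfinj x (Finset.mem_filter.1 hx).1 x' (Finset.mem_filter.1 hx').1 heq)
    intro x hx
    rw [Finset.mem_coe, Finset.mem_filter] at hx
    obtain ⟨hxB, hx2⟩ := hx
    push Not at hx2
    obtain ⟨z, hz, hz1, hz2⟩ := hx2
    obtain ⟨y, hy, hmin⟩ := (G.filter (fun z => mu z = mu (f x) ∧ s (f x) < s z)).exists_min_image s
      ⟨z, Finset.mem_filter.2 ⟨hz, hz1, hz2⟩⟩
    obtain ⟨hyG, hy1, hy2⟩ := Finset.mem_filter.1 hy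
    have hm := hf2 x hxB
    have hxy : s x < s y := by
      rcases GLt.tri H (hBG x hxB) hyG with h | h | h
      · rcases h with h | h
        · exact h
        · omega
      · rw [← h] at hy1
        omega
      · exact (hf4 x hxB y hyG ⟨Or.inl hy2, h⟩).elim
    have hfx : s (f x) ≤ s x := by
      rcases hf3 x hxB with h | h
      · omega
      · omega
    rw [Ret, Finset.mem_coe, Finset.mem_filter]
    refine ⟨hf1 x hxB, x, y, hBG x hxB, hyG, hy1, hm, hfx, hxy, ?_⟩
    intro z hz hmz hc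
    have := hmin z (Finset.mem_filter.2 ⟨hz, hmz, hc.1⟩)
    omega
  have h3 := Finset.card_filter_add_card_filter_not (s := B)
    (fun x => ∀ z ∈ G, mu z = mu (f x) → s z ≤ s (f x))
  omega

/-- Changes and returns. -/
theorem chg_le_ret (H : GrpH G s mu g w sy T) :
    (Chg G s mu sy).card ≤ 3 * (G.image sy).card + 2 * (Ret G s mu).card := by
  have hA := chgA_le H
  have hB := chgB_le H
  have hC := chgC_le H
  have hm := mus_le H
  have hsub : Chg G s mu sy ⊆ (G.filter (fun x => ∃ y ∈ G, mu y = mu x ∧ GLt s mu y x ∧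
      sy y ≠ sy x ∧ ∀ z ∈ G, ¬ (GLt s mu y z ∧ GLt s mu z x))) ∪
      ((G.filter (fun x => ∃ y ∈ G, mu x < mu y ∧ GLt s mu y x ∧
      ∀ z ∈ G, ¬ (GLt s mu y z ∧ GLt s mu z x))) ∪
      (G.filter (fun x => ∃ y ∈ G, mu y < mu x ∧ GLt s mu y x ∧
      ∀ z ∈ G, ¬ (GLt s mu y z ∧ GLt s mu z x)))) := by
    intro x hx
    obtain ⟨hxG, y, hy, h1, h2, h3⟩ := Finset.mem_filter.1 hx
    rw [Finset.mem_union, Finset.mem_union, Finset.mem_filter, Finset.mem_filter, Finset.mem_filter]
    rcases lt_trichotomy (mu y) (mu x) with h | h | h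
    · exact Or.inr (Or.inr ⟨hxG, y, hy, h, h1, h3⟩)
    · exact Or.inl ⟨hxG, y, hy, h, h1, h2, h3⟩
    · exact Or.inr (Or.inl ⟨hxG, y, hy, h, h1, h3⟩)
  have h1 := (Finset.card_le_card hsub).trans ((Finset.card_union_le _ _).trans
    (add_le_add_right (Finset.card_union_le _ _) _))
  omega

/-- The first killer of a position. -/
def FK (G : Finset ι) (s mu g : ι → ℕ) (z : ι) (m : ℕ) : Prop :=
  mu z < m ∧ m ≤ g z ∧ ∀ d ∈ G, GLt s mu d z → ¬ (mu d < m ∧ m ≤ g d)

/-- The first element which engulfs `b` is the first killer of some position. -/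
theorem exists_FK (H : GrpH G s mu g w sy T) {b z : ι} (hb : b ∈ G) (hz : z ∈ G)
    (hm : mu z < mu b) (hs : s b < s z) (hw : w b ≤ g z)
    (hmin : ∀ y ∈ G, mu y = mu z → s b < s y → w b ≤ g y → s z ≤ s y) :
    ∃ m ∈ G.image mu, FK G s mu g z m := by
  obtain ⟨y, hy, hymin⟩ := (G.filter (fun y => mu z < mu y ∧ mu y ≤ mu b ∧ s b ≤ s y ∧ s y < s z ∧
    w b ≤ w y)).exists_min_image mu ⟨b, Finset.mem_filter.2 ⟨hb, hm, le_rfl, le_rfl, hs, le_rfl⟩⟩
  obtain ⟨hyG, y1, y2, y3, y4, y5⟩ := Finset.mem_filter.1 hy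
  refine ⟨mu y, Finset.mem_image_of_mem mu hyG, y1, ?_, ?_⟩
  · have := H.h6 b hb
    omega
  · rintro d hd hdz ⟨d1, d2⟩
    have e1 : s y < s d := by
      rcases lt_trichotomy (s d) (s y) with h | h | h
      · exact (H.h5 d hd y hyG h d1 d2).elim
      · have := H.h9 d hd y hyG h d1
        omega
      · exact h
    have e2 : w y ≤ g d := H.h10 y hyG d hd e1 d1 d2
    have e3 := H.h6 d hd
    have e4 : s d < s z := by
      rcases hdz with h | h
      · exact h
      · have := H.h9 d hd z hz h.1 h.2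
        omega
    rcases lt_trichotomy (mu d) (mu z) with h | h | h
    · exact H.h5 d hd z hz e4 h (by omega)
    · have := hmin d hd h (by omega) (by omega)
      omega
    · have := hymin d (Finset.mem_filter.2 ⟨hd, h, by omega, by omega, e4, by omega⟩)
      omega

theorem FK_inj (H : GrpH G s mu g w sy T) {z z' : ι} {m : ℕ} (hz : z ∈ G) (hz' : z' ∈ G)
    (h : FK G s mu g z m) (h' : FK G s mu g z' m) : z = z' := by
  rcases GLt.tri H hz hz' with h1 | h1 | h1
  · exact (h'.2.2 z hz h1 ⟨h.1, h.2.1⟩).elim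
  · exact h1
  · exact (h.2.2 z' hz' h1 ⟨h'.1, h'.2.1⟩).elim

/-- The number of returns. -/
theorem ret_le (H : GrpH G s mu g w sy T) (R : ℕ) :
    R * (Ret G s mu).card ≤ T.card + 2 * R ^ 2 * (G.image mu).card := by
  have hex : ∀ x ∈ Ret G s mu, ∃ b y, IsRet G s mu x b y := fun x hx => (Finset.mem_filter.1 hx).2
  have hRG : ∀ x ∈ Ret G s mu, x ∈ G := fun x hx => (Finset.mem_filter.1 hx).1
  choose! b nx hr using hex
  -- elements which do not engulf
  let U : ι → Finset ι := fun x => G.filter (fun y => mu y = mu x ∧ s (b x) < s y ∧ g y < w (b x))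
  have hlater : ∀ x ∈ Ret G s mu, ∀ y ∈ G, mu y = mu x → s x < s y → s (b x) < s y := by
    intro x hx y hy hmy hs
    obtain ⟨-, hn, hn1, -, -, hn2, hn3⟩ := hr x hx
    by_contra hcon
    exact hn3 y hy hmy ⟨hs, by omega⟩
  have hsum : ∑ x ∈ Ret G s mu, (U x).card ≤ T.card := by
    rw [← Finset.card_sigma]
    have h1 : ∀ q ∈ (Ret G s mu).sigma U, ∃ u, s q.1 ≤ u ∧ u ≤ s (b q.1) ∧ (u, g q.2) ∈ T := by
      rintro ⟨x, y⟩ hq
      rw [Finset.mem_sigma] at hq
      obtain ⟨hx, hy⟩ := hq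
      obtain ⟨hyG, y1, y2, y3⟩ := Finset.mem_filter.1 hy
      obtain ⟨hbG, hn, hn1, hn0, hn4, hn2, hn3⟩ := hr x hx
      rcases H.h4 x (hRG x hx) (b x) hbG y hyG y1.symm hn0 hn4 y2 with h | h
      · have y3' : g y < w (b x) := y3
        omega
      · exact h
    choose! u hu1 hu2 hu3 using h1
    refine Finset.card_le_card_of_injOn (fun q => (u q, g q.2)) hu3 ?_
    rintro ⟨x, y⟩ hq ⟨x', y'⟩ hq' heq
    rw [Finset.mem_coe] at hq hq'
    have hu := (Prod.ext_iff.1 heq).1
    have hg := (Prod.ext_iff.1 heq).2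
    have a1 := hu1 _ hq
    have a2 := hu2 _ hq
    have a3 := hu1 _ hq'
    have a4 := hu2 _ hq'
    simp only at hu hg a1 a2 a3 a4
    rw [Finset.mem_sigma] at hq hq'
    have hy := Finset.mem_filter.1 hq.2
    have hy' := Finset.mem_filter.1 hq'.2
    simp only at hy hy'
    have e1 : y = y' := H.h3 y hy.1 y' hy'.1 hg
    subst e1
    have e2 : mu x = mu x' := hy.2.1.symm.trans hy'.2.1
    have hxG := hRG x hq.1
    have hxG' := hRG x' hq'.1
    have e3 : x = x' := by
      rcases lt_trichotomy (s x) (s x') with h | h | h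
      · have := hlater x hq.1 x' hxG' e2.symm h
        omega
      · exact H.h1 x hxG x' hxG' h e2
      · have := hlater x' hq'.1 x hxG e2 h
        omega
    subst e3
    rfl
  -- many touches
  have hbig : R * ((Ret G s mu).filter (fun x => R ≤ (U x).card)).card ≤ T.card := by
    calc R * ((Ret G s mu).filter (fun x => R ≤ (U x).card)).card
        = ∑ x ∈ (Ret G s mu).filter (fun x => R ≤ (U x).card), R := by
          rw [Finset.sum_const, smul_eq_mul, mul_comm]
      _ ≤ ∑ x ∈ (Ret G s mu).filter (fun x => R ≤ (U x).card), (U x).card :=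
          Finset.sum_le_sum fun x hx => (Finset.mem_filter.1 hx).2
      _ ≤ ∑ x ∈ Ret G s mu, (U x).card :=
          Finset.sum_le_sum_of_subset (Finset.filter_subset _ _)
      _ ≤ T.card := hsum
  -- few touches, nobody engulfs
  let N := (Ret G s mu).filter (fun x => ¬ R ≤ (U x).card)
  let E : ι → Finset ι := fun x => G.filter (fun y => mu y = mu x ∧ s (b x) < s y ∧ w (b x) ≤ g y)
  have hN1 : (N.filter (fun x => ¬ (E x).Nonempty)).card ≤ R * (G.image mu).card := by
    have h1 : (N.filter (fun x => ¬ (E x).Nonempty)).card ≤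
        R * ((N.filter (fun x => ¬ (E x).Nonempty)).image mu).card := by
      refine Finset.card_le_mul_card_image _ R fun m _ => ?_
      refine grp_count (G.filter (fun x => mu x = m)) _ s R ?_ ?_ ?_
      · intro x hx
        have hx1 := Finset.mem_filter.1 hx
        have hx2 := Finset.mem_filter.1 hx1.1
        have hx3 := Finset.mem_filter.1 hx2.1
        exact Finset.mem_filter.2 ⟨hRG x hx3.1, hx1.2⟩
      · intro x hx y hy hxy
        have hx1 := Finset.mem_filter.1 hx
        have hy1 := Finset.mem_filter.1 hy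
        exact H.h1 x hx1.1 y hy1.1 hxy (hx1.2.trans hy1.2.symm)
      · intro x hx
        have hx1 := Finset.mem_filter.1 hx
        have hx2 := Finset.mem_filter.1 hx1.1
        have hx3 := Finset.mem_filter.1 hx2.1
        refine lt_of_le_of_lt (Finset.card_le_card ?_) (not_le.1 hx3.2)
        intro y hy
        obtain ⟨hy1, hy2⟩ := Finset.mem_filter.1 hy
        obtain ⟨hyG, hym⟩ := Finset.mem_filter.1 hy1
        have hmu : mu y = mu x := hym.trans hx1.2.symm
        have hs' := hlater x hx3.1 y hyG hmu hy2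
        refine Finset.mem_filter.2 ⟨hyG, hmu, hs', ?_⟩
        by_contra hcon
        exact hx2.2 ⟨y, Finset.mem_filter.2 ⟨hyG, hmu, hs', not_lt.1 hcon⟩⟩
    refine h1.trans (Nat.mul_le_mul_left R (Finset.card_le_card ?_))
    apply Finset.image_subset_image
    intro x hx
    exact hRG x (Finset.mem_filter.1 (Finset.mem_filter.1 hx).1).1
  -- few touches, somebody engulfs
  have hN2 : (N.filter (fun x => (E x).Nonempty)).card ≤ R * (G.image mu).card := by
    have hex : ∀ x ∈ N.filter (fun x => (E x).Nonempty), ∃ z ∈ E x, ∀ y ∈ E x, s z ≤ s y :=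
      fun x hx => (E x).exists_min_image s (Finset.mem_filter.1 hx).2
    choose! z hz1 hz2 using hex
    have h1 : (N.filter (fun x => (E x).Nonempty)).card ≤
        R * ((N.filter (fun x => (E x).Nonempty)).image z).card := by
      refine Finset.card_le_mul_card_image _ R fun c hc => ?_
      refine grp_count (G.filter (fun x => mu x = mu c ∧ s x < s c)) _ s R ?_ ?_ ?_
      · intro x hx
        obtain ⟨hx1, hxc⟩ := Finset.mem_filter.1 hx
        have hx2 := Finset.mem_filter.1 hx1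
        have hx3 := Finset.mem_filter.1 hx2.1
        obtain ⟨hbG, hn, hn1, hn0, hn4, hn2, hn3⟩ := hr x hx3.1
        obtain ⟨hzG, z1, z2, z3⟩ := Finset.mem_filter.1 (hz1 x hx1)
        rw [hxc] at z1 z2
        exact Finset.mem_filter.2 ⟨hRG x hx3.1, z1.symm, by omega⟩
      · intro x hx y hy hxy
        have hx1 := Finset.mem_filter.1 hx
        have hy1 := Finset.mem_filter.1 hy
        exact H.h1 x hx1.1 y hy1.1 hxy (hx1.2.1.trans hy1.2.1.symm)
      · intro x hx
        obtain ⟨hx1, hxc⟩ := Finset.mem_filter.1 hx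
        have hx2 := Finset.mem_filter.1 hx1
        have hx3 := Finset.mem_filter.1 hx2.1
        obtain ⟨hzG, z1, z2, z3⟩ := Finset.mem_filter.1 (hz1 x hx1)
        refine lt_of_le_of_lt (Finset.card_le_card ?_) (not_le.1 hx3.2)
        intro y hy
        obtain ⟨hy1, hy2⟩ := Finset.mem_filter.1 hy
        obtain ⟨hyG, hym, hyc⟩ := Finset.mem_filter.1 hy1
        rw [hxc] at z1
        have hmu : mu y = mu x := hym.trans z1
        have hs' := hlater x hx3.1 y hyG hmu hy2
        refine Finset.mem_filter.2 ⟨hyG, hmu, hs', ?_⟩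
        by_contra hcon
        have := hz2 x hx1 y (Finset.mem_filter.2 ⟨hyG, hmu, hs', not_lt.1 hcon⟩)
        rw [hxc] at this
        omega
    refine h1.trans (Nat.mul_le_mul_left R ?_)
    have hfk : ∀ c ∈ (N.filter (fun x => (E x).Nonempty)).image z, c ∈ G ∧
        ∃ m ∈ G.image mu, FK G s mu g c m := by
      intro c hc
      obtain ⟨x, hx1, rfl⟩ := Finset.mem_image.1 hc
      have hx2 := Finset.mem_filter.1 hx1
      have hx3 := Finset.mem_filter.1 hx2.1
      obtain ⟨hbG, hn, hn1, hn0, hn4, hn2, hn3⟩ := hr x hx3.1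
      obtain ⟨hzG, z1, z2, z3⟩ := Finset.mem_filter.1 (hz1 x hx1)
      refine ⟨hzG, exists_FK H hbG hzG (by omega) z2 z3 ?_⟩
      intro y hy hmy hs' hw'
      exact hz2 x hx1 y (Finset.mem_filter.2 ⟨hy, hmy.trans z1, hs', hw'⟩)
    choose! hcG m hm1 hm2 using hfk
    refine Finset.card_le_card_of_injOn m hm1 ?_
    intro c hc c' hc' heq
    exact FK_inj H (hcG c hc) (hcG c' hc') (hm2 c hc) (heq ▸ hm2 c' hc')
  have h3 := Finset.card_filter_add_card_filter_not (s := Ret G s mu) (fun x => R ≤ (U x).card)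
  have h4 := Finset.card_filter_add_card_filter_not (s := N) (fun x => (E x).Nonempty)
  have h5 : N.card ≤ 2 * R * (G.image mu).card := by
    calc N.card ≤ R * (G.image mu).card + R * (G.image mu).card := by omega
      _ = 2 * R * (G.image mu).card := by ring
  calc R * (Ret G s mu).card
      = R * ((Ret G s mu).filter (fun x => R ≤ (U x).card)).card + R * N.card := by
        rw [← h3]
        ring
    _ ≤ T.card + R * (2 * R * (G.image mu).card) := add_le_add hbig (Nat.mul_le_mul_left R h5)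
    _ = T.card + 2 * R ^ 2 * (G.image mu).card := by ring

/-- **The group lemma.** -/
theorem grp_lemma (H : GrpH G s mu g w sy T) (R : ℕ) :
    R * (Chg G s mu sy).card ≤ 7 * R ^ 2 * (G.image sy).card + 2 * T.card := by
  have h1 := chg_le_ret H
  have h2 := ret_le H R
  have h3 := mus_le H
  have h4 : R ≤ R ^ 2 := by
    rcases Nat.eq_zero_or_pos R with h | h
    · simp [h]
    · nlinarith
  calc R * (Chg G s mu sy).card ≤ R * (3 * (G.image sy).card + 2 * (Ret G s mu).card) :=
        Nat.mul_le_mul_left R h1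
    _ = 3 * (R * (G.image sy).card) + 2 * (R * (Ret G s mu).card) := by ring
    _ ≤ 3 * (R ^ 2 * (G.image sy).card) + 2 * (T.card + 2 * R ^ 2 * (G.image mu).card) :=
        add_le_add (Nat.mul_le_mul_left 3 (Nat.mul_le_mul_right _ h4)) (Nat.mul_le_mul_left 2 h2)
    _ ≤ 3 * (R ^ 2 * (G.image sy).card) + 2 * (T.card + 2 * R ^ 2 * (G.image sy).card) :=
        add_le_add le_rfl (Nat.mul_le_mul_left 2 (add_le_add le_rfl (Nat.mul_le_mul_left _ h3)))
    _ = 7 * R ^ 2 * (G.image sy).card + 2 * T.card := by ring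

end

end Pool.Agent.SplGd
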