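import Pool.Agent.SplGd.ELoc

import Pool.Agent.SplGd.Grp

set_option autoImplicit false

/-! # Bad elements: the counts of one level -/

namespace Pool.Agent.SplGd

open Pool.Agent.SplLog Pool.Agent.SplLs Pool.Agent.SplTr Pool.Agent.SplPat

open scoped Classical

variable {S : Sys} {e f b y : ℕ × ℕ} {c c' u x D K : ℕ}

theorem mem_els : e ∈ els S ↔ Eb S e := by
  unfold els
  rw [Sys.mem_set]
  constructor
  · exact fun h => h.2.2
  · intro h
    have := h.facts
    exact ⟨by omega, this.2.2.2.2.2.1, h⟩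

theorem mem_elc : e ∈ elc S c ↔ Eb S e ∧ c ≤ lv S e := by
  unfold elc
  rw [Finset.mem_filter, mem_els]

private theorem ma_mu (he : e ∈ elc S c) (hc : 1 ≤ c) :
    mu S e = 2 ^ (c - 1) * (bk S c e + 1) := by
  have h1 := (mem_elc.1 he).2
  have h2 : 2 ^ (c - 1) ∣ mu S e := by
    apply Dvd.dvd.trans _ (Dvd.intro_left _ rfl : 2 ^ sc S e ∣ mu S e)
    apply Nat.pow_dvd_pow
    unfold sc
    omega
  have h3 : 0 < mu S e := by
    unfold mu
    positivity
  obtain ⟨k, hk⟩ := h2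
  have h4 : 0 < k := by
    rcases Nat.eq_zero_or_pos k with h | h
    · subst h
      omega
    · exact h
  have hP : 0 < 2 ^ (c - 1) := by positivity
  unfold bk
  rw [hk, Nat.mul_div_cancel_left _ hP]
  congr 1
  omega

/-- MODULE ma (M). Two elements of one group over different positions: the region between the positions
is idle in the window (`mu` is a multiple of `2 ^ (c - 1)`; a request in `[mu e, mu f)` lies in a block `b'`
with `bk e < b' ≤ bk f`, so `f` is not over an active block [else `e` would be in the group of this block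
only], `b' < bk f`, `lab .. (bk f) ≥ b' + 1 > bk e ≥ lab .. (bk e)`). -/
theorem gid_idle (he : e ∈ elc S c) (hf : f ∈ elc S c) (hc : 1 ≤ c) (h : gid S c e = gid S c f)
    (h1 : mu S e < mu S f) : om c e = om c f ∧
      ∀ u, u < S.m → u / 2 ^ (c - 1) = om c e → ¬ (mu S e ≤ S.X u ∧ S.X u < mu S f) := by
  have m1 := ma_mu he hc
  have m2 := ma_mu hf hc
  have hP : 0 < 2 ^ (c - 1) := by positivity
  rw [m1, m2] at h1
  have h2 : bk S c e + 1 < bk S c f + 1 := lt_of_mul_lt_mul_left h1 (Nat.zero_le _)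
  unfold gid at h
  have h3 : (om c f, bk S c f) ∉ cells (2 ^ (c - 1)) S.m S.X ∧ om c e = om c f ∧
      lab S c (om c e) (bk S c e) = lab S c (om c f) (bk S c f) := by
    split_ifs at h with a1 a2 a2
    · simp only [Prod.mk.injEq] at h
      omega
    · simp at h
    · simp at h
    · simp only [Prod.mk.injEq] at h
      exact ⟨a2, h.1, h.2.2⟩
  refine ⟨h3.2.1, ?_⟩
  rintro u hu hw ⟨h4, h5⟩
  rw [m1] at h4
  rw [m2] at h5
  have h6 : bk S c e + 1 ≤ S.X u / 2 ^ (c - 1) := by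
    rw [Nat.le_div_iff_mul_le hP, Nat.mul_comm]
    exact h4
  have h7 : S.X u / 2 ^ (c - 1) < bk S c f + 1 := by
    rw [Nat.div_lt_iff_lt_mul hP, Nat.mul_comm]
    exact h5
  have h8 : (om c f, S.X u / 2 ^ (c - 1)) ∈ cells (2 ^ (c - 1)) S.m S.X := by
    unfold cells
    rw [Finset.mem_image]
    refine ⟨u, Finset.mem_range.2 hu, ?_⟩
    rw [hw, h3.2.1]
  have h9 : S.X u / 2 ^ (c - 1) ≠ bk S c f := by
    intro h10
    rw [h10] at h8
    exact h3.1 h8
  have h10 : S.X u / 2 ^ (c - 1) + 1 ≤ lab S c (om c f) (bk S c f) := by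
    unfold lab
    exact Finset.le_sup (f := fun b => b + 1)
      (Finset.mem_filter.2 ⟨Finset.mem_range.2 (by omega), h8⟩)
  have h11 : lab S c (om c e) (bk S c e) ≤ bk S c e := by
    unfold lab
    apply Finset.sup_le
    intro b hb
    have := Finset.mem_range.1 (Finset.mem_filter.1 hb).1
    exact this
  omega

/-- MODULE mb (S). The position and the window determine the group, so the symbol and the window do. -/
theorem gid_of_mu (h : om c e = om c f) (h1 : mu S e = mu S f) : gid S c e = gid S c f := by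
  have h2 : bk S c e = bk S c f := by unfold bk; rw [h1]
  unfold gid
  rw [h, h2]

theorem gid_om (h : gid S c e = gid S c f) : om c e = om c f := by
  have key : ∀ x : ℕ × ℕ, (gid S c x).1 = om c x := by
    intro x
    unfold gid
    split_ifs <;> rfl
  rw [← key e, ← key f, h]

/-- The elements of one group. -/
noncomputable def grp (S : Sys) (c : ℕ) (γ : ℕ × ℕ × ℕ) : Finset (ℕ × ℕ) :=
  (elc S c).filter (fun e => gid S c e = γ)

/-- The touches of the victims of one group in its window. -/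
noncomputable def tgr (S : Sys) (c : ℕ) (γ : ℕ × ℕ × ℕ) : Finset (ℕ × ℕ) :=
  (S.set (fun t v => S.E t v)).filter (fun p => p.1 / 2 ^ (c - 1) = γ.1 ∧
    ∃ e ∈ grp S c γ, e.2 = p.2)

private theorem mc_om {γ : ℕ × ℕ × ℕ} (h : gid S c e = γ) : γ.1 = om c e := by
  rw [← h]
  unfold gid
  split_ifs <;> rfl

private theorem mc_grp {γ : ℕ × ℕ × ℕ} (h : e ∈ grp S c γ) : e ∈ elc S c ∧ Eb S e ∧ c ≤ lv S e ∧
    γ.1 = om c e ∧ gid S c e = γ := by
  unfold grp at h
  rw [Finset.mem_filter] at h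
  have h1 := mem_elc.1 h.1
  exact ⟨h.1, h1.1, h1.2, mc_om h.2, h.2⟩

private theorem mc_win {γ : ℕ × ℕ × ℕ} (hc : 1 ≤ c) (h : e ∈ grp S c γ) (h' : f ∈ grp S c γ) :
    f.1 < re S e := by
  obtain ⟨_, a1, a2, a3, _⟩ := mc_grp h
  obtain ⟨_, b1, b2, b3, _⟩ := mc_grp h'
  exact a1.window hc a2 (a3.symm.trans b3)

/-- MODULE mc (M). A group satisfies the hypotheses of the group lemma. `h3`: two elements with
the same victim in one window: the first is frozen at the second (`Eb.window`, `Eb.frozen`), the same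
request: equal pairs. `h4`: `Eb.pair` with `gid_idle` and `Eb.window` (`(u, y.2) ∈ tgr`: `e.1 ≤ u ≤ b.1` are in
the window). `h5`, `h9`: `Eb.dead`. `h10`: `Eb.engulf`. `h8`: `Eb.convex`. `h1`: `Eb.ext_mu`. -/
theorem grp_Grp (hc : 1 ≤ c) (γ : ℕ × ℕ × ℕ) :
    GrpH (grp S c γ) (fun e => e.1) (mu S) (fun e => e.2) (we S) (sy S) (tgr S c γ) where
  h1 := fun x hx y hy h1 h2 => Eb.ext_mu (mc_grp hx).2.1 (mc_grp hy).2.1 h1 h2
  h3 := by
    intro x hx y hy h
    have ex := (mc_grp hx).2.1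
    have ey := (mc_grp hy).2.1
    have h : x.2 = y.2 := h
    rcases lt_trichotomy x.1 y.1 with h1 | h1 | h1
    · exfalso
      have h2 := mc_win hc hx hy
      apply (ex.frozen h1 h2.le).2.2 h2
      rw [h]
      exact ey.facts.2.2.2.2.2.2.2.2
    · exact Prod.ext h1 h
    · exfalso
      have h2 := mc_win hc hy hx
      apply (ey.frozen h1 h2.le).2.2 h2
      rw [← h]
      exact ex.facts.2.2.2.2.2.2.2.2
  h4 := by
    intro x hx b hb y hy h1 h2 h3 h4
    have h3 : x.1 ≤ b.1 := h3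
    have h4 : b.1 < y.1 := h4
    obtain ⟨cx, ex, lx, ox, gx⟩ := mc_grp hx
    obtain ⟨cb, eb, lb, ob, gb⟩ := mc_grp hb
    obtain ⟨cy, ey, ly, oy, gy⟩ := mc_grp hy
    have hid := (gid_idle cx cb hc (gx.trans gb.symm) h2).2
    have hym : y.1 < S.m := by
      have := ey.facts
      omega
    have hw : ∀ u, x.1 ≤ u → u ≤ y.1 → u / 2 ^ (c - 1) = om c x := by
      intro u a1 a2
      have a3 : x.1 / 2 ^ (c - 1) ≤ u / 2 ^ (c - 1) := Nat.div_le_div_right a1
      have a4 : u / 2 ^ (c - 1) ≤ y.1 / 2 ^ (c - 1) := Nat.div_le_div_right a2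
      unfold om at ox oy ⊢
      omega
    rcases Eb.pair ex eb ey h3 h4 (mc_win hc hx hy) (mc_win hc hb hy) h1 h2
      (fun u a1 a2 => hid u (by omega) (hw u a1 a2)) with h5 | ⟨u, a1, a2, a3⟩
    · exact Or.inl h5
    · right
      refine ⟨u, a1, a2, ?_⟩
      unfold tgr
      rw [Finset.mem_filter, Sys.mem_set]
      refine ⟨⟨by show u < S.m; omega, ey.facts.2.2.2.2.2.1, a3⟩, ?_, y, hy, rfl⟩
      show u / 2 ^ (c - 1) = γ.1
      rw [hw u a1 (by omega), ox]
  h5 := fun x hx y hy h1 h2 h3 => Eb.dead (mc_grp hx).2.1 (mc_grp hy).2.1 (Or.inl h1)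
    (mc_win hc hx hy) h2 h3
  h6 := fun x hx => ⟨(mc_grp hx).2.1.mu_facts.2.2.1, (mc_grp hx).2.1.facts.2.2.2.2.1⟩
  h7 := fun x _ y _ h => Eb.sy_mu h
  h8 := fun x hx y hy z hz h1 h2 h3 h4 h5 => Eb.convex (mc_grp hx).2.1 (mc_grp hy).2.1
    (mc_grp hz).2.1 h3 h4 (mc_win hc hx hz) (mc_win hc hy hz) h1 h2 h5
  h9 := by
    intro x hx y hy h1 h2
    by_contra h3
    exact Eb.dead (mc_grp hx).2.1 (mc_grp hy).2.1 (Or.inr ⟨h1, h2⟩) (mc_win hc hx hy) h2
      (not_lt.1 h3)
  h10 := fun x hx y hy h1 h2 h3 => Eb.engulf (mc_grp hx).2.1 (mc_grp hy).2.1 h1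
    (mc_win hc hx hy) h2 h3

private theorem md_fst (S : Sys) (c : ℕ) (x : ℕ × ℕ) : (gid S c x).1 = om c x := by
  unfold gid
  split_ifs <;> rfl

private theorem md_uniq (hc : 1 ≤ c) (he : e ∈ elc S c) (hf : f ∈ elc S c) (h : om c e = om c f)
    (h2 : e.2 = f.2) : e = f := by
  have key : ∀ {x y : ℕ × ℕ}, x ∈ elc S c → y ∈ elc S c → om c x = om c y → x.2 = y.2 → ¬ x.1 < y.1 := by
    intro x y hx hy h h2 h3
    obtain ⟨hx1, hx2⟩ := mem_elc.1 hx
    obtain ⟨hy1, _⟩ := mem_elc.1 hy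
    have h4 := hx1.window hc hx2 h
    have h5 := (hx1.frozen h3 h4.le).2.2 h4
    rw [h2] at h5
    exact h5 hy1.facts.2.2.2.2.2.2.2.2
  have h3 := key he hf h h2
  have h4 := key hf he h.symm h2.symm
  exact Prod.ext (by omega) h2

/-- MODULE md (M). The sets `tgr` of different groups are disjoint: same window, a common victim would be
in both groups (`Eb.window`, `Eb.frozen`: one element per victim and window). Sum over the finitely many
values of `gid`. -/
theorem sum_tgr (hc : 1 ≤ c) :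
    ∑ γ ∈ (elc S c).image (gid S c), (tgr S c γ).card ≤ S.cnt (fun t v => S.E t v) := by
  unfold Sys.cnt
  rw [← Finset.card_biUnion]
  · refine Finset.card_le_card fun p hp => ?_
    rw [Finset.mem_biUnion] at hp
    obtain ⟨γ, _, hp⟩ := hp
    exact (Finset.mem_filter.1 hp).1
  · intro γ _ γ' _ hne
    refine Finset.disjoint_left.2 ?_
    intro p hp hp'
    apply hne
    obtain ⟨_, h1, e, he, h2⟩ := Finset.mem_filter.1 hp
    obtain ⟨_, h1', e', he', h2'⟩ := Finset.mem_filter.1 hp'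
    obtain ⟨he1, he2⟩ := Finset.mem_filter.1 he
    obtain ⟨he1', he2'⟩ := Finset.mem_filter.1 he'
    have hw : om c e = om c e' := by
      rw [← md_fst S c e, ← md_fst S c e', he2, he2', ← h1, ← h1']
    have := md_uniq hc he1 he1' hw (h2.trans h2'.symm)
    rw [← he2, ← he2', this]

private theorem me_chg {ι σ : Type*} {G : Finset ι} {s mu : ι → ℕ} {sy : ι → σ} {a : ι} :
    a ∈ Chg G s mu sy ↔ a ∈ G ∧ ∃ b ∈ G, GLt s mu b a ∧ sy b ≠ sy a ∧
      ∀ z ∈ G, ¬ (GLt s mu b z ∧ GLt s mu z a) := by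
  unfold Chg
  rw [Finset.mem_filter]

/-- MODULE me (S). Sum of `grp_lemma` over the groups: the changes of `chs` are the changes `Chg` of the
groups, and the numbers of symbols of the groups add up to `(ssy S c).card` (`Eb.sy_mu`, `gid_of_mu`:
window and symbol determine the group). -/
theorem X_le (hc : 1 ≤ c) (R : ℕ) : R * (chs S c).card ≤
    7 * R ^ 2 * (ssy S c).card + 2 * S.cnt (fun t v => S.E t v) := by
  have h1 : (chs S c).card = ∑ γ ∈ (elc S c).image (gid S c), ((chs S c).filter (fun e => gid S c e = γ)).card :=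
    Finset.card_eq_sum_card_fiberwise fun e he => by
      have := (Finset.mem_filter.1 he).1
      exact Finset.mem_coe.2 (Finset.mem_image_of_mem _ this)
  have h2 : ∀ γ, (chs S c).filter (fun e => gid S c e = γ) ⊆ Chg (grp S c γ) (fun e => e.1) (mu S) (sy S) := by
    intro γ y hy
    obtain ⟨hy1, hy2⟩ := Finset.mem_filter.1 hy
    obtain ⟨hy3, x, hx, hx1, hx2, hx3, hx4⟩ := Finset.mem_filter.1 hy1
    refine me_chg.2 ⟨Finset.mem_filter.2 ⟨hy3, hy2⟩, x, Finset.mem_filter.2 ⟨hx, hx1.trans hy2⟩, hx2, hx4, ?_⟩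
    intro z hz hz1
    obtain ⟨hz2, hz3⟩ := Finset.mem_filter.1 hz
    exact hx3 z hz2 (hz3.trans hy2.symm) hz1
  have h3 : ∑ γ ∈ (elc S c).image (gid S c), ((grp S c γ).image (sy S)).card ≤ (ssy S c).card := by
    have h4 : ∀ γ, ((grp S c γ).image (sy S)).card ≤ ((grp S c γ).image (fun e => (om c e, sy S e))).card := by
      intro γ
      have h5 : (grp S c γ).image (sy S) = ((grp S c γ).image (fun e => (om c e, sy S e))).image Prod.snd := by
        rw [Finset.image_image]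
        rfl
      rw [h5]
      exact Finset.card_image_le
    refine (Finset.sum_le_sum fun γ _ => h4 γ).trans ?_
    rw [← Finset.card_biUnion]
    · refine Finset.card_le_card fun p hp => ?_
      rw [Finset.mem_biUnion] at hp
      obtain ⟨γ, _, hp⟩ := hp
      obtain ⟨e, he, hp⟩ := Finset.mem_image.1 hp
      exact Finset.mem_image.2 ⟨e, (Finset.mem_filter.1 he).1, hp⟩
    · intro γ _ γ' _ hne
      refine Finset.disjoint_left.2 ?_
      intro p hp hp'
      apply hne
      obtain ⟨e, he, h6⟩ := Finset.mem_image.1 hp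
      obtain ⟨e', he', h6'⟩ := Finset.mem_image.1 hp'
      obtain ⟨_, he2⟩ := Finset.mem_filter.1 he
      obtain ⟨_, he2'⟩ := Finset.mem_filter.1 he'
      have h7 := h6.trans h6'.symm
      have h8 : om c e = om c e' := congrArg Prod.fst h7
      have h9 : sy S e = sy S e' := congrArg Prod.snd h7
      rw [← he2, ← he2']
      exact gid_of_mu h8 (Eb.sy_mu h9)
  have h10 := sum_tgr (S := S) hc
  have h11 : ∀ γ, R * (Chg (grp S c γ) (fun e => e.1) (mu S) (sy S)).card ≤
      7 * R ^ 2 * ((grp S c γ).image (sy S)).card + 2 * (tgr S c γ).card := by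
    intro γ
    have h12 := grp_lemma (grp_Grp (S := S) hc γ) R
    have h13 : @Finset.image _ _ (fun a b => Classical.propDecidable (a = b)) (sy S) (grp S c γ) =
        (grp S c γ).image (sy S) := by
      ext x
      simp only [Finset.mem_image]
    rw [h13] at h12
    exact h12
  calc R * (chs S c).card = ∑ γ ∈ (elc S c).image (gid S c), R * ((chs S c).filter (fun e => gid S c e = γ)).card := by
        rw [h1, Finset.mul_sum]
    _ ≤ ∑ γ ∈ (elc S c).image (gid S c), (7 * R ^ 2 * ((grp S c γ).image (sy S)).card + 2 * (tgr S c γ).card) :=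
        Finset.sum_le_sum fun γ _ => (Nat.mul_le_mul_left R (Finset.card_le_card (h2 γ))).trans (h11 γ)
    _ = 7 * R ^ 2 * ∑ γ ∈ (elc S c).image (gid S c), ((grp S c γ).image (sy S)).card +
          2 * ∑ γ ∈ (elc S c).image (gid S c), (tgr S c γ).card := by
        rw [Finset.sum_add_distrib, Finset.mul_sum, Finset.mul_sum]
    _ ≤ 7 * R ^ 2 * (ssy S c).card + 2 * S.cnt (fun t v => S.E t v) :=
        add_le_add (Nat.mul_le_mul_left _ h3) (Nat.mul_le_mul_left 2 h10)

private theorem mf_bd (hc : 1 ≤ c) {j : ℕ} (hj : c ≤ j) (he : e ∈ (els S).filter (fun e => lv S e = j)) :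
    lv S e = j ∧ (re S e / 2 ^ (j - 1), ze S e / 2 ^ (j - 1)) ∈ cells (2 ^ (j - 1)) S.m S.X ∧
      re S e / 2 ^ (j - 1) * 2 ^ (j - c) ≤ om c e + 4 * 2 ^ (j - c) ∧
      om c e + 4 * 2 ^ (j - c) < re S e / 2 ^ (j - 1) * 2 ^ (j - c) + 3 * 2 ^ (j - c) := by
  obtain ⟨h1, h2⟩ := Finset.mem_filter.1 he
  have h3 := mem_els.1 h1
  have h4 := h3.facts
  have h5 := h3.mu_facts
  rw [h2] at h5
  have hj1 : 2 ^ j = 2 * 2 ^ (j - 1) := by
    rw [← pow_succ']
    congr 1
    omega
  have hj2 : 2 ^ (j + 1) = 4 * 2 ^ (j - 1) := by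
    rw [pow_succ, hj1]
    ring
  have hq : 2 ^ (j - 1) = 2 ^ (j - c) * 2 ^ (c - 1) := by
    rw [← pow_add]
    congr 1
    omega
  have hB : 0 < 2 ^ (c - 1) := by positivity
  have hA : 0 < 2 ^ (j - 1) := by positivity
  have r1 : re S e / 2 ^ (j - 1) * 2 ^ (j - 1) ≤ re S e := Nat.div_mul_le_self _ _
  have r2 : re S e < (re S e / 2 ^ (j - 1) + 1) * 2 ^ (j - 1) := by
    rw [mul_comm]
    exact Nat.lt_mul_div_succ _ hA
  set a := re S e / 2 ^ (j - 1) with ha
  set A := 2 ^ (j - 1) with hAdef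
  refine ⟨h2, ?_, ?_, ?_⟩
  · exact Finset.mem_image.2 ⟨re S e, Finset.mem_range.2 h4.2.1, rfl⟩
  · -- e.1 + 4 A ≥ a A
    have w1 : a * A ≤ e.1 + 4 * A := by omega
    have w2 : a * 2 ^ (j - c) ≤ (e.1 + 4 * A) / 2 ^ (c - 1) := by
      rw [Nat.le_div_iff_mul_le hB]
      calc a * 2 ^ (j - c) * 2 ^ (c - 1) = a * A := by rw [hq]; ring
        _ ≤ _ := w1
    have w3 : (e.1 + 4 * A) / 2 ^ (c - 1) = om c e + 4 * 2 ^ (j - c) := by
      have : 4 * A = (4 * 2 ^ (j - c)) * 2 ^ (c - 1) := by rw [hq]; ring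
      rw [this, Nat.add_mul_div_right _ _ hB]
      rfl
    rw [← w3]
    exact w2
  · have w1 : e.1 + 4 * A < (a + 3) * A := by
      have : (a + 3) * A = (a + 1) * A + 2 * A := by ring
      omega
    have w2 : (e.1 + 4 * A) / 2 ^ (c - 1) < (a + 3) * 2 ^ (j - c) := by
      rw [Nat.div_lt_iff_lt_mul hB]
      calc e.1 + 4 * A < (a + 3) * A := w1
        _ = (a + 3) * 2 ^ (j - c) * 2 ^ (c - 1) := by rw [hq]; ring
    have w3 : (e.1 + 4 * A) / 2 ^ (c - 1) = om c e + 4 * 2 ^ (j - c) := by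
      have : 4 * A = (4 * 2 ^ (j - c)) * 2 ^ (c - 1) := by rw [hq]; ring
      rw [this, Nat.add_mul_div_right _ _ hB]
      rfl
    rw [← w3]
    calc _ < _ := w2
      _ = a * 2 ^ (j - c) + 3 * 2 ^ (j - c) := by ring

/-- MODULE mf (M). Symbols of one level `j ≥ c ≥ 1`: at most `(cells (2 ^ (j - 1))).card` symbols (the request
`re` is in the cell of scale `j - 1`), each in at most `3 * 2 ^ (j - c) + 2 ≤ 5 * 2 ^ (j - c)` windows (`e.1` is in
an interval of length `3 * 2 ^ (j - 1)` determined by `re / 2 ^ (j - 1)`). `2 ^ j ≤ re - e.1 < m`. -/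
theorem level_sy (hD : GrB K S D) (hc : 1 ≤ c) {j w : ℕ} (hj : c ≤ j)
    (hw : j ≤ w + ((j - 1) / 2 + (j - 1) / (2 * K))) :
    2 ^ c * (((els S).filter (fun e => lv S e = j)).image (fun e => (om c e, sy S e))).card ≤
      6 * (2 ^ w * D) := by
  rcases ((els S).filter (fun e => lv S e = j)).eq_empty_or_nonempty with h0 | ⟨e0, he0⟩
  · rw [h0]
    simp
  obtain ⟨h1, h2⟩ := Finset.mem_filter.1 he0
  have h3 := mem_els.1 h1
  have h4 := h3.facts
  have h5 := h3.mu_facts
  rw [h2] at h5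
  have hj1 : 2 ^ j = 2 * 2 ^ (j - 1) := by
    rw [← pow_succ']
    congr 1
    omega
  have h6 : 2 ^ (j - 1) ≤ S.m := by omega
  have h7 := hD (j - 1) h6
  have hq : 2 ^ (j - 1) = 2 ^ (j - c) * 2 ^ (c - 1) := by
    rw [← pow_add]
    congr 1
    omega
  have hA : 0 < 2 ^ (j - 1) := by positivity
  have hB : 0 < 2 ^ (c - 1) := by positivity
  have h8 : (((els S).filter (fun e => lv S e = j)).image (fun e => (om c e, sy S e))).card ≤
      (cells (2 ^ (j - 1)) S.m S.X ×ˢ Finset.range (3 * 2 ^ (j - c))).card := by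
    refine Finset.card_le_card_of_injOn
      (fun p => ((p.2.2.1, p.2.2.2), p.1 + 4 * 2 ^ (j - c) - p.2.2.1 * 2 ^ (j - c))) ?_ ?_
    · intro p hp
      obtain ⟨e, he, rfl⟩ := Finset.mem_image.1 (Finset.mem_coe.1 hp)
      obtain ⟨b1, b2, b3, b4⟩ := mf_bd hc hj he
      rw [Finset.mem_coe, Finset.mem_product]
      refine ⟨?_, ?_⟩
      · simp only [sy, sc, b1]
        exact b2
      · simp only [sy, sc, b1, Finset.mem_range]
        omega
    · intro p hp p' hp' hpp
      obtain ⟨e, he, rfl⟩ := Finset.mem_image.1 (Finset.mem_coe.1 hp)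
      obtain ⟨e', he', rfl⟩ := Finset.mem_image.1 (Finset.mem_coe.1 hp')
      obtain ⟨b1, _, b3, b4⟩ := mf_bd hc hj he
      obtain ⟨b1', _, b3', b4'⟩ := mf_bd hc hj he'
      simp only [sy, sc, b1, b1', Prod.mk.injEq] at hpp ⊢
      obtain ⟨⟨g1, g2⟩, g3⟩ := hpp
      rw [← g1] at g3 b3' b4'
      refine ⟨?_, trivial, g1, g2⟩
      omega
  rw [Finset.card_product, Finset.card_range] at h8
  calc 2 ^ c * (((els S).filter (fun e => lv S e = j)).image (fun e => (om c e, sy S e))).card ≤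
      2 ^ c * ((cells (2 ^ (j - 1)) S.m S.X).card * (3 * 2 ^ (j - c))) := Nat.mul_le_mul_left _ h8
    _ = 6 * (2 ^ (j - 1) * (cells (2 ^ (j - 1)) S.m S.X).card) := by
        have : 2 ^ c * 2 ^ (j - c) = 2 * 2 ^ (j - 1) := by
          rw [← pow_add, ← hj1]
          congr 1
          omega
        calc 2 ^ c * ((cells (2 ^ (j - 1)) S.m S.X).card * (3 * 2 ^ (j - c))) =
            (2 ^ c * 2 ^ (j - c)) * (3 * (cells (2 ^ (j - 1)) S.m S.X).card) := by ring
          _ = _ := by rw [this]; ring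
    _ ≤ 6 * (2 ^ w * D) := by
        apply Nat.mul_le_mul_left
        calc 2 ^ (j - 1) * (cells (2 ^ (j - 1)) S.m S.X).card
            ≤ 2 ^ w * 2 ^ ((j - 1) / 2 + (j - 1) / (2 * K)) *
                (cells (2 ^ (j - 1)) S.m S.X).card := by
              apply Nat.mul_le_mul_right
              rw [← pow_add]
              exact Nat.pow_le_pow_right (by norm_num) (by omega)
          _ = 2 ^ w * (2 ^ ((j - 1) / 2 + (j - 1) / (2 * K)) *
                (cells (2 ^ (j - 1)) S.m S.X).card) := by ring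
          _ ≤ 2 ^ w * D := Nat.mul_le_mul_left _ h7

/-- MODULE mg (S). Number of groups of level `c`: window and active block, or window and `lab` (`0`, or one
more than an active block): `≤ 2 * cells + windows`, and every window of an element has an active
block (the request `e.1`). -/
theorem card_gid (hD : GrB K S D) (hc : 1 ≤ c) {w : ℕ}
    (hw : c ≤ w + ((c - 1) / 2 + (c - 1) / (2 * K))) :
    2 ^ c * ((elc S c).image (gid S c)).card ≤ 6 * (2 ^ w * D) := by
  rcases (elc S c).eq_empty_or_nonempty with h0 | ⟨e₀, he₀⟩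
  · rw [h0]
    simp
  · have hm : 2 ^ (c - 1) ≤ S.m := by
      obtain ⟨h1, h2⟩ := mem_elc.1 he₀
      have h3 := h1.mu_facts.2.2.2.2.1
      have h4 := h1.facts.2.1
      have h5 : 2 ^ (c - 1) ≤ 2 ^ lv S e₀ := Nat.pow_le_pow_right (by norm_num) (by omega)
      omega
    have hC := hD (c - 1) hm
    have hsub : (elc S c).image (gid S c) ⊆
        ((cells (2 ^ (c - 1)) S.m S.X).image (fun p => (p.1, 1, p.2)) ∪
          (cells (2 ^ (c - 1)) S.m S.X).image (fun p => (p.1, 0, p.2 + 1))) ∪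
          (cells (2 ^ (c - 1)) S.m S.X).image (fun p => (p.1, 0, 0)) := by
      intro γ hγ
      obtain ⟨e, he, rfl⟩ := Finset.mem_image.1 hγ
      obtain ⟨h1, _⟩ := mem_elc.1 he
      have hw : (om c e, S.X e.1 / 2 ^ (c - 1)) ∈ cells (2 ^ (c - 1)) S.m S.X := by
        unfold cells om
        refine Finset.mem_image.2 ⟨e.1, Finset.mem_range.2 ?_, rfl⟩
        have := h1.facts
        omega
      rw [Finset.mem_union, Finset.mem_union]
      unfold gid
      split_ifs with h3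
      · exact Or.inl (Or.inl (Finset.mem_image.2 ⟨_, h3, rfl⟩))
      · by_cases h4 : ((Finset.range (bk S c e)).filter
            (fun b' => (om c e, b') ∈ cells (2 ^ (c - 1)) S.m S.X)).Nonempty
        · obtain ⟨b', hb', hb⟩ := Finset.exists_mem_eq_sup _ h4 (· + 1)
          refine Or.inl (Or.inr (Finset.mem_image.2 ⟨_, (Finset.mem_filter.1 hb').2, ?_⟩))
          unfold lab
          rw [hb]
        · refine Or.inr (Finset.mem_image.2 ⟨_, hw, ?_⟩)
          unfold lab
          rw [Finset.not_nonempty_iff_eq_empty.1 h4, Finset.sup_empty]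
          rfl
    have h1 : ((elc S c).image (gid S c)).card ≤ 3 * (cells (2 ^ (c - 1)) S.m S.X).card := by
      refine (Finset.card_le_card hsub).trans ((Finset.card_union_le _ _).trans ?_)
      have a1 := Finset.card_union_le
        ((cells (2 ^ (c - 1)) S.m S.X).image (fun p => (p.1, 1, p.2)))
        ((cells (2 ^ (c - 1)) S.m S.X).image (fun p => (p.1, 0, p.2 + 1)))
      have a2 : ((cells (2 ^ (c - 1)) S.m S.X).image (fun p => (p.1, 1, p.2))).card ≤
          (cells (2 ^ (c - 1)) S.m S.X).card := Finset.card_image_le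
      have a3 : ((cells (2 ^ (c - 1)) S.m S.X).image (fun p => (p.1, 0, p.2 + 1))).card ≤
          (cells (2 ^ (c - 1)) S.m S.X).card := Finset.card_image_le
      have a4 : ((cells (2 ^ (c - 1)) S.m S.X).image (fun p => (p.1, 0, 0))).card ≤
          (cells (2 ^ (c - 1)) S.m S.X).card := Finset.card_image_le
      omega
    have h2 : 2 ^ c = 2 * 2 ^ (c - 1) := by
      rw [← pow_succ']
      congr 1
      omega
    calc 2 ^ c * ((elc S c).image (gid S c)).card
        ≤ 2 ^ c * (3 * (cells (2 ^ (c - 1)) S.m S.X).card) := Nat.mul_le_mul_left _ h1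
      _ = 6 * (2 ^ (c - 1) * (cells (2 ^ (c - 1)) S.m S.X).card) := by rw [h2]; ring
      _ ≤ 6 * (2 ^ w * D) := by
        apply Nat.mul_le_mul_left
        calc 2 ^ (c - 1) * (cells (2 ^ (c - 1)) S.m S.X).card
            ≤ 2 ^ w * 2 ^ ((c - 1) / 2 + (c - 1) / (2 * K)) *
                (cells (2 ^ (c - 1)) S.m S.X).card := by
              apply Nat.mul_le_mul_right
              rw [← pow_add]
              exact Nat.pow_le_pow_right (by norm_num) (by omega)
          _ = 2 ^ w * (2 ^ ((c - 1) / 2 + (c - 1) / (2 * K)) *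
                (cells (2 ^ (c - 1)) S.m S.X).card) := by ring
          _ ≤ 2 ^ w * D := Nat.mul_le_mul_left _ hC

private theorem mh_om (hc : 1 ≤ c) (hcc : c ≤ c') (e : ℕ × ℕ) :
    om c' e * 2 ^ (c' - c) ≤ om c e ∧ om c e < om c' e * 2 ^ (c' - c) + 2 ^ (c' - c) := by
  have hB : 0 < 2 ^ (c - 1) := by positivity
  have hq : 2 ^ (c' - 1) = 2 ^ (c - 1) * 2 ^ (c' - c) := by
    rw [← pow_add]
    congr 1
    omega
  have h1 : om c' e = om c e / 2 ^ (c' - c) := by
    unfold om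
    rw [hq, Nat.div_div_eq_div_mul]
  have hC : 0 < 2 ^ (c' - c) := by positivity
  rw [h1]
  refine ⟨Nat.div_mul_le_self _ _, ?_⟩
  have := Nat.lt_mul_div_succ (om c e) hC
  calc om c e < 2 ^ (c' - c) * (om c e / 2 ^ (c' - c) + 1) := this
    _ = _ := by ring

private theorem mh_tri (he : Eb S e) (hf : Eb S f) : Lt S e f ∨ e = f ∨ Lt S f e := by
  rcases lt_trichotomy e.1 f.1 with h | h | h
  · exact Or.inl (Or.inl h)
  · rcases lt_trichotomy (mu S e) (mu S f) with h' | h' | h'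
    · exact Or.inl (Or.inr ⟨h, h'⟩)
    · exact Or.inr (Or.inl (he.ext_mu hf h h'))
    · exact Or.inr (Or.inr (Or.inr ⟨h.symm, h'⟩))
  · exact Or.inr (Or.inr (Or.inl h))

private theorem mh_first (he : e ∈ elc S c') (hf : f ∈ elc S c') (h1 : gid S c' f = gid S c' e)
    (h2 : om c f = om c e) (h3 : Lt S f e)
    (hmin : ∀ z, z ∈ elc S c' → om c z = om c e → sy S z = sy S e → e.1 ≤ z.1) : e ∈ chs S c' := by
  -- the predecessor of `e` in the group
  obtain ⟨x, hx, hmax⟩ := ((elc S c').filter (fun z => gid S c' z = gid S c' e ∧ Lt S z e)).exists_max_image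
    (fun z => toLex (z.1, mu S z)) ⟨f, Finset.mem_filter.2 ⟨hf, h1, h3⟩⟩
  obtain ⟨hx1, hx2, hx3⟩ := Finset.mem_filter.1 hx
  have hle : ∀ z ∈ elc S c', gid S c' z = gid S c' e → Lt S z e → ¬ Lt S x z := by
    intro z hz hz1 hz2 hz3
    have h4 := hmax z (Finset.mem_filter.2 ⟨hz, hz1, hz2⟩)
    rw [Prod.Lex.le_iff] at h4
    rcases hz3 with h5 | ⟨h5, h6⟩ <;> rcases h4 with h7 | ⟨h7, h8⟩ <;>
      simp only [ofLex_toLex] at * <;> omega
  have hfx : f.1 ≤ x.1 := by
    by_contra hlt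
    exact hle f hf h1 h3 (Or.inl (by omega))
  have hxe : x.1 ≤ e.1 := by
    rcases hx3 with h | h
    · exact h.le
    · exact h.1.le
  have hom : om c x = om c e := by
    apply le_antisymm
    · exact Nat.div_le_div_right hxe
    · rw [← h2]
      exact Nat.div_le_div_right hfx
  unfold chs
  rw [Finset.mem_filter]
  refine ⟨he, x, hx1, hx2, hx3, ?_, ?_⟩
  · intro z hz hz1 hz2
    exact hle z hz hz1 hz2.2 hz2.1
  · intro hs
    have h4 := hmin x hx1 hom hs
    rcases hx3 with h5 | ⟨h5, h6⟩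
    · omega
    · rw [Eb.sy_mu hs] at h6
      exact lt_irrefl _ h6

/-- MODULE mh (M). The pairs (window of scale `c - 1`, symbol of level `≥ c'`), `c ≤ c'`: the first element
of the pair (order `Lt`) is a change of level `c'`, or the first element of its window of scale `c - 1`
in its group of level `c'`; a group of level `c'` meets at most `2 ^ (c' - c)` windows of scale `c - 1`. -/
theorem high_sy (hD : GrB K S D) (hc : 1 ≤ c) (hcc : c ≤ c') {w : ℕ}
    (hw : c' ≤ w + ((c' - 1) / 2 + (c' - 1) / (2 * K))) :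
    2 ^ c * ((elc S c').image (fun e => (om c e, sy S e))).card ≤
      6 * (2 ^ w * D) + 2 ^ c * (chs S c').card := by
  have hfirst : ∀ p : ℕ × ℕ × ℕ × ℕ, p ∈ (elc S c').image (fun e => (om c e, sy S e)) →
      ∃ e, e ∈ elc S c' ∧ (om c e, sy S e) = p ∧
        ∀ z, z ∈ elc S c' → (om c z, sy S z) = p → e.1 ≤ z.1 := by
    intro p hp
    obtain ⟨e0, he0, hp0⟩ := Finset.mem_image.1 hp
    obtain ⟨e, he, hmin⟩ := ((elc S c').filter (fun e => (om c e, sy S e) = p)).exists_min_image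
      (fun e => e.1) ⟨e0, Finset.mem_filter.2 ⟨he0, hp0⟩⟩
    obtain ⟨he1, he2⟩ := Finset.mem_filter.1 he
    exact ⟨e, he1, he2, fun z hz hz2 => hmin z (Finset.mem_filter.2 ⟨hz, hz2⟩)⟩
  choose! φ hφ1 hφ2 hφ3 using hfirst
  set Pt := (elc S c').image (fun e => (om c e, sy S e)) with hPt
  have hinjφ : ∀ p ∈ Pt, ∀ p' ∈ Pt, φ p = φ p' → p = p' := by
    intro p hp p' hp' h
    rw [← hφ2 p hp, ← hφ2 p' hp', h]
  have hA : (Pt.filter (fun p => φ p ∈ chs S c')).card ≤ (chs S c').card := by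
    refine Finset.card_le_card_of_injOn φ ?_ ?_
    · intro p hp
      exact (Finset.mem_filter.1 (Finset.mem_coe.1 hp)).2
    · intro p hp p' hp' h
      exact hinjφ p (Finset.mem_filter.1 (Finset.mem_coe.1 hp)).1 p' (Finset.mem_filter.1 (Finset.mem_coe.1 hp')).1 h
  have hB : (Pt.filter (fun p => φ p ∉ chs S c')).card ≤
      ((elc S c').image (gid S c') ×ˢ Finset.range (2 ^ (c' - c))).card := by
    refine Finset.card_le_card_of_injOn
      (fun p => (gid S c' (φ p), om c (φ p) - om c' (φ p) * 2 ^ (c' - c))) ?_ ?_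
    · intro p hp
      obtain ⟨hp1, hp2⟩ := Finset.mem_filter.1 (Finset.mem_coe.1 hp)
      rw [Finset.mem_coe, Finset.mem_product]
      refine ⟨Finset.mem_image_of_mem _ (hφ1 p hp1), ?_⟩
      have := mh_om hc hcc (φ p)
      rw [Finset.mem_range]
      dsimp only
      omega
    · intro p hp p' hp' h
      obtain ⟨hp1, hp2⟩ := Finset.mem_filter.1 (Finset.mem_coe.1 hp)
      obtain ⟨hp1', hp2'⟩ := Finset.mem_filter.1 (Finset.mem_coe.1 hp')
      simp only [Prod.mk.injEq] at h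
      obtain ⟨g1, g2⟩ := h
      have g3 := gid_om g1
      have w1 := mh_om hc hcc (φ p)
      have w2 := mh_om hc hcc (φ p')
      rw [← g3] at w2 g2
      have g4 : om c (φ p) = om c (φ p') := by omega
      apply hinjφ p hp1 p' hp1'
      by_contra hne
      have key : ∀ p p' : ℕ × ℕ × ℕ × ℕ, p ∈ Pt → p' ∈ Pt → φ p ∉ chs S c' → gid S c' (φ p) = gid S c' (φ p') →
          om c (φ p) = om c (φ p') → ¬ Lt S (φ p') (φ p) := by
        intro p p' hp hp' hn h1 h2 h3
        exact hn (mh_first (hφ1 p hp) (hφ1 p' hp') h1.symm h2.symm h3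
          (fun z hz hz1 hz2 => hφ3 p hp z hz (by rw [hz1, hz2]; exact hφ2 p hp)))
      rcases mh_tri (mem_elc.1 (hφ1 p hp1)).1 (mem_elc.1 (hφ1 p' hp1')).1 with h5 | h5 | h5
      · exact key p' p hp1' hp1 hp2' g1.symm g4.symm h5
      · exact hne h5
      · exact key p p' hp1 hp1' hp2 g1 g4 h5
  rw [Finset.card_product, Finset.card_range] at hB
  have hcg := card_gid (S := S) (c := c') hD (hc.trans hcc) hw
  have hsum : Pt.card = (Pt.filter (fun p => φ p ∈ chs S c')).card + (Pt.filter (fun p => φ p ∉ chs S c')).card :=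
    (Finset.card_filter_add_card_filter_not _).symm
  have h2c : 2 ^ c * 2 ^ (c' - c) = 2 ^ c' := by
    rw [← pow_add]
    congr 1
    omega
  calc 2 ^ c * Pt.card ≤ 2 ^ c * ((chs S c').card + ((elc S c').image (gid S c')).card * 2 ^ (c' - c)) :=
        Nat.mul_le_mul_left _ (by omega)
    _ = (2 ^ c * 2 ^ (c' - c)) * ((elc S c').image (gid S c')).card + 2 ^ c * (chs S c').card := by ring
    _ = 2 ^ c' * ((elc S c').image (gid S c')).card + 2 ^ c * (chs S c').card := by rw [h2c]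
    _ ≤ 6 * (2 ^ w * D) + 2 ^ c * (chs S c').card := Nat.add_le_add_right hcg _

/-- MODULE mi (S). `ssy S c` is the union of the symbols of the levels `c ≤ j < c'` and of `elc S c'`. -/
theorem S_le (hD : GrB K S D) (hc : 1 ≤ c) (hcc : c ≤ c') {w : ℕ}
    (hw : ∀ j, j ≤ c' → j ≤ w + ((j - 1) / 2 + (j - 1) / (2 * K))) :
    2 ^ c * (ssy S c).card ≤ 6 * (c' - c + 1) * (2 ^ w * D) + 2 ^ c * (chs S c').card := by
  have h1 : ssy S c ⊆ ((Finset.Ico c c').biUnion (fun j =>
      ((els S).filter (fun e => lv S e = j)).image (fun e => (om c e, sy S e)))) ∪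
      (elc S c').image (fun e => (om c e, sy S e)) := by
    intro q hq
    unfold ssy at hq
    rw [Finset.mem_image] at hq
    obtain ⟨e, he, rfl⟩ := hq
    have he' := Finset.mem_filter.1 he
    rw [Finset.mem_union]
    by_cases h : lv S e < c'
    · left
      rw [Finset.mem_biUnion]
      refine ⟨lv S e, Finset.mem_Ico.2 ⟨he'.2, h⟩, ?_⟩
      exact Finset.mem_image_of_mem _ (Finset.mem_filter.2 ⟨he'.1, rfl⟩)
    · right
      exact Finset.mem_image_of_mem _ (Finset.mem_filter.2 ⟨he'.1, by omega⟩)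
  have h2 := (Finset.card_le_card h1).trans (Finset.card_union_le _ _)
  have h3 : 2 ^ c * ((Finset.Ico c c').biUnion (fun j =>
      ((els S).filter (fun e => lv S e = j)).image (fun e => (om c e, sy S e)))).card ≤
      6 * (c' - c) * (2 ^ w * D) := by
    calc 2 ^ c * ((Finset.Ico c c').biUnion (fun j =>
        ((els S).filter (fun e => lv S e = j)).image (fun e => (om c e, sy S e)))).card
        ≤ 2 ^ c * ∑ j ∈ Finset.Ico c c',
          (((els S).filter (fun e => lv S e = j)).image (fun e => (om c e, sy S e))).card :=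
          Nat.mul_le_mul_left _ Finset.card_biUnion_le
      _ = ∑ j ∈ Finset.Ico c c', 2 ^ c *
          (((els S).filter (fun e => lv S e = j)).image (fun e => (om c e, sy S e))).card := by
          rw [Finset.mul_sum]
      _ ≤ ∑ _j ∈ Finset.Ico c c', 6 * (2 ^ w * D) :=
          Finset.sum_le_sum (fun j hj => level_sy hD hc (Finset.mem_Ico.1 hj).1
            (hw j (Finset.mem_Ico.1 hj).2.le))
      _ = 6 * (c' - c) * (2 ^ w * D) := by
          rw [Finset.sum_const, Nat.card_Ico, smul_eq_mul]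
          ring
  have h4 := high_sy hD hc hcc (hw c' le_rfl)
  calc 2 ^ c * (ssy S c).card ≤ 2 ^ c * (_ + _) := Nat.mul_le_mul_left _ h2
    _ = 2 ^ c * _ + 2 ^ c * _ := by rw [Nat.mul_add]
    _ ≤ 6 * (c' - c) * (2 ^ w * D) + (6 * (2 ^ w * D) + 2 ^ c * (chs S c').card) := add_le_add h3 h4
    _ = _ := by ring

/-- MODULE mj (S). No elements of level `c` if `S.m ≤ 2 ^ c`. -/
theorem chs_empty (h : S.m ≤ 2 ^ c) : (chs S c).card = 0 := by
  rw [Finset.card_eq_zero, Finset.eq_empty_iff_forall_notMem]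
  intro y hy
  unfold chs elc at hy
  have h1 := (Finset.mem_filter.1 (Finset.mem_filter.1 hy).1)
  have h2 : Eb S y := by
    have h3 := h1.1
    unfold els at h3
    rw [Sys.mem_set] at h3
    exact h3.2.2
  obtain ⟨u, hu, h3⟩ := h2.ex
  have hne : {u | y.1 < u ∧ qe S y ≤ S.X u ∧ S.X u < y.2}.Nonempty := ⟨u, h3⟩
  have h4 : y.1 < re S y := (Nat.sInf_mem hne).1
  have h5 : re S y ≤ u := Nat.sInf_le h3
  have h6 := Nat.pow_log_le_self 2 (x := re S y - y.1) (by omega)
  have h7 : 2 ^ c ≤ 2 ^ Nat.log 2 (re S y - y.1) := Nat.pow_le_pow_right (by norm_num) h1.2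
  omega

/-- MODULE mk (S). One element per window, symbol and request: inject
`e ↦ ((om c e, sy S e), e.1 % 2 ^ (c - 1))` (`Eb.sy_mu`, `Eb.ext_mu`). -/
theorem card_elc (hc : 1 ≤ c) : (elc S c).card ≤ 2 ^ c * (ssy S c).card := by
  have hB : 0 < 2 ^ (c - 1) := by positivity
  have h1 : (elc S c).card ≤ (ssy S c ×ˢ Finset.range (2 ^ (c - 1))).card := by
    refine Finset.card_le_card_of_injOn (fun e => ((om c e, sy S e), e.1 % 2 ^ (c - 1))) ?_ ?_
    · intro e he
      rw [Finset.mem_coe, Finset.mem_product]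
      exact ⟨Finset.mem_image_of_mem _ (Finset.mem_coe.1 he), Finset.mem_range.2 (Nat.mod_lt _ hB)⟩
    · intro e he f hf h
      simp only [Prod.mk.injEq] at h
      obtain ⟨⟨g1, g2⟩, g3⟩ := h
      have g4 : e.1 = f.1 := by
        rw [← Nat.div_add_mod e.1 (2 ^ (c - 1)), ← Nat.div_add_mod f.1 (2 ^ (c - 1)), g3]
        unfold om at g1
        rw [g1]
      exact (mem_elc.1 (Finset.mem_coe.1 he)).1.ext_mu (mem_elc.1 (Finset.mem_coe.1 hf)).1 g4 (Eb.sy_mu g2)
  rw [Finset.card_product, Finset.card_range] at h1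
  calc (elc S c).card ≤ (ssy S c).card * 2 ^ (c - 1) := h1
    _ ≤ (ssy S c).card * 2 ^ c := Nat.mul_le_mul_left _ (Nat.pow_le_pow_right (by norm_num) (by omega))
    _ = 2 ^ c * (ssy S c).card := mul_comm _ _

/-- MODULE ml (S). Small levels: one element per pair (request, release): inject
`e ↦ (e.1, re S e - e.1)` into `range m × range (2 ^ c)` (`Eb.same_time`: `ze` is in both gaps). -/
theorem card_low (S : Sys) (c : ℕ) : ((els S).filter (fun e => lv S e < c)).card ≤ 2 ^ c * S.m := by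
  have h1 : ((els S).filter (fun e => lv S e < c)).card ≤ (Finset.range S.m ×ˢ Finset.range (2 ^ c)).card := by
    refine Finset.card_le_card_of_injOn (fun e => (e.1, re S e - e.1)) ?_ ?_
    · intro e he
      obtain ⟨h1, h2⟩ := Finset.mem_filter.1 (Finset.mem_coe.1 he)
      have h3 := mem_els.1 h1
      have h4 := h3.facts
      have h5 := h3.mu_facts
      have h6 : 2 ^ (lv S e + 1) ≤ 2 ^ c := Nat.pow_le_pow_right (by norm_num) h2
      rw [Finset.mem_coe, Finset.mem_product, Finset.mem_range, Finset.mem_range]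
      dsimp only
      omega
    · intro e he f hf h
      have h3 := mem_els.1 (Finset.mem_filter.1 (Finset.mem_coe.1 he)).1
      have h3' := mem_els.1 (Finset.mem_filter.1 (Finset.mem_coe.1 hf)).1
      have h4 := h3.facts
      have h4' := h3'.facts
      simp only [Prod.mk.injEq] at h
      obtain ⟨g1, g2⟩ := h
      have g3 : re S e = re S f := by omega
      have g4 : ze S e = ze S f := by
        unfold ze
        rw [g3]
      exact h3.same_time h3' g1 (by omega) (by omega)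
  rw [Finset.card_product, Finset.card_range, Finset.card_range] at h1
  rw [mul_comm]
  exact h1

/-- MODULE mm (S). `m ≤ D`: scale `0` (the `m` cells `(t, X t)`). -/
theorem m_le_D (hD : GrB K S D) : S.m ≤ D := by
  rcases Nat.eq_zero_or_pos S.m with h | h
  · omega
  · have h1 := hD 0 (by rw [pow_zero]; exact h)
    have h2 : (cells (2 ^ 0) S.m S.X).card = S.m := by
      unfold cells
      rw [Finset.card_image_of_injective, Finset.card_range]
      intro a b hab
      simpa using congrArg Prod.fst hab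
    rw [h2] at h1
    simpa using h1

private theorem mn_w {K i j : ℕ} (hK : 0 < K) (hj : j ≤ 8 * K ^ 2 * i) :
    j ≤ 4 * K * (K - 1) * i + 2 + ((j - 1) / 2 + (j - 1) / (2 * K)) := by
  obtain ⟨k, rfl⟩ : ∃ k, K = k + 1 := ⟨K - 1, by omega⟩
  rw [Nat.add_sub_cancel]
  rcases Nat.eq_zero_or_pos j with h0 | h0
  · rw [h0]
    exact Nat.zero_le _
  have h1 := Nat.div_add_mod (j - 1) (2 * (k + 1))
  have h2 := Nat.mod_lt (j - 1) (show 0 < 2 * (k + 1) by omega)
  obtain ⟨q, hq⟩ : ∃ q, q = (j - 1) / (2 * (k + 1)) := ⟨_, rfl⟩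
  obtain ⟨p, hp⟩ : ∃ p, p = (j - 1) / 2 := ⟨_, rfl⟩
  rw [← hq] at h1 ⊢
  rw [← hp]
  have h3 : j ≤ 2 * p + 2 := by omega
  have h4 : j ≤ 2 * (k + 1) * q + 2 * (k + 1) := by omega
  have h5 : (2 * (k + 1)) * j ≤ (2 * (k + 1)) * (4 * (k + 1) * k * i + 2 + (p + q)) := by
    have e1 : (k + 1) * j ≤ (k + 1) * (2 * p + 2) := Nat.mul_le_mul_left _ h3
    have e2 : k * j ≤ k * (8 * (k + 1) ^ 2 * i) := Nat.mul_le_mul_left _ hj
    nlinarith
  exact Nat.le_of_mul_le_mul_left h5 (by omega)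

private theorem mn_p1 {K i : ℕ} (hK : 0 < K) : (2 * K + 1) * i + 5 ≤ K * (2 * i + i / K + 6) := by
  have h1 := Nat.div_add_mod i K
  have h2 := Nat.mod_lt i hK
  have e1 : K * (2 * i + i / K + 6) = 2 * (K * i) + K * (i / K) + 6 * K := by ring
  have e2 : (2 * K + 1) * i = 2 * (K * i) + i := by ring
  rw [e1, e2]
  omega

private theorem mn_p2 {K i : ℕ} : K * (2 * i + i / K + 6) ≤ (2 * K + 1) * i + 6 * K := by
  have h1 : K * (i / K) ≤ i := Nat.mul_div_le i K
  have e1 : K * (2 * i + i / K + 6) = 2 * (K * i) + K * (i / K) + 6 * K := by ring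
  have e2 : (2 * K + 1) * i = 2 * (K * i) + i := by ring
  rw [e1, e2]
  omega

private theorem mn_ex {K i : ℕ} (hK : 0 < K) (hi : 24 * K ^ 2 + 100 ≤ i) :
    4 * K * (K - 1) * (2 * i + i / K + 6) + 2 + (2 * i + 13) + 2 * (K + 1) * i ≤
      8 * K ^ 2 * i + i := by
  obtain ⟨k, rfl⟩ : ∃ k, K = k + 1 := ⟨K - 1, by omega⟩
  rw [Nat.add_sub_cancel]
  have h1 := mn_p2 (K := k + 1) (i := i)
  have h2 : 4 * (k + 1) * k * (2 * i + i / (k + 1) + 6) ≤
      4 * k * ((2 * (k + 1) + 1) * i + 6 * (k + 1)) := by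
    calc 4 * (k + 1) * k * (2 * i + i / (k + 1) + 6) =
        4 * k * ((k + 1) * (2 * i + i / (k + 1) + 6)) := by ring
      _ ≤ _ := Nat.mul_le_mul_left _ h1
  nlinarith

private theorem mn_cc {K i : ℕ} (hK : 0 < K) (hi : 24 * K ^ 2 + 100 ≤ i) :
    84 * (8 * K ^ 2 * (2 * i + i / K + 6) - 8 * K ^ 2 * i + 1) ≤ 2 ^ (2 * i + 13) := by
  have h0 : i / K ≤ i := Nat.div_le_self _ _
  have h1 : 8 * K ^ 2 * (2 * i + i / K + 6) ≤ 8 * K ^ 2 * (3 * i + 6) :=
    Nat.mul_le_mul_left _ (by omega)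
  have h2 : 8 * K ^ 2 * (3 * i + 6) = 8 * K ^ 2 * i + 8 * K ^ 2 * (2 * i + 6) := by ring
  have h3 : 8 * K ^ 2 * (2 * i + 6) ≤ 8 * i * (2 * i + 6) :=
    Nat.mul_le_mul_right _ (Nat.mul_le_mul_left _ (by omega))
  have h4 : 8 * K ^ 2 * (2 * i + i / K + 6) - 8 * K ^ 2 * i + 1 ≤ 8 * i * (2 * i + 6) + 1 := by
    omega
  have h5 : 8 * i * (2 * i + 6) + 1 ≤ 65 * (i * i) := by nlinarith
  have h6 : i * i ≤ 2 ^ (2 * i) := by
    have h7 := (Nat.lt_two_pow_self (n := i)).le
    calc i * i ≤ 2 ^ i * 2 ^ i := Nat.mul_le_mul h7 h7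
      _ = 2 ^ (2 * i) := by rw [← pow_add]; congr 1; ring
  calc 84 * (8 * K ^ 2 * (2 * i + i / K + 6) - 8 * K ^ 2 * i + 1) ≤ 84 * (65 * (i * i)) :=
        Nat.mul_le_mul_left _ (h4.trans h5)
    _ ≤ 84 * (65 * 2 ^ (2 * i)) := Nat.mul_le_mul_left _ (Nat.mul_le_mul_left _ h6)
    _ = 5460 * 2 ^ (2 * i) := by ring
    _ ≤ 2 ^ 13 * 2 ^ (2 * i) := Nat.mul_le_mul_right _ (by norm_num)
    _ = 2 ^ (2 * i + 13) := by rw [← pow_add, Nat.add_comm]

/-- MODULE mn (M). THE RECURSION. `c = 8 K² i`, `c' = 8 K² i'`, `i' = 2 i + i / K + 6`,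
`R = 2 ^ ((K + 1) i)`, downwards in `i` (`chs_empty` if `S.m ≤ 2 ^ c`). -/
theorem X_rec (hK : 0 < K) (hD : GrB K S D) : ∀ i, 24 * K ^ 2 + 100 ≤ i →
    2 ^ (K * i) * (chs S (8 * K ^ 2 * i)).card ≤ D + S.cnt (fun t v => S.E t v) := by
  have key : ∀ n, ∀ i, S.m - i = n → 24 * K ^ 2 + 100 ≤ i →
      2 ^ (K * i) * (chs S (8 * K ^ 2 * i)).card ≤ D + S.cnt (fun t v => S.E t v) := by
    intro n
    induction n using Nat.strong_induction_on with
    | _ n ih =>
      intro i hn hi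
      by_cases h0 : S.m ≤ 2 ^ (8 * K ^ 2 * i)
      · rw [chs_empty h0]
        simp
      · have hK2 : 1 ≤ K ^ 2 := Nat.one_le_pow _ _ hK
        have hci : i ≤ 8 * K ^ 2 * i := Nat.le_mul_of_pos_left _ (by omega)
        have h1 : i < 2 ^ (8 * K ^ 2 * i) :=
          (Nat.lt_two_pow_self (n := i)).trans_le (Nat.pow_le_pow_right (by norm_num) hci)
        have hi' : 24 * K ^ 2 + 100 ≤ 2 * i + i / K + 6 := by
          have := Nat.zero_le (i / K)
          omega
        have h2 := ih (S.m - (2 * i + i / K + 6)) (by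
          have := Nat.zero_le (i / K)
          omega) (2 * i + i / K + 6) rfl hi'
        have hcc : 8 * K ^ 2 * i ≤ 8 * K ^ 2 * (2 * i + i / K + 6) :=
          Nat.mul_le_mul_left _ (by have := Nat.zero_le (i / K); omega)
        have h3 := X_le (S := S) (c := 8 * K ^ 2 * i) (by omega) (2 ^ ((K + 1) * i))
        have h4 := S_le (S := S) (c := 8 * K ^ 2 * i) (c' := 8 * K ^ 2 * (2 * i + i / K + 6)) hD
          (by omega) hcc (w := 4 * K * (K - 1) * (2 * i + i / K + 6) + 2)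
          (fun j hj => mn_w hK hj)
        have h5 := mn_p1 (i := i) hK
        have h6 := mn_ex hK hi
        have h7 := mn_cc hK hi
        obtain ⟨i', hi'd⟩ : ∃ i', i' = 2 * i + i / K + 6 := ⟨_, rfl⟩
        rw [← hi'd] at h2 h4 h5 h6 h7
        generalize S.cnt (fun t v => S.E t v) = θ at h2 h3 ⊢
        obtain ⟨c, hc⟩ : ∃ c, c = 8 * K ^ 2 * i := ⟨_, rfl⟩
        obtain ⟨c', hc'⟩ : ∃ c', c' = 8 * K ^ 2 * i' := ⟨_, rfl⟩
        rw [← hc] at h3 h4 h6 h7 ⊢
        rw [← hc'] at h2 h4 h7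
        generalize (chs S c).card = X at h3 ⊢
        generalize (chs S c').card = X' at h2 h4
        generalize (ssy S c).card = Y at h3 h4
        obtain ⟨w, hw⟩ : ∃ w, w = 4 * K * (K - 1) * i' + 2 := ⟨_, rfl⟩
        rw [← hw] at h4 h6
        obtain ⟨M, hM⟩ : ∃ M, M = c' - c + 1 := ⟨_, rfl⟩
        rw [← hM] at h4 h7
        have e2 : (2 ^ ((K + 1) * i)) ^ 2 = 2 ^ (2 * (K + 1) * i) := by
          rw [← pow_mul]
          congr 1
          ring
        rw [e2] at h3
        -- `E = c - 2 (K + 1) i`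
        obtain ⟨E, hE⟩ : ∃ E, c = E + 2 * (K + 1) * i := ⟨c - 2 * (K + 1) * i, by omega⟩
        have e3 : 2 ^ c = 2 ^ E * 2 ^ (2 * (K + 1) * i) := by rw [hE, pow_add]
        -- the first term
        have f1 : 14 * (6 * M * 2 ^ w) ≤ 2 ^ (E + i) := by
          calc 14 * (6 * M * 2 ^ w) = 84 * M * 2 ^ w := by ring
            _ ≤ 2 ^ (2 * i + 13) * 2 ^ w := Nat.mul_le_mul_right _ h7
            _ = 2 ^ (2 * i + 13 + w) := by rw [pow_add 2 (2 * i + 13) w]
            _ ≤ 2 ^ (E + i) := Nat.pow_le_pow_right (by norm_num) (by omega)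
        -- the second term
        have f2 : 28 * 2 ^ ((2 * K + 1) * i) ≤ 2 ^ (K * i') := by
          calc 28 * 2 ^ ((2 * K + 1) * i) ≤ 2 ^ 5 * 2 ^ ((2 * K + 1) * i) :=
                Nat.mul_le_mul_right _ (by norm_num)
            _ = 2 ^ (5 + (2 * K + 1) * i) := by rw [pow_add 2 5]
            _ ≤ 2 ^ (K * i') := Nat.pow_le_pow_right (by norm_num) (by omega)
        have f3 : 28 * (2 ^ c * X') ≤ 2 ^ (E + i) * (D + θ) := by
          have g1 : 2 * (K + 1) * i = i + (2 * K + 1) * i := by ring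
          calc 28 * (2 ^ c * X') = 2 ^ (E + i) * (28 * 2 ^ ((2 * K + 1) * i) * X') := by
                rw [e3, g1, pow_add 2 i, pow_add 2 E i]
                ring
            _ ≤ 2 ^ (E + i) * (2 ^ (K * i') * X') :=
                Nat.mul_le_mul_left _ (Nat.mul_le_mul_right _ f2)
            _ ≤ 2 ^ (E + i) * (D + θ) := Nat.mul_le_mul_left _ h2
        -- the third term
        have f4 : 8 * 2 ^ E ≤ 2 ^ (E + i) := by
          rw [pow_add, Nat.mul_comm]
          apply Nat.mul_le_mul_left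
          calc 8 = 2 ^ 3 := by norm_num
            _ ≤ 2 ^ i := Nat.pow_le_pow_right (by norm_num) (by omega)
        have e4 : 2 ^ (E + i) * (2 ^ (K * i) * X) = 2 ^ E * (2 ^ ((K + 1) * i) * X) := by
          rw [pow_add 2 E i, show (K + 1) * i = K * i + i by ring, pow_add 2 (K * i) i]
          ring
        have f5 : 2 ^ (E + i) * (2 ^ (K * i) * X) ≤ 2 ^ (E + i) * (D + θ) := by
          rw [e4]
          have g1 : 2 ^ E * (2 ^ ((K + 1) * i) * X) ≤ 7 * (2 ^ c * Y) + 2 * (2 ^ E * θ) := by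
            calc 2 ^ E * (2 ^ ((K + 1) * i) * X)
                ≤ 2 ^ E * (7 * 2 ^ (2 * (K + 1) * i) * Y + 2 * θ) := Nat.mul_le_mul_left _ h3
              _ = 7 * (2 ^ c * Y) + 2 * (2 ^ E * θ) := by rw [e3]; ring
          have g2 : 7 * (2 ^ c * Y) ≤ 7 * (6 * M * 2 ^ w) * D + 7 * (2 ^ c * X') := by
            calc 7 * (2 ^ c * Y) ≤ 7 * (6 * M * (2 ^ w * D) + 2 ^ c * X') :=
                  Nat.mul_le_mul_left _ h4
              _ = _ := by ring
          have g3 : 14 * (6 * M * 2 ^ w) * D ≤ 2 ^ (E + i) * D := Nat.mul_le_mul_right _ f1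
          have g4 : 8 * 2 ^ E * θ ≤ 2 ^ (E + i) * θ := Nat.mul_le_mul_right _ f4
          have g5 : 2 ^ (E + i) * (D + θ) = 2 ^ (E + i) * D + 2 ^ (E + i) * θ := by ring
          have g6 : 14 * (6 * M * 2 ^ w) * D = 2 * (7 * (6 * M * 2 ^ w) * D) := by ring
          have g7 : 8 * 2 ^ E * θ = 4 * (2 * (2 ^ E * θ)) := by ring
          rw [g5] at f3 ⊢
          rw [g6] at g3
          rw [g7] at g4
          omega
        exact Nat.le_of_mul_le_mul_left f5 (by positivity)
  intro i hi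
  exact key _ i rfl hi

/-- MODULE mo (M). **Bad elements.** -/
theorem bad_le (hK : 0 < K) (A : ℕ) : ∃ C : ℕ, ∀ (S : Sys) (D : ℕ), GrB K S D →
    A * (els S).card ≤ S.cnt (fun t v => S.E t v) + C * D := by
  obtain ⟨I, hI⟩ : ∃ I : ℕ, I = 24 * K ^ 2 + 100 := ⟨_, rfl⟩
  obtain ⟨c, hc⟩ : ∃ c : ℕ, c = 8 * K ^ 2 * I := ⟨_, rfl⟩
  obtain ⟨i, hi⟩ : ∃ i : ℕ, i = I + A + c := ⟨_, rfl⟩
  obtain ⟨P, hP⟩ : ∃ P : ℕ, P = 2 ^ c := ⟨_, rfl⟩
  obtain ⟨M, hM⟩ : ∃ M : ℕ, M = 6 * (8 * K ^ 2 * i - c + 1) * 2 ^ (4 * K * (K - 1) * i + 2) :=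
    ⟨_, rfl⟩
  have hK2 : 1 ≤ K ^ 2 := Nat.one_le_pow _ _ hK
  have hc1 : 1 ≤ c := by
    rw [hc]
    exact Nat.mul_pos (by omega) (by omega)
  have hcc : c ≤ 8 * K ^ 2 * i := by
    rw [hc]
    exact Nat.mul_le_mul_left _ (by omega)
  refine ⟨A * (P + M) + 1, fun S D hD => ?_⟩
  have h1 := card_low S c
  have h2 := m_le_D hD
  have h3 := card_elc (S := S) (c := c) hc1
  have h4 := S_le (S := S) (c := c) (c' := 8 * K ^ 2 * i) hD hc1 hcc
    (w := 4 * K * (K - 1) * i + 2) (fun j hj => mn_w hK hj)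
  have h5 := X_rec hK hD i (by omega)
  have e0 : 6 * (8 * K ^ 2 * i - c + 1) * (2 ^ (4 * K * (K - 1) * i + 2) * D) = M * D := by
    rw [hM]
    ring
  rw [e0] at h4
  rw [← hP] at h1 h3 h4
  have hsplit : (els S).card ≤ ((els S).filter (fun e => lv S e < c)).card + (elc S c).card := by
    unfold elc
    rw [← Finset.card_filter_add_card_filter_not (s := els S) (fun e => lv S e < c)]
    refine Nat.add_le_add_left (Finset.card_le_card ?_) _
    intro e he
    rw [Finset.mem_filter] at he ⊢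
    exact ⟨he.1, by omega⟩
  have hk : A * P ≤ 2 ^ (K * i) := by
    calc A * P ≤ 2 ^ A * 2 ^ c := by
          rw [hP]
          exact Nat.mul_le_mul_right _ (Nat.lt_two_pow_self).le
      _ = 2 ^ (A + c) := by rw [pow_add]
      _ ≤ 2 ^ (K * i) := Nat.pow_le_pow_right (by norm_num) (by
          have : i ≤ K * i := Nat.le_mul_of_pos_left _ hK
          omega)
  generalize (els S).card = n at *
  generalize ((els S).filter (fun e => lv S e < c)).card = n1 at *
  generalize (elc S c).card = n2 at *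
  generalize (ssy S c).card = n3 at *
  generalize (chs S (8 * K ^ 2 * i)).card = n4 at *
  generalize S.cnt (fun t v => S.E t v) = T at *
  generalize 2 ^ (K * i) = Q at *
  have h6 : n ≤ P * D + (M * D + P * n4) := by
    have : P * S.m ≤ P * D := Nat.mul_le_mul_left _ h2
    omega
  calc A * n ≤ A * (P * D + (M * D + P * n4)) := Nat.mul_le_mul_left _ h6
    _ = A * (P + M) * D + (A * P) * n4 := by ring
    _ ≤ A * (P + M) * D + Q * n4 := Nat.add_le_add_left (Nat.mul_le_mul_right _ hk) _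
    _ ≤ A * (P + M) * D + (D + T) := Nat.add_le_add_left h5 _
    _ = T + (A * (P + M) + 1) * D := by ring

end Pool.Agent.SplGd
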