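import Pool.Agent.SplGd.Defs

import Pool.Agent.SplGd.ECnt

set_option autoImplicit false

/-! # Bad elements: the statement of the assembly -/

namespace Pool.Agent.SplGd

open Pool.Agent.SplLog Pool.Agent.SplLs Pool.Agent.SplDq Pool.Agent.SplTr

open scoped Classical

/-- MODULE mp (S). `q = lam (s + 1) g`, `w = rho (s + 1) g` by the kill facts, `rel = re` by `nr` and
minimality (`sInf`). -/
theorem eb_iff {S : Sys} {s g : ℕ} : (∃ e : Elt, El S e ∧ e.s = s ∧ e.g = g) ↔ Eb S (s, g) := by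
  constructor
  · rintro ⟨⟨s', g', q, w, rel⟩, h, rfl, rfl⟩
    obtain ⟨sk, q0, wt, sr, rm, qz, zg, nr, bad⟩ := h
    simp only at sk q0 wt sr rm qz zg nr bad ⊢
    have hq : qe S (s', g') = q := by
      rcases sk with ⟨h1, h2⟩ | ⟨h1, h2⟩
      · exact h1.2.2
      · exact h2
    have hw : we S (s', g') = w := by
      rcases sk with ⟨h1, h2⟩ | ⟨h1, h2⟩
      · exact h2
      · exact h1.2.2
    have hgw : g' < w := by
      rw [← hw]
      have hm : s' < S.m ∧ g' ∈ S.K := by
        rcases sk with ⟨h1, h2⟩ | ⟨h1, h2⟩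
        · exact ⟨h1.1.1, h1.1.2.1⟩
        · exact ⟨h1.1.1, h1.1.2.1⟩
      exact S.lt_rho (s' + 1) hm.1 g' hm.2
    have hre : re S (s', g') = rel := by
      unfold re
      rw [hq]
      apply le_antisymm
      · exact Nat.sInf_le ⟨sr, qz, zg⟩
      · refine le_csInf ⟨rel, sr, qz, zg⟩ ?_
        rintro u ⟨h1, h2, h3⟩
        by_contra h4
        push Not at h4
        exact nr u h1 h4 ⟨h2, lt_trans h3 hgw⟩
    refine ⟨?_, ?_, ?_, ?_, ?_, ?_⟩
    · rw [hq, hw]
      exact sk.imp (fun h => h.1) (fun h => h.1)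
    · rw [hq]
      exact q0
    · rw [hw]
      exact wt
    · rw [hq]
      exact ⟨rel, rm, sr, qz, zg⟩
    · rw [hq, hw, hre]
      exact nr
    · unfold ze
      rw [hre]
      simp only
      omega
  · intro h
    have hf := h.facts
    obtain ⟨sk, q0, wt, ex, nr, bad⟩ := h
    refine ⟨⟨s, g, qe S (s, g), we S (s, g), re S (s, g)⟩, ?_, rfl, rfl⟩
    refine ⟨?_, q0, wt, hf.1, hf.2.1, hf.2.2.1, hf.2.2.2.1, nr, ?_⟩
    · exact sk.imp (fun h => ⟨h, rfl⟩) (fun h => ⟨h, rfl⟩)
    · show re S (s, g) + S.X (re S (s, g)) < g + s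
      have h1 : re S (s, g) + ze S (s, g) < s + g := bad
      unfold ze at h1
      omega

/-- MODULE mq (S). -/
theorem badG : BadG := by
  intro K hK A
  obtain ⟨C, hC⟩ := bad_le hK A
  refine ⟨C, fun S D hG => ?_⟩
  have hB : GrB K S D := by
    intro j hj
    exact hG j (by omega)
  have h1 := hC S D hB
  have h2 : S.cnt (fun s g => ∃ e, El S e ∧ e.s = s ∧ e.g = g) = (els S).card := by
    have e1 : (fun s g => ∃ e, El S e ∧ e.s = s ∧ e.g = g) = fun s g => Eb S (s, g) := by
      funext s g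
      exact propext eb_iff
    rw [e1]
    rfl
  rw [h2]
  exact h1

end Pool.Agent.SplGd
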