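import Pool.Agent.SplGd.FCel
import Pool.Agent.SplGd.FAri

set_option autoImplicit false

/-!
# Grid theorem, section 5: the number of rounds of a class
-/

namespace Pool.Agent.SplGd

open scoped Classical

namespace FG

variable {ι : Type} {k top tm N : ℕ} (Q : FG ι k top tm N)

/-- one gap level -/
theorem level (g L : ℕ) (hL : 1 ≤ L) : L * (Q.Ng g).card ≤
    5 * L * (∑ R ∈ Finset.Icc (g + g0) (Nat.log 2 top), (Q.Ng R).card) +
    2 ^ (g0 + 22) * (g + 1) * (L ^ 2 * ((top + N) / 2 ^ (g / 2) + 1) + Q.RT.card) := by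
  obtain ⟨S, hS⟩ : ∃ S, S = ∑ R ∈ Finset.Icc (g + g0) (Nat.log 2 top), (Q.Ng R).card := ⟨_, rfl⟩
  obtain ⟨A, hA⟩ : ∃ A, A = (top + N) / 2 ^ (g / 2) + 1 := ⟨_, rfl⟩
  have hpos : 0 < 2 ^ (g / 2) := by positivity
  have htop : top + N ≤ 2 ^ (g / 2) * A := by
    rw [hA]
    have h3 := Nat.div_add_mod (top + N) (2 ^ (g / 2))
    have h4 := Nat.mod_lt (top + N) hpos
    rw [Nat.mul_add, Nat.mul_one]
    omega
  have key : ∀ M K : ℕ, 2 ^ (g / 2) * M ≤ K * (top + N) → M ≤ K * A := by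
    intro M K h
    have h5 : 2 ^ (g / 2) * M ≤ 2 ^ (g / 2) * (K * A) := by
      calc 2 ^ (g / 2) * M ≤ K * (top + N) := h
        _ ≤ K * (2 ^ (g / 2) * A) := Nat.mul_le_mul_left _ htop
        _ = 2 ^ (g / 2) * (K * A) := by ring
    exact le_of_mul_le_mul_left h5 hpos
  have up : ∀ K M : ℕ, M ≤ K * N → M ≤ K * (top + N) := by
    intro K M h
    exact h.trans (Nat.mul_le_mul_left _ (by omega))
  have h1 := key _ _ (up _ _ (Q.nmain g))
  have h2 := key _ _ (up _ _ (Q.Wn_card g))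
  have h3 := key _ _ (up _ _ (Q.cBz g))
  have h4 := Q.cLI g
  have h5 := Q.cRI g
  have h6 := Q.cellsG L hL g
  have h7 := key _ _ (Q.PP_card g)
  rw [← hS] at h4 h5
  have hsub : Q.Ng g ⊆ (Q.Ng g).filter (fun x => ¬ g + g0 < Q.Dx x) ∪
      ((Q.Mg g).filter (fun x => Q.LI g x) ∪ ((Q.Mg g).filter (fun x => Q.RI g x) ∪
        ((Q.Mg g).filter (fun x => Q.Bz g (Q.mc g x) (Q.rel x / 2 ^ g)) ∪ Q.Rm g))) := by
    intro x hx
    simp only [Finset.mem_union, Finset.mem_filter, Rm, Mg]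
    by_cases e1 : g + g0 < Q.Dx x
    · by_cases e2 : Q.LI g x
      · exact Or.inr (Or.inl ⟨⟨hx, e1⟩, e2⟩)
      · by_cases e3 : Q.RI g x
        · exact Or.inr (Or.inr (Or.inl ⟨⟨hx, e1⟩, e3⟩))
        · by_cases e4 : Q.Bz g (Q.mc g x) (Q.rel x / 2 ^ g)
          · exact Or.inr (Or.inr (Or.inr (Or.inl ⟨⟨hx, e1⟩, e4⟩)))
          · exact Or.inr (Or.inr (Or.inr (Or.inr ⟨⟨hx, e1⟩, e2, e3, e4⟩)))
    · exact Or.inl ⟨hx, e1⟩
  have h8 : (Q.Ng g).card ≤ 5 * S + (2 ^ 30 + 80 + 2 ^ (g0 + 5)) * A + (Q.Rm g).card := by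
    have e1 := Finset.card_le_card hsub
    have e2 := Finset.card_union_le ((Q.Ng g).filter (fun x => ¬ g + g0 < Q.Dx x))
      ((Q.Mg g).filter (fun x => Q.LI g x) ∪ ((Q.Mg g).filter (fun x => Q.RI g x) ∪
        ((Q.Mg g).filter (fun x => Q.Bz g (Q.mc g x) (Q.rel x / 2 ^ g)) ∪ Q.Rm g)))
    have e3 := Finset.card_union_le ((Q.Mg g).filter (fun x => Q.LI g x))
      ((Q.Mg g).filter (fun x => Q.RI g x) ∪
        ((Q.Mg g).filter (fun x => Q.Bz g (Q.mc g x) (Q.rel x / 2 ^ g)) ∪ Q.Rm g))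
    have e4 := Finset.card_union_le ((Q.Mg g).filter (fun x => Q.RI g x))
      ((Q.Mg g).filter (fun x => Q.Bz g (Q.mc g x) (Q.rel x / 2 ^ g)) ∪ Q.Rm g)
    have e5 := Finset.card_union_le
      ((Q.Mg g).filter (fun x => Q.Bz g (Q.mc g x) (Q.rel x / 2 ^ g))) (Q.Rm g)
    have e6 : (2 ^ 30 + 80 + 2 ^ (g0 + 5)) * A = 2 ^ 30 * A + 80 * A + 2 ^ (g0 + 5) * A := by ring
    rw [e6]
    omega
  -- the constants
  obtain ⟨W, hW⟩ : ∃ W, W = 2 ^ (g0 + 5) := ⟨_, rfl⟩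
  have hK : 2 ^ (g0 + 22) = 131072 * W := by
    rw [hW, show g0 + 22 = g0 + 5 + 17 by omega, pow_add 2 (g0 + 5) 17]
    ring
  have hW1 : 2 ^ 31 ≤ W := by
    rw [hW]
    exact Nat.pow_le_pow_right (by norm_num) (by unfold g0; norm_num)
  rw [← hW] at h7 h8
  rw [hK, ← hS, ← hA]
  clear h3 hK hW h1 h2 h4 h5 hsub key up htop
  obtain ⟨R, hR⟩ : ∃ R, R = Q.RT.card := ⟨_, rfl⟩
  obtain ⟨n1, hn1⟩ : ∃ n1, n1 = (Q.Ng g).card := ⟨_, rfl⟩
  obtain ⟨n2, hn2⟩ : ∃ n2, n2 = (Q.Rm g).card := ⟨_, rfl⟩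
  obtain ⟨n3, hn3⟩ : ∃ n3, n3 = (Q.PP g).card := ⟨_, rfl⟩
  rw [← hR, ← hn2, ← hn3] at h6
  rw [← hn3] at h7
  rw [← hn1, ← hn2] at h8
  rw [← hR, ← hn1]
  clear hR hn1 hn2 hn3 hS hA
  have hLL : L ≤ L ^ 2 := by nlinarith
  have f1 : L * n2 ≤ (g + 1) * (65536 * W * (L ^ 2 * A) + 65536 * R) := by
    calc L * n2 ≤ 2 ^ 16 * (g + 1) * (L ^ 2 * n3 + R) := h6
      _ ≤ 2 ^ 16 * (g + 1) * (L ^ 2 * (W * A) + R) := by gcongr
      _ = _ := by ring
  have f2 : L * ((2 ^ 30 + 80 + W) * A) ≤ 2 * W * (L ^ 2 * A) := by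
    calc L * ((2 ^ 30 + 80 + W) * A) ≤ L ^ 2 * (2 * W * A) := by
          apply Nat.mul_le_mul hLL
          apply Nat.mul_le_mul_right
          omega
      _ = _ := by ring
  have f3 : 2 * W * (L ^ 2 * A) ≤ (g + 1) * (2 * W * (L ^ 2 * A)) :=
    Nat.le_mul_of_pos_left _ (by omega)
  have f4 : (g + 1) * (65536 * W * (L ^ 2 * A) + 65536 * R) +
      (g + 1) * (2 * W * (L ^ 2 * A)) ≤ 131072 * W * (g + 1) * (L ^ 2 * A + R) := by
    obtain ⟨Z, hZ⟩ : ∃ Z, Z = W * (L ^ 2 * A) := ⟨_, rfl⟩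
    have e1 : (g + 1) * (65536 * W * (L ^ 2 * A) + 65536 * R) +
        (g + 1) * (2 * W * (L ^ 2 * A)) = (g + 1) * (65538 * Z + 65536 * R) := by
      rw [hZ]
      ring
    have e2 : 131072 * W * (g + 1) * (L ^ 2 * A + R) =
        (g + 1) * (131072 * Z + 131072 * (W * R)) := by
      rw [hZ]
      ring
    have e3 : R ≤ W * R := Nat.le_mul_of_pos_left _ (by omega)
    rw [e1, e2]
    apply Nat.mul_le_mul_left
    omega
  calc L * n1 ≤ L * (5 * S + (2 ^ 30 + 80 + W) * A + n2) := Nat.mul_le_mul_left _ h8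
    _ = 5 * L * S + L * ((2 ^ 30 + 80 + W) * A) + L * n2 := by ring
    _ ≤ 5 * L * S + 131072 * W * (g + 1) * (L ^ 2 * A + R) := by omega

/-- all rounds of the class -/
theorem F_card : Q.F.card ≤
    (Q.Wn k).card + ∑ g ∈ Finset.Icc (k + 2) (Nat.log 2 top), (Q.Ng g).card := by
  have hsub : Q.F ⊆ Q.F.filter (fun x => ¬ Q.HP x ∧ k ≤ Q.Dx x) ∪
      (Finset.Icc (k + 2) (Nat.log 2 top)).biUnion (fun g => Q.Ng g) := by
    intro x hx
    rw [Finset.mem_union]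
    by_cases h : Q.HP x
    · right
      have hN : x ∈ Q.Ng (Q.gf x) := by
        unfold Ng
        rw [Finset.mem_filter]
        exact ⟨hx, h, rfl⟩
      rw [Finset.mem_biUnion]
      refine ⟨Q.gf x, Finset.mem_Icc.2 ⟨Ng_k hN, ?_⟩, hN⟩
      unfold gf
      apply Nat.log_mono_right
      have h1 := Q.xw x hx
      have h2 := Q.wt x hx
      omega
    · have h1 := k_le_Dx hx
      exact Or.inl (Finset.mem_filter.2 ⟨hx, h, by omega⟩)
  calc Q.F.card ≤ _ := Finset.card_le_card hsub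
    _ ≤ _ := Finset.card_union_le _ _
    _ ≤ _ := Nat.add_le_add (Q.minc k) Finset.card_biUnion_le

end FG

/-- **The number of rounds of a class of scale `k`.** -/
theorem class_bound : ∃ C : ℕ, ∀ (ι : Type) (k top tm N : ℕ) (Q : FG ι k top tm N) (A : ℕ),
    1 ≤ A → A * 9 ^ k * Q.F.card ≤ C * 8 ^ k * (A ^ 2 * (top + N) + Q.RT.card) := by
  obtain ⟨K, hK⟩ : ∃ K, K = 2 ^ (g0 + 22) := ⟨_, rfl⟩
  refine ⟨544 * K + 32, ?_⟩
  intro ι k top tm N Q A hA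
  obtain ⟨n, hn⟩ : ∃ n, n = top + N := ⟨_, rfl⟩
  -- the recursion
  have hG : ∀ a, Finset.Ico a (Nat.log 2 top + 1) = Finset.Icc a (Nat.log 2 top) := by
    intro a
    ext x
    simp only [Finset.mem_Ico, Finset.mem_Icc]
    omega
  have h1 := ari2 K 5 g0 (by unfold g0; norm_num) (2 * n) Q.RT.card A
    (Nat.log 2 top + 1) k (fun g => (Q.Ng g).card) hA
    (by
      intro g hg
      rw [Finset.card_eq_zero, Finset.eq_empty_iff_forall_notMem]
      intro x hx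
      have := FG.Ng_k hx
      omega)
    (by
      intro g _ hg L hL
      have h2 := Q.level g L hL
      rw [← hG, ← hK, ← hn] at h2
      rcases Nat.eq_zero_or_pos top with h0 | h0
      · -- no rounds
        have h1 : (Q.Ng g).card = 0 := by
          rw [Finset.card_eq_zero, Finset.eq_empty_iff_forall_notMem]
          intro x hx
          have h2 := Q.xw x (FG.Ng_F hx)
          have h3 := Q.wt x (FG.Ng_F hx)
          omega
        rw [h1]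
        simp
      have h3 : 2 ^ g ≤ top := Nat.pow_le_of_le_log (by omega) (by omega)
      have h3' : 2 ^ (g / 2) ≤ 2 ^ g := Nat.pow_le_pow_right (by norm_num) (Nat.div_le_self _ _)
      have h4 : (n / 2 ^ (g / 2) + 1) * 2 ^ (g / 2) ≤ 2 * n := by
        have := Nat.div_mul_le_self n (2 ^ (g / 2))
        have e : (n / 2 ^ (g / 2) + 1) * 2 ^ (g / 2) = n / 2 ^ (g / 2) * 2 ^ (g / 2) + 2 ^ (g / 2) := by
          ring
        omega
      obtain ⟨Sg, hSg⟩ : ∃ s', s' = ∑ R ∈ Finset.Ico (g + g0) (Nat.log 2 top + 1),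
        (Q.Ng R).card := ⟨_, rfl⟩
      rw [← hSg] at h2 ⊢
      calc L * 2 ^ (g / 2) * (Q.Ng g).card = 2 ^ (g / 2) * (L * (Q.Ng g).card) := by ring
        _ ≤ 2 ^ (g / 2) * (5 * L * Sg + K * (g + 1) * (L ^ 2 * (n / 2 ^ (g / 2) + 1) + Q.RT.card)) :=
          Nat.mul_le_mul_left _ h2
        _ = K * (g + 1) * (L ^ 2 * ((n / 2 ^ (g / 2) + 1) * 2 ^ (g / 2)) + Q.RT.card * 2 ^ (g / 2)) +
            L * 2 ^ (g / 2) * (5 * Sg) := by ring
        _ ≤ K * (g + 1) * (L ^ 2 * (2 * n) + Q.RT.card * 2 ^ (g / 2)) +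
            L * 2 ^ (g / 2) * (5 * Sg) := by
          gcongr
        _ = K * (g + 1) * (2 * n * L ^ 2 + Q.RT.card * 2 ^ (g / 2)) +
            L * 2 ^ (g / 2) * (5 * Sg) := by ring)
  have h2 := Q.F_card
  have h3 := Q.Wn_card k
  have h4 : ∑ g ∈ Finset.Icc (k + 2) (Nat.log 2 top), (Q.Ng g).card ≤
      ∑ g ∈ Finset.range (Nat.log 2 top + 1), (Q.Ng g).card := by
    apply Finset.sum_le_sum_of_subset
    intro x hx
    simp only [Finset.mem_Icc, Finset.mem_range] at hx ⊢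
    omega
  obtain ⟨T, hT⟩ : ∃ T, T = ∑ g ∈ Finset.range (Nat.log 2 top + 1), (Q.Ng g).card := ⟨_, rfl⟩
  obtain ⟨W, hW⟩ : ∃ W, W = (Q.Wn k).card := ⟨_, rfl⟩
  rw [← hT] at h1 h4
  rw [← hW] at h2 h3
  rw [← hn]
  have h5 : Q.F.card ≤ W + T := by omega
  -- the windows
  have h6 : A * 9 ^ k * W ≤ 32 * 8 ^ k * (A ^ 2 * n) := by
    have h7 : 9 ^ k ≤ 2 * 2 ^ (k / 2) * 8 ^ k := by
      have h8 : (9 ^ k) ^ 2 ≤ (2 * 2 ^ (k / 2) * 8 ^ k) ^ 2 := by
        have e1 : (9 ^ k) ^ 2 = 81 ^ k := by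
          rw [← pow_mul, mul_comm k 2, pow_mul]
          norm_num
        have e2 : (2 * 2 ^ (k / 2) * 8 ^ k) ^ 2 = 4 * 2 ^ (2 * (k / 2)) * 64 ^ k := by
          rw [mul_pow, mul_pow, ← pow_mul, ← pow_mul, mul_comm (k / 2) 2, mul_comm k 2, pow_mul 8 2 k]
          norm_num
        rw [e1, e2]
        have e3 : 2 ^ k ≤ 4 * 2 ^ (2 * (k / 2)) := by
          rw [show (4 : ℕ) = 2 ^ 2 by norm_num, ← pow_add]
          exact Nat.pow_le_pow_right (by norm_num) (by omega)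
        calc 81 ^ k ≤ 128 ^ k := Nat.pow_le_pow_left (by norm_num) k
          _ = 2 ^ k * 64 ^ k := by rw [← mul_pow]; norm_num
          _ ≤ _ := Nat.mul_le_mul_right _ e3
      exact (Nat.pow_le_pow_iff_left (by norm_num)).1 h8
    calc A * 9 ^ k * W ≤ A * (2 * 2 ^ (k / 2) * 8 ^ k) * W := by gcongr
      _ = 2 * A * 8 ^ k * (2 ^ (k / 2) * W) := by ring
      _ ≤ 2 * A * 8 ^ k * (16 * N) := Nat.mul_le_mul_left _ h3
      _ ≤ 2 * A * 8 ^ k * (16 * n) := by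
          apply Nat.mul_le_mul_left
          omega
      _ ≤ 2 * A ^ 2 * 8 ^ k * (16 * n) := by
          apply Nat.mul_le_mul_right
          apply Nat.mul_le_mul_right
          nlinarith
      _ = 32 * 8 ^ k * (A ^ 2 * n) := by ring
  -- the levels
  have h8 : A * 9 ^ k * T ≤ 544 * K * 8 ^ k * (A ^ 2 * n + Q.RT.card) := by
    have h9 : 0 < 8 ^ k := by positivity
    apply Nat.le_of_mul_le_mul_left _ h9
    have h10 : 9 ^ k * 7 ^ k ≤ 8 ^ k * 8 ^ k := by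
      rw [← mul_pow, ← mul_pow]
      exact Nat.pow_le_pow_left (by norm_num) k
    calc 8 ^ k * (A * 9 ^ k * T) = 9 ^ k * (A * 8 ^ k * T) := by ring
      _ ≤ 9 ^ k * (272 * K * 7 ^ k * (A ^ 2 * (2 * n) + Q.RT.card)) :=
          Nat.mul_le_mul_left _ h1
      _ = (9 ^ k * 7 ^ k) * (272 * K * (A ^ 2 * (2 * n) + Q.RT.card)) := by ring
      _ ≤ (8 ^ k * 8 ^ k) * (272 * K * (A ^ 2 * (2 * n) + Q.RT.card)) :=
          Nat.mul_le_mul_right _ h10
      _ ≤ (8 ^ k * 8 ^ k) * (544 * K * (A ^ 2 * n + Q.RT.card)) := by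
          apply Nat.mul_le_mul_left
          nlinarith [Nat.zero_le (K * Q.RT.card)]
      _ = 8 ^ k * (544 * K * 8 ^ k * (A ^ 2 * n + Q.RT.card)) := by ring
  calc A * 9 ^ k * Q.F.card ≤ A * 9 ^ k * (W + T) := Nat.mul_le_mul_left _ h5
    _ = A * 9 ^ k * W + A * 9 ^ k * T := by ring
    _ ≤ 32 * 8 ^ k * (A ^ 2 * n) + 544 * K * 8 ^ k * (A ^ 2 * n + Q.RT.card) :=
        add_le_add h6 h8
    _ ≤ (544 * K + 32) * 8 ^ k * (A ^ 2 * n + Q.RT.card) := by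
        nlinarith [Nat.zero_le (32 * 8 ^ k * Q.RT.card)]

end Pool.Agent.SplGd
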