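import Pool.Agent.SplGd.GOld
import Pool.Agent.SplTr.HotB

set_option autoImplicit false

/-!
# Section 2.2 - 2.4: hot nodes, base kills, rounds
-/

namespace Pool.Agent.SplGd

open Pool.Agent.SplLog Pool.Agent.SplLs Pool.Agent.SplDq Pool.Agent.SplTr
open scoped Classical

variable {S : Sys} {s t u v w g p τ τ' : ℕ}

/-- `g` made a left kill, and since then all its events are left keeps. -/
def HotV (S : Sys) (t g : ℕ) : Prop :=
  ∃ u, u < t ∧ (∃ w, S.Kl u w g) ∧ ∀ x, u < x → x < t → S.E x g → S.Kp x g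

/-- Base kills. -/
def BaseV (S : Sys) (t g : ℕ) : Prop := (∃ p, S.Kl t g p) ∧ ¬ HotV S t g

/-- Kills of type b: hot victim, killer not hot. -/
def TbV (S : Sys) (t g : ℕ) : Prop := ∃ p, S.Kl t g p ∧ HotV S t g ∧ ¬ HotV S t p

-- MODULE ha  (M)
theorem hot_old (h : HotV S t g) (hR : S.R t g) : OldG S t g := by
  obtain ⟨u, hu, ⟨w, hw⟩, hx⟩ := h
  have hKu := (Sys.kl_facts hw).1
  obtain ⟨τ, h1, ⟨h2, h3⟩, h4⟩ := Sys.exists_prev (P := fun x => u ≤ x ∧ S.E x g)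
    ⟨u, hu, le_rfl, Sys.R_E hKu.1⟩
  refine ⟨τ, hR, h1, ?_, ?_⟩
  · rcases Nat.eq_or_lt_of_le h2 with h5 | h5
    · rw [← h5]
      exact hKu
    · exact hx τ h5 h1 h3
  · intro x hx1 hx2 hE
    exact h4 x (by omega) hx2 ⟨by omega, hE⟩

private theorem ha_up (h : ¬ HotV S t g) (h' : HotV S (t + 1) g) : ∃ w, S.Kl t w g := by
  obtain ⟨u, hu, hw, hx⟩ := h'
  rcases Nat.lt_succ_iff_lt_or_eq.1 hu with h1 | h1
  · exact absurd ⟨u, h1, hw, fun x h2 h3 => hx x h2 (by omega)⟩ h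
  · rw [h1] at hw
    exact hw

private theorem ha_down (h : ∃ p, S.Kl t g p) : ¬ HotV S (t + 1) g := by
  rintro ⟨u, hu, ⟨w, hw⟩, hx⟩
  obtain ⟨p, hp⟩ := h
  rcases Nat.lt_succ_iff_lt_or_eq.1 hu with h1 | h1
  · exact Sys.not_kp_kl (hx t h1 (Nat.lt_succ_self t) (Sys.R_E hp.1)) hp
  · rw [h1] at hw
    exact Sys.not_kp_kl (Sys.kl_facts hw).1 hp

private theorem ha_le (S : Sys) :
    S.cnt (fun t g => (∃ p, S.Kl t g p) ∧ HotV S t g) ≤
      S.cnt (fun t v => (∃ w, S.Kl t w v) ∧ ¬ HotV S t v) := by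
  rw [Th.cnt_sum', Th.cnt_sum']
  apply Finset.sum_le_sum
  intro v _
  obtain ⟨U, hU⟩ : ∃ U : ℕ → Prop, ∀ t, U t ↔ ¬ HotV S t v ∧ HotV S (t + 1) v :=
    ⟨_, fun _ => Iff.rfl⟩
  obtain ⟨D, hD⟩ : ∃ D : ℕ → Prop, ∀ t, D t ↔ HotV S t v ∧ ¬ HotV S (t + 1) v :=
    ⟨_, fun _ => Iff.rfl⟩
  obtain ⟨f, hf⟩ : ∃ f : ℕ → Prop, ∀ t, f t ↔ HotV S t v := ⟨_, fun _ => Iff.rfl⟩
  have h := Th.up_down f U D (fun t => by rw [hU, hf, hf]) (fun t => by rw [hD, hf, hf]) S.m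
  have h0 : ¬ f 0 := by
    rw [hf]
    rintro ⟨u, hu, _⟩
    omega
  have h1 : ((Finset.range S.m).filter (fun t => (∃ p, S.Kl t v p) ∧ HotV S t v)).card ≤
      ((Finset.range S.m).filter (fun t => D t)).card := by
    apply Finset.card_le_card
    intro t ht
    rw [Finset.mem_filter] at ht ⊢
    exact ⟨ht.1, (hD t).2 ⟨ht.2.2, ha_down ht.2.1⟩⟩
  have h2 : ((Finset.range S.m).filter (fun t => U t)).card ≤
      ((Finset.range S.m).filter (fun t => (∃ w, S.Kl t w v) ∧ ¬ HotV S t v)).card := by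
    apply Finset.card_le_card
    intro t ht
    rw [Finset.mem_filter] at ht ⊢
    have h3 := (hU t).1 ht.2
    exact ⟨ht.1, ha_up h3.1 h3.2, h3.1⟩
  rw [if_neg h0] at h
  convert h1.trans ((show _ ≤ _ by omega).trans h2)

/-- (2.2) -/
theorem nr_le (S : Sys) : S.NR ≤ 2 * S.cnt (BaseV S) + S.cnt (TbV S) := by
  have h1 : S.NR ≤ S.cnt (BaseV S) + S.cnt (fun t g => (∃ p, S.Kl t g p) ∧ HotV S t g) := by
    unfold Sys.NR
    refine Th.cnt_or_le S ?_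
    intro t g h
    by_cases hh : HotV S t g
    · exact Or.inr ⟨h, hh⟩
    · exact Or.inl ⟨h, hh⟩
  have h2 := ha_le S
  have h3 := Ht.killer_victim S (fun t v => ¬ HotV S t v)
  have h4 : S.cnt (fun t g => ∃ p, S.Kl t g p ∧ ¬ HotV S t p) ≤
      S.cnt (BaseV S) + S.cnt (TbV S) := by
    refine Th.cnt_or_le S ?_
    rintro t g ⟨p, h5, h6⟩
    by_cases hh : HotV S t g
    · exact Or.inr ⟨p, h5, hh, h6⟩
    · exact Or.inl ⟨⟨p, h5⟩, hh⟩
  omega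
-- END ha

-- MODULE hb  (M)
/-- The parent of the old right child of the request is the lowest kept node. -/
private theorem hb_low (hτ : τ < S.m) (hp : p ∈ S.K) (hX : S.X τ < p) (hR : ¬ S.R τ p)
    (hl : S.lam (τ + 1) p = S.X τ) (hr : S.rho (τ + 1) p = g) :
    ∀ g', S.Kp τ g' → g ≤ g' := by
  intro g' hg'
  have h1 := not_R hτ hp hX hR
  have h2 := hg'.1.2.1
  have h3 := hg'.1.2.2.1
  have h4 := hg'.1.2.2.2
  have h5 := S.lt_rho τ hτ.le g' h2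
  by_contra hlt
  rcases Nat.lt_trichotomy g' p with h | h | h
  · rcases S.lamin τ hτ.le g' h2 p hp h with c | c | c <;> omega
  · rw [h] at hg'
    exact hR hg'.1
  · rcases S.lamin τ hτ.le p hp g' h2 h with c | c | c <;> omega

/-- (2.3), the cases of a kill of type b.  `τ`: stamp of `g`. -/
theorem tb_cases (h : TbV S t g) : ∃ τ p, S.Kl t g p ∧ Stp S τ t g ∧
    -- `p` is the old right child of the request `τ`, `g` the lowest kept node
    ((S.NE p τ t ∧ ∀ g', S.Kp τ g' → g ≤ g') ∨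
    -- `p` is an old non-killing keep at `τ`
    (OldG S τ p ∧ (¬ ∃ x, S.Kl τ p x) ∧ ¬ S.Kl τ (S.rho τ p) p ∧ S.NE p (τ + 1) t) ∨
    -- `g` is the lowest node of its block at `τ`
    (∃ τ', Stp S τ' τ g ∧ ∀ g', Stp S τ' τ g' → g ≤ g') ∨
    -- `g` kills a node `x` at `τ`, and `x` is old and `g` is the old right child of its stamp
    (∃ x τ', S.Kl τ x g ∧ Stp S τ' τ x ∧ ∀ g', S.Kp τ' g' → x ≤ g') ∨
    -- a base kill with killer `g`
    (∃ x, S.Kl τ x g ∧ BaseV S τ x)) := by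
  obtain ⟨p, hk, hh, hnp⟩ := h
  have hR := hk.1
  have ht : t < S.m := hR.1
  have hg : g ∈ S.K := hR.2.1
  obtain ⟨τ, hst⟩ := hot_old hh hR
  have hst' := hst
  obtain ⟨_, hτ, hkp, hNE⟩ := hst
  have hτm : τ < S.m := hkp.1.1
  have hkf := Sys.kl_facts hk
  have hp : p ∈ S.K := hkf.1.1.2.1
  have hlp := S.lam_lt t ht.le p hp
  have hgr := S.lt_rho t ht.le g hg
  have hNp : S.NE p (τ + 1) t := Sys.stamp ht.le hp hg (by omega) (by omega) hNE
  have hc := Sys.NE_const hg (show τ + 1 ≤ t by omega) ht.le hNE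
  have hc' := Sys.NE_const hp (show τ + 1 ≤ t by omega) ht.le hNp
  have hl := hkp.2
  have hlp' : S.lam (τ + 1) p = S.X τ := by omega
  have hrp' : S.rho (τ + 1) p = g := by omega
  have hXp : S.X τ < p := by
    have := S.lam_lt (τ + 1) hτm p hp
    omega
  refine ⟨τ, p, hk, hst', ?_⟩
  by_cases hRp : S.R τ p
  · have hKp : S.Kp τ p := ⟨hRp, hlp'⟩
    have hnk : ¬ ∃ x, S.Kl τ p x := by
      rintro ⟨x, hx⟩
      exact Sys.not_kp_kl hKp hx
    have hnr : ∀ w, ¬ S.Kl τ w p := by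
      intro w hw
      apply hnp
      exact ⟨τ, hτ, ⟨w, hw⟩, fun x hx1 hx2 hE => absurd hE (hNp x (by omega) hx2)⟩
    have hrp : S.rho τ p = g := by
      rcases R_cases hRp with c | c | ⟨q, c, _⟩
      · omega
      · exact absurd c.2.1 (hnr _)
      · exact absurd ⟨q, c⟩ hnk
    by_cases hop : OldG S τ p
    · exact Or.inr (Or.inl ⟨hop, hnk, hnr _, hNp⟩)
    · by_cases hog : OldG S τ g
      · right; right; left
        obtain ⟨τ', h'⟩ := hog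
        refine ⟨τ', h', ?_⟩
        intro g' hg'
        by_contra hlt
        apply hop
        refine ⟨τ', Stp_mid hg' h' hRp ?_ ?_⟩
        · by_contra hc2
          have := (Sys.R_above hRp hg'.1 (by omega)).1
          omega
        · have := R_rho hRp
          omega
      · obtain ⟨u, hu, ⟨w, hw⟩, hx⟩ := hh
        have hnh : ¬ HotV S τ g := fun h => hog (hot_old h hkp.1)
        have huτ : u = τ := by
          rcases Nat.lt_trichotomy u τ with h | h | h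
          · exact absurd ⟨u, h, ⟨w, hw⟩, fun x h1 h2 => hx x h1 (by omega)⟩ hnh
          · exact h
          · exact absurd (Sys.R_E (Sys.kl_facts hw).1.1) (hNE u (by omega) hu)
        subst huτ
        right; right; right
        by_cases how : OldG S u w
        · left
          obtain ⟨τ', h'⟩ := how
          refine ⟨w, τ', hw, h', ?_⟩
          have hwf := Sys.kl_facts hw
          have hwK : w ∈ S.K := hw.1.2.1
          have l1 := S.lam_lt u hτm.le g hg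
          have l2 := S.lt_rho u hτm.le w hwK
          have hNg : S.NE g (τ' + 1) u :=
            Sys.stamp hτm.le hg hwK (by omega) (by omega) h'.2.2.2
          have k1 := Sys.NE_const hwK (show τ' + 1 ≤ u from h'.2.1) hτm.le h'.2.2.2
          have k2 := Sys.NE_const hg (show τ' + 1 ≤ u from h'.2.1) hτm.le hNg
          have k3 := h'.2.2.1.2
          have k4 : τ' < S.m := h'.2.2.1.1.1
          have k5 := S.lam_lt (τ' + 1) k4 g hg
          refine hb_low k4 hg (by omega) ?_ (by omega) (by omega)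
          intro hRg
          exact hog ⟨τ', hkp.1, h'.2.1, ⟨hRg, by omega⟩, hNg⟩
        · right
          exact ⟨w, hw, ⟨g, hw⟩, fun h => how (hot_old h hw.1)⟩
  · left
    refine ⟨?_, hb_low hτm hp hXp hRp hlp' hrp'⟩
    intro x hx1 hx2 hE
    rcases Nat.eq_or_lt_of_le hx1 with h | h
    · rw [← h] at hE
      rcases hE with hE | hE | hE
      · exact hRp hE
      · have := hE.2.2.1
        omega
      · have := hE.2.2
        omega
    · exact hNp x (by omega) hx2 hE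
-- END hb

-- MODULE hc  (M)
private theorem hc_ev {t' : ℕ} (h1 : s < t) (h2 : s < t') (h3 : S.E t g) (h4 : S.E t' g)
    (h5 : S.NE g (s + 1) t) (h6 : S.NE g (s + 1) t') : t = t' := by
  rcases Nat.lt_trichotomy t t' with h | h | h
  · exact absurd h3 (h6 t (by omega) h)
  · exact h
  · exact absurd h4 (h5 t' (by omega) h)

private theorem hc_next {t' : ℕ} (h : Stp S τ t g) (h' : Stp S τ t' g) : t = t' :=
  hc_ev h.2.1 h'.2.1 (Sys.R_E h.1) (Sys.R_E h'.1) h.2.2.2 h'.2.2.2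

/-- (2.3) -/
theorem tb_le (hT : Thr S) : S.cnt (TbV S) ≤ S.cnt (BaseV S) + 2 * S.m + 3 * (blks S).card := by
  set A1 : ℕ → ℕ → Prop := fun t g => ∃ τ, Stp S τ t g ∧ ∀ g', S.Kp τ g' → g ≤ g' with hA1
  set A2 : ℕ → ℕ → Prop := fun t g => ∃ τ p, S.Kl t g p ∧ OldG S τ p ∧ (¬ ∃ x, S.Kl τ p x) ∧
    ¬ S.Kl τ (S.rho τ p) p ∧ S.NE p (τ + 1) t ∧ τ < t with hA2
  set A3 : ℕ → ℕ → Prop := fun t g => ∃ τ τ', Stp S τ t g ∧ Stp S τ' τ g ∧
    ∀ g', Stp S τ' τ g' → g ≤ g' with hA3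
  set A4 : ℕ → ℕ → Prop := fun t g => ∃ τ x τ', Stp S τ t g ∧ S.Kl τ x g ∧ Stp S τ' τ x ∧
    ∀ g', S.Kp τ' g' → x ≤ g' with hA4
  set A5 : ℕ → ℕ → Prop := fun t g => ∃ τ x, Stp S τ t g ∧ S.Kl τ x g ∧ BaseV S τ x with hA5
  have h1 : S.cnt (TbV S) ≤ S.cnt A1 + S.cnt (fun t g => A2 t g ∨ A3 t g ∨ A4 t g ∨ A5 t g) := by
    refine Th.cnt_or_le S ?_
    intro t g h
    obtain ⟨τ, p, hk, hst, c | c | ⟨τ', c⟩ | ⟨x, τ', c1, c2, c3⟩ | ⟨x, c1, c2⟩⟩ := tb_cases h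
    · exact Or.inl ⟨τ, hst, c.2⟩
    · exact Or.inr (Or.inl ⟨τ, p, hk, c.1, c.2.1, c.2.2.1, c.2.2.2, hst.2.1⟩)
    · exact Or.inr (Or.inr (Or.inl ⟨τ, τ', hst, c⟩))
    · exact Or.inr (Or.inr (Or.inr (Or.inl ⟨τ, x, τ', hst, c1, c2, c3⟩)))
    · exact Or.inr (Or.inr (Or.inr (Or.inr ⟨τ, x, hst, c1, c2⟩)))
  have h2 : S.cnt (fun t g => A2 t g ∨ A3 t g ∨ A4 t g ∨ A5 t g) ≤ S.cnt A2 +
      S.cnt (fun t g => A3 t g ∨ A4 t g ∨ A5 t g) := Th.cnt_or_le S (fun _ _ h => h)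
  have h3 : S.cnt (fun t g => A3 t g ∨ A4 t g ∨ A5 t g) ≤ S.cnt A3 +
      S.cnt (fun t g => A4 t g ∨ A5 t g) := Th.cnt_or_le S (fun _ _ h => h)
  have h4 : S.cnt (fun t g => A4 t g ∨ A5 t g) ≤ S.cnt A4 + S.cnt A5 :=
    Th.cnt_or_le S (fun _ _ h => h)
  have k1 : S.cnt A1 ≤ S.m := by
    have := Ht.hb_rel (S := S) (P := A1) (Finset.range S.m)
      (fun t g τ => Stp S τ t g ∧ ∀ g', S.Kp τ g' → g ≤ g') ?_ ?_
    · rwa [Finset.card_range] at this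
    · rintro t g ⟨τ, c1, c2⟩
      exact ⟨τ, Finset.mem_range.2 c1.2.2.1.1.1, c1, c2⟩
    · rintro t g t' g' τ _ _ ⟨c1, c2⟩ ⟨d1, d2⟩
      have e1 := c2 _ d1.2.2.1
      have e2 := d2 _ c1.2.2.1
      have e3 : g = g' := by omega
      subst e3
      exact ⟨hc_next c1 d1, rfl⟩
  have k2 : S.cnt A2 ≤ 2 * (blks S).card := by
    have e := oldFree S hT
    refine le_trans ?_ e
    refine Ht.hb_rel (S := S) (P := A2) (S.set (fun t v => OldG S t v ∧ (¬ ∃ p, S.Kl t v p) ∧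
      ¬ S.Kl t (S.rho t v) v)) (fun t g z => S.Kl t g z.2 ∧ S.NE z.2 (z.1 + 1) t ∧ z.1 < t) ?_ ?_
    · rintro t g ⟨τ, p, c1, c2, c3, c4, c5, c6⟩
      refine ⟨(τ, p), ?_, c1, c5, c6⟩
      rw [Sys.mem_set]
      obtain ⟨τ', h'⟩ := id c2
      exact ⟨h'.1.1, h'.1.2.1, c2, c3, c4⟩
    · rintro t g t' g' z _ _ ⟨c1, c2, c3⟩ ⟨d1, d2, d3⟩
      have e1 := hc_ev c3 d3 (Sys.R_E (kl_R' c1)) (Sys.R_E (kl_R' d1)) c2 d2
      subst e1
      exact ⟨rfl, (kl_rho c1).symm.trans (kl_rho d1)⟩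
  have k3 : S.cnt A3 ≤ (blks S).card := by
    refine Ht.hb_rel (S := S) (P := A3) (blks S) (fun t g z => Stp S z.2 t g ∧
      Stp S z.1 z.2 g ∧ ∀ g', Stp S z.1 z.2 g' → g ≤ g') ?_ ?_
    · rintro t g ⟨τ, τ', c1, c2, c3⟩
      refine ⟨(τ', τ), ?_, c1, c2, c3⟩
      unfold blks
      rw [Finset.mem_filter, Finset.mem_product, Finset.mem_range, Finset.mem_range]
      exact ⟨⟨c2.2.2.1.1.1, c2.1.1⟩, g, c2⟩
    · rintro t g t' g' z _ _ ⟨c1, c2, c3⟩ ⟨d1, d2, d3⟩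
      have e1 := c3 _ d2
      have e2 := d3 _ c2
      have e3 : g = g' := by omega
      subst e3
      exact ⟨hc_next c1 d1, rfl⟩
  have k4 : S.cnt A4 ≤ S.m := by
    have := Ht.hb_rel (S := S) (P := A4) (Finset.range S.m)
      (fun t g τ' => ∃ τ x, Stp S τ t g ∧ S.Kl τ x g ∧ Stp S τ' τ x ∧
        ∀ g', S.Kp τ' g' → x ≤ g') ?_ ?_
    · rwa [Finset.card_range] at this
    · rintro t g ⟨τ, x, τ', c1, c2, c3, c4⟩
      exact ⟨τ', Finset.mem_range.2 c3.2.2.1.1.1, τ, x, c1, c2, c3, c4⟩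
    · rintro t g t' g' τ' _ _ ⟨τ, x, c1, c2, c3, c4⟩ ⟨υ, y, d1, d2, d3, d4⟩
      have e1 := c4 _ d3.2.2.1
      have e2 := d4 _ c3.2.2.1
      have e3 : x = y := by omega
      subst e3
      have e4 := hc_next c3 d3
      subst e4
      have e5 : g = g' := c2.2.2.symm.trans d2.2.2
      subst e5
      exact ⟨hc_next c1 d1, rfl⟩
  have k5 : S.cnt A5 ≤ S.cnt (BaseV S) := by
    refine Ht.hb_rel (S := S) (P := A5) (S.set (BaseV S)) (fun t g z => Stp S z.1 t g ∧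
      S.Kl z.1 z.2 g) ?_ ?_
    · rintro t g ⟨τ, x, c1, c2, c3⟩
      refine ⟨(τ, x), ?_, c1, c2⟩
      rw [Sys.mem_set]
      exact ⟨c2.1.1, c2.1.2.1, c3⟩
    · rintro t g t' g' z _ _ ⟨c1, c2⟩ ⟨d1, d2⟩
      have e5 : g = g' := c2.2.2.symm.trans d2.2.2
      subst e5
      exact ⟨hc_next c1 d1, rfl⟩
  omega
-- END hc

/-- `s` is the last event of `g` before `t` which is not a left keep. -/
def Rst (S : Sys) (s t g : ℕ) : Prop :=
  s < t ∧ S.E s g ∧ ¬ S.Kp s g ∧ ∀ u, s < u → u < t → S.E u g → S.Kp u g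

-- MODULE hd  (L)
/-- A keep which kills nothing does not change `rho`. -/
private theorem hd_step (h : S.Kp u g) (hn : ¬ ∃ w, S.Kl u w g) : S.rho (u + 1) g = S.rho u g := by
  obtain ⟨⟨hm, hg, hx, hl⟩, h2⟩ := h
  rcases S.right u hm g hg hx with h4 | ⟨_, _, h5 | ⟨c1, c2, c3, c4, c5⟩⟩ | ⟨_, p, c1, c2, c3, c4, _⟩
  · omega
  · exact h5
  · exact absurd ⟨S.rho u g, ⟨hm, c1, lt_trans hx (S.lt_rho u hm.le g hg), by omega⟩, hx, c3⟩ hn
  · omega

/-- The last left keeps of a key which is not hot kill nothing, so `rho` does not change. -/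
theorem rst_rho (hb : ¬ HotV S t g) (hr : Rst S s t g) (hu : s < u) (hut : u ≤ t) (ht : t ≤ S.m) :
    S.rho u g = S.rho (s + 1) g := by
  obtain ⟨h1, h2, h3, h4⟩ := hr
  induction u, hu using Nat.le_induction with
  | base => rfl
  | succ u hu ih =>
    have h5 := ih (by omega)
    by_cases hE : S.E u g
    · have hK := h4 u hu (by omega) hE
      have hn : ¬ ∃ w, S.Kl u w g := by
        intro hw
        exact hb ⟨u, by omega, hw, fun x hx1 hx2 hx3 => h4 x (by omega) hx2 hx3⟩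
      rw [hd_step hK hn, h5]
    · rw [(Sys.untouched (by omega) (Sys.E_mem h2) hE).2, h5]

/-- Between the reset and `t` the left end does not decrease. -/
private theorem hd_lam (hr : Rst S s t g) (hu : s < u) (hut : u ≤ t) (ht : t ≤ S.m) :
    S.lam (s + 1) g ≤ S.lam u g := by
  obtain ⟨h1, h2, h3, h4⟩ := hr
  induction u, hu using Nat.le_induction with
  | base => exact le_rfl
  | succ u hu ih =>
    have h5 := ih (by omega)
    by_cases hE : S.E u g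
    · have h6 := (Sys.R_mono (h4 u hu (by omega) hE).1).1
      omega
    · rw [(Sys.untouched (by omega) (Sys.E_mem h2) hE).1]
      exact h5

/-- (2.4) The round of a base kill. -/
theorem round (hk : S.Kl t g p) (hb : ¬ HotV S t g) (hr : Rst S s t g)
    (hs : (∃ q, S.Kl s g q) ∨ ∃ w, Kr S s g w) (h0 : 0 < S.lam (s + 1) g)
    (h1 : S.rho (s + 1) g < S.top)
    (hu : ∀ u u', s < u → u < t → s < u' → u' < t → S.E u g → S.E u' g → u = u') :
    ∃ r, Rg S r ∧ r.t = t ∧ r.g = g := by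
  have htm : t < S.m := hk.1.1
  have hgK : g ∈ S.K := hk.1.2.1
  have hst : s < t := hr.1
  have hrho : S.rho t g = S.rho (s + 1) g := rst_rho hb hr hst le_rfl htm.le
  have hlt : S.lam (s + 1) g ≤ S.lam t g := hd_lam hr hst le_rfl htm.le
  have hXt1 := hk.1.2.2.1
  have hXt2 := hk.1.2.2.2
  have hex : ∃ u, s < u ∧ S.lam (s + 1) g ≤ S.X u ∧ S.X u < g := ⟨t, hst, by omega, hXt1⟩
  obtain ⟨f1, f2, f3⟩ := Nat.find_spec hex
  have fmin : ∀ u, s < u → S.lam (s + 1) g ≤ S.X u → S.X u < g → Nat.find hex ≤ u :=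
    fun u a b c => Nat.find_min' hex ⟨a, b, c⟩
  have hrt : Nat.find hex ≤ t := fmin t hst (by omega) hXt1
  -- an event is not before the release
  have hev : ∀ u, s < u → u < t → S.E u g → Nat.find hex ≤ u := by
    intro u a1 a2 a3
    have hK := hr.2.2.2 u a1 a2 a3
    have hl := hd_lam hr a1 a2.le htm.le
    have hx := hK.1.2.2.2
    exact fmin u a1 (by omega) hK.1.2.2.1
  refine ⟨⟨t, g, p, S.rho t g, s, S.lam (s + 1) g, Nat.find hex⟩, ⟨hk, rfl, ?_, hst, ?_, h0, ?_, ?_,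
    f1, hrt, f2, f3, ?_⟩, rfl, rfl⟩
  · show S.rho t g < S.top
    omega
  · show (S.Kl s g (S.lam (s + 1) g) ∧ S.rho (s + 1) g = S.rho t g) ∨
      (Kr S s g (S.rho t g) ∧ S.lam (s + 1) g = S.lam (s + 1) g)
    rcases hs with ⟨q, hq⟩ | ⟨w, hw⟩
    · left
      have : S.lam (s + 1) g = q := hq.2.2
      rw [this]
      exact ⟨hq, hrho.symm⟩
    · right
      have : S.rho (s + 1) g = w := hw.2.2
      rw [hrho, this]
      exact ⟨hw, rfl⟩
  · intro u a1 a2 a3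
    refine ⟨hev u a1 a2 a3, hr.2.2.2 u a1 a2 a3, ?_⟩
    show S.rho (u + 1) g = S.rho t g
    rw [hrho]
    exact rst_rho hb hr (Nat.lt_succ_of_lt a1) a2 htm.le
  · intro u u' a1 a2 a3 a4 a5 a6
    exact hu u u' a1 a2 a3 a4 a5 a6
  · intro u a1 a2
    rintro ⟨a3, a4⟩
    have a2' : u < Nat.find hex := a2
    have a3' : S.lam (s + 1) g ≤ S.X u := a3
    have a4' : S.X u < S.rho t g := a4
    have a1' : s < u := a1
    have hg : g ≤ S.X u := by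
      by_contra hc
      have := fmin u a1' a3' (by omega)
      omega
    have hNE : S.NE g (s + 1) u := by
      intro x x1 x2 x3
      have := hev x x1 (by omega) x3
      omega
    have hc := Sys.NE_const hgK (show s + 1 ≤ u from a1') (by omega) hNE
    have hll := S.lam_lt u (by omega) g hgK
    have hE : S.E u g := (Sys.E_iff (by omega) hgK).2 ⟨by omega, by omega⟩
    have := hev u a1' (by omega) hE
    omega
-- END hd

-- MODULE hf  (M)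
theorem hf_uniq {s' t' : ℕ} (h : BaseV S t g) (hr : Rst S s' t' g) (hlt : t < t') : t ≤ s' := by
  by_contra hc
  obtain ⟨⟨p, hk⟩, -⟩ := h
  exact Sys.not_kp_kl (hr.2.2.2 t (by omega) hlt (Sys.R_E hk.1)) hk

/-- No reset. -/
theorem e1 (S : Sys) : S.cnt (fun t g => BaseV S t g ∧ ¬ ∃ s, Rst S s t g) ≤ S.top := by
  refine le_trans (Sys.cnt_le_of_inj S.K (fun _ g => g) (fun t v _ hv _ => hv) ?_) (Th.K_le S)
  rintro t v t' v' - - ⟨h1, h2⟩ - - ⟨h1', h2'⟩ he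
  have he' : v = v' := he
  subst he'
  have key : ∀ {t t' : ℕ}, BaseV S t v → (¬ ∃ s, Rst S s t' v) → ¬ t < t' := by
    intro t t' h1 h3 hlt
    obtain ⟨⟨p, hk⟩, -⟩ := h1
    obtain ⟨s, hs1, hs2, hs3⟩ := Sys.exists_prev (t := t')
      (P := fun y => S.E y v ∧ ¬ S.Kp y v) ⟨t, hlt, Sys.R_E hk.1, fun h => Sys.not_kp_kl h hk⟩
    refine h3 ⟨s, hs1, hs2.1, hs2.2, fun u hu1 hu2 hu3 => ?_⟩
    by_contra hc
    exact hs3 u hu1 hu2 ⟨hu3, hc⟩
  have a := key h1 h2'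
  have b := key h1' h2
  exact ⟨by omega, rfl⟩

/-- The reset is an access. -/
theorem e2 (S : Sys) : S.cnt (fun t g => BaseV S t g ∧ ∃ s, Rst S s t g ∧ S.Ac s g) ≤ S.m := by
  have := Ht.hb_rel (S := S) (P := fun t g => BaseV S t g ∧ ∃ s, Rst S s t g ∧ S.Ac s g)
    (Finset.range S.m) (fun t g s => Rst S s t g ∧ S.Ac s g) ?_ ?_
  · rwa [Finset.card_range] at this
  · rintro t g ⟨_, s, hs, hA⟩
    exact ⟨s, Finset.mem_range.2 hA.1, hs, hA⟩
  · rintro t g t' g' s ⟨h1, -⟩ ⟨h1', -⟩ ⟨hs, hA⟩ ⟨hs', hA'⟩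
    have hg : g = g' := hA.2.2.trans hA'.2.2.symm
    subst hg
    have a : ¬ t < t' := fun hlt => by
      have := hf_uniq h1 hs' hlt
      have := hs.1
      omega
    have b : ¬ t' < t := fun hlt => by
      have := hf_uniq h1' hs hlt
      have := hs'.1
      omega
    exact ⟨by omega, rfl⟩

/-- The reset is a right keep: the next event is a T-event. -/
theorem e3 (S : Sys) : S.cnt (fun t g => BaseV S t g ∧ ∃ s, Rst S s t g ∧ S.L s g ∧
    S.rho (s + 1) g = S.X s) ≤ TT S := by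
  refine le_trans ?_ (Nat.le_add_left (S.mir.cnt (TL S.mir)) _)
  refine Ht.hb_rel (S := S) (S.mir.set (TL S.mir)) (fun t g q => q.2 = S.top - g ∧
    ∃ s, Rst S s t g ∧ s < q.1 ∧ q.1 ≤ t) ?_ ?_
  · rintro t g ⟨⟨⟨p, hk⟩, -⟩, s, hs, hL, hX⟩
    have hg : g ∈ S.K := hk.1.2.1
    have hE : ∃ u, s < u ∧ S.E u g := ⟨t, hs.1, Sys.R_E hk.1⟩
    obtain ⟨u, hu, hu'⟩ : ∃ u, (s < u ∧ S.E u g) ∧ ∀ y, (s < y ∧ S.E y g) → u ≤ y :=
      ⟨Nat.find hE, Nat.find_spec hE, fun y hy => Nat.find_min' hE hy⟩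
    have hut : u ≤ t := hu' t ⟨hs.1, Sys.R_E hk.1⟩
    have hR : S.R u g := by
      rcases Nat.lt_or_ge u t with h | h
      · exact (hs.2.2.2 u hu.1 h hu.2).1
      · have : u = t := by omega
        subst this
        exact hk.1
    refine ⟨(u, S.top - g), Sys.mem_set.2 ⟨hR.1, Sys.mir_mem.2 ⟨g, hg, rfl⟩, ?_⟩, rfl, s, hs,
      hu.1, hut⟩
    refine ⟨(Sys.mir_L hg).2 hR, s, hu.1, ⟨(Sys.mir_R hg).2 hL, ?_⟩, (Sys.mir_NE hg).2 ?_⟩
    · rw [Sys.mir_lam hg, hX]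
      rfl
    · intro y hy1 hy2 hy3
      have := hu' y ⟨by omega, hy3⟩
      omega
  · rintro t g t' g' q ⟨h1, -⟩ ⟨h1', -⟩ ⟨hq, s, hs, hs1, hs2⟩ ⟨hq', s', hs', hs1', hs2'⟩
    obtain ⟨p, hk⟩ := h1.1
    obtain ⟨p', hk'⟩ := h1'.1
    have a1 : g < S.top := (S.key g hk.1.2.1).2
    have a2 : g' < S.top := (S.key g' hk'.1.2.1).2
    have hg : g = g' := by omega
    subst hg
    have a : ¬ t < t' := fun hlt => by
      have := hf_uniq h1 hs' hlt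
      omega
    have b : ¬ t' < t := fun hlt => by
      have := hf_uniq h1' hs hlt
      omega
    exact ⟨by omega, rfl⟩
-- END hf

-- MODULE hg  (M)
private theorem hg_rst {t' : ℕ} (h : Rst S s t g) (h' : Rst S s t' g) (hk : ∃ p, S.Kl t g p)
    (hk' : ∃ p, S.Kl t' g p) : t = t' := by
  obtain ⟨p, hk⟩ := hk
  obtain ⟨p', hk'⟩ := hk'
  rcases Nat.lt_trichotomy t t' with h1 | h1 | h1
  · exact (Sys.not_kp_kl (h'.2.2.2 t h.1 h1 (Sys.R_E hk.1)) hk).elim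
  · exact h1
  · exact (Sys.not_kp_kl (h.2.2.2 t' h'.1 h1 (Sys.R_E hk'.1)) hk').elim

/-- Two keeps after the reset: the last one is an old non-killing keep. -/
theorem e4 (S : Sys) (hT : Thr S) : S.cnt (fun t g => BaseV S t g ∧ ∃ s u u', Rst S s t g ∧
    s < u ∧ u < u' ∧ u' < t ∧ S.E u g ∧ S.E u' g) ≤ 2 * (blks S).card := by
  refine le_trans ?_ (oldFree S hT)
  refine Ht.hb_rel (S.set (fun t v => OldG S t v ∧ (¬ ∃ p, S.Kl t v p) ∧
    ¬ S.Kl t (S.rho t v) v)) (fun t g z => z.2 = g ∧ z.1 < t ∧ S.NE g (z.1 + 1) t) ?_ ?_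
  · rintro t g ⟨⟨⟨p, hk⟩, hnh⟩, s, u, u', hr, h1, h2, h3, h4, h5⟩
    obtain ⟨x, hx1, hx2, hx3⟩ := Sys.exists_prev (t := t) (P := fun y => S.E y g) ⟨u', h3, h5⟩
    have hux : u' ≤ x := by
      by_contra hc
      exact hx3 u' (by omega) h3 h5
    obtain ⟨y, hy1, hy2, hy3⟩ := Sys.exists_prev (t := x) (P := fun y => S.E y g)
      ⟨u, by omega, h4⟩
    have huy : u ≤ y := by
      by_contra hc
      exact hy3 u (by omega) (by omega) h4
    have kx := hr.2.2.2 x (by omega) hx1 hx2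
    have ky := hr.2.2.2 y (by omega) (by omega) hy2
    refine ⟨(x, g), ?_, rfl, hx1, fun z hz1 hz2 hz3 => hx3 z (by omega) hz2 hz3⟩
    rw [Sys.mem_set]
    refine ⟨Sys.E_lt hx2, Sys.E_mem hx2, ⟨y, kx.1, hy1, ky,
      fun z hz1 hz2 hz3 => hy3 z (by omega) hz2 hz3⟩, ?_, ?_⟩
    · rintro ⟨q, hq⟩
      exact Sys.not_kp_kl kx hq
    · intro hq
      exact hnh ⟨x, hx1, ⟨_, hq⟩, fun z hz1 hz2 hz3 => (hx3 z hz1 hz2 hz3).elim⟩
  · rintro t g t' g' z ⟨⟨⟨p, hk⟩, _⟩, _⟩ ⟨⟨⟨p', hk'⟩, _⟩, _⟩ ⟨h1, h2, h3⟩ ⟨h1', h2', h3'⟩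
    have hgg : g = g' := by omega
    subst hgg
    refine ⟨?_, rfl⟩
    rcases Nat.lt_trichotomy t t' with h | h | h
    · exact (h3' t (by omega) h (Sys.R_E hk.1)).elim
    · exact h
    · exact (h3 t' (by omega) h (Sys.R_E hk'.1)).elim

/-- Top kills: at most one per pass. -/
theorem e5 (S : Sys) : S.cnt (fun t g => BaseV S t g ∧ ∃ s, Rst S s t g ∧ (∃ q, S.Kl s g q) ∧
    S.rho (s + 1) g = S.top) ≤ S.m := by
  have := Ht.hb_rel (S := S) (P := fun t g => BaseV S t g ∧ ∃ s, Rst S s t g ∧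
    (∃ q, S.Kl s g q) ∧ S.rho (s + 1) g = S.top) (Finset.range S.m)
    (fun t g s => Rst S s t g ∧ (∃ q, S.Kl s g q) ∧ S.rho (s + 1) g = S.top) ?_ ?_
  · rwa [Finset.card_range] at this
  · rintro t g ⟨_, s, h1, h2, h3⟩
    exact ⟨s, Finset.mem_range.2 (Sys.E_lt h1.2.1), h1, h2, h3⟩
  · rintro t g t' g' s ⟨⟨hk, _⟩, _⟩ ⟨⟨hk', _⟩, _⟩ ⟨h1, ⟨q, h2⟩, h3⟩ ⟨h1', ⟨q', h2'⟩, h3'⟩
    rw [(Sys.kl_facts h2).2.2.2.2.2] at h3
    rw [(Sys.kl_facts h2').2.2.2.2.2] at h3'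
    have c1 := (S.key g h2.1.2.1).2
    have c2 := (S.key g' h2'.1.2.1).2
    have hgg : g = g' := by
      rcases Nat.lt_trichotomy g g' with h | h | h
      · have := (Sys.R_above h2.1 h2'.1 h).1
        omega
      · exact h
      · have := (Sys.R_above h2'.1 h2.1 h).1
        omega
    subst hgg
    exact ⟨hg_rst h1 h1' hk hk', rfl⟩

theorem e5' (S : Sys) : S.cnt (fun t g => BaseV S t g ∧ ∃ s, Rst S s t g ∧ (∃ w, Kr S s g w) ∧
    S.lam (s + 1) g = 0) ≤ S.m := by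
  have := Ht.hb_rel (S := S) (P := fun t g => BaseV S t g ∧ ∃ s, Rst S s t g ∧
    (∃ w, Kr S s g w) ∧ S.lam (s + 1) g = 0) (Finset.range S.m)
    (fun t g s => Rst S s t g ∧ (∃ w, Kr S s g w) ∧ S.lam (s + 1) g = 0) ?_ ?_
  · rwa [Finset.card_range] at this
  · rintro t g ⟨_, s, h1, h2, h3⟩
    exact ⟨s, Finset.mem_range.2 (Sys.E_lt h1.2.1), h1, h2, h3⟩
  · rintro t g t' g' s ⟨⟨hk, _⟩, _⟩ ⟨⟨hk', _⟩, _⟩ ⟨h1, ⟨q, h2⟩, h3⟩ ⟨h1', ⟨q', h2'⟩, h3'⟩
    rw [(kr_facts h2).2.2.2.2.2.2] at h3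
    rw [(kr_facts h2').2.2.2.2.2.2] at h3'
    have c1 := (S.key g h2.1.2.1).1
    have c2 := (S.key g' h2'.1.2.1).1
    have hgg : g = g' := by
      rcases Nat.lt_trichotomy g g' with h | h | h
      · have := (Sys.L_above h2.1 h2'.1 h).1
        omega
      · exact h
      · have := (Sys.L_above h2'.1 h2.1 h).1
        omega
    subst hgg
    exact ⟨hg_rst h1 h1' hk hk', rfl⟩
-- END hg

-- MODULE hh  (S)
/-- No later event. -/
theorem e6 (S : Sys) : S.cnt (fun t g => BaseV S t g ∧ ∀ u, t < u → ¬ S.E u g) ≤ S.top := by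
  refine le_trans ?_ (Th.K_le S)
  refine Ht.hb_rel S.K (fun _ v x => x = v) ?_ ?_
  · rintro t v ⟨⟨⟨p, h1⟩, _⟩, _⟩
    exact ⟨v, h1.1.2.1, rfl⟩
  · rintro t v t' v' x ⟨⟨⟨p, h1⟩, _⟩, h2⟩ ⟨⟨⟨p', h1'⟩, _⟩, h2'⟩ rfl h4
    subst h4
    refine ⟨?_, rfl⟩
    rcases Nat.lt_trichotomy t t' with h | h | h
    · exact (h2 t' h (Sys.R_E h1'.1)).elim
    · exact h
    · exact (h2' t h (Sys.R_E h1.1)).elim

/-- The next event is an access. -/
theorem e7 (S : Sys) : S.cnt (fun t g => BaseV S t g ∧ ∃ u, t < u ∧ S.Ac u g ∧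
    S.NE g (t + 1) u) ≤ S.m := by
  have := Ht.hb_rel (S := S) (P := fun t g => BaseV S t g ∧ ∃ u, t < u ∧ S.Ac u g ∧
    S.NE g (t + 1) u) (Finset.range S.m)
    (fun t g u => t < u ∧ S.Ac u g ∧ S.NE g (t + 1) u) ?_ ?_
  · rwa [Finset.card_range] at this
  · rintro t g ⟨_, u, h1, h2, h3⟩
    exact ⟨u, Finset.mem_range.2 h2.1, h1, h2, h3⟩
  · rintro t g t' g' u ⟨⟨⟨p, hk⟩, _⟩, _⟩ ⟨⟨⟨p', hk'⟩, _⟩, _⟩ ⟨h1, h2, h3⟩ ⟨h1', h2', h3'⟩
    have hgg : g = g' := by rw [h2.2.2, h2'.2.2]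
    subst hgg
    refine ⟨?_, rfl⟩
    rcases Nat.lt_trichotomy t t' with h | h | h
    · exact (h3 t' (by omega) h1' (Sys.R_E hk'.1)).elim
    · exact h
    · exact (h3' t (by omega) h1 (Sys.R_E hk.1)).elim
-- END hh

-- MODULE hi  (M): from hd - hh, blkLe, oldFree
/-- (2.4) -/
theorem base_le : ∃ C : ℕ, ∀ S : Sys, Thr S →
    S.cnt (BaseV S) ≤
      S.cnt (fun t g => ∃ r, Rg S r ∧ (Same S r ∨ Flip S r) ∧ r.t = t ∧ r.g = g) +
      C * (S.top + S.m + TT S) := by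
  refine ⟨8, ?_⟩
  intro S hT
  obtain ⟨D, hD⟩ : ∃ D : ℕ → ℕ → Prop, D = fun t g => ∃ r, Rg S r ∧ (Same S r ∨ Flip S r) ∧
    r.t = t ∧ r.g = g := ⟨_, rfl⟩
  obtain ⟨P1, hP1⟩ : ∃ P : ℕ → ℕ → Prop, P = fun t g => BaseV S t g ∧ ¬ ∃ s, Rst S s t g :=
    ⟨_, rfl⟩
  obtain ⟨P2, hP2⟩ : ∃ P : ℕ → ℕ → Prop, P = fun t g => BaseV S t g ∧ ∃ s, Rst S s t g ∧
    S.Ac s g := ⟨_, rfl⟩
  obtain ⟨P3, hP3⟩ : ∃ P : ℕ → ℕ → Prop, P = fun t g => BaseV S t g ∧ ∃ s, Rst S s t g ∧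
    S.L s g ∧ S.rho (s + 1) g = S.X s := ⟨_, rfl⟩
  obtain ⟨P4, hP4⟩ : ∃ P : ℕ → ℕ → Prop, P = fun t g => BaseV S t g ∧ ∃ s u u', Rst S s t g ∧
    s < u ∧ u < u' ∧ u' < t ∧ S.E u g ∧ S.E u' g := ⟨_, rfl⟩
  obtain ⟨P5, hP5⟩ : ∃ P : ℕ → ℕ → Prop, P = fun t g => BaseV S t g ∧ ∃ s, Rst S s t g ∧
    (∃ q, S.Kl s g q) ∧ S.rho (s + 1) g = S.top := ⟨_, rfl⟩
  obtain ⟨P6, hP6⟩ : ∃ P : ℕ → ℕ → Prop, P = fun t g => BaseV S t g ∧ ∃ s, Rst S s t g ∧
    (∃ w, Kr S s g w) ∧ S.lam (s + 1) g = 0 := ⟨_, rfl⟩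
  obtain ⟨P7, hP7⟩ : ∃ P : ℕ → ℕ → Prop, P = fun t g => BaseV S t g ∧ ∀ u, t < u →
    ¬ S.E u g := ⟨_, rfl⟩
  obtain ⟨P8, hP8⟩ : ∃ P : ℕ → ℕ → Prop, P = fun t g => BaseV S t g ∧ ∃ u, t < u ∧ S.Ac u g ∧
    S.NE g (t + 1) u := ⟨_, rfl⟩
  have k1 := e1 S
  have k2 := e2 S
  have k3 := e3 S
  have k4 := e4 S hT
  have k5 := e5 S
  have k6 := e5' S
  have k7 := e6 S
  have k8 := e7 S
  have k9 := blkLe S
  have k10 : S.cnt (TL S) ≤ TT S := Nat.le_add_right _ _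
  rw [← hP1] at k1
  rw [← hP2] at k2
  rw [← hP3] at k3
  rw [← hP4] at k4
  rw [← hP5] at k5
  rw [← hP6] at k6
  rw [← hP7] at k7
  rw [← hP8] at k8
  rw [← hD]
  have key : ∀ t v, BaseV S t v → D t v ∨ (P1 t v ∨ (P2 t v ∨ (P3 t v ∨ (P4 t v ∨ (P5 t v ∨
      (P6 t v ∨ (P7 t v ∨ P8 t v))))))) := by
    intro t g hB
    by_contra hc
    simp only [not_or] at hc
    obtain ⟨c0, c1, c2, c3, c4, c5, c6, c7, c8⟩ := hc
    rw [hP1] at c1
    rw [hP2] at c2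
    rw [hP3] at c3
    rw [hP4] at c4
    rw [hP5] at c5
    rw [hP6] at c6
    rw [hP7] at c7
    rw [hP8] at c8
    have h1 : ∃ s, Rst S s t g := by
      by_contra h
      exact c1 ⟨hB, h⟩
    obtain ⟨s, hs⟩ := h1
    obtain ⟨p, hk⟩ := hB.1
    have hg : g ∈ S.K := hk.1.2.1
    have hsm : s < S.m := Sys.E_lt hs.2.1
    have hsk : (∃ q, S.Kl s g q) ∨ ∃ w, Kr S s g w := by
      rcases hs.2.1 with h | h | h
      · rcases Sys.kp_or_kl h with h2 | h2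
        · exact absurd h2 hs.2.2.1
        · exact Or.inl h2
      · rcases LC h with h2 | h2 | ⟨w, h2⟩
        · exact absurd ⟨hB, s, hs, h, h2.1⟩ c3
        · exact absurd ⟨hB, s, hs, h, h2.1⟩ c3
        · exact Or.inr ⟨w, h2.1⟩
      · exact absurd ⟨hB, s, hs, h⟩ c2
    have h0 : 0 < S.lam (s + 1) g := by
      rcases hsk with ⟨q, h⟩ | h
      · have h2 := h.2.1
        have h3 := h.2.2
        omega
      · exact Nat.pos_of_ne_zero (fun h2 => c6 ⟨hB, s, hs, h, h2⟩)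
    have h1 : S.rho (s + 1) g < S.top := by
      rcases hsk with h | ⟨w, h⟩
      · exact lt_of_le_of_ne (S.rho_le_top hsm hg) (fun h2 => c5 ⟨hB, s, hs, h, h2⟩)
      · have h2 := h.2.1
        have h3 := h.2.2
        have h4 := (S.key _ (S.req s hsm)).2
        omega
    obtain ⟨r, hr1, hr2, hr3⟩ := round hk hB.2 hs hsk h0 h1 (by
      intro u u' hu1 hu2 hu3 hu4 hu5 hu6
      by_contra hne
      rcases Nat.lt_or_gt_of_ne hne with h | h
      · exact c4 ⟨hB, s, u, u', hs, hu1, h, hu4, hu5, hu6⟩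
      · exact c4 ⟨hB, s, u', u, hs, hu3, h, hu2, hu6, hu5⟩)
    apply c0
    rw [hD]
    refine ⟨r, hr1, ?_, hr2, hr3⟩
    have hex : ∃ u, t < u ∧ S.E u g := by
      by_contra h
      push Not at h
      exact c7 ⟨hB, h⟩
    obtain ⟨hy1, hy2⟩ := Nat.find_spec hex
    have hNE : S.NE g (t + 1) (Nat.find hex) :=
      fun z hz1 hz2 hz3 => Nat.find_min hex hz2 ⟨by omega, hz3⟩
    rcases hy2 with h | h | h
    · left
      exact ⟨Nat.find hex, by rw [hr2]; exact hy1, by rw [hr3]; exact h,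
        by rw [hr2, hr3]; exact hNE⟩
    · right
      exact ⟨Nat.find hex, by rw [hr2]; exact hy1, by rw [hr3]; exact h,
        by rw [hr2, hr3]; exact hNE⟩
    · exact absurd ⟨hB, Nat.find hex, hy1, h, hNE⟩ c8
  have f0 := Th.cnt_or_le S key
  have f1 := Th.cnt_or_le S (P := fun t v => P1 t v ∨ (P2 t v ∨ (P3 t v ∨ (P4 t v ∨ (P5 t v ∨
      (P6 t v ∨ (P7 t v ∨ P8 t v))))))) (fun t v h => h)
  have f2 := Th.cnt_or_le S (P := fun t v => P2 t v ∨ (P3 t v ∨ (P4 t v ∨ (P5 t v ∨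
      (P6 t v ∨ (P7 t v ∨ P8 t v)))))) (fun t v h => h)
  have f3 := Th.cnt_or_le S (P := fun t v => P3 t v ∨ (P4 t v ∨ (P5 t v ∨
      (P6 t v ∨ (P7 t v ∨ P8 t v))))) (fun t v h => h)
  have f4 := Th.cnt_or_le S (P := fun t v => P4 t v ∨ (P5 t v ∨
      (P6 t v ∨ (P7 t v ∨ P8 t v)))) (fun t v h => h)
  have f5 := Th.cnt_or_le S (P := fun t v => P5 t v ∨ (P6 t v ∨ (P7 t v ∨ P8 t v)))
    (fun t v h => h)
  have f6 := Th.cnt_or_le S (P := fun t v => P6 t v ∨ (P7 t v ∨ P8 t v)) (fun t v h => h)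
  have f7 := Th.cnt_or_le S (P := fun t v => P7 t v ∨ P8 t v) (fun t v h => h)
  omega

theorem hotG : HotG := by
  obtain ⟨C, hC⟩ := base_le
  refine ⟨3 * C + 8, ?_⟩
  intro S hT
  have h1 := nr_le S
  have h2 := tb_le hT
  have h3 := hC S hT
  have h4 := blkLe S
  have h5 : S.cnt (TL S) ≤ TT S := Nat.le_add_right _ _
  have h6 : (3 * C + 8) * (S.top + S.m + TT S) =
      3 * (C * (S.top + S.m + TT S)) + 8 * (S.top + S.m + TT S) := by
    ring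
  omega
-- END hi

end Pool.Agent.SplGd
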