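import Pool.Agent.SplGd.RapG

set_option autoImplicit false

/-!
# Section 4: near rounds with an OK predecessor

`d = p - X t`, `i = log2 d`, cell of scale `i - 1` of the kill, resolution `2 ^ (i - 7)` (`GM = 2^6`).
-/

namespace Pool.Agent.SplGd

open Pool.Agent.SplLog Pool.Agent.SplLs Pool.Agent.SplDq Pool.Agent.SplTr
open scoped Classical

variable {S : Sys} {s t u v w g p q μ i : ℕ} {r r' r'' : Rnd}

-- MODULE na  (M): basic facts of rounds (port of SplTr.Rap without `Spl`)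
theorem Rg.lam_s2 (h : Rg S r) : S.lam (r.s + 1) r.g = r.q ∧ S.rho (r.s + 1) r.g = r.h := by
  rcases h.sk with h1 | h1
  · exact ⟨h1.1.2.2, h1.2⟩
  · exact ⟨h1.2, h1.1.2.2⟩

/-- The ends while the round is alive. -/
theorem Rg.alv (h : Rg S r) (h1 : r.s < u) (h2 : u ≤ r.rel) :
    S.lam u r.g = r.q ∧ S.rho u r.g = r.h := by
  have h3 := h.relm
  have h5 := h.rt
  have h6 : S.NE r.g (r.s + 1) u := by
    intro x hx1 hx2 hx3
    have := (h.ne x (by omega) (by omega) hx3).1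
    omega
  have h4 := Sys.NE_const (S := S) h.gK (show r.s + 1 ≤ u by omega) (by omega) h6
  rw [h4.1, h4.2]
  exact h.lam_s2

/-- `[g, h)` is not requested between `s` and the kill. -/
theorem Rg.nh (h : Rg S r) (h1 : r.s < u) (h2 : u ≤ r.t) : ¬ (r.g ≤ S.X u ∧ S.X u < r.h) := by
  rintro ⟨h3, h4⟩
  have h5 := h.tm
  have h6 := h.rho_aft h1 h2
  have h7 := S.lam_lt u (by omega) r.g h.gK
  have h8 : S.E u r.g := (Sys.E_iff (show u < S.m by omega) h.gK).2 ⟨by omega, by omega⟩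
  rcases Nat.eq_or_lt_of_le h2 with h9 | h9
  · subst h9
    have := h.Xp
    have := h.pg
    omega
  · have h10 := (h.ne u h1 h9 h8).2.1.1
    have := R_gt h10
    omega

/-- The keys of `(g, h)` are untouched between `s` and the kill. -/
theorem Rg.nt (h : Rg S r) (h1 : r.s < u) (h2 : u ≤ r.t) (hv : r.g < v) (hv' : v < r.h) :
    ¬ S.E u v := by
  intro hE
  have h3 := h.tm
  have h4 := h.rho_aft h1 h2
  have h5 := Sys.E_mem hE
  have h6 := Sys.E_int hE
  have h7 := S.lam_lt u (by omega) r.g h.gK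
  have h9 := h.nh h1 h2
  have h10 := S.lam_lt u (by omega) v h5
  rcases S.lamin u (by omega) r.g h.gK v h5 hv with h8 | h8 | h8 <;> omega

/-- (2.5) -/
theorem Rg.zy (h : Rg S r) : S.X r.rel ≤ S.X r.t := by
  have h1 := h.rt
  rcases Nat.eq_or_lt_of_le h1 with h2 | h2
  · rw [h2]
  · have h3 := h.alv h.rs le_rfl
    have h4 := R_lam (kl_R h.kl)
    have h5 := h.rq
    have h6 := h.rg
    have h7 := h.relm
    rcases Nat.eq_or_lt_of_le h5 with h8 | h8
    · have h9 := h.lam_aft h.rs h1 le_rfl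
      omega
    · have h9 : S.R r.rel r.g := ⟨h7, h.gK, h6, by omega⟩
      have h10 := h.ne r.rel h.rs h2 (Sys.R_E h9)
      have h11 := h.lam_aft (x := r.rel + 1) (by have := h.rs; omega) h2 le_rfl
      have h12 := h10.2.1.2
      omega

/-- The round is determined by the time of the kill and the key; also by `s` and `g`; also by
`rel` and `g`. -/
theorem Rg.ext (h : Rg S r) (h' : Rg S r') (ht : r.t = r'.t) (hg : r.g = r'.g) : r = r' := by
  have hs : ∀ {a b : Rnd}, Rg S a → Rg S b → a.t = b.t → a.g = b.g → ¬ a.s < b.s := by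
    intro a b ha hb h1 h2 h3
    have h4 : S.E b.s a.g := by
      rw [h2]
      rcases hb.sk with h5 | h5
      · exact Sys.R_E h5.1.1
      · exact Sys.L_E h5.1.1
    have h5 := (ha.ne b.s h3 (by have := hb.st; omega) h4).2.1
    rw [h2] at h5
    rcases hb.sk with h6 | h6
    · exact Sys.not_kp_kl h5 h6.1
    · exact Sys.not_R_L h5.1 h6.1.1
  have h1 : r.s = r'.s := by
    have := hs h h' ht hg
    have := hs h' h ht.symm hg.symm
    omega
  have h2 : r.p = r'.p := by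
    rw [← h.kl.2.2, ← h'.kl.2.2, ht, hg]
  have h3 : r.q = r'.q ∧ r.h = r'.h := by
    have h4 := h.lam_s2
    have h5 := h'.lam_s2
    rw [h1, hg] at h4
    omega
  have hr : ∀ {a b : Rnd}, Rg S a → Rg S b → a.s = b.s → a.g = b.g → a.q = b.q → a.h = b.h →
      ¬ a.rel < b.rel := by
    intro a b ha hb k1 k2 k3 k4 k5
    have := hb.nr a.rel (by have := ha.rs; omega) k5
    have := ha.rq
    have := ha.rg
    have := ha.gh
    omega
  have h4 : r.rel = r'.rel := by
    have := hr h h' h1 hg h3.1 h3.2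
    have := hr h' h h1.symm hg.symm h3.1.symm h3.2.symm
    omega
  cases r
  cases r'
  simp only at *
  subst ht hg h1 h2 h4
  obtain ⟨rfl, rfl⟩ := h3
  rfl

theorem Rg.ext_s (h : Rg S r) (h' : Rg S r') (ht : r.s = r'.s) (hg : r.g = r'.g) : r = r' := by
  have hs : ∀ {a b : Rnd}, Rg S a → Rg S b → a.s = b.s → a.g = b.g → ¬ a.t < b.t := by
    intro a b ha hb h1 h2 h3
    have h4 := ha.kl
    rw [h2] at h4
    have h5 := (hb.ne a.t (by have := ha.st; omega) h3 (Sys.R_E h4.1)).2.1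
    exact Sys.not_kp_kl h5 h4
  have h1 : r.t = r'.t := by
    have := hs h h' ht hg
    have := hs h' h ht.symm hg.symm
    omega
  exact h.ext h' h1 hg

theorem Rg.ext_rel (h : Rg S r) (h' : Rg S r') (ht : r.rel = r'.rel) (hg : r.g = r'.g) :
    r = r' := by
  have hs : ∀ {a b : Rnd}, Rg S a → Rg S b → a.rel = b.rel → a.g = b.g → ¬ a.s < b.s := by
    intro a b ha hb h1 h2 h3
    have h4 : S.E b.s a.g := by
      rw [h2]
      rcases hb.sk with h5 | h5
      · exact Sys.R_E h5.1.1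
      · exact Sys.L_E h5.1.1
    have h6 := hb.rs
    have h7 := ha.rt
    have h5 := (ha.ne b.s h3 (by omega) h4).1
    omega
  have h1 : r.s = r'.s := by
    have := hs h h' ht hg
    have := hs h' h ht.symm hg.symm
    omega
  exact h.ext_s h' h1 hg

/-- Two rounds of one key are ordered. -/
theorem Rg.order (h : Rg S r) (h' : Rg S r') (hg : r.g = r'.g) (hr : r.rel < r'.rel) :
    r.t ≤ r'.s := by
  have hs : ∀ {a b : Rnd}, Rg S a → Rg S b → a.g = b.g → a.s < b.s → a.t ≤ b.s := by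
    intro a b ha hb h2 h3
    by_contra h1
    push Not at h1
    have h4 : S.E b.s a.g := by
      rw [h2]
      rcases hb.sk with h5 | h5
      · exact Sys.R_E h5.1.1
      · exact Sys.L_E h5.1.1
    have h5 := (ha.ne b.s h3 h1 h4).2.1
    rw [h2] at h5
    rcases hb.sk with h6 | h6
    · exact Sys.not_kp_kl h5 h6.1
    · exact Sys.not_R_L h5.1 h6.1.1
  rcases Nat.lt_trichotomy r.s r'.s with h1 | h1 | h1
  · exact hs h h' hg h1
  · have := h.ext_s h' h1 hg
    rw [this] at hr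
    omega
  · have h2 := hs h' h hg.symm h1
    have := h.rs
    have := h'.rt
    omega
-- END na

-- MODULE nb  (S)
/-- Consecutive nodes of the right side: nothing touched in between. -/
theorem kl_gap (h : S.Kl t g p) (hv : S.R t v) : v ≤ p ∨ g ≤ v := by
  by_contra hc
  push Not at hc
  have h1 := Sys.R_above (kl_R' h) hv hc.1
  have h2 := kl_rho h
  omega

theorem rho_gap (h : S.R t g) (hv : S.R t v) : v ≤ g ∨ S.rho t g ≤ v := by
  by_contra hc
  push Not at hc
  have h1 := Sys.R_above h hv hc.1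
  omega

/-- An untouched key above a node of the right side is hidden by it. -/
theorem above_lam (h : S.R t w) (hv : v ∈ S.K) (hwv : w < v) (hR : ¬ S.R t v) :
    w ≤ S.lam t v := by
  have h1 := R_gt h
  have h2 := not_R h.1 hv (by omega) hR
  have h3 := R_lam h
  have h4 := R_rho h
  rcases S.lamin t h.1.le w (R_mem h) v hv hwv with h5 | h5 | h5 <;> omega
-- END nb

-- MODULE nc  (M)
/-- (N1): the later of two near rounds in one cell over one `μ` is touched by the earlier one. -/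
theorem n1_touch (h : Rg S r) (h' : Rg S r') (hok : Ok S r') (ht : r.t < r'.t)
    (h1 : r.p < μ) (h2 : μ ≤ r.g) (h3 : r'.p < μ) (h4 : μ ≤ r'.g)
    (hd : S.X r.t + 2 ^ i ≤ r.p) (hd' : S.X r'.t + 2 ^ i ≤ r'.p)
    (hc : r'.t < r.t + 2 ^ i) (hy : S.X r'.t < S.X r.t + 2 ^ i) :
    r'.s < r.t ∧ S.E r.t r'.g := by
  have e1 := h'.zy
  have e2 := h'.pg
  have e3 := h'.rt
  unfold Ok at hok
  have e4 : r'.s < r.t := by omega
  refine ⟨e4, ?_⟩
  by_contra hE
  have e5 : ¬ S.R r.t r'.g := fun hR => hE (Sys.R_E hR)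
  have e6 := above_lam (kl_R' h.kl) h'.gK (by omega) e5
  have e7 := h'.lam_aft e4 ht.le le_rfl
  have e8 := R_lam (kl_R h'.kl)
  omega

/-- So there are no three of them. -/
theorem n1_three (h : Rg S r) (h' : Rg S r') (h'' : Rg S r'') (hok : Ok S r'') (ht : r.t < r'.t)
    (ht' : r'.t < r''.t)
    (h1 : r.p < μ) (h2 : μ ≤ r.g) (h3 : r'.p < μ) (h4 : μ ≤ r'.g) (h5 : r''.p < μ)
    (h6 : μ ≤ r''.g)
    (hd : S.X r.t + 2 ^ i ≤ r.p) (hd' : S.X r'.t + 2 ^ i ≤ r'.p)
    (hd'' : S.X r''.t + 2 ^ i ≤ r''.p)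
    (hc : r''.t < r.t + 2 ^ i) (hy : S.X r''.t < S.X r.t + 2 ^ i)
    (hy' : S.X r''.t < S.X r'.t + 2 ^ i) : False := by
  obtain ⟨a1, a2⟩ := n1_touch h h'' hok (by omega) h1 h2 h5 h6 hd hd'' hc hy
  obtain ⟨b1, b2⟩ := n1_touch h' h'' hok ht' h3 h4 h5 h6 hd' hd'' (by omega) hy'
  have := h''.un r.t r'.t a1 (by omega) b1 ht' a2 b2
  omega

/-- (N2): there are no two of them. -/
theorem n2_two (h : Rg S r) (h' : Rg S r') (hok : Ok S r') (ht : r.t < r'.t)
    (h1 : r.g < μ) (h2 : μ ≤ r.h) (h3 : r'.g < μ) (h4 : μ ≤ r'.h)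
    (hd : S.X r.t + 2 ^ i ≤ r.p) (hd' : S.X r'.t + 2 ^ i ≤ r'.p)
    (hc : r'.t < r.t + 2 ^ i) (hy : S.X r'.t < S.X r.t + 2 ^ i) : False := by
  have e1 := h'.zy
  have e2 := h'.pg
  have e3 := h'.rt
  unfold Ok at hok
  have e4 : r'.s < r.t := by omega
  have e9 := h.pg
  rcases Nat.lt_trichotomy r.g r'.g with e5 | e5 | e5
  · have e6 : ¬ S.R r.t r'.g := by
      intro hR
      have := rho_gap (kl_R h.kl) hR
      have := h.hh
      omega
    have e7 := above_lam (kl_R h.kl) h'.gK e5 e6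
    have e8 := h'.lam_aft e4 ht.le le_rfl
    have e10 := R_lam (kl_R h'.kl)
    omega
  · have e6 := h.kl
    rw [e5] at e6
    have e7 := (h'.ne r.t e4 ht (Sys.R_E e6.1)).2.1
    exact Sys.not_kp_kl e7 e6
  · exact h'.nt e4 ht.le e5 (by omega) (Sys.R_E (kl_R h.kl))
-- END nc

/-- The level of a round. -/
def li (S : Sys) (r : Rnd) : ℕ := Nat.log 2 (r.p - S.X r.t)

/-- The near rounds of type 1, as pairs (time, key). -/
def P1 (S : Sys) (i t g : ℕ) : Prop :=
  ∃ r, Rg S r ∧ Ok S r ∧ N1 S r ∧ li S r = i ∧ r.t = t ∧ r.g = g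

/-- The near rounds of type 2 which are not of type 1. -/
def P2 (S : Sys) (i t g : ℕ) : Prop :=
  ∃ r, Rg S r ∧ Ok S r ∧ ¬ N1 S r ∧ N2 S r ∧ li S r = i ∧ r.t = t ∧ r.g = g

-- MODULE nd  (M)
/-- At most two rounds for each (cell of scale `i - 1` of the kill, `μ`), `μ` = least multiple of
`2 ^ (i - 6)` above `p`; for given cell `μ` has less than 260 values (`μ` minus the left end of the
block is at most `2 ^ (i - 1) + 2 ^ (i + 1) + 2 ^ (i - 6)`). -/
theorem p1_card (i : ℕ) : S.cnt (P1 S i) ≤ 2 * 260 * (cel S (i - 1)).card := by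
  set b := 2 ^ (i - 1) with hb
  set u := 2 ^ (i - 6) with hu
  set w := (if i < 6 then b else 32) with hw
  have hb0 : 0 < b := by positivity
  have hu0 : 0 < u := by positivity
  have hbi : b ≤ 2 ^ i := Nat.pow_le_pow_right (by norm_num) (by omega)
  set f : ℕ × ℕ → (ℕ × ℕ) × ℕ := fun q =>
    ((q.1 / b, S.X q.1 / b), S.lam (q.1 + 1) q.2 / u + 1 - S.X q.1 / b * w) with hf
  have key : ∀ q ∈ S.set (P1 S i), ∃ r, Rg S r ∧ Ok S r ∧ r.t = q.1 ∧ r.g = q.2 ∧
      r.p = S.lam (q.1 + 1) q.2 ∧ S.X r.t + 2 ^ i ≤ r.p ∧ r.p < (r.p / u + 1) * u ∧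
      (r.p / u + 1) * u ≤ r.g ∧ S.X r.t / b * w ≤ r.p / u ∧
      r.p / u < S.X r.t / b * w + 259 := by
    intro q hq
    obtain ⟨_, _, r, hr, hok, hn, hl, ht, hg⟩ := Sys.mem_set.1 hq
    have hXp := hr.Xp
    have hpg := hr.pg
    unfold N1 GM at hn
    unfold li at hl
    have hd0 : r.p - S.X r.t ≠ 0 := by omega
    have hd1 := Nat.pow_log_le_self 2 hd0
    have hd2 := Nat.lt_pow_succ_log_self (b := 2) (by norm_num) (r.p - S.X r.t)
    rw [hl] at hd1 hd2
    rw [Nat.succ_eq_add_one, pow_succ] at hd2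
    have hp : r.p = S.lam (q.1 + 1) q.2 := by rw [← ht, ← hg]; exact hr.kl.2.2.symm
    have e1 := Nat.div_add_mod r.p u
    have e2 := Nat.mod_lt r.p hu0
    have e3 := Nat.div_add_mod (S.X r.t) b
    have e4 := Nat.mod_lt (S.X r.t) hb0
    have e5 : (r.p / u + 1) * u = u * (r.p / u) + u := by ring
    refine ⟨r, hr, hok, ht, hg, hp, by omega, by omega, ?_, ?_, ?_⟩
    · rcases Nat.lt_or_ge i 6 with h6 | h6
      · have : u = 1 := by rw [hu, show i - 6 = 0 by omega, pow_zero]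
        omega
      · have : 2 ^ i = 64 * u := by
          rw [hu, show (64 : ℕ) = 2 ^ 6 by norm_num, ← pow_add]
          congr 1
          omega
        omega
    · rcases Nat.lt_or_ge i 6 with h6 | h6
      · have hu1 : u = 1 := by rw [hu, show i - 6 = 0 by omega, pow_zero]
        rw [hw, if_pos h6, hu1, Nat.div_one, mul_comm]
        omega
      · rw [hw, if_neg (by omega), Nat.le_div_iff_mul_le hu0]
        have hbu : b = 32 * u := by
          rw [hu, hb, show (32 : ℕ) = 2 ^ 5 by norm_num, ← pow_add]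
          congr 1
          omega
        have : S.X r.t / b * 32 * u = b * (S.X r.t / b) := by
          generalize S.X r.t / b = B
          rw [hbu]
          ring
        omega
    · rcases Nat.lt_or_ge i 6 with h6 | h6
      · have hu1 : u = 1 := by rw [hu, show i - 6 = 0 by omega, pow_zero]
        rw [hw, if_pos h6, hu1, Nat.div_one, mul_comm]
        have h7 : 2 ^ i ≤ 32 := by
          calc 2 ^ i ≤ 2 ^ 5 := Nat.pow_le_pow_right (by norm_num) (by omega)
            _ = 32 := by norm_num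
        omega
      · rw [hw, if_neg (by omega), Nat.div_lt_iff_lt_mul hu0]
        have hbu : b = 32 * u := by
          rw [hu, hb, show (32 : ℕ) = 2 ^ 5 by norm_num, ← pow_add]
          congr 1
          omega
        have h64 : 2 ^ i = 64 * u := by
          rw [hu, show (64 : ℕ) = 2 ^ 6 by norm_num, ← pow_add]
          congr 1
          omega
        have : (S.X r.t / b * 32 + 259) * u = b * (S.X r.t / b) + 259 * u := by
          generalize S.X r.t / b = B
          rw [hbu]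
          ring
        omega
  have hwin : ∀ a c : ℕ, a / b = c / b → c < a + b := by
    intro a c h
    have h1 := Nat.div_add_mod a b
    have h2 := Nat.mod_lt c hb0
    have h3 := Nat.div_add_mod c b
    rw [h] at h1
    omega
  have h1 : ∀ q ∈ S.set (P1 S i), f q ∈ cel S (i - 1) ×ˢ Finset.range 260 := by
    intro q hq
    obtain ⟨r, hr, hok, ht, hg, hp, -, -, -, h5, h6⟩ := key q hq
    rw [Finset.mem_product]
    constructor
    · have htm := hr.tm
      rw [ht] at htm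
      simp only [hf, cel, Pool.Agent.SplPat.cells, Finset.mem_image, Finset.mem_range]
      exact ⟨q.1, htm, rfl⟩
    · rw [Finset.mem_range]
      simp only [hf]
      rw [← hp, ← ht]
      omega
  have hk : ∀ q ∈ S.set (P1 S i), ∀ q' ∈ S.set (P1 S i), f q = f q' →
      q.1 / b = q'.1 / b ∧ S.X q.1 / b = S.X q'.1 / b ∧
        S.lam (q.1 + 1) q.2 / u = S.lam (q'.1 + 1) q'.2 / u := by
    intro q hq q' hq' he
    obtain ⟨r, hr, hok, ht, hg, hp, -, -, -, h5, h6⟩ := key q hq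
    obtain ⟨r', hr', hok', ht', hg', hp', -, -, -, h5', h6'⟩ := key q' hq'
    simp only [hf, Prod.mk.injEq] at he
    obtain ⟨⟨e1, e2⟩, e3⟩ := he
    rw [hp, ht] at h5
    rw [hp', ht'] at h5'
    rw [e2] at h5 e3
    refine ⟨e1, e2, by omega⟩
  have hne : ∀ q ∈ S.set (P1 S i), ∀ q' ∈ S.set (P1 S i), f q = f q' → q ≠ q' → q.1 ≠ q'.1 := by
    intro q hq q' hq' he hne h0
    obtain ⟨e1, e2, e3⟩ := hk q hq q' hq' he
    obtain ⟨r, hr, hok, ht, hg, hp, -, h3, h4, -, -⟩ := key q hq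
    obtain ⟨r', hr', hok', ht', hg', hp', -, h3', h4', -, -⟩ := key q' hq'
    rw [← hp, ← hp'] at e3
    rw [e3] at h3 h4
    have hR := kl_R hr.kl
    have hR' := kl_R hr'.kl
    rw [ht, h0, ← ht'] at hR
    rw [ht', ← h0, ← ht] at hR'
    have a1 := kl_gap hr'.kl hR
    have a2 := kl_gap hr.kl hR'
    apply hne
    refine Prod.ext h0 ?_
    rw [← hg, ← hg']
    omega
  have htri : ∀ q ∈ S.set (P1 S i), ∀ q' ∈ S.set (P1 S i), ∀ q'' ∈ S.set (P1 S i),
      f q = f q' → f q = f q'' → q.1 < q'.1 → q'.1 < q''.1 → False := by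
    intro q hq q' hq' q'' hq'' he he' h01 h12
    obtain ⟨e1, e2, e3⟩ := hk q hq q' hq' he
    obtain ⟨d1, d2, d3⟩ := hk q hq q'' hq'' he'
    obtain ⟨r, hr, hok, ht, hg, hp, hX, h3, h4, -, -⟩ := key q hq
    obtain ⟨r', hr', hok', ht', hg', hp', hX', h3', h4', -, -⟩ := key q' hq'
    obtain ⟨r'', hr'', hok'', ht'', hg'', hp'', hX'', h3'', h4'', -, -⟩ := key q'' hq''
    rw [← hp, ← hp'] at e3
    rw [← hp, ← hp''] at d3
    rw [← e3] at h3' h4'
    rw [← d3] at h3'' h4''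
    have w1 := hwin _ _ d1
    have w2 := hwin _ _ d2
    have w3 := hwin _ _ (e2.symm.trans d2)
    rw [← ht, ← ht''] at w1 w2
    rw [← ht', ← ht''] at w3
    rw [← ht, ← ht'] at h01
    rw [← ht', ← ht''] at h12
    exact n1_three hr hr' hr'' hok'' h01 h12 h3 h4 h3' h4' h3'' h4'' hX hX' hX'' (by omega)
      (by omega) (by omega)
  have h2 : ∀ z ∈ cel S (i - 1) ×ˢ Finset.range 260,
      ((S.set (P1 S i)).filter (fun q => f q = z)).card ≤ 2 := by
    intro z _
    by_contra hc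
    push Not at hc
    obtain ⟨a, ha, c, hc', d, hd, n1, n2, n3⟩ := Finset.two_lt_card.1 hc
    rw [Finset.mem_filter] at ha hc' hd
    have m1 := hne a ha.1 c hc'.1 (ha.2.trans hc'.2.symm) n1
    have m2 := hne a ha.1 d hd.1 (ha.2.trans hd.2.symm) n2
    have m3 := hne c hc'.1 d hd.1 (hc'.2.trans hd.2.symm) n3
    have tr : ∀ x y v : ℕ × ℕ, x ∈ S.set (P1 S i) ∧ f x = z → y ∈ S.set (P1 S i) ∧ f y = z →
        v ∈ S.set (P1 S i) ∧ f v = z → x.1 < y.1 → y.1 < v.1 → False :=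
      fun x y v hx hy hv h h' =>
        htri x hx.1 y hy.1 v hv.1 (hx.2.trans hy.2.symm) (hx.2.trans hv.2.symm) h h'
    rcases lt_or_gt_of_ne m1 with k1 | k1 <;> rcases lt_or_gt_of_ne m2 with k2 | k2 <;>
      rcases lt_or_gt_of_ne m3 with k3 | k3
    · exact tr a c d ha hc' hd k1 k3
    · exact tr a d c ha hd hc' k2 k3
    · omega
    · exact tr d a c hd ha hc' k2 k1
    · exact tr c a d hc' ha hd k1 k2
    · omega
    · exact tr c d a hc' hd ha k3 k2
    · exact tr d c a hd hc' ha k3 k1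
  have h3 := Finset.card_le_mul_card_image_of_maps_to h1 2 h2
  rw [Finset.card_product, Finset.card_range] at h3
  unfold Sys.cnt
  omega
-- END nd

-- MODULE ne  (M)
/-- Two numbers with the same quotient are close. -/
private theorem ne_near {a b B : ℕ} (hB : 0 < B) (h : a / B = b / B) : a < b + B := by
  have h1 := Nat.div_add_mod a B
  have h2 := Nat.div_add_mod b B
  have h3 := Nat.mod_lt a hB
  rw [h] at h1
  omega

private theorem ne_lvl (h : Rg S r) (hi : li S r = i) :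
    S.X r.t + 2 ^ i ≤ r.p ∧ r.p < S.X r.t + 2 ^ (i + 1) := by
  have h1 := h.Xp
  have h2 : r.p - S.X r.t ≠ 0 := by omega
  have h3 := Nat.pow_log_le_self 2 h2
  have h4 := Nat.lt_pow_succ_log_self (b := 2) (by norm_num) (r.p - S.X r.t)
  unfold li at hi
  rw [hi] at h3 h4
  omega

private theorem ne_key (h : Rg S r) (hi : li S r = i) (hn : ¬ N1 S r)
    (hn2 : r.p - S.X r.t < GM * (r.h - r.g)) :
    r.g < (r.g / 2 ^ (i - 6) + 1) * 2 ^ (i - 6) ∧
    (r.g / 2 ^ (i - 6) + 1) * 2 ^ (i - 6) ≤ r.h ∧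
    (S.X r.t / 2 ^ (i - 1) * 2 ^ (i - 1)) / 2 ^ (i - 6) ≤ r.g / 2 ^ (i - 6) ∧
    r.g / 2 ^ (i - 6) < (S.X r.t / 2 ^ (i - 1) * 2 ^ (i - 1)) / 2 ^ (i - 6) + 260 := by
  obtain ⟨h1, h2⟩ := ne_lvl h hi
  have h3 := h.Xp
  have h4 := h.pg
  have h5 := h.gh
  unfold N1 at hn
  have hGM : GM = 64 := rfl
  rw [hGM] at hn hn2
  have hW : 0 < 2 ^ (i - 6) := by positivity
  have hB : 0 < 2 ^ (i - 1) := by positivity
  obtain ⟨W, hWd⟩ : ∃ W, W = 2 ^ (i - 6) := ⟨_, rfl⟩
  obtain ⟨B, hBd⟩ : ∃ B, B = 2 ^ (i - 1) := ⟨_, rfl⟩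
  obtain ⟨Q, hQd⟩ : ∃ Q, Q = 2 ^ i := ⟨_, rfl⟩
  have hQ2 : 2 ^ (i + 1) = 2 * Q := by rw [pow_succ, hQd]; ring
  rw [← hWd] at hW ⊢
  rw [← hBd] at hB ⊢
  rw [← hQd] at h1
  rw [hQ2] at h2
  -- the sizes
  have hsz : W ≤ r.h - r.g ∧ B + 2 * Q + (r.g - r.p) ≤ 200 * W := by
    rcases Nat.lt_or_ge i 6 with hlt | hge
    · have e1 : W = 1 := by
        rw [hWd, Nat.sub_eq_zero_of_le hlt.le, pow_zero]
      have e2 : Q ≤ 32 := by
        rw [hQd]
        calc 2 ^ i ≤ 2 ^ 5 := Nat.pow_le_pow_right (by norm_num) (by omega)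
          _ = 32 := by norm_num
      have e3 : B ≤ 16 := by
        rw [hBd]
        calc 2 ^ (i - 1) ≤ 2 ^ 4 := Nat.pow_le_pow_right (by norm_num) (by omega)
          _ = 16 := by norm_num
      omega
    · obtain ⟨j, rfl⟩ := Nat.exists_eq_add_of_le hge
      have e1 : Q = 64 * W := by
        rw [hQd, hWd, pow_add, Nat.add_sub_cancel_left]
        norm_num
      have e2 : B = 32 * W := by
        rw [hBd, hWd, Nat.add_sub_cancel_left, show 6 + j - 1 = 5 + j by omega, pow_add]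
        norm_num
      omega
  have hdm := Nat.div_add_mod r.g W
  have hml := Nat.mod_lt r.g hW
  have hym := Nat.div_add_mod (S.X r.t) B
  have hyl := Nat.mod_lt (S.X r.t) hB
  have e1 : (r.g / W + 1) * W = W * (r.g / W) + W := by ring
  have e2 : S.X r.t / B * B = B * (S.X r.t / B) := by ring
  refine ⟨by rw [e1]; omega, by rw [e1]; omega, ?_, ?_⟩
  · apply Nat.div_le_div_right
    rw [e2]
    omega
  · have h6 : r.g ≤ S.X r.t / B * B + 200 * W := by
      rw [e2]
      omega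
    have h7 := Nat.div_le_div_right (c := W) h6
    rw [Nat.add_mul_div_right _ _ hW] at h7
    omega

/-- The same with `μ` = least multiple of `2 ^ (i - 6)` above `g`. -/
theorem p2_card (i : ℕ) : S.cnt (P2 S i) ≤ 260 * (cel S (i - 1)).card := by
  have hB : 0 < 2 ^ (i - 1) := by positivity
  have hBQ : 2 ^ (i - 1) ≤ 2 ^ i := Nat.pow_le_pow_right (by norm_num) (by omega)
  have key := Sys.cnt_le_of_inj (S := S) (P := P2 S i) (cel S (i - 1) ×ˢ Finset.range 260)
    (fun t g => ((t / 2 ^ (i - 1), S.X t / 2 ^ (i - 1)),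
      g / 2 ^ (i - 6) - (S.X t / 2 ^ (i - 1) * 2 ^ (i - 1)) / 2 ^ (i - 6))) ?_ ?_
  · rw [Finset.card_product, Finset.card_range, mul_comm] at key
    exact key
  · rintro t v ht hv ⟨r, h, hok, hn, hn2, hi, rfl, rfl⟩
    obtain ⟨h1, h2, h3, h4⟩ := ne_key h hi hn hn2.2
    rw [Finset.mem_product, Finset.mem_range]
    refine ⟨?_, ?_⟩
    · unfold cel Pool.Agent.SplPat.cells
      exact Finset.mem_image.2 ⟨r.t, Finset.mem_range.2 ht, rfl⟩
    · show r.g / 2 ^ (i - 6) - (S.X r.t / 2 ^ (i - 1) * 2 ^ (i - 1)) / 2 ^ (i - 6) < 260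
      omega
  · rintro t v t' v' ht hv ⟨r, h, hok, hn, hn2, hi, rfl, rfl⟩ ht' hv'
      ⟨r', h', hok', hn', hn2', hi', rfl, rfl⟩ he
    obtain ⟨h1, h2, h3, h4⟩ := ne_key h hi hn hn2.2
    obtain ⟨h1', h2', h3', h4'⟩ := ne_key h' hi' hn' hn2'.2
    simp only [Prod.mk.injEq] at he
    obtain ⟨⟨he1, he2⟩, he3⟩ := he
    rw [← he2] at he3 h3' h4'
    have he4 : r'.g / 2 ^ (i - 6) = r.g / 2 ^ (i - 6) := by omega
    rw [he4] at h1' h2'
    obtain ⟨l1, -⟩ := ne_lvl h hi
    obtain ⟨l1', -⟩ := ne_lvl h' hi'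
    rcases Nat.lt_trichotomy r.t r'.t with hlt | heq | hgt
    · exfalso
      have c1 := ne_near hB he1.symm
      have c2 := ne_near hB he2.symm
      exact n2_two h h' hok' hlt h1 h2 h1' h2' l1 l1' (by omega) (by omega)
    · refine ⟨heq, ?_⟩
      have k1 : S.R r.t r.g := h.kl.1
      have k2 : S.R r.t r'.g := by
        rw [heq]
        exact h'.kl.1
      have k3 : S.rho r.t r.g = r.h := h.hh
      have k4 : S.rho r.t r'.g = r'.h := by
        rw [heq]
        exact h'.hh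
      have k5 := rho_gap k1 k2
      have k6 := rho_gap k2 k1
      rw [k3] at k5
      rw [k4] at k6
      omega
    · exfalso
      have c1 := ne_near hB he1
      have c2 := ne_near hB he2
      exact n2_two h' h hok hgt h1' h2' h1 h2 l1' l1 (by omega) (by omega)
-- END ne

-- MODULE nf  (S)
/-- `2 ^ i ≤ m` if there is a round of level `i`. -/
theorem li_le {r : Rnd} (h : Rg S r) (hok : Ok S r) : 2 ^ li S r < S.m := by
  have h1 := h.Xp
  have h2 := h.zy
  have h3 := h.pg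
  have h4 := h.relm
  have h5 := h.rg
  have h6 : 2 ^ Nat.log 2 (r.p - S.X r.t) ≤ r.p - S.X r.t :=
    Nat.pow_log_le_self 2 (by omega)
  rw [Ok] at hok
  rw [li]
  omega

private theorem nf_geo (n D : ℕ) : ∑ j ∈ Finset.range n, D / 2 ^ (j / 2) ≤ 4 * D := by
  have h1 : ∀ n, ∑ j ∈ Finset.range (2 * n), D / 2 ^ (j / 2) = 2 * ∑ j ∈ Finset.range n, D / 2 ^ j := by
    intro n
    induction n with
    | zero => simp
    | succ n ih =>
      rw [show 2 * (n + 1) = 2 * n + 1 + 1 by ring, Finset.sum_range_succ, Finset.sum_range_succ, ih,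
        Finset.sum_range_succ, show (2 * n + 1) / 2 = n by omega, show 2 * n / 2 = n by omega]
      ring
  have h2 : ∑ j ∈ Finset.range n, D / 2 ^ (j / 2) ≤ ∑ j ∈ Finset.range (2 * n), D / 2 ^ (j / 2) := by
    apply Finset.sum_le_sum_of_subset
    intro x hx
    rw [Finset.mem_range] at hx ⊢
    omega
  have h3 := Nat.geom_sum_le (le_refl 2) D n
  rw [h1] at h2
  omega

private theorem nf_sum {S : Sys} {D : ℕ} (hG : GridH S D) (hm : 0 < S.m) :
    ∑ i ∈ Finset.range (Nat.log 2 S.m + 1), (cel S (i - 1)).card ≤ 5 * D := by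
  have h1 : ∀ i ∈ Finset.range (Nat.log 2 S.m + 1), (cel S (i - 1)).card ≤ D / 2 ^ ((i - 1) / 2) := by
    intro i hi
    rw [Finset.mem_range] at hi
    have h2 : 2 ^ (i - 1) ≤ S.m :=
      le_trans (Nat.pow_le_pow_right (by norm_num) (by omega)) (Nat.pow_log_le_self 2 hm.ne')
    have h3 := hG (i - 1) (by omega)
    rw [Nat.le_div_iff_mul_le (by positivity), mul_comm]
    exact h3
  refine le_trans (Finset.sum_le_sum h1) ?_
  rw [Finset.sum_range_succ']
  have h4 := nf_geo (Nat.log 2 S.m) D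
  simp only [Nat.add_sub_cancel, Nat.zero_sub, Nat.zero_div, pow_zero, Nat.div_one] at h4 ⊢
  omega

private theorem nf_cover (S : Sys) (P : ℕ → ℕ → Prop) (Q : ℕ → ℕ → ℕ → Prop) (n : ℕ)
    (h : ∀ t g, P t g → ∃ i < n, Q i t g) :
    S.cnt P ≤ ∑ i ∈ Finset.range n, S.cnt (Q i) := by
  unfold Sys.cnt
  refine le_trans (Finset.card_le_card ?_) Finset.card_biUnion_le
  intro x hx
  rw [Sys.set, Finset.mem_filter] at hx
  obtain ⟨i, hi, hQ⟩ := h _ _ hx.2
  rw [Finset.mem_biUnion]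
  exact ⟨i, Finset.mem_range.2 hi, by rw [Sys.set, Finset.mem_filter]; exact ⟨hx.1, hQ⟩⟩

private theorem nf_two (S : Sys) (P Q R : ℕ → ℕ → Prop) (hR : ∀ t g, R t g → P t g ∨ Q t g) :
    S.cnt R ≤ S.cnt P + S.cnt Q := by
  unfold Sys.cnt
  refine le_trans (Finset.card_le_card ?_) (Finset.card_union_le _ _)
  intro x hx
  rw [Sys.set, Finset.mem_filter] at hx
  rw [Finset.mem_union, Sys.set, Finset.mem_filter, Sys.set, Finset.mem_filter]
  rcases hR _ _ hx.2 with h | h
  · exact Or.inl ⟨hx.1, h⟩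
  · exact Or.inr ⟨hx.1, h⟩

theorem nearG : NearG := by
  refine ⟨780 * 5, fun S D hG => ?_⟩
  rcases Nat.eq_zero_or_pos S.m with hm | hm
  · have h0 : S.cnt (fun t g => ∃ r, Rg S r ∧ Ok S r ∧ (N1 S r ∨ N2 S r) ∧ r.t = t ∧ r.g = g) ≤ 0 := by
      unfold Sys.cnt Sys.set
      rw [hm]
      simp
    omega
  have h1 : S.cnt (fun t g => ∃ r, Rg S r ∧ Ok S r ∧ (N1 S r ∨ N2 S r) ∧ r.t = t ∧ r.g = g) ≤
      ∑ i ∈ Finset.range (Nat.log 2 S.m + 1), S.cnt (fun t g => P1 S i t g ∨ P2 S i t g) := by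
    apply nf_cover S _ (fun i t g => P1 S i t g ∨ P2 S i t g)
    rintro t g ⟨r, hr, hok, hN, ht, hg⟩
    refine ⟨li S r, ?_, ?_⟩
    · have h2 := li_le hr hok
      have h3 : li S r ≤ Nat.log 2 S.m := Nat.le_log_of_pow_le (by norm_num) h2.le
      omega
    · by_cases h4 : N1 S r
      · exact Or.inl ⟨r, hr, hok, h4, rfl, ht, hg⟩
      · exact Or.inr ⟨r, hr, hok, h4, hN.resolve_left h4, rfl, ht, hg⟩
  have h2 : ∀ i ∈ Finset.range (Nat.log 2 S.m + 1),
      S.cnt (fun t g => P1 S i t g ∨ P2 S i t g) ≤ 780 * (cel S (i - 1)).card := by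
    intro i _
    have h3 := nf_two S (P1 S i) (P2 S i) (fun t g => P1 S i t g ∨ P2 S i t g) (fun _ _ h => h)
    have h4 := p1_card (S := S) i
    have h5 := p2_card (S := S) i
    omega
  have h3 := Finset.sum_le_sum h2
  rw [← Finset.mul_sum] at h3
  have h4 := nf_sum hG.grid hm
  calc _ ≤ _ := h1
    _ ≤ _ := h3
    _ ≤ 780 * (5 * D) := Nat.mul_le_mul_left _ h4
    _ = 780 * 5 * D := by ring
-- END nf

end Pool.Agent.SplGd
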