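import Pool.Agent.SplTr.Unc
import Pool.Agent.SplTr.Old
import Pool.Agent.SplPat.Cells

set_option autoImplicit false

/-!
# The grid theorem for splaying

No hypothesis on the requests.  `cel S j`: active cells of scale `j` (time window of `2^j` requests,
block of `2^j` keys).  `Grid K S D`: `2^(j/2 + j/(2K)) * (number of active cells of scale j) ≤ D` for
`2^j ≤ 2 m`.  Goal: the number of touches is at most `C * (top + D)`, `C` depends on `K ≥ 1` only.
Everything except the bad rounds (part 3) needs only the exponent `j/2`.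

State-times as in `SplTr`: `lam t`, `rho t` describe the tree just before the request `t`.
-/

namespace Pool.Agent.SplGd

open Pool.Agent.SplLog Pool.Agent.SplLs Pool.Agent.SplDq Pool.Agent.SplTr
open scoped Classical

/-- The active cells of scale `j`: pairs (time window, key block). -/
noncomputable def cel (S : Sys) (j : ℕ) : Finset (ℕ × ℕ) := Pool.Agent.SplPat.cells (2 ^ j) S.m S.X

/-- The exponent: about `(1/2 + 1/(2K)) j`. -/
def ex (K j : ℕ) : ℕ := j / 2 + j / (2 * K)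

/-- The grid bound. -/
def Grid (K : ℕ) (S : Sys) (D : ℕ) : Prop := ∀ j, 2 ^ j ≤ 2 * S.m → 2 ^ ex K j * (cel S j).card ≤ D

/-- The grid bound with the exponent `1/2`. -/
def GridH (S : Sys) (D : ℕ) : Prop := ∀ j, 2 ^ j ≤ 2 * S.m → 2 ^ (j / 2) * (cel S j).card ≤ D

theorem Grid.half {K D : ℕ} {S : Sys} (h : Grid K S D) : GridH S D := fun j hj =>
  (Nat.mul_le_mul_right _ (Nat.pow_le_pow_right (by norm_num) (Nat.le_add_right _ _))).trans (h j hj)

/-- The hypotheses with the exponent `1/2`, closed under mirror images. -/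
structure Gr (S : Sys) (D : ℕ) : Prop where
  thr : Thr S
  thr' : Thr S.mir
  grid : GridH S D
  grid' : GridH S.mir D

/-- All hypotheses, closed under mirror images. -/
structure GrK (K : ℕ) (S : Sys) (D : ℕ) : Prop where
  thr : Thr S
  thr' : Thr S.mir
  grid : Grid K S D
  grid' : Grid K S.mir D

theorem GrK.half {K D : ℕ} {S : Sys} (h : GrK K S D) : Gr S D :=
  ⟨h.thr, h.thr', h.grid.half, h.grid'.half⟩

/-- No request in `[a, b)` at the times of `[s, t)`: this is `SplTr.Unc S a b s t`. -/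
example (S : Sys) (a b s t : ℕ) : Unc S a b s t ↔ ∀ u, s ≤ u → u < t → ¬ (a ≤ S.X u ∧ S.X u < b) :=
  Iff.rfl

/-! ### Part 1: turned keeps -/

/-- `v` is touched from the right at `t` and its previous event is a left keep. -/
def TL (S : Sys) (t v : ℕ) : Prop := S.L t v ∧ ∃ τ, τ < t ∧ S.Kp τ v ∧ S.NE v (τ + 1) t

/-- The number of T-events (both directions). -/
noncomputable def TT (S : Sys) : ℕ := S.cnt (TL S) + S.mir.cnt (TL S.mir)

/-- **Lemma T.** -/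
def TLe : Prop := ∀ (S : Sys) (D : ℕ), GridH S D → S.cnt (TL S) ≤ 24 * D

/-! ### Part 2: old nodes, hot lemma, rounds -/

/-- The previous event of the touched node `v` (right side of the request) is a left keep at `τ`
(the stamp of `v`). -/
def Stp (S : Sys) (τ t v : ℕ) : Prop := S.R t v ∧ τ < t ∧ S.Kp τ v ∧ S.NE v (τ + 1) t

/-- Old nodes. -/
def OldG (S : Sys) (t v : ℕ) : Prop := ∃ τ, Stp S τ t v

/-- The blocks: pairs (stamp, time) with an old node. -/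
noncomputable def blks (S : Sys) : Finset (ℕ × ℕ) :=
  (Finset.range S.m ×ˢ Finset.range S.m).filter (fun q => ∃ v, Stp S q.1 q.2 v)

/-- Number of blocks. -/
def BlkLe : Prop := ∀ S : Sys, (blks S).card ≤ 2 * S.m + S.cnt (TL S)

/-- Old nodes which are neither killed nor killers. -/
def OldFree : Prop := ∀ S : Sys, Thr S →
  S.cnt (fun t v => OldG S t v ∧ (¬ ∃ p, S.Kl t v p) ∧ ¬ S.Kl t (S.rho t v) v) ≤
    2 * (blks S).card

/-- `theta <= 3 N + C (m + n + T)`. -/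
def ThetaG : Prop := ∃ C : ℕ, ∀ S : Sys, Thr S → Thr S.mir →
  tch S ≤ 3 * (S.NR + S.mir.NR) + C * (S.top + S.m + TT S)

/-- `r` is a round (left kill `(p, g; h)` at `t`; last kill `s` of `g` before `t`). -/
structure Rg (S : Sys) (r : Rnd) : Prop where
  kl : S.Kl r.t r.g r.p
  hh : S.rho r.t r.g = r.h
  ht : r.h < S.top
  st : r.s < r.t
  sk : (S.Kl r.s r.g r.q ∧ S.rho (r.s + 1) r.g = r.h) ∨
    (Kr S r.s r.g r.h ∧ S.lam (r.s + 1) r.g = r.q)
  q0 : 0 < r.q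
  /-- at most one touch between `s` and `t`: a non-killing left keep -/
  ne : ∀ u, r.s < u → u < r.t → S.E u r.g → r.rel ≤ u ∧ S.Kp u r.g ∧ S.rho (u + 1) r.g = r.h
  un : ∀ u u', r.s < u → u < r.t → r.s < u' → u' < r.t → S.E u r.g → S.E u' r.g → u = u'
  rs : r.s < r.rel
  rt : r.rel ≤ r.t
  rq : r.q ≤ S.X r.rel
  rg : S.X r.rel < r.g
  nr : ∀ u, r.s < u → u < r.rel → ¬ (r.q ≤ S.X u ∧ S.X u < r.h)

/-- **Hot lemma.** -/
def HotG : Prop := ∃ C : ℕ, ∀ S : Sys, Thr S →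
  S.NR ≤ 3 * S.cnt (fun t g => ∃ r, Rg S r ∧ (Same S r ∨ Flip S r) ∧ r.t = t ∧ r.g = g) +
    C * (S.top + S.m + TT S)

/-! ### Part 3: bad rounds -/

/-- The data of an element: kill of `g` at `s`, afterwards the subtree of `g` is `(q, w)`, `rel` is
the first request in `[q, g)` after `s`. -/
structure Elt where
  s : ℕ
  g : ℕ
  q : ℕ
  w : ℕ
  rel : ℕ

/-- Elements: kills on either side which are released fast. -/
structure El (S : Sys) (e : Elt) : Prop where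
  sk : (S.Kl e.s e.g e.q ∧ S.rho (e.s + 1) e.g = e.w) ∨
    (Kr S e.s e.g e.w ∧ S.lam (e.s + 1) e.g = e.q)
  q0 : 0 < e.q
  wt : e.w < S.top
  sr : e.s < e.rel
  rm : e.rel < S.m
  qz : e.q ≤ S.X e.rel
  zg : S.X e.rel < e.g
  nr : ∀ u, e.s < u → u < e.rel → ¬ (e.q ≤ S.X u ∧ S.X u < e.w)
  bad : e.rel + S.X e.rel < e.g + e.s

/-- **Bad kills.** -/
def BadG : Prop := ∀ K : ℕ, 0 < K → ∀ A : ℕ, ∃ C : ℕ, ∀ (S : Sys) (D : ℕ), Grid K S D →
  A * S.cnt (fun s g => ∃ e, El S e ∧ e.s = s ∧ e.g = g) ≤ tch S + C * D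

/-! ### Part 4: near rounds with an OK predecessor -/

/-- The predecessor is OK. -/
def Ok (S : Sys) (r : Rnd) : Prop := r.g ≤ S.X r.rel + (r.rel - r.s)

/-- The constant of the far rounds. -/
def GM : ℕ := 64

/-- Near rounds (N1). -/
def N1 (S : Sys) (r : Rnd) : Prop := r.p - S.X r.t < GM * (r.g - r.p)

/-- Near rounds (N2). -/
def N2 (S : Sys) (r : Rnd) : Prop := Flip S r ∧ r.p - S.X r.t < GM * (r.h - r.g)

/-- **Near rounds.** -/
def NearG : Prop := ∃ C : ℕ, ∀ (S : Sys) (D : ℕ), Gr S D →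
  S.cnt (fun t g => ∃ r, Rg S r ∧ Ok S r ∧ (N1 S r ∨ N2 S r) ∧ r.t = t ∧ r.g = g) ≤ C * D

/-! ### Part 5: far rounds with an OK predecessor -/

/-- Rounds of the S-family of scale `k`. -/
def GS (S : Sys) (k : ℕ) (r : Rnd) : Prop :=
  Rg S r ∧ Ok S r ∧ ¬ N1 S r ∧ Same S r ∧ 2 ^ k ≤ r.g - r.p ∧ r.g - r.p < 2 ^ (k + 1)

/-- Rounds of the F-family of scale `k`. -/
def GF (S : Sys) (k : ℕ) (r : Rnd) : Prop :=
  Rg S r ∧ Ok S r ∧ ¬ N2 S r ∧ Flip S r ∧ 2 ^ k ≤ r.h - r.g ∧ r.h - r.g < 2 ^ (k + 1)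

/-- A class of rounds of scale `k`. -/
structure ClG (S : Sys) (k : ℕ) (F : Finset Rnd) : Prop where
  rd : ∀ r ∈ F, Rg S r
  ok : ∀ r ∈ F, Ok S r
  /-- (H1) -/
  sep : ∀ r ∈ F, ∀ r' ∈ F, r.g < r'.g → (∃ τ, Alv r τ ∧ Alv r' τ) → r.g + 4 * 2 ^ k ≤ r'.g
  /-- (H2): two rounds of the same key: in between there is a request near the key -/
  two : ∀ r ∈ F, ∀ r' ∈ F, r.g = r'.g → r.rel < r'.rel →
    ∃ u, r.rel ≤ u ∧ u ≤ r'.s ∧ r.g < S.X u + 2 ^ (k + 1) ∧ S.X u < r.g + 2 ^ (k + 1)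
  /-- (H3) -/
  rel : ∀ r ∈ F, S.X r.rel + 4 * 2 ^ k ≤ r.g
  /-- a round is determined by its key and its release -/
  inj : ∀ r ∈ F, ∀ r' ∈ F, r.g = r'.g → r.rel = r'.rel → r = r'

/-- **Part 5a, S.** -/
def ClsSG : Prop := ∀ (S : Sys) (k : ℕ) (F : Finset Rnd), (∀ r ∈ F, GS S k r) →
  ∃ P : Fin 24 → Finset Rnd, (∀ r ∈ F, ∃ i, r ∈ P i) ∧ ∀ i, ClG S k (P i)

/-- **Part 5a, F.** -/
def ClsFG : Prop := ∀ (S : Sys) (k : ℕ) (F : Finset Rnd), (∀ r ∈ F, GF S k r) →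
  ∃ P : Fin 24 → Finset Rnd, (∀ r ∈ F, ∃ i, r ∈ P i) ∧ ∀ i, ClG S k (P i)

/-- **Part 5b.** -/
def ClsCardG : Prop := ∀ A : ℕ, ∃ C : ℕ, ∀ (S : Sys) (D : ℕ), Gr S D →
  ∀ (k : ℕ) (F : Finset Rnd), ClG S k F →
  A * (k + 1) ^ 2 * F.card ≤ tch S + C * (S.top + D)

/-- **The grid theorem.** -/
def LinG : Prop := ∀ K : ℕ, 0 < K → ∃ C : ℕ, ∀ (S : Sys) (D : ℕ), GrK K S D →
  tch S ≤ C * (S.top + D)

end Pool.Agent.SplGd
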