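import Pool.Agent.SplTr.DormR
import Pool.Agent.SplGd.Defs

set_option autoImplicit false

/-!
# Dormant rounds, without hypotheses on the requests

`[l, r)` is an interval of keys without requests in the time `[t0, t1)`.  `dW S t l w` is the part of
its left spine up to the key `w` of this spine.  Its elements with the same left end as `w` form the
top group `dT`, the others are `dG`.
-/

namespace Pool.Agent.SplGd.Dm

open Pool.Agent.SplLog Pool.Agent.SplLs Pool.Agent.SplDq Pool.Agent.SplTr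
open Pool.Agent.SplTr.Dm (dW mem_dW dW_anc ext_min ext_unique dX mem_dX card_dX dW_step R_of_W
  lam_mono)
open scoped Classical

variable {S : Sys} {a b i j l q r s t u v w p g : ℕ}

/-- The top group. -/
noncomputable def dT (S : Sys) (t l w : ℕ) : Finset ℕ :=
  (dW S t l w).filter (fun v => S.lam t v = S.lam t w)

/-- The other groups. -/
noncomputable def dG (S : Sys) (t l w : ℕ) : Finset ℕ :=
  (dW S t l w).filter (fun v => ¬ S.lam t v = S.lam t w)

theorem mem_dT : v ∈ dT S t l w ↔ v ∈ dW S t l w ∧ S.lam t v = S.lam t w := by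
  simp only [dT, Finset.mem_filter]

theorem mem_dG : v ∈ dG S t l w ↔ v ∈ dW S t l w ∧ ¬ S.lam t v = S.lam t w := by
  simp only [dG, Finset.mem_filter]

theorem card_dW (S : Sys) (t l w : ℕ) :
    (dT S t l w).card + (dG S t l w).card = (dW S t l w).card :=
  Finset.card_filter_add_card_filter_not _

theorem dW_mono (huw : u ≤ w) : dW S t l u ⊆ dW S t l w := by
  intro v hv
  rw [mem_dW] at hv ⊢
  exact ⟨hv.1, hv.2.1, by omega, hv.2.2.2⟩

/-- `w` has the smallest left end. -/
theorem lam_min (ht : t ≤ S.m) (hw : w ∈ dW S t l w) (hv : v ∈ dW S t l w) :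
    S.lam t w ≤ S.lam t v := by
  have h1 := (mem_dW.1 hv).2.2.1
  rcases Nat.eq_or_lt_of_le h1 with h2 | h2
  · rw [h2]
  · exact dW_anc ht hv hw h2

/-- The kept nodes of the top group. -/
noncomputable def dK (S : Sys) (t l w : ℕ) : Finset ℕ :=
  (dT S t l w).filter (fun v => S.lam (t + 1) v = S.X t)

/-- **The survivors of a pass.** -/
theorem card_dK (hT : Thr S) (ht : t < S.m) (hx : S.X t < l) (hw : w ∈ dW S t l w)
    (hwx : S.lam t w < S.X t) :
    2 * (dK S t l w).card ≤ (dT S t l w).card + 2 ∧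
      ((∃ g ∈ dT S t l w, ∃ p, S.Kl t g p ∧ p < l) →
        2 * (dK S t l w).card ≤ (dT S t l w).card) := by
  have hR : ∀ v ∈ dT S t l w, S.R t v := by
    intro v hv
    rw [mem_dT] at hv
    exact R_of_W ht hx hv.1 (by omega)
  have hsame : ∀ v ∈ dT S t l w, ∀ u ∈ dT S t l w, S.lam t v = S.lam t u := by
    intro v hv u hu
    rw [mem_dT] at hv hu
    rw [hv.2, hu.2]
  have h0 : (dT S t l w).Nonempty := ⟨w, mem_dT.2 ⟨hw, rfl⟩⟩
  obtain ⟨a, ha, hamin⟩ : ∃ a ∈ dT S t l w, ∀ v ∈ dT S t l w, a ≤ v :=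
    Finset.exists_min_image _ id h0
  obtain ⟨b, hb, hbmax⟩ : ∃ b ∈ dT S t l w, ∀ v ∈ dT S t l w, v ≤ b :=
    Finset.exists_max_image _ id h0
  have ha' := mem_dW.1 (mem_dT.1 ha).1
  obtain ⟨N, hN⟩ : ∃ N, N = (dT S t l w).filter (fun v => ¬ S.lam (t + 1) v = S.X t) := ⟨_, rfl⟩
  have hc : (dK S t l w).card + N.card = (dT S t l w).card := by
    rw [hN]
    exact Finset.card_filter_add_card_filter_not _
  have hmem : ∀ {z v : ℕ}, v ∈ dT S t l w → v < z → z ≤ w → S.R t z → z ∈ dT S t l w := by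
    intro z v hv hvz hzw hz
    have hv' := mem_dT.1 hv
    have h1 := mem_dW.1 hv'.1
    have h3 := R_lam hz
    have h5 : z ∈ dW S t l w := mem_dW.2 ⟨hz.2.1, by omega, hzw, by omega⟩
    have h6 := dW_anc ht.le hv'.1 h5 hvz
    have h7 := lam_min ht.le hw h5
    rw [mem_dT]
    exact ⟨h5, by omega⟩
  have hmid : ∀ v ∈ (dK S t l w).erase b, v ≠ a →
      S.rho t v ∈ dT S t l w ∧ S.Kl t (S.rho t v) v := by
    intro v hv hva
    rw [Finset.mem_erase, dK, Finset.mem_filter] at hv
    obtain ⟨hvb, hv1, hv2⟩ := hv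
    have h1 : a < v := lt_of_le_of_ne (hamin v hv1) (Ne.symm hva)
    have h2 : v < b := lt_of_le_of_ne (hbmax v hv1) hvb
    obtain ⟨z, hz1, hz2, hz3, hz4⟩ := exists_below (hR a ha) (hR v hv1) h1
    obtain ⟨hu1, hu2⟩ := R_up_le (hR v hv1) (hR b hb) h2
    have hbw := (mem_dW.1 (mem_dT.1 hb).1).2.2.1
    have hvw := (mem_dW.1 (mem_dT.1 hv1).1).2.2.1
    have hzU : z ∈ dT S t l w := by
      rcases Nat.eq_or_lt_of_le hz2 with h3 | h3
      · rw [← h3]
        exact ha
      · exact hmem ha h3 (by omega) hz1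
    have hvu := R_rho (hR v hv1)
    have huU : S.rho t v ∈ dT S t l w := hmem hv1 hvu (by omega) hu1
    refine ⟨huU, ?_⟩
    have h3 := hT t z hz1 (by rw [hz4]; exact hR v hv1)
      (by rw [hz4]; exact hu1)
      (by rw [hz4]; exact hsame v hv1 z hzU) (by rw [hz4]; exact hsame _ huU z hzU)
    rw [hz4] at h3
    rcases h3 with h3 | h3
    · have := h3.2.2
      have := R_gt hz1
      omega
    · exact h3
  have hinj : (((dK S t l w).erase b).erase a).card ≤ (N.erase a).card := by
    refine Finset.card_le_card_of_injOn (fun v => S.rho t v) ?_ ?_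
    · intro v hv
      rw [Finset.mem_coe, Finset.mem_erase] at hv
      obtain ⟨h1, h2⟩ := hmid v hv.2 hv.1
      have h3 := kl_lt h2
      have h5 : v ∈ dT S t l w := by
        have := Finset.mem_of_mem_erase hv.2
        rw [dK, Finset.mem_filter] at this
        exact this.1
      have h4 := hamin v h5
      rw [Finset.mem_coe, Finset.mem_erase, hN, Finset.mem_filter]
      refine ⟨by simp only; omega, h1, ?_⟩
      simp only
      rw [h2.2.2]
      have := h2.2.1
      omega
    · intro v hv v' hv' he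
      rw [Finset.mem_coe, Finset.mem_erase] at hv hv'
      obtain ⟨h1, h2⟩ := hmid v hv.2 hv.1
      obtain ⟨h1', h2'⟩ := hmid v' hv'.2 hv'.1
      simp only at he
      rw [← he] at h2'
      exact kl_unique h2 h2'
  have e1 : (dK S t l w).card ≤ ((dK S t l w).erase b).card + 1 := by
    have := Finset.pred_card_le_card_erase (s := dK S t l w) (a := b)
    omega
  have e2 : ((dK S t l w).erase b).card ≤ (((dK S t l w).erase b).erase a).card + 1 := by
    have := Finset.pred_card_le_card_erase (s := (dK S t l w).erase b) (a := a)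
    omega
  have e3 : (N.erase a).card ≤ N.card := Finset.card_le_card (Finset.erase_subset _ _)
  refine ⟨by omega, ?_⟩
  rintro ⟨g, hg, p, hK, hp⟩
  have hga : g = a := by
    have h1 := hamin g hg
    have h2 := ext_min hK hp ha'.1 ha'.2.1 (by have := R_lam (hR a ha); omega)
    omega
  subst hga
  have hgN : g ∈ N := by
    rw [hN, Finset.mem_filter]
    refine ⟨hg, ?_⟩
    rw [hK.2.2]
    have := hK.2.1
    omega
  have hgK : g ∉ (dK S t l w).erase b := by
    intro h
    rw [Finset.mem_erase, dK, Finset.mem_filter] at h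
    rw [hK.2.2] at h
    have := hK.2.1
    omega
  have e4 : (N.erase g).card + 1 = N.card := Finset.card_erase_add_one hgN
  rw [Finset.erase_eq_of_notMem hgK] at hinj
  omega

private theorem pow_aux (j a k : ℕ) (h : k < 2 ^ j) : a + k < 2 ^ (j + a) := by
  rw [pow_add]
  have h1 : a + 1 ≤ 2 ^ a := Nat.lt_two_pow_self
  have h2 : 1 ≤ 2 ^ j := Nat.one_le_two_pow
  nlinarith

/-- The left end of an element of the left spine after a pass from the left. -/
theorem lam_step (ht : t < S.m) (hx : S.X t < l) (hv : v ∈ dW S (t + 1) l w) :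
    (S.R t v ∧ S.lam (t + 1) v = S.X t) ∨ (v ∈ dX S t l w ∧ S.X t < S.lam (t + 1) v) ∨
      (¬ S.R t v ∧ S.lam (t + 1) v = S.lam t v ∧ S.X t ≤ S.lam t v) := by
  have hv' := mem_dW.1 hv
  by_cases h : S.R t v
  · rcases R_cases h with h1 | h1 | ⟨q, h1, h2, h3⟩
    · exact Or.inl ⟨h, h1.1⟩
    · exact Or.inl ⟨h, h1.1⟩
    · refine Or.inr (Or.inl ⟨?_, ?_⟩)
      · rw [mem_dX]
        exact ⟨hv'.1, hv'.2.1, hv'.2.2.1, q, h1, by have := hv'.2.2.2; omega⟩
      · rw [h2]
        exact h1.2.1
  · right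
    right
    have h1 := not_R ht hv'.1 (by omega) h
    exact ⟨h, h1.2.1, by omega⟩

/-- **The step of the potential.**  `w'` is an element of the left spine after the pass. -/
theorem pass (hT : Thr S) (ht : t < S.m) (hx : S.X t < l) (hw : w ∈ dW S t l w)
    (hwx : S.lam t w < S.X t) {w' : ℕ} (hw' : w' ∈ dW S (t + 1) l w) (P : ℕ)
    (h : (dG S t l w).card + j ≤ P) (hj : (dT S t l w).card < 2 ^ j) :
    (∃ j', (dG S (t + 1) l w').card + j' ≤ P ∧ (dT S (t + 1) l w').card < 2 ^ j') ∧
      2 * (dT S (t + 1) l w').card ≤ (dT S t l w).card + 2 * (dG S t l w).card + 2 := by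
  obtain ⟨k1, k2⟩ := card_dK hT ht hx hw hwx
  have hk : (dK S t l w).card ≤ (dT S t l w).card := Finset.card_le_card (Finset.filter_subset _ _)
  have hw'w := (mem_dW.1 hw').2.2.1
  have hsub : ∀ v ∈ dW S (t + 1) l w', v ∈ dW S (t + 1) l w := fun v hv => dW_mono hw'w hv
  have hw'' : w' ∈ dW S (t + 1) l w' := by
    have := mem_dW.1 hw'
    exact mem_dW.2 ⟨this.1, this.2.1, le_rfl, this.2.2.2⟩
  have hTpos : 1 ≤ (dT S t l w).card := Finset.card_pos.2 ⟨w, mem_dT.2 ⟨hw, rfl⟩⟩
  have hj0 : 1 ≤ j := by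
    rcases Nat.eq_zero_or_pos j with h6 | h6
    · rw [h6, pow_zero] at hj
      omega
    · exact h6
  have e5 : (dX S t l w).card ≤ 1 := card_dX S t l w
  -- the exposed elements of the other groups and the rest
  obtain ⟨A, hA⟩ : ∃ A, A = (dG S t l w).filter (fun v => S.lam t v ≤ S.X t) := ⟨_, rfl⟩
  obtain ⟨B, hB⟩ : ∃ B, B = (dG S t l w).filter (fun v => ¬ S.lam t v ≤ S.X t) := ⟨_, rfl⟩
  have hAB : A.card + B.card = (dG S t l w).card := by
    rw [hA, hB]
    exact Finset.card_filter_add_card_filter_not _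
  have hAd : (A \ dX S t l w).card ≤ A.card := Finset.card_le_card Finset.sdiff_subset
  -- an element with a left end above the request
  have hup : ∀ v ∈ dW S (t + 1) l w, S.X t < S.lam (t + 1) v → v ∈ B ∪ dX S t l w := by
    intro v hv hvx
    rw [Finset.mem_union]
    rcases lam_step ht hx hv with h1 | h1 | h1
    · omega
    · exact Or.inr h1.1
    · left
      have h2 := dW_step ht hx hv
      rw [hB, Finset.mem_filter, mem_dG]
      exact ⟨⟨h2, by omega⟩, by omega⟩
  have hBX : (B ∪ dX S t l w).card ≤ B.card + (dX S t l w).card := Finset.card_union_le _ _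
  by_cases hc : S.lam (t + 1) w' = S.X t
  · -- the top group is the group of the request
    have hG : dG S (t + 1) l w' ⊆ B ∪ dX S t l w := by
      intro v hv
      rw [mem_dG] at hv
      refine hup v (hsub v hv.1) ?_
      have := lam_min (by omega) hw'' hv.1
      omega
    have hTt : dT S (t + 1) l w' ⊆ (A \ dX S t l w) ∪ dK S t l w := by
      intro v hv
      rw [mem_dT] at hv
      have hv1 := hsub v hv.1
      have hv2 := dW_step ht hx hv1
      have hX : v ∉ dX S t l w := by
        intro h1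
        obtain ⟨h2, h3, h4, p, h5, h6⟩ := mem_dX.1 h1
        have := h5.2.2
        have := h5.2.1
        omega
      rw [Finset.mem_union, Finset.mem_sdiff]
      by_cases hg : S.lam t v = S.lam t w
      · right
        rw [dK, Finset.mem_filter, mem_dT]
        exact ⟨⟨hv2, hg⟩, by omega⟩
      · left
        refine ⟨?_, hX⟩
        rw [hA, Finset.mem_filter, mem_dG]
        refine ⟨⟨hv2, hg⟩, ?_⟩
        rcases lam_step ht hx hv1 with h1 | h1 | h1
        · exact (R_lam h1.1).le
        · exact absurd h1.1 hX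
        · omega
    have e1 : (dG S (t + 1) l w').card ≤ B.card + (dX S t l w).card :=
      (Finset.card_le_card hG).trans hBX
    have e2 : (dT S (t + 1) l w').card ≤ (A \ dX S t l w).card + (dK S t l w).card :=
      (Finset.card_le_card hTt).trans (Finset.card_union_le _ _)
    refine ⟨?_, by omega⟩
    rcases (dX S t l w).eq_empty_or_nonempty with h0 | ⟨g, hg⟩
    · rw [h0, Finset.card_empty] at e1
      refine ⟨j + A.card, by omega, ?_⟩
      have := pow_aux j A.card (dK S t l w).card (by omega)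
      omega
    · have hg' := mem_dX.1 hg
      obtain ⟨g1, g2, g3, p, hK, hp⟩ := hg'
      have hRg := R_lam hK.1
      have hW : g ∈ dW S t l w := mem_dW.2 ⟨g1, g2, g3, by omega⟩
      by_cases hV : S.lam t g = S.lam t w
      · have hU : g ∈ dT S t l w := mem_dT.2 ⟨hW, hV⟩
        have h2 := k2 ⟨g, hU, p, hK, hp⟩
        have hA0 : A = ∅ := by
          rw [Finset.eq_empty_iff_forall_notMem]
          intro v hv
          rw [hA, Finset.mem_filter, mem_dG] at hv
          obtain ⟨⟨hv1, hv2⟩, hv3⟩ := hv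
          have hv4 := mem_dW.1 hv1
          have h3 := ext_min hK hp hv4.1 hv4.2.1 hv3
          rcases Nat.eq_or_lt_of_le h3 with h4 | h4
          · rw [h4] at hV
            exact hv2 hV
          · have h5 := dW_anc ht.le hW hv1 h4
            have h6 := lam_min ht.le hw hv1
            omega
        have hA1 : A.card = 0 := by
          rw [hA0, Finset.card_empty]
        refine ⟨j - 1, by omega, ?_⟩
        have h7 : 2 ^ j = 2 * 2 ^ (j - 1) := by
          obtain ⟨i, rfl⟩ : ∃ i, j = i + 1 := ⟨j - 1, by omega⟩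
          rw [pow_succ, Nat.add_sub_cancel]
          ring
        omega
      · have hgA : g ∈ A := by
          rw [hA, Finset.mem_filter, mem_dG]
          exact ⟨⟨hW, hV⟩, by omega⟩
        have h5 : 1 ≤ A.card := Finset.card_pos.2 ⟨g, hgA⟩
        have h6 : (A \ dX S t l w).card + 1 ≤ A.card := by
          have : (A \ dX S t l w) ⊆ A.erase g := by
            intro v hv
            rw [Finset.mem_sdiff] at hv
            rw [Finset.mem_erase]
            exact ⟨fun h => hv.2 (h ▸ hg), hv.1⟩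
          have h7 := Finset.card_le_card this
          have h8 := Finset.card_erase_add_one hgA
          omega
        refine ⟨j + (A.card - 1), by omega, ?_⟩
        have := pow_aux j (A.card - 1) (dK S t l w).card (by omega)
        omega
  · -- the top group was not touched, or consists of the external victim
    have hw'x : S.X t < S.lam (t + 1) w' := by
      rcases lam_step ht hx hw' with h1 | h1 | h1
      · exact absurd h1.2 hc
      · exact h1.2
      · omega
    have hall : dW S (t + 1) l w' ⊆ B ∪ dX S t l w := by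
      intro v hv
      refine hup v (hsub v hv) ?_
      have := lam_min (by omega) hw'' hv
      omega
    have e1 := (Finset.card_le_card hall).trans hBX
    have e2 := card_dW S (t + 1) l w'
    refine ⟨⟨(dT S (t + 1) l w').card, by omega, Nat.lt_two_pow_self⟩, by omega⟩

/-- Going down to an element of the left spine. -/
theorem lower (ht : t ≤ S.m) (hw : w ∈ dW S t l w) {w' : ℕ} (hw' : w' ∈ dW S t l w) (P : ℕ)
    (h : (dG S t l w).card + j ≤ P) (hj : (dT S t l w).card < 2 ^ j) :
    (∃ j', (dG S t l w').card + j' ≤ P ∧ (dT S t l w').card < 2 ^ j') ∧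
      ((dT S t l w').card ≤ (dT S t l w).card ∨ (dT S t l w').card ≤ P) := by
  have hw'w := (mem_dW.1 hw').2.2.1
  have hsub : ∀ v ∈ dW S t l w', v ∈ dW S t l w := fun v hv => dW_mono hw'w hv
  have hw'' : w' ∈ dW S t l w' := by
    have := mem_dW.1 hw'
    exact mem_dW.2 ⟨this.1, this.2.1, le_rfl, this.2.2.2⟩
  by_cases hc : S.lam t w' = S.lam t w
  · have h1 : dT S t l w' ⊆ dT S t l w := by
      intro v hv
      rw [mem_dT] at hv ⊢
      exact ⟨hsub v hv.1, by omega⟩
    have h2 : dG S t l w' ⊆ dG S t l w := by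
      intro v hv
      rw [mem_dG] at hv ⊢
      exact ⟨hsub v hv.1, by omega⟩
    have h3 := Finset.card_le_card h1
    have h4 := Finset.card_le_card h2
    exact ⟨⟨j, by omega, by omega⟩, Or.inl h3⟩
  · have h1 : dW S t l w' ⊆ dG S t l w := by
      intro v hv
      rw [mem_dG]
      refine ⟨hsub v hv, ?_⟩
      have h5 := lam_min ht hw'' hv
      have h6 := lam_min ht hw hw'
      omega
    have h3 := Finset.card_le_card h1
    have h4 := card_dW S t l w'
    exact ⟨⟨(dT S t l w').card, by omega, Nat.lt_two_pow_self⟩, Or.inr (by omega)⟩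

/-- If no left end changes then nothing changes. -/
theorem still (h : ∀ v ∈ S.K, l ≤ v → v ≤ w → S.lam (t + 1) v = S.lam t v)
    (hwK : w ∈ S.K) (hlw : l ≤ w) :
    dG S (t + 1) l w = dG S t l w ∧ dT S (t + 1) l w = dT S t l w := by
  have hww := h w hwK hlw le_rfl
  constructor
  · ext v
    rw [mem_dG, mem_dG, mem_dW, mem_dW, hww]
    constructor
    · rintro ⟨⟨h1, h2, h3, h4⟩, h5⟩
      rw [h v h1 h2 h3] at h4 h5
      exact ⟨⟨h1, h2, h3, h4⟩, h5⟩
    · rintro ⟨⟨h1, h2, h3, h4⟩, h5⟩
      rw [h v h1 h2 h3]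
      exact ⟨⟨h1, h2, h3, h4⟩, h5⟩
  · ext v
    rw [mem_dT, mem_dT, mem_dW, mem_dW, hww]
    constructor
    · rintro ⟨⟨h1, h2, h3, h4⟩, h5⟩
      rw [h v h1 h2 h3] at h4 h5
      exact ⟨⟨h1, h2, h3, h4⟩, h5⟩
    · rintro ⟨⟨h1, h2, h3, h4⟩, h5⟩
      rw [h v h1 h2 h3]
      exact ⟨⟨h1, h2, h3, h4⟩, h5⟩

/-- Backward induction. -/
theorem back (hT : Thr S) {t1 P0 : ℕ} (ht1 : t1 ≤ S.m) (σ : ℕ → ℕ) :
    ∀ (n t : ℕ), t + n = t1 → (∀ s, t ≤ s → s < t1 → S.X s < l ∨ r ≤ S.X s) →
      ∀ (D : Finset ℕ) (w i j : ℕ), w < r → w ∈ D →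
      (∀ e ∈ D, l ≤ e ∧ e ≤ w ∧ t ≤ σ e ∧ σ e < t1 ∧ (∃ p, S.Kl (σ e) e p ∧ p < l) ∧
        ∀ u, t ≤ u → u < σ e → ¬ S.L u e) →
      (dG S t l w).card + j ≤ P0 → (dT S t l w).card < 2 ^ j →
      (dT S t l w).card < 2 * (P0 + 1) + 2 ^ i → D.card ≤ 3 * P0 + 2 + i := by
  intro n
  induction n with
  | zero =>
    intro t ht _ D w i j hw hwD hD _ _ _
    obtain ⟨_, _, h1, h2, _⟩ := hD w hwD
    omega
  | succ n ih =>
    intro t ht hun D w i j hw hwD hD hH hU hI
    obtain ⟨d1, -, d3, d4, ⟨p, hK, hp⟩, d6⟩ := hD w hwD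
    have htm : t < S.m := by omega
    have hwK : w ∈ S.K := hK.1.2.1
    have hXne : ∀ e, l ≤ e → e ≤ w → ∀ u, t ≤ u → u < t1 → S.X u ≠ e := by
      intro e h1 h2 u h0 h3 h4
      have := hun u h0 h3
      omega
    have hDlam : ∀ e ∈ D, S.lam t e < l := by
      intro e he
      obtain ⟨b1, b2, b3, b4, ⟨p', hK', hp'⟩, b6⟩ := hD e he
      have h1 := lam_mono hK'.1.2.1 b3 (by omega) b6
        (fun u h0 h2 => hXne e b1 b2 u h0 (by omega))
      have h2 := R_lam hK'.1
      have h3 := hK'.2.1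
      omega
    have hDlam' : ∀ e ∈ D, t < σ e → S.lam (t + 1) e < l := by
      intro e he ht'
      obtain ⟨b1, b2, b3, b4, ⟨p', hK', hp'⟩, b6⟩ := hD e he
      have h1 := lam_mono hK'.1.2.1 (show t + 1 ≤ σ e from ht') (by omega)
        (fun u h0 h2 => b6 u (by omega) h2)
        (fun u h0 h2 => hXne e b1 b2 u (by omega) (by omega))
      have h2 := R_lam hK'.1
      have h3 := hK'.2.1
      omega
    have hwl := hDlam w hwD
    have hwW : w ∈ dW S t l w := mem_dW.2 ⟨hwK, d1, le_rfl, hwl⟩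
    have hDW : ∀ e ∈ D, e ∈ dW S t l w := by
      intro e he
      obtain ⟨b1, b2, b3, b4, ⟨p', hK', hp'⟩, b6⟩ := hD e he
      exact mem_dW.2 ⟨hK'.1.2.1, b1, b2, hDlam e he⟩
    have hnL : ¬ S.L t w := by
      rcases Nat.eq_or_lt_of_le d3 with h | h
      · intro h2
        rw [← h] at hK
        exact Sys.not_R_L hK.1 h2
      · exact d6 t le_rfl h
    have hun' : ∀ s, t + 1 ≤ s → s < t1 → S.X s < l ∨ r ≤ S.X s := fun s h1 h2 =>
      hun s (by omega) h2
    -- the case without changes
    have hstill : (∀ v ∈ S.K, l ≤ v → v ≤ w → S.lam (t + 1) v = S.lam t v) →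
        (∀ e ∈ D, σ e ≠ t) → D.card ≤ 3 * P0 + 2 + i := by
      intro h hσ
      obtain ⟨e1, e2⟩ := still h hwK d1
      refine ih (t + 1) (by omega) hun' D w i j hw hwD ?_ ?_ ?_ ?_
      · intro e he
        obtain ⟨b1, b2, b3, b4, b5, b6⟩ := hD e he
        have := hσ e he
        exact ⟨b1, b2, by omega, b4, b5, fun u h1 h2 => b6 u (by omega) h2⟩
      · rw [e1]
        exact hH
      · rw [e2]
        exact hU
      · rw [e2]
        exact hI
    rcases hun t le_rfl (by omega) with hx | hx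
    · by_cases hex : S.lam t w < S.X t
      · -- a pass
        have hc : D.card ≤ (D.filter (fun e => σ e ≠ t)).card + 1 := by
          have h1 := Finset.card_filter_add_card_filter_not (s := D) (fun e => σ e ≠ t)
          have h2 : D.filter (fun e => ¬ σ e ≠ t) ⊆ dX S t l w := by
            intro e he
            rw [Finset.mem_filter] at he
            obtain ⟨b1, b2, b3, b4, b5, b6⟩ := hD e he.1
            have h3 : σ e = t := not_not.1 he.2
            rw [h3] at b5
            rw [mem_dX]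
            exact ⟨b5.choose_spec.1.1.2.1, b1, b2, b5⟩
          have h3 := Finset.card_le_card h2
          have h4 := card_dX S t l w
          omega
        rcases Nat.eq_zero_or_pos i with hi | hi
        · have h1 : D ⊆ dW S t l w := hDW
          have h2 := Finset.card_le_card h1
          rw [← card_dW] at h2
          rw [hi, pow_zero] at hI
          omega
        · obtain ⟨i', rfl⟩ : ∃ i', i = i' + 1 := ⟨i - 1, by omega⟩
          rcases (D.filter (fun e => σ e ≠ t)).eq_empty_or_nonempty with h0 | h0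
          · rw [h0, Finset.card_empty] at hc
            omega
          · obtain ⟨w1, hw1, hmax⟩ : ∃ w1 ∈ D.filter (fun e => σ e ≠ t),
                ∀ v ∈ D.filter (fun e => σ e ≠ t), v ≤ w1 := Finset.exists_max_image _ id h0
            rw [Finset.mem_filter] at hw1
            obtain ⟨c1, c2, c3, c4, ⟨p', hK', hp'⟩, c6⟩ := hD w1 hw1.1
            have hw1W : w1 ∈ dW S (t + 1) l w :=
              mem_dW.2 ⟨hK'.1.2.1, c1, c2, hDlam' w1 hw1.1 (by have := hw1.2; omega)⟩
            obtain ⟨⟨j', hj1, hj2⟩, hj3⟩ := pass (j := j) hT htm hx hwW hex hw1W P0 hH hU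
            have h1 := ih (t + 1) (by omega) hun' (D.filter (fun e => σ e ≠ t)) w1 i' j'
              (by omega) (Finset.mem_filter.2 hw1) ?_ hj1 hj2 ?_
            · omega
            · intro e he
              have he' := hmax e he
              rw [Finset.mem_filter] at he
              obtain ⟨b1, b2, b3, b4, b5, b6⟩ := hD e he.1
              have := he.2
              exact ⟨b1, he', by omega, b4, b5, fun u h1 h2 => b6 u (by omega) h2⟩
            · rw [pow_succ] at hI
              omega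
      · apply hstill
        · intro v hv h1 h2
          have h3 : ¬ S.R t v := by
            intro h4
            have h5 := R_lam h4
            have h6 := lam_min htm.le hwW (mem_dW.2 ⟨hv, h1, h2, by omega⟩)
            omega
          exact (not_R htm hv (by omega) h3).2.1
        · intro e he h1
          obtain ⟨b1, b2, b3, b4, ⟨p', hK', hp'⟩, b6⟩ := hD e he
          rw [h1] at hK'
          have h5 := R_lam hK'.1
          have h6 := lam_min htm.le hwW (hDW e he)
          omega
    · apply hstill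
      · intro v hv h1 h2
        have h3 : ¬ S.E t v := by
          intro h4
          have h5 := S.lt_rho t htm.le w hwK
          rcases Sys.E_up h4 hwK (by omega) (by omega) with h6 | h6 | h6
          · have := h6.2.2.1
            omega
          · exact hnL h6
          · have := h6.2.2
            omega
        exact (Sys.untouched htm hv h3).1
      · intro e he h1
        obtain ⟨b1, b2, b3, b4, ⟨p', hK', hp'⟩, b6⟩ := hD e he
        rw [h1] at hK'
        have := hK'.2.1
        omega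

/-- **The dormant lemma.** -/
theorem dormant (hT : Thr S) {t0 t1 P0 : ℕ} (h01 : t0 ≤ t1) (ht1 : t1 ≤ S.m)
    (hun : ∀ s, t0 ≤ s → s < t1 → S.X s < l ∨ r ≤ S.X s) (σ : ℕ → ℕ) (D : Finset ℕ) (hw : w < r)
    (hwD : w ∈ D)
    (hD : ∀ e ∈ D, l ≤ e ∧ e ≤ w ∧ t0 ≤ σ e ∧ σ e < t1 ∧ (∃ p, S.Kl (σ e) e p ∧ p < l) ∧
      ∀ u, t0 ≤ u → u < σ e → ¬ S.L u e)
    (hH : (dG S t0 l w).card + j ≤ P0) (hU : (dT S t0 l w).card < 2 ^ j) :
    D.card ≤ 4 * P0 + 2 := by
  have h := back hT ht1 σ (t1 - t0) t0 (by omega) hun D w j j hw hwD hD hH hU (by omega)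
  omega

/-- The last kill of a round which was not touched from the other side is a kill by `q`. -/
theorem kl_of_bt {r : Rnd} (hr : Rg S r) (hτ : bt S r ≤ t) (hs : t ≤ r.s) :
    S.Kl r.s r.g r.q ∧ ∀ u, t ≤ u → u ≤ r.s → ¬ S.L u r.g := by
  have h2 : ∀ u, t ≤ u → u ≤ r.s → ¬ S.L u r.g := by
    intro u hu1 hu2 hL
    have hb : BddAbove {b | b = 0 ∨ ∃ u, u ≤ r.s ∧ S.L u r.g ∧ b = u + 1} := by
      refine ⟨r.s + 1, ?_⟩
      rintro b (h | ⟨u, h1, h2, h3⟩)
      · omega
      · omega
    have h3 : u + 1 ≤ bt S r := le_csSup hb (Or.inr ⟨u, hu2, hL, rfl⟩)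
    omega
  refine ⟨?_, h2⟩
  rcases hr.sk with h | h
  · exact h.1
  · exact absurd h.1.1 (h2 r.s hs le_rfl)

/-- The left end of the key of a round before its release. -/
theorem lam_rel {r : Rnd} (hr : Rg S r) : S.lam r.rel r.g = r.q := by
  have h1 : S.NE r.g (r.s + 1) r.rel := by
    intro u hu1 hu2 hE
    have := (hr.ne u (by omega) (by have := hr.rt; omega) hE).1
    omega
  have hm : r.t < S.m := hr.kl.1.1
  have h2 := Sys.NE_const (S := S) hr.kl.1.2.1 (show r.s + 1 ≤ r.rel from hr.rs)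
    (by have := hr.rt; omega) h1
  rw [h2.1]
  rcases hr.sk with h | h
  · exact h.1.2.2
  · exact h.2

end Pool.Agent.SplGd.Dm

namespace Pool.Agent.SplGd

open Pool.Agent.SplLog Pool.Agent.SplLs Pool.Agent.SplDq Pool.Agent.SplTr
open Pool.Agent.SplTr.Dm (dW mem_dW dW_anc ext_unique dX mem_dX card_dX dW_step)
open scoped Classical

/-- **Dormant rounds.**  `ra` is a round with the key `ra.g`; `J` is a set of rounds with different
keys in `(ra.g, b)` whose predecessor kills happen after the release of `ra`, with a killer below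
`ra.g`, and which are not touched from the other side in between.  No key of `[ra.g, b)` is
requested in between. -/
theorem dorm_rg {S : Sys} (hT : Thr S) {ra : Rnd} (ha : Rg S ra) (b : ℕ) (J : Finset Rnd)
    (hinj : ∀ r ∈ J, ∀ r' ∈ J, r.g = r'.g → r = r')
    (hJ : ∀ r ∈ J, Rg S r ∧ ra.g < r.g ∧ r.g < b ∧ r.q < ra.g ∧ ra.rel ≤ r.s ∧ bt S r ≤ ra.rel ∧
      Unc S ra.g b ra.rel (r.s + 1)) :
    J.card ≤ 4 * Nat.log 2 (b - ra.g) + 20 := by
  -- the rounds killed at the release itself
  have hc : J.card ≤ (J.filter (fun r => ra.rel < r.s)).card + 1 := by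
    have h1 := Finset.card_filter_add_card_filter_not (s := J) (fun r => ra.rel < r.s)
    have h2 : (J.filter (fun r => ¬ ra.rel < r.s)).card ≤ 1 := by
      rw [Finset.card_le_one]
      intro r hr r' hr'
      rw [Finset.mem_filter] at hr hr'
      obtain ⟨a1, a2, a3, a4, a5, a6, _⟩ := hJ r hr.1
      obtain ⟨b1, b2, b3, b4, b5, b6, _⟩ := hJ r' hr'.1
      have c1 := (Pool.Agent.SplGd.Dm.kl_of_bt a1 a6 a5).1
      have c2 := (Pool.Agent.SplGd.Dm.kl_of_bt b1 b6 b5).1
      have e1 : r.s = ra.rel := by omega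
      have e2 : r'.s = ra.rel := by omega
      rw [e1] at c1
      rw [e2] at c2
      exact hinj r hr.1 r' hr'.1 (ext_unique c1 a4 c2 b4 a2.le b2.le)
    omega
  rcases (J.filter (fun r => ra.rel < r.s)).eq_empty_or_nonempty with h0 | h0
  · rw [h0, Finset.card_empty] at hc
    omega
  obtain ⟨rm, hrm, hmax⟩ : ∃ rm ∈ J.filter (fun r => ra.rel < r.s),
      ∀ r ∈ J.filter (fun r => ra.rel < r.s), r.s ≤ rm.s := Finset.exists_max_image _ _ h0
  have hrm' := Finset.mem_filter.1 hrm
  obtain ⟨m1, m2, m3, m4, m5, m6, m7⟩ := hJ rm hrm'.1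
  have hun : ∀ s, ra.rel ≤ s → s < rm.s + 1 → S.X s < ra.g ∨ b ≤ S.X s := by
    intro s hs0 hs
    by_contra hc2
    push Not at hc2
    exact m7 s hs0 hs hc2
  have htm : ra.rel < S.m := by
    have := ha.rt
    have := ha.kl.1.1
    omega
  have hx : S.X ra.rel < ra.g := ha.rg
  have hlam : S.lam ra.rel ra.g ≤ S.X ra.rel := by
    rw [Pool.Agent.SplGd.Dm.lam_rel ha]
    exact ha.rq
  -- the image of `J`
  have hch : ∀ g ∈ (J.filter (fun r => ra.rel < r.s)).image (fun r => r.g), ∃ r ∈ J, ra.rel < r.s ∧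
      r.g = g := by
    intro g hg
    rw [Finset.mem_image] at hg
    obtain ⟨r, hr, hr'⟩ := hg
    rw [Finset.mem_filter] at hr
    exact ⟨r, hr.1, hr.2, hr'⟩
  have : Nonempty Rnd := ⟨ra⟩
  choose! ρ hρ using hch
  have hcard : ((J.filter (fun r => ra.rel < r.s)).image (fun r => r.g)).card =
      (J.filter (fun r => ra.rel < r.s)).card := by
    apply Finset.card_image_of_injOn
    intro r hr r' hr' he
    rw [Finset.mem_coe, Finset.mem_filter] at hr hr'
    exact hinj r hr.1 r' hr'.1 he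
  have hrmt : rm.s + 1 ≤ S.m := by
    have := m1.st
    have := m1.kl.1.1
    omega
  have hprop : ∀ g ∈ (J.filter (fun r => ra.rel < r.s)).image (fun r => r.g),
      ra.g ≤ g ∧ g < b ∧ ra.rel + 1 ≤ (ρ g).s ∧ (ρ g).s < rm.s + 1 ∧
      (∃ p, S.Kl (ρ g).s g p ∧ p < ra.g) ∧ ∀ u, ra.rel + 1 ≤ u → u < (ρ g).s → ¬ S.L u g := by
    intro g hg
    obtain ⟨g1, g2, g3⟩ := hρ g hg
    obtain ⟨a1, a2, a3, a4, a5, a6, _⟩ := hJ (ρ g) g1
    have h1 := Pool.Agent.SplGd.Dm.kl_of_bt a1 a6 a5
    have h2 := hmax (ρ g) (Finset.mem_filter.2 ⟨g1, g2⟩)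
    rw [g3] at h1 a2 a3
    refine ⟨a2.le, a3, g2, by omega, ⟨(ρ g).q, h1.1, a4⟩, ?_⟩
    intro u hu1 hu2
    exact h1.2 u (by omega) (by omega)
  have hne : ((J.filter (fun r => ra.rel < r.s)).image (fun r => r.g)).Nonempty :=
    h0.image _
  obtain ⟨w, hwD, hwmax⟩ : ∃ w ∈ (J.filter (fun r => ra.rel < r.s)).image (fun r => r.g),
      ∀ v ∈ (J.filter (fun r => ra.rel < r.s)).image (fun r => r.g), v ≤ w :=
    Finset.exists_max_image _ id hne
  obtain ⟨p1, p2, p3, p4, ⟨p, hK, hp⟩, p6⟩ := hprop w hwD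
  -- the left spine after the release
  have hwl : S.lam (ra.rel + 1) w < ra.g := by
    have h1 := Pool.Agent.SplTr.Dm.lam_mono hK.1.2.1 p3 (by omega) p6
      (fun u h1 h2 h3 => by have := hun u (by omega) (by omega); omega)
    have h2 := R_lam hK.1
    have h3 := hK.2.1
    omega
  have hwW : w ∈ dW S (ra.rel + 1) ra.g w := mem_dW.2 ⟨hK.1.2.1, p1, le_rfl, hwl⟩
  have haW : ra.g ∈ dW S ra.rel ra.g w := by
    rw [mem_dW]
    exact ⟨ha.kl.1.2.1, le_rfl, p1, by omega⟩
  have hall : ∀ v ∈ dW S (ra.rel + 1) ra.g w, v ∈ dX S ra.rel ra.g w ∨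
      S.lam (ra.rel + 1) v = S.X ra.rel := by
    intro v hv
    have h1 := dW_step htm hx hv
    have h2 : S.lam ra.rel v ≤ S.X ra.rel := by
      have h3 := mem_dW.1 h1
      rcases Nat.eq_or_lt_of_le h3.2.1 with h4 | h4
      · rw [← h4]
        exact hlam
      · have := dW_anc htm.le haW h1 h4
        omega
    rcases Pool.Agent.SplGd.Dm.lam_step htm hx hv with h3 | h3 | h3
    · exact Or.inr h3.2
    · exact Or.inl h3.1
    · right
      omega
  have hH : (Pool.Agent.SplGd.Dm.dG S (ra.rel + 1) ra.g w).card ≤ 1 := by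
    refine le_trans (Finset.card_le_card ?_) (card_dX S ra.rel ra.g w)
    intro v hv
    rw [Pool.Agent.SplGd.Dm.mem_dG] at hv
    rcases hall v hv.1 with h1 | h1
    · exact h1
    · have h2 := Pool.Agent.SplGd.Dm.lam_min (by omega) hwW hv.1
      rcases Pool.Agent.SplGd.Dm.lam_step htm hx hwW with h3 | h3 | h3
      · omega
      · omega
      · omega
  have hU : (Pool.Agent.SplGd.Dm.dT S (ra.rel + 1) ra.g w).card < 2 ^ (Nat.log 2 (b - ra.g) + 1) := by
    have h1 : Pool.Agent.SplGd.Dm.dT S (ra.rel + 1) ra.g w ⊆ Finset.Ico ra.g b := by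
      intro v hv
      rw [Pool.Agent.SplGd.Dm.mem_dT, mem_dW] at hv
      rw [Finset.mem_Ico]
      omega
    have h2 := Finset.card_le_card h1
    rw [Nat.card_Ico] at h2
    exact lt_of_le_of_lt h2 (Nat.lt_pow_succ_log_self (by norm_num) _)
  have hmain := Pool.Agent.SplGd.Dm.dormant (S := S) (l := ra.g) (r := b) (w := w) (t0 := ra.rel + 1)
    (t1 := rm.s + 1) (P0 := Nat.log 2 (b - ra.g) + 2) (j := Nat.log 2 (b - ra.g) + 1) hT
    (by have := hrm'.2; omega) hrmt (fun s h1 h2 => hun s (by omega) h2) (fun g => (ρ g).s)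
    ((J.filter (fun r => ra.rel < r.s)).image (fun r => r.g)) (by omega) hwD ?_ (by omega) hU
  · rw [hcard] at hmain
    omega
  · intro g hg
    obtain ⟨g1, g2, g3, g4, g5, g6⟩ := hprop g hg
    exact ⟨g1, hwmax g hg, g3, g4, g5, g6⟩

end Pool.Agent.SplGd
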