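import Pool.Agent.SplPat.Defs

set_option autoImplicit false

/-!
# Grid theorem, section 5: one class of rounds (structure `FG`), windows and cells

`FG ι k top tm N` lists what section 5 uses about the rounds of one class of scale `k`; `ι` is the
type of the rounds.  `X t` = key requested at time `t`, `tm` = number of requests, `N` = the grid
bound.  `s x` = time of the predecessor kill, `rel x` = time of the release; `x` is alive just before
the request `t` iff `s x < t` and `t ≤ rel x`.  `(q x, w x)` = range of the key while `x` is alive,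
`B x` = 1 + time of the last right touch or access of the key up to `s x` (0: none), `RT` = the right
touches (time, key).
-/

namespace Pool.Agent.SplGd

open Pool.Agent.SplPat
open scoped Classical

/-- The constant `c0` of section 5. -/
def g0 : ℕ := 40

/-- No request in `[a, b]` at the times of `[s, t]`. -/
def Idl (X : ℕ → ℕ) (a b s t : ℕ) : Prop := ∀ u, s ≤ u → u ≤ t → X u < a ∨ b < X u

/-- One class of rounds of scale `k`. -/
structure FG (ι : Type) (k top tm N : ℕ) where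
  F : Finset ι
  key : ι → ℕ
  q : ι → ℕ
  w : ι → ℕ
  s : ι → ℕ
  rel : ι → ℕ
  B : ι → ℕ
  X : ℕ → ℕ
  RT : Finset (ℕ × ℕ)
  sr : ∀ x ∈ F, s x < rel x
  rm : ∀ x ∈ F, rel x < tm
  qz : ∀ x ∈ F, q x ≤ X (rel x)
  /-- (H3) -/
  zx : ∀ x ∈ F, X (rel x) + 4 * 2 ^ k ≤ key x
  xw : ∀ x ∈ F, key x < w x
  wt : ∀ x ∈ F, w x ≤ top
  /-- no request in `[q, w)` between `s` and `rel` -/
  nr : ∀ x ∈ F, ∀ u, s x < u → u < rel x → X u < q x ∨ w x ≤ X u
  /-- the predecessor is OK -/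
  ok : ∀ x ∈ F, key x + s x ≤ X (rel x) + rel x
  inj : ∀ x ∈ F, ∀ y ∈ F, key x = key y → rel x = rel y → x = y
  /-- (H1) -/
  sep : ∀ x ∈ F, ∀ y ∈ F, key x < key y → s x < rel y → s y < rel x → key x + 4 * 2 ^ k ≤ key y
  /-- (H2) -/
  two : ∀ x ∈ F, ∀ y ∈ F, key x = key y → rel x < rel y →
    ∃ u, rel x ≤ u ∧ u ≤ s y ∧ key x < X u + 2 ^ (k + 1) ∧ X u < key x + 2 ^ (k + 1)
  /-- linked rounds are nested -/
  nest : ∀ x ∈ F, ∀ y ∈ F, key x < key y → s x < rel y → s y < rel x → q y < key x →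
    q y ≤ q x ∧ w x ≤ key y
  bs : ∀ x ∈ F, B x ≤ s x + 1
  bt : ∀ x ∈ F, 0 < B x → (B x - 1, key x) ∈ RT ∨ X (B x - 1) = key x
  /-- (L3) -/
  l3 : ∀ x ∈ F, ∀ y ∈ F, key x < key y → s x < rel y → s y < rel x → q y < key x → 0 < B x →
    Idl X (key x) (key y) (B x - 1) (s y) → B x ≤ B y
  /-- (L6) -/
  sw : ∀ x ∈ F, ∀ y ∈ F, key x < key y → s x < rel y → s y < rel x → q y < key x → 0 < B x →
    ∀ h τ, key x < h → h < key y → (τ, h) ∈ RT → s y ≤ τ → Idl X (key x) (key y) (B x - 1) τ →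
    ∃ u, B x ≤ u + 1 ∧ u < s y ∧ (u, h) ∈ RT
  /-- dormant rounds (5 C) -/
  dorm : ∀ a ∈ F, ∀ b : ℕ, ∀ J ⊆ F, (∀ x ∈ J, key a < key x ∧ key x < b ∧ q x < key a ∧
    rel a ≤ s x ∧ B x ≤ rel a ∧ ∀ u, rel a ≤ u → u ≤ s x → X u < key a ∨ b ≤ X u) →
    (∀ x ∈ J, ∀ y ∈ J, key x = key y → x = y) → J.card ≤ 4 * Nat.log 2 (b - key a) + 20
  /-- the grid bound -/
  act : ∀ j, 2 ^ j ≤ tm → 2 ^ (j / 2) * (cells (2 ^ j) tm X).card ≤ N

namespace FG

variable {ι : Type} {k top tm N : ℕ} (Q : FG ι k top tm N)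

/-- the request which releases `x` -/
def z (x : ι) : ℕ := Q.X (Q.rel x)

/-- the unit of level `D` -/
def u (_ : FG ι k top tm N) (D : ℕ) : ℕ := 2 ^ (D - 1)

/-- the cell of level `D` of the release of `x` -/
def ky (D : ℕ) (x : ι) : ℕ × ℕ := (Q.rel x / Q.u D, Q.z x / Q.u D)

/-- the window `v` of level `D` -/
noncomputable def En (D : ℕ) (v : ℕ × ℕ) : Finset ι :=
  Q.F.filter (fun x => Q.z x + 2 ^ D ≤ Q.key x ∧ Q.ky D x = v)

/-- the level of `x` -/
def Dx (x : ι) : ℕ := Nat.log 2 (Q.key x - Q.z x)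

/-- the window of `x` -/
noncomputable def Ef (x : ι) : Finset ι := Q.En (Q.Dx x) (Q.ky (Q.Dx x) x)

/-- the predecessor of `x` in its window (`x` itself: none) -/
noncomputable def ef (x : ι) : ι :=
  if h : ((Q.Ef x).filter (fun y => Q.key y < Q.key x)).Nonempty then
    Classical.choose (Finset.exists_max_image _ Q.key h) else x

/-- `x` has a predecessor in its window -/
def HP (x : ι) : Prop := Q.key (Q.ef x) < Q.key x

/-- the gap level of `x` -/
noncomputable def gf (x : ι) : ℕ := Nat.log 2 (Q.key x - Q.key (Q.ef x))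

/-- the rounds of gap level `g` -/
noncomputable def Ng (g : ℕ) : Finset ι := Q.F.filter (fun x => Q.HP x ∧ Q.gf x = g)

/-- main rounds of gap level `g` -/
noncomputable def Mg (g : ℕ) : Finset ι := (Q.Ng g).filter (fun x => g + g0 < Q.Dx x)

/-- the cell of a round of gap level `g`: least multiple of `2^(g-1)` above `e` -/
noncomputable def mc (g : ℕ) (x : ι) : ℕ := (Q.key (Q.ef x) / 2 ^ (g - 1) + 1) * 2 ^ (g - 1)

/-- left-isolated -/
def LI (g : ℕ) (x : ι) : Prop := ∀ y ∈ Q.Ef x, Q.key y + 2 ^ (g - 1) < Q.mc g x →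
  Q.key y + 2 ^ (g - 1) + 2 ^ (g + g0) < Q.mc g x

/-- right-isolated -/
def RI (g : ℕ) (x : ι) : Prop := ∀ y ∈ Q.Ef x, Q.mc g x + 2 ^ (g + 1) ≤ Q.key y →
  Q.mc g x + 2 ^ (g + 1) + 2 ^ (g + g0) ≤ Q.key y

/-- the neighbourhood of the cell `m` is requested in the time window `a` of scale `g` -/
def Bz (g m a : ℕ) : Prop := ∃ t, t < tm ∧ t / 2 ^ g = a ∧ m ≤ Q.X t + 2 ^ (g + g0 + 2) ∧
  Q.X t ≤ m + 2 ^ (g + g0 + 3)

/-- the first time window after the last busy one before the time `t` (0: none) -/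
noncomputable def pd (g m t : ℕ) : ℕ :=
  ((Finset.range (t / 2 ^ g)).filter (fun a => Q.Bz g m a)).sup (fun a => a + 1)

/-- the remaining rounds of gap level `g` -/
noncomputable def Rm (g : ℕ) : Finset ι := (Q.Mg g).filter (fun x => ¬ Q.LI g x ∧ ¬ Q.RI g x ∧
  ¬ Q.Bz g (Q.mc g x) (Q.rel x / 2 ^ g))

/-- the remaining rounds of the cell `m` in the idle period `p` -/
noncomputable def St (g m p : ℕ) : Finset ι :=
  (Q.Rm g).filter (fun x => Q.mc g x = m ∧ Q.pd g m (Q.rel x) = p)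

/-- the right touches of keys of the cell `m` in the idle period `p` -/
noncomputable def Tc (g m p : ℕ) : Finset (ℕ × ℕ) :=
  Q.RT.filter (fun r => m < r.2 ∧ r.2 < m + 2 ^ (g + 1) ∧ Q.pd g m r.1 = p)

/-- the windows `(D, v)` of rounds of level at least `a` -/
noncomputable def Wn (a : ℕ) : Finset (ℕ × (ℕ × ℕ)) :=
  (Q.F.filter (fun x => a ≤ Q.Dx x)).image (fun x => (Q.Dx x, Q.ky (Q.Dx x) x))

end FG

end Pool.Agent.SplGd
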