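import Pool.Agent.SplGd.PairG
import Pool.Agent.SplGd.DormG
import Pool.Agent.SplGd.FDef

set_option autoImplicit false

/-!
# A class of rounds is an instance of `FG`
-/

namespace Pool.Agent.SplGd

open Pool.Agent.SplLog Pool.Agent.SplLs Pool.Agent.SplDq Pool.Agent.SplTr
open scoped Classical

variable {S : Sys} {k D N : ℕ} {F : Finset Rnd}

theorem alv_max {r r' : Rnd} (h1 : r.s < r.rel) (h2 : r'.s < r'.rel) (h3 : r.s < r'.rel)
    (h4 : r'.s < r.rel) : Alv r (max r.s r'.s + 1) ∧ Alv r' (max r.s r'.s + 1) := by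
  unfold Alv
  omega

/-- **The instance.** -/
noncomputable def fg (hG : Gr S D) (hc : ClG S k F) (hN : D ≤ N) : FG Rnd k S.top S.m N where
  F := F
  key := fun r => r.g
  q := fun r => r.q
  w := fun r => r.h
  s := fun r => r.s
  rel := fun r => r.rel
  B := fun r => bt S r
  X := S.X
  RT := S.set (fun t v => S.L t v)
  sr r hr := (hc.rd r hr).rs
  rm r hr := (hc.rd r hr).relm
  qz r hr := (hc.rd r hr).rq
  zx r hr := hc.rel r hr
  xw r hr := (hc.rd r hr).gh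
  wt r hr := (hc.rd r hr).ht.le
  nr r hr u h1 h2 := by
    have := (hc.rd r hr).nr u h1 h2
    omega
  ok r hr := by
    have h1 := hc.ok r hr
    have h2 := (hc.rd r hr).rs
    unfold Ok at h1
    omega
  inj := hc.inj
  sep r hr r' hr' h h1 h2 :=
    hc.sep r hr r' hr' h ⟨_, alv_max (hc.rd r hr).rs (hc.rd r' hr').rs h1 h2⟩
  two := hc.two
  nest r hr r' hr' h h1 h2 hq := by
    obtain ⟨a1, a2⟩ := alv_max (hc.rd r hr).rs (hc.rd r' hr').rs h1 h2
    exact lg_sub (hc.rd r hr) (hc.rd r' hr') a1 a2 h hq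
  bs r _ := bt_le S r
  bt r _ h := by
    left
    rcases bt_spec S r with h1 | ⟨u, h1, h2, h3⟩
    · omega
    · rw [h3, Sys.mem_set]
      exact ⟨h2.1, h2.2.1, h2⟩
  l3 r hr r' hr' h h1 h2 hq _ hI := by
    obtain ⟨a1, a2⟩ := alv_max (hc.rd r hr).rs (hc.rd r' hr').rs h1 h2
    refine lg_bb (hc.rd r hr) (hc.rd r' hr') a1 a2 h hq ?_
    intro u hu1 hu2
    have := hI u (by omega) hu2.le
    omega
  sw r hr r' hr' h h1 h2 hq hb v τ hv1 hv2 hR hτ hI := by
    obtain ⟨a1, a2⟩ := alv_max (hc.rd r hr).rs (hc.rd r' hr').rs h1 h2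
    have h3 := lg_bs (hc.rd r hr) (hc.rd r' hr') a1 a2 h hq
    obtain ⟨u, hu1, hu2, hu3⟩ := lg_sweep' (hc.rd r hr) (hc.rd r' hr') a1 a2 h hq
      (fun u hu1 hu2 => by
        have := hI u (by omega) (by omega)
        omega) hb hv1.le hv2.le hτ (fun u hu1 hu2 => by
        have := hI u (by omega) (by omega)
        omega) (Sys.mem_set.1 hR).2.2
    exact ⟨u, hu1, hu2, Sys.mem_set.2 ⟨hu3.1, hu3.2.1, hu3⟩⟩
  dorm a ha b J hJ h hinj := by
    refine dorm_rg hG.thr (hc.rd a ha) b J hinj ?_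
    intro r hr
    obtain ⟨h1, h2, h3, h4, h5, h6⟩ := h r hr
    refine ⟨hc.rd r (hJ hr), h1, h2, h3, h4, h5, ?_⟩
    intro u hu1 hu2
    have := h6 u hu1 (by omega)
    omega
  act j hj := le_trans (hG.grid j (by omega)) hN

theorem fg_F (hG : Gr S D) (hc : ClG S k F) (hN : D ≤ N) : (fg hG hc hN).F = F := rfl

theorem fg_RT (hG : Gr S D) (hc : ClG S k F) (hN : D ≤ N) : (fg hG hc hN).RT.card ≤ tch S := by
  unfold tch Sys.cnt
  apply Finset.card_le_card
  intro p hp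
  rw [Sys.mem_set]
  have hp' : p ∈ S.set (fun t v => S.L t v) := hp
  rw [Sys.mem_set] at hp'
  exact ⟨hp'.1, hp'.2.1, Or.inr (Or.inl hp'.2.2)⟩

private theorem sq_le (k : ℕ) : (k + 1) ^ 2 * 8 ^ k ≤ 64 * 9 ^ k := by
  rcases Nat.lt_or_ge k 17 with h | h
  · interval_cases k <;> norm_num
  · induction k, h using Nat.le_induction with
    | base => norm_num
    | succ k hk ih =>
      have h1 : 8 * (k + 2) ^ 2 ≤ 9 * (k + 1) ^ 2 := by
        obtain ⟨j, rfl⟩ : ∃ j, k = j + 17 := ⟨k - 17, by omega⟩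
        have : 9 * (j + 17 + 1) ^ 2 = 8 * (j + 17 + 2) ^ 2 + (j ^ 2 + 20 * j + 28) := by ring
        omega
      calc (k + 1 + 1) ^ 2 * 8 ^ (k + 1) = (8 * (k + 2) ^ 2) * 8 ^ k := by ring
        _ ≤ (9 * (k + 1) ^ 2) * 8 ^ k := Nat.mul_le_mul_right _ h1
        _ = 9 * ((k + 1) ^ 2 * 8 ^ k) := by ring
        _ ≤ 9 * (64 * 9 ^ k) := Nat.mul_le_mul_left _ ih
        _ = 64 * 9 ^ (k + 1) := by ring

/-- **Part 5b** from the class bound for `FG`. -/
theorem clsCardG_of (h : ∃ C : ℕ, ∀ (k top tm N : ℕ) (Q : FG Rnd k top tm N) (A : ℕ), 1 ≤ A →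
    A * 9 ^ k * Q.F.card ≤ C * 8 ^ k * (A ^ 2 * (top + N) + Q.RT.card)) : ClsCardG := by
  intro A
  obtain ⟨C, hC⟩ := h
  -- with `A' = 64 (A + 1) (C + 1)`
  refine ⟨64 * (64 * (A + 1) * (C + 1)) ^ 2, fun S D hG k F hc => ?_⟩
  have h1 := hC k S.top S.m D (fg hG hc le_rfl) (64 * (A + 1) * (C + 1)) (by
    have : 0 < 64 * (A + 1) * (C + 1) := by positivity
    omega)
  have h2 : (fg hG hc le_rfl).F.card = F.card := rfl
  have h3 : (fg hG hc le_rfl).RT.card ≤ tch S := fg_RT hG hc le_rfl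
  rw [h2] at h1
  set R := (fg hG hc le_rfl).RT.card
  set A' := 64 * (A + 1) * (C + 1) with hA'
  set M := S.top + D with hM
  have h4 := sq_le k
  have h8 : 0 < 8 ^ k := by positivity
  -- multiply by `8^k (C + 1)`
  have h5 : (8 ^ k * (C + 1)) * (A * (k + 1) ^ 2 * F.card) ≤
      (8 ^ k * (C + 1)) * (tch S + 64 * A' ^ 2 * M) := by
    calc (8 ^ k * (C + 1)) * (A * (k + 1) ^ 2 * F.card)
        = ((k + 1) ^ 2 * 8 ^ k) * ((C + 1) * A * F.card) := by ring
      _ ≤ (64 * 9 ^ k) * ((C + 1) * A * F.card) := Nat.mul_le_mul_right _ h4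
      _ ≤ A' * 9 ^ k * F.card := by
          rw [hA']
          have : (64 * 9 ^ k) * ((C + 1) * A * F.card) + 64 * 9 ^ k * ((C + 1) * F.card) =
            64 * (A + 1) * (C + 1) * 9 ^ k * F.card := by ring
          omega
      _ ≤ C * 8 ^ k * (A' ^ 2 * M + R) := h1
      _ ≤ (8 ^ k * (C + 1)) * (tch S + 64 * A' ^ 2 * M) := by
          have e1 : A' ^ 2 * M + R ≤ tch S + 64 * A' ^ 2 * M := by
            have : A' ^ 2 * M ≤ 64 * A' ^ 2 * M := by
              rw [mul_assoc 64]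
              exact Nat.le_mul_of_pos_left _ (by norm_num)
            omega
          have e2 : C * 8 ^ k ≤ 8 ^ k * (C + 1) := by
            have : 8 ^ k * (C + 1) = C * 8 ^ k + 8 ^ k := by ring
            omega
          exact Nat.mul_le_mul e2 e1
  exact Nat.le_of_mul_le_mul_left h5 (by positivity)

end Pool.Agent.SplGd
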