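import Pool.Agent.SplGd.TDef

set_option autoImplicit false

/-!
# Lemma T
-/

namespace Pool.Agent.SplGd

open Pool.Agent.SplLog Pool.Agent.SplLs Pool.Agent.SplDq Pool.Agent.SplTr
open scoped Classical

variable {S : Sys} {s t u v x y z a b j e : ℕ}

-- MODULE ta  (S)
private theorem ta_pk_inj {S : Sys} {s y z : ℕ} (h : pk S s y = pk S s z) : y = z := by
  unfold pk at h
  have h1 := congrArg (fun q => (ofLex (ofLex q).2).2) h
  exact h1

private theorem ta_gg_le {S : Sys} {s z j : ℕ} (h : EE S j s z) :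
    gg S s z ≤ ((j : ℕ) : WithTop ℕ) := by
  unfold gg
  have h1 : ∃ j, EE S j s z := ⟨j, h⟩
  rw [dif_pos h1]
  have h2 : Nat.find h1 ≤ j := Nat.find_min' h1 h
  exact_mod_cast h2

private theorem ta_le_gg {S : Sys} {s z j : ℕ} (h : gg S s z ≤ ((j : ℕ) : WithTop ℕ)) :
    ∃ i, i ≤ j ∧ EE S i s z := by
  unfold gg at h
  split_ifs at h with h1
  · exact ⟨Nat.find h1, by exact_mod_cast h, Nat.find_spec h1⟩
  · exact absurd h (not_le_of_gt (WithTop.coe_lt_top j))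

private theorem ta_gg_congr {S : Sys} {s s' z : ℕ} (h : ∀ j, EE S j s z ↔ EE S j s' z) :
    gg S s z = gg S s' z := by
  have h1 : (fun j => EE S j s z) = fun j => EE S j s' z := funext fun j => propext (h j)
  unfold gg
  simp only [h1]

private theorem ta_gg_pk {S : Sys} {s y z : ℕ} (h : pk S s y ≤ pk S s z) :
    gg S s y ≤ gg S s z := by
  unfold pk at h
  rw [Prod.Lex.toLex_le_toLex] at h
  rcases h with h | h
  · exact h.le
  · exact h.1.le

private theorem ta_pk_lt {S : Sys} {s y z : ℕ} (h : gg S s y < gg S s z) :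
    pk S s y < pk S s z := by
  unfold pk
  rw [Prod.Lex.toLex_lt_toLex]
  exact Or.inl h

private theorem ta_pk_congr {S : Sys} {s s' z : ℕ} (h : ∀ j, EE S j s z ↔ EE S j s' z) :
    pk S s z = pk S s' z := by
  unfold pk
  rw [ta_gg_congr h]

/-- The windows of scale `> nu s` do not change. -/
theorem div_nu (h : nu s < j) : (s + 1) / 2 ^ j = s / 2 ^ j := by
  have h1 : ¬ 2 ^ j ∣ s + 1 := by
    intro hd
    have h2 : j ≤ padicValNat 2 (s + 1) :=
      (padicValNat_dvd_iff_le (p := 2) (Nat.succ_ne_zero s)).1 hd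
    unfold nu at h
    omega
  rw [Nat.succ_div, if_neg h1, add_zero]

/-- The windows of scale `≤ nu s` change. -/
theorem div_nu' (h : j ≤ nu s) : (s + 1) / 2 ^ j = s / 2 ^ j + 1 ∧ 2 ^ j ∣ s + 1 := by
  have h1 : 2 ^ j ∣ s + 1 := (padicValNat_dvd_iff_le (p := 2) (Nat.succ_ne_zero s)).2 h
  exact ⟨by rw [Nat.succ_div, if_pos h1], h1⟩

theorem EE_nu (h : nu s < j) : EE S j (s + 1) z ↔ EE S j s z := by
  have hj : 0 < j := by omega
  unfold EE
  rw [div_nu h]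
  constructor
  · rintro (⟨h1, -⟩ | h1)
    · omega
    · exact Or.inr h1
  · rintro (⟨h1, -⟩ | h1)
    · omega
    · exact Or.inr h1

/-- The best element exists and is unique. -/
theorem exists_Bst (h : a ≤ b) : ∃ x, Bst S a b s x := by
  obtain ⟨x, hx, hmin⟩ := Finset.exists_min_image (Finset.Icc a b) (pk S s)
    ⟨a, Finset.mem_Icc.2 ⟨le_rfl, h⟩⟩
  obtain ⟨h1, h2⟩ := Finset.mem_Icc.1 hx
  refine ⟨x, h1, h2, fun z hz hz' hne => lt_of_le_of_ne (hmin z (Finset.mem_Icc.2 ⟨hz, hz'⟩)) ?_⟩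
  intro heq
  exact hne (ta_pk_inj heq).symm

theorem Bst_unique (h : Bst S a b s x) (h' : Bst S a b s y) : x = y := by
  by_contra hne
  exact lt_asymm (h.2.2 y h'.1 h'.2.1 (Ne.symm hne)) (h'.2.2 x h.1 h.2.1 hne)

/-- The request is the best element. -/
theorem Bst_X (h1 : a ≤ S.X s) (h2 : S.X s ≤ b) : Bst S a b s (S.X s) := by
  refine ⟨h1, h2, fun z hz hz' hne => ta_pk_lt ?_⟩
  have h3 : gg S s (S.X s) ≤ ((0 : ℕ) : WithTop ℕ) := ta_gg_le (Or.inl ⟨rfl, rfl⟩)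
  refine lt_of_le_of_lt h3 (lt_of_not_ge fun h4 => ?_)
  obtain ⟨i, hi, hE⟩ := ta_le_gg h4
  rcases hE with ⟨-, h5⟩ | ⟨h5, -⟩
  · exact hne h5
  · omega

/-- If `[a, b]` contains no essential key, then nothing changes. -/
theorem Bst_same (h : ∀ z, a ≤ z → z ≤ b → ¬ Ess S s z) (hx : Bst S a b s x) :
    Bst S a b (s + 1) x := by
  have key : ∀ z, a ≤ z → z ≤ b → pk S (s + 1) z = pk S s z := by
    intro z hz hz'
    apply ta_pk_congr
    intro j
    by_cases hj : j ≤ nu s + 1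
    · have h1 := h z hz hz'
      constructor
      · intro h2
        exact (h1 ⟨j, hj, Or.inr h2⟩).elim
      · intro h2
        exact (h1 ⟨j, hj, Or.inl h2⟩).elim
    · exact EE_nu (by omega)
  refine ⟨hx.1, hx.2.1, fun z hz hz' hne => ?_⟩
  rw [key z hz hz', key x hx.1 hx.2.1]
  exact hx.2.2 z hz hz' hne

private theorem ta_best {S : Sys} {a b s x z j : ℕ} (h : Bst S a b s x) (hz : EE S j s z)
    (h1 : a ≤ z) (h2 : z ≤ b) : ∃ i, i ≤ j ∧ EE S i s x := by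
  by_cases hzx : z = x
  · exact ⟨j, le_rfl, hzx ▸ hz⟩
  · exact ta_le_gg ((ta_gg_pk (h.2.2 z h1 h2 hzx).le).trans (ta_gg_le hz))

/-- The best element is essential if some element of scale `≤ nu s + 1` lies in `[a, b]`. -/
theorem Bst_ess (h : Bst S a b s x) (hj : j ≤ nu s + 1) (hz : EE S j s z) (h1 : a ≤ z)
    (h2 : z ≤ b) : Ess S s x := by
  obtain ⟨i, hi, hE⟩ := ta_best h hz h1 h2
  exact ⟨i, hi.trans hj, Or.inl hE⟩

theorem Bst_ess' (h : Bst S a b (s + 1) x) (hj : j ≤ nu s + 1) (hz : EE S j (s + 1) z)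
    (h1 : a ≤ z) (h2 : z ≤ b) : Ess S s x := by
  obtain ⟨i, hi, hE⟩ := ta_best h hz h1 h2
  exact ⟨i, hi.trans hj, Or.inr hE⟩
-- END ta

-- MODULE tb  (M)
private theorem tb_pv {z k : ℕ} (hz : 0 < z) : 2 ^ k ∣ z ↔ k ≤ padicValNat 2 z := by
  have : Fact (Nat.Prime 2) := ⟨Nat.prime_two⟩
  rw [padicValNat_dvd_iff_le hz.ne']

/-- The element of `[a, b]` of maximal valuation `e`; it is the only multiple of `2^e`. -/
theorem exists_val (ha : 0 < a) (h : a ≤ b) : ∃ y e, a ≤ y ∧ y ≤ b ∧ 2 ^ e ∣ y ∧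
    (∀ z, a ≤ z → z ≤ b → 2 ^ e ∣ z → z = y) ∧ (∀ z, a ≤ z → z ≤ b → z ≠ y →
      padicValNat 2 z < padicValNat 2 y) := by
  obtain ⟨y, hy, hmax⟩ := Finset.exists_max_image (Finset.Icc a b) (fun z => padicValNat 2 z)
    ⟨a, Finset.mem_Icc.2 ⟨le_rfl, h⟩⟩
  rw [Finset.mem_Icc] at hy
  have key : ∀ z, a ≤ z → z ≤ b → 2 ^ (padicValNat 2 y) ∣ z → z = y := by
    intro z h1 h2 h3
    by_contra hne
    have h4 : 2 ^ (padicValNat 2 y) ∣ y := (tb_pv (by omega)).2 le_rfl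
    obtain ⟨p, hp⟩ := h3
    obtain ⟨q, hq⟩ := h4
    have hpq : p ≠ q := by
      rintro rfl
      exact hne (hp.trans hq.symm)
    -- between p and q there is an even number
    obtain ⟨r, hr1, hr2⟩ : ∃ r, min p q ≤ 2 * r ∧ 2 * r ≤ max p q := by
      refine ⟨(min p q + 1) / 2, by omega, by omega⟩
    have hpos : 0 < 2 ^ (padicValNat 2 y) := by positivity
    set c := 2 ^ (padicValNat 2 y) * (2 * r) with hc
    have hc1 : a ≤ c ∧ c ≤ b := by
      rcases le_total p q with h | h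
      · rw [min_eq_left h, max_eq_right h] at *
        have h5 := Nat.mul_le_mul_left (2 ^ (padicValNat 2 y)) hr1
        have h6 := Nat.mul_le_mul_left (2 ^ (padicValNat 2 y)) hr2
        rw [← hp] at h5
        rw [← hq] at h6
        omega
      · rw [min_eq_right h, max_eq_left h] at *
        have h5 := Nat.mul_le_mul_left (2 ^ (padicValNat 2 y)) hr1
        have h6 := Nat.mul_le_mul_left (2 ^ (padicValNat 2 y)) hr2
        rw [← hq] at h5
        rw [← hp] at h6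
        omega
    have h7 : 2 ^ (padicValNat 2 y + 1) ∣ c := by
      rw [hc, pow_succ]
      exact ⟨r, by ring⟩
    have h8 := (tb_pv (show 0 < c by omega)).1 h7
    have h9 := hmax c (Finset.mem_Icc.2 hc1)
    omega
  refine ⟨y, padicValNat 2 y, hy.1, hy.2, (tb_pv (by omega)).2 le_rfl, key, ?_⟩
  intro z h1 h2 hne
  have h3 := hmax z (Finset.mem_Icc.2 ⟨h1, h2⟩)
  rcases lt_or_eq_of_le h3 with h | h
  · exact h
  · exact absurd (key z h1 h2 ((tb_pv (by omega)).2 h.ge)) hne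

/-- an end at `s''` of scale `j ≤ i` is in the closure of a block of scale `i` -/
private theorem tb_cl {s' : ℕ} {i : ℕ} (hs : s' < S.m) (hz : EE S j s' z) (hi : j ≤ i) :
    ∃ u, u < S.m ∧ u / 2 ^ i = s' / 2 ^ i ∧ S.X u / 2 ^ i * 2 ^ i ≤ z ∧ z ≤ (S.X u / 2 ^ i + 1) * 2 ^ i := by
  have hdiv : ∀ n : ℕ, n / 2 ^ i = n / 2 ^ j / 2 ^ (i - j) := by
    intro n
    rw [Nat.div_div_eq_div_mul, ← pow_add]
    congr 2
    omega
  have e2 : 2 ^ i = 2 ^ j * 2 ^ (i - j) := by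
    rw [← pow_add]
    congr 1
    omega
  rcases hz with ⟨rfl, rfl⟩ | ⟨h0, u, hu, hw, hz⟩
  · refine ⟨s', hs, rfl, Nat.div_mul_le_self _ _, ?_⟩
    have := Nat.lt_div_mul_add (a := S.X s') (b := 2 ^ i) (by positivity)
    rw [add_mul, one_mul]
    omega
  · refine ⟨u, hu, by rw [hdiv u, hdiv s', hw], ?_⟩
    set k := S.X u / 2 ^ j with hk
    have h1 : k / 2 ^ (i - j) * 2 ^ (i - j) ≤ k := Nat.div_mul_le_self _ _
    have h2 : k < k / 2 ^ (i - j) * 2 ^ (i - j) + 2 ^ (i - j) := Nat.lt_div_mul_add (by positivity)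
    rw [hdiv (S.X u), ← hk, e2]
    set c := k / 2 ^ (i - j) with hc
    have e3 : c * (2 ^ j * 2 ^ (i - j)) = c * 2 ^ (i - j) * 2 ^ j := by ring
    have e4 : (c + 1) * (2 ^ j * 2 ^ (i - j)) = (c * 2 ^ (i - j) + 2 ^ (i - j)) * 2 ^ j := by ring
    rw [e3, e4]
    rcases hz with rfl | rfl
    · exact ⟨Nat.mul_le_mul_right _ h1, Nat.mul_le_mul_right _ h2.le⟩
    · exact ⟨Nat.mul_le_mul_right _ (by omega), Nat.mul_le_mul_right _ h2⟩

/-- between `z` and a multiple of `2^i` there is an end of scale `i` -/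
private theorem tb_end {s' i : ℕ} (hs : s' < S.m) (hz : EE S j s' z) (hi : j ≤ i) (hi0 : 0 < i) (hy : 2 ^ i ∣ y) :
    ∃ c, min z y ≤ c ∧ c ≤ max z y ∧ 2 ^ i ∣ c ∧ EE S i s' c := by
  obtain ⟨u, hu, hw, h1, h2⟩ := tb_cl hs hz hi
  obtain ⟨q, rfl⟩ := hy
  set B := S.X u / 2 ^ i with hB
  have hpos : 0 < 2 ^ i := by positivity
  rcases le_or_gt q B with hq | hq
  · -- `y ≤ B`
    refine ⟨B * 2 ^ i, ?_, ?_, ⟨B, by ring⟩, Or.inr ⟨hi0, u, hu, hw, Or.inl rfl⟩⟩
    · have : 2 ^ i * q ≤ B * 2 ^ i := by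
        rw [mul_comm]
        exact Nat.mul_le_mul_right _ hq
      exact le_trans (min_le_right _ _) this
    · exact le_trans h1 (le_max_left _ _)
  · refine ⟨(B + 1) * 2 ^ i, le_trans (min_le_left _ _) h2, ?_, ⟨B + 1, by ring⟩,
      Or.inr ⟨hi0, u, hu, hw, Or.inr rfl⟩⟩
    have : (B + 1) * 2 ^ i ≤ 2 ^ i * q := by
      rw [mul_comm _ q]
      exact Nat.mul_le_mul_right _ hq
    exact le_trans this (le_max_right _ _)

/-- ends of the same window -/
private theorem tb_win {s' s'' i : ℕ} (hi : 0 < i) (hw : s' / 2 ^ i = s'' / 2 ^ i) (hz : EE S i s'' z) : EE S i s' z := by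
  rcases hz with ⟨h, -⟩ | ⟨h0, u, hu, h1, h2⟩
  · omega
  · exact Or.inr ⟨h0, u, hu, by rw [h1, hw], h2⟩

/-- no multiple of `2 ^ (nu s + 1)` -/
private theorem tb_no {s' s'' : ℕ} (hw : s' / 2 ^ (nu s + 1) = s'' / 2 ^ (nu s + 1)) (hs : s'' < S.m)
    (h0 : ∀ j z, j ≤ nu s + 1 → a ≤ z → z ≤ b → ¬ EE S j s' z) (hj : j ≤ nu s + 1)
    (hz : EE S j s'' z) (h1 : a ≤ z) (h2 : z ≤ b) (hy : a ≤ y ∧ y ≤ b) : ¬ 2 ^ (nu s + 1) ∣ y := by
  intro hd
  obtain ⟨c, c1, c2, -, c4⟩ := tb_end hs hz hj (Nat.succ_pos _) hd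
  refine h0 _ c le_rfl ?_ ?_ (tb_win (Nat.succ_pos _) hw c4)
  · exact le_trans (le_min h1 hy.1) c1
  · exact le_trans c2 (max_le h2 hy.2)

/-- If no end of an active block of scale `≤ nu s + 1` at `s'` lies in `[a, b]`, but one at `s''`
does, then the element of maximal valuation is such an end at `s''`.  Here `s', s''` are `s` and
`s + 1` in some order; `w` is their common window of scale `nu s + 1`. -/
theorem val_EE {s' s'' : ℕ} (hw : s' / 2 ^ (nu s + 1) = s'' / 2 ^ (nu s + 1)) (hs : s'' < S.m)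
    (hs' : s' < S.m) (ha : 0 < a)
    (h0 : ∀ j z, j ≤ nu s + 1 → a ≤ z → z ≤ b → ¬ EE S j s' z) (hj : j ≤ nu s + 1)
    (hz : EE S j s'' z) (h1 : a ≤ z) (h2 : z ≤ b) (hy : a ≤ y ∧ y ≤ b) (hye : 2 ^ e ∣ y)
    (hyu : ∀ z, a ≤ z → z ≤ b → 2 ^ e ∣ z → z = y)
    (hym : ∀ z, a ≤ z → z ≤ b → z ≠ y → padicValNat 2 z < padicValNat 2 y) :
    ∃ i, i ≤ nu s + 1 ∧ EE S i s'' y := by
  by_cases hzy : z = y
  · exact ⟨j, hj, hzy ▸ hz⟩
  have hno := tb_no hw hs h0 hj hz h1 h2 hy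
  have he : e ≤ nu s := by
    by_contra hcon
    exact hno (dvd_trans (pow_dvd_pow 2 (by omega)) hye)
  have hez : ¬ 2 ^ e ∣ z := fun h => hzy (hyu z h1 h2 h)
  have he0 : 0 < e := by
    rcases Nat.eq_zero_or_pos e with h | h
    · exact absurd (by rw [h]; simp) hez
    · exact h
  have hje : j ≤ e := by
    by_contra hcon
    refine hez (dvd_trans (pow_dvd_pow 2 (show e ≤ j by omega)) ?_)
    rcases hz with ⟨h, -⟩ | ⟨-, u, -, -, h | h⟩
    · omega
    · exact ⟨_, h.trans (mul_comm _ _)⟩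
    · exact ⟨_, h.trans (mul_comm _ _)⟩
  obtain ⟨c, c1, c2, c3, c4⟩ := tb_end hs hz hje he0 hye
  have : c = y := hyu c (le_trans (le_min h1 hy.1) c1) (le_trans c2 (max_le h2 hy.2)) c3
  exact ⟨e, by omega, this ▸ c4⟩

/-- In this case no element of `[a, b]` is an end of any scale at `s'`, so the best element is the
element of maximal valuation. -/
theorem val_Bst {s' s'' : ℕ} (hw : s' / 2 ^ (nu s + 1) = s'' / 2 ^ (nu s + 1)) (hs : s'' < S.m)
    (hs' : s' < S.m) (ha : 0 < a)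
    (h0 : ∀ j z, j ≤ nu s + 1 → a ≤ z → z ≤ b → ¬ EE S j s' z) (hj : j ≤ nu s + 1)
    (hz : EE S j s'' z) (h1 : a ≤ z) (h2 : z ≤ b) (hy : a ≤ y ∧ y ≤ b)
    (hym : ∀ z, a ≤ z → z ≤ b → z ≠ y → padicValNat 2 z < padicValNat 2 y) :
    Bst S a b s' y := by
  have hall : ∀ i z', a ≤ z' → z' ≤ b → ¬ EE S i s' z' := by
    intro i z' h3 h4 h5
    rcases le_or_gt i (nu s + 1) with hi | hi
    · exact h0 i z' hi h3 h4 h5
    · refine tb_no hw hs h0 hj hz h1 h2 ⟨h3, h4⟩ (dvd_trans (pow_dvd_pow 2 hi.le) ?_)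
      rcases h5 with ⟨h, -⟩ | ⟨-, u, -, -, h | h⟩
      · omega
      · exact ⟨_, h.trans (mul_comm _ _)⟩
      · exact ⟨_, h.trans (mul_comm _ _)⟩
  have hg : ∀ z', a ≤ z' → z' ≤ b → gg S s' z' = ⊤ := by
    intro z' h3 h4
    unfold gg
    rw [dif_neg]
    rintro ⟨i, hi⟩
    exact hall i z' h3 h4 hi
  refine ⟨hy.1, hy.2, fun z' h3 h4 hne => ?_⟩
  unfold pk
  rw [hg y hy.1 hy.2, hg z' h3 h4, Prod.Lex.toLex_lt_toLex]
  right
  refine ⟨rfl, ?_⟩
  rw [Prod.Lex.toLex_lt_toLex]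
  left
  exact OrderDual.toDual_lt_toDual.2 (hym z' h3 h4 hne)
-- END tb

-- MODULE tc  (S): from ta, tb
/-- **Closure.**  If the best element changes, then the old and the new one are essential. -/
theorem closure (ha : 0 < a) (hs : s + 1 < S.m) (hx : Bst S a b s x) (hy : Bst S a b (s + 1) y)
    (hxy : x ≠ y) : Ess S s x ∧ Ess S s y := by
  have hab : a ≤ b := hx.1.trans hx.2.1
  have hw : (s + 1) / 2 ^ (nu s + 1) = s / 2 ^ (nu s + 1) := div_nu (Nat.lt_succ_self _)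
  by_cases hP : ∃ j z, j ≤ nu s + 1 ∧ a ≤ z ∧ z ≤ b ∧ EE S j s z
  · obtain ⟨j, z, hj, hz1, hz2, hz⟩ := hP
    refine ⟨Bst_ess hx hj hz hz1 hz2, ?_⟩
    by_cases hQ : ∃ j z, j ≤ nu s + 1 ∧ a ≤ z ∧ z ≤ b ∧ EE S j (s + 1) z
    · obtain ⟨j', z', hj', hz1', hz2', hz'⟩ := hQ
      exact Bst_ess' hy hj' hz' hz1' hz2'
    · have h0 : ∀ j z, j ≤ nu s + 1 → a ≤ z → z ≤ b → ¬ EE S j (s + 1) z :=
        fun j z h1 h2 h3 h4 => hQ ⟨j, z, h1, h2, h3, h4⟩
      obtain ⟨y0, e, hy1, hy2, hye, hyu, hym⟩ := exists_val ha hab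
      have h1 := val_Bst hw (by omega) hs ha h0 hj hz hz1 hz2 ⟨hy1, hy2⟩ hym
      obtain ⟨i, hi, hE⟩ := val_EE hw (by omega) hs ha h0 hj hz hz1 hz2 ⟨hy1, hy2⟩ hye hyu hym
      rw [Bst_unique hy h1]
      exact ⟨i, hi, Or.inl hE⟩
  · by_cases hQ : ∃ j z, j ≤ nu s + 1 ∧ a ≤ z ∧ z ≤ b ∧ EE S j (s + 1) z
    · obtain ⟨j, z, hj, hz1, hz2, hz⟩ := hQ
      refine ⟨?_, Bst_ess' hy hj hz hz1 hz2⟩
      have h0 : ∀ j z, j ≤ nu s + 1 → a ≤ z → z ≤ b → ¬ EE S j s z :=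
        fun j z h1 h2 h3 h4 => hP ⟨j, z, h1, h2, h3, h4⟩
      obtain ⟨y0, e, hy1, hy2, hye, hyu, hym⟩ := exists_val ha hab
      have h1 := val_Bst hw.symm hs (by omega) ha h0 hj hz hz1 hz2 ⟨hy1, hy2⟩ hym
      obtain ⟨i, hi, hE⟩ := val_EE hw.symm hs (by omega) ha h0 hj hz hz1 hz2 ⟨hy1, hy2⟩ hye hyu hym
      rw [Bst_unique hx h1]
      exact ⟨i, hi, Or.inr hE⟩
    · exfalso
      refine hxy (Bst_unique (Bst_same ?_ hx) hy)
      rintro z hz1 hz2 ⟨j, hj, hE | hE⟩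
      · exact hP ⟨j, z, hj, hz1, hz2, hE⟩
      · exact hQ ⟨j, z, hj, hz1, hz2, hE⟩
-- END tc

-- MODULE td  (M)
/-- a discrete crossing -/
private theorem td_cross {P : ℕ → Prop} {i k : ℕ} (hik : i ≤ k) (h1 : P i) (h2 : ¬ P k) :
    ∃ s, i ≤ s ∧ s < k ∧ P s ∧ ¬ P (s + 1) := by
  induction k, hik using Nat.le_induction with
  | base => exact absurd h1 h2
  | succ k hk ih =>
    by_cases h3 : P k
    · exact ⟨k, hk, Nat.lt_succ_self k, h3, h2⟩
    · obtain ⟨s, a1, a2, a3, a4⟩ := ih h3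
      exact ⟨s, a1, by omega, a3, a4⟩

/-- Every T-event has a witness. -/
theorem exists_Wt (h : TL S t v) : ∃ s x y, Wt S t v s x y := by
  obtain ⟨hL, τ, hτ, hK, hNE⟩ := h
  obtain ⟨ht, hv, hvX, hXr⟩ := hL
  obtain ⟨⟨hτm, -, hXv, hlam⟩, hlam1⟩ := hK
  set a := S.X τ with ha
  set b := S.X t with hb
  have ha0 : 0 < a := (S.key a (S.req τ hτm)).1
  have hconst : ∀ u, τ + 1 ≤ u → u ≤ t → S.lam u v = a ∧ S.rho u v = S.rho t v := by
    intro u h1 h2
    have c1 := Sys.NE_const hv h1 (by omega) (hNE.mono le_rfl h2)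
    have c2 := Sys.NE_const hv h2 ht.le (hNE.mono h1 le_rfl)
    rw [hlam1] at c1
    exact ⟨c1.1, c2.2.symm⟩
  -- last time with request `a`
  obtain ⟨t'', ht1, ht2⟩ : ∃ t'', (τ ≤ t'' ∧ t'' < t ∧ S.X t'' = a) ∧ ∀ u, t'' < u → u < t → S.X u ≠ a := by
    have hne : ((Finset.range t).filter (fun u => τ ≤ u ∧ S.X u = a)).Nonempty :=
      ⟨τ, by simp [hτ, ha]⟩
    refine ⟨Finset.max' _ hne, ?_, ?_⟩
    · have := Finset.max'_mem _ hne
      rw [Finset.mem_filter, Finset.mem_range] at this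
      exact ⟨this.2.1, this.1, this.2.2⟩
    · intro u hu1 hu2 hu3
      have h3 := Finset.max'_mem _ hne
      rw [Finset.mem_filter, Finset.mem_range] at h3
      have h5 : u ∈ (Finset.range t).filter (fun u => τ ≤ u ∧ S.X u = a) :=
        Finset.mem_filter.2 ⟨Finset.mem_range.2 hu2, by omega, hu3⟩
      have h4 := Finset.le_max' _ u h5
      omega
  obtain ⟨ht3, ht4, ht5⟩ := ht1
  have hab : a ≤ b := by omega
  -- the best element
  have hB1 : Bst S a b t'' a := by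
    have := Bst_X (S := S) (a := a) (b := b) (s := t'') (by omega) (by omega)
    rwa [ht5] at this
  have hB2 : Bst S a b t b := Bst_X (by omega) le_rfl
  have hcr : ∃ s, t'' ≤ s ∧ s < t ∧ (∃ x, Bst S a b s x ∧ x < v) ∧ ¬ ∃ x, Bst S a b (s + 1) x ∧ x < v := by
    refine td_cross (P := fun u => ∃ x, Bst S a b u x ∧ x < v) ht4.le ?_ ?_
    · exact ⟨a, hB1, by omega⟩
    · rintro ⟨x, h1, h2⟩
      have := Bst_unique h1 hB2
      omega
  obtain ⟨s, s1, s2, s3, s4⟩ := hcr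
  obtain ⟨x0, hx0, hx0v⟩ := s3
  obtain ⟨y0, hy0⟩ := exists_Bst (S := S) (s := s + 1) hab
  have hy0v : v ≤ y0 := by
    by_contra hcon
    exact s4 ⟨y0, hy0, by omega⟩
  obtain ⟨e1, e2⟩ := closure ha0 (by omega) hx0 hy0 (by omega)
  -- the largest essential key below `v`
  obtain ⟨x, ⟨hxv, hxe⟩, hxm⟩ : ∃ x, (x < v ∧ Ess S s x) ∧ ∀ z, z < v → Ess S s z → z ≤ x := by
    have hne : ((Finset.range v).filter (fun z => Ess S s z)).Nonempty :=
      ⟨x0, by simp [hx0v, e1]⟩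
    refine ⟨Finset.max' _ hne, ?_, ?_⟩
    · have := Finset.max'_mem _ hne
      rw [Finset.mem_filter, Finset.mem_range] at this
      exact this
    · intro z hz1 hz2
      exact Finset.le_max' _ z (Finset.mem_filter.2 ⟨Finset.mem_range.2 hz1, hz2⟩)
  have hx0x : x0 ≤ x := hxm x0 hx0v e1
  have hax : a ≤ x := le_trans hx0.1 hx0x
  have hxb : x ≤ b := by omega
  have hpk : pk S (s + 1) y0 < pk S (s + 1) x := hy0.2.2 x hax hxb (by omega)
  have hex : ∃ y, Ess S s y ∧ x < y ∧ pk S (s + 1) y < pk S (s + 1) x := ⟨y0, e2, by omega, hpk⟩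
  obtain ⟨y1, y2, y3⟩ := Nat.find_spec hex
  have hyy0 : Nat.find hex ≤ y0 := Nat.find_min' hex ⟨e2, by omega, hpk⟩
  have hvy : v ≤ Nat.find hex := by
    by_contra hcon
    have := hxm _ (not_le.1 hcon) y1
    omega
  have hc := hconst (s + 1) (by omega) (by omega)
  have hyb := hy0.2.1
  exact ⟨s, x, Nat.find hex, s2, hxe, y1, hxv, hvy, by omega, by omega, hNE.mono (by omega) le_rfl, y3,
    fun z h1 h2 h3 => Nat.find_min' hex ⟨h1, h2, h3⟩⟩
-- END td

-- MODULE te  (S)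
/-- The witness determines the event. -/
theorem Wt_inj {t' v' y' : ℕ} (ht : t < S.m) (ht' : t' < S.m) (hv : v ∈ S.K) (hv' : v' ∈ S.K)
    (hE : S.E t v) (hE' : S.E t' v') (h : Wt S t v s x y) (h' : Wt S t' v' s x y') :
    t = t' ∧ v = v' := by
  obtain ⟨st, _, ey, xv, vy, lx, yr, ne, xy, mn⟩ := h
  obtain ⟨st', _, ey', xv', vy', lx', yr', ne', xy', mn'⟩ := h'
  have h1 : y ≤ y' := mn y' ey' (by omega) xy'
  have h2 : y' ≤ y := mn' y ey (by omega) xy
  have hy : y = y' := le_antisymm h1 h2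
  subst hy
  have hvv : v = v' := by
    rcases lt_trichotomy v v' with h3 | h3 | h3
    · exfalso
      rcases S.lamin (s + 1) (by omega) v hv v' hv' h3 with h4 | h4 | h4
      · omega
      · omega
      · omega
    · exact h3
    · exfalso
      rcases S.lamin (s + 1) (by omega) v' hv' v hv h3 with h4 | h4 | h4
      · omega
      · omega
      · omega
  subst hvv
  refine ⟨?_, rfl⟩
  rcases lt_trichotomy t t' with h3 | h3 | h3
  · exact absurd hE (ne' t (by omega) h3)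
  · exact h3
  · exact absurd hE' (ne t' (by omega) h3)
-- END te

-- MODULE tf  (M)
/-- The essential keys of the steps `s → s + 1` with `s + 1 < m`. -/
noncomputable def ess (S : Sys) : Finset (ℕ × ℕ) :=
  (Finset.range (S.m - 1) ×ˢ Finset.range (4 * (S.top + S.m) + 4)).filter (fun q => Ess S q.1 q.2)

private theorem tf_pow (hs : s + 1 < S.m) (hj : j ≤ nu s + 1) : 2 ^ j ≤ 2 * S.m := by
  have h1 : 2 ^ nu s ∣ s + 1 := pow_padicValNat_dvd
  have h2 : 2 ^ nu s ≤ s + 1 := Nat.le_of_dvd (by omega) h1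
  have h3 : 2 ^ j ≤ 2 ^ (nu s + 1) := Nat.pow_le_pow_right (by norm_num) hj
  rw [pow_succ] at h3
  omega

private theorem tf_EE {S : Sys} {j s z : ℕ} (hs : s < S.m) (h : EE S j s z) :
    z ≤ S.top + 2 ^ j := by
  rcases h with ⟨_, rfl⟩ | ⟨_, u, hu, _, rfl | rfl⟩
  · have := (S.key _ (S.req s hs)).2
    exact le_trans this.le (Nat.le_add_right _ _)
  · have := (S.key _ (S.req u hu)).2
    have h2 := Nat.div_mul_le_self (S.X u) (2 ^ j)
    exact le_trans (le_trans h2 this.le) (Nat.le_add_right _ _)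
  · have := (S.key _ (S.req u hu)).2
    have h2 := Nat.div_mul_le_self (S.X u) (2 ^ j)
    rw [add_mul, one_mul]
    exact Nat.add_le_add_right (le_trans h2 this.le) _

theorem ess_lt (hs : s + 1 < S.m) (h : Ess S s z) : z < 4 * (S.top + S.m) + 4 := by
  obtain ⟨j, hj, h1 | h1⟩ := h
  · have h2 := tf_EE (by omega) h1
    have h3 := tf_pow hs hj
    omega
  · have h2 := tf_EE hs h1
    have h3 := tf_pow hs hj
    omega

private theorem tf_win {j s w : ℕ} (hj : j ≤ nu s + 1) (hw : s / 2 ^ j = w ∨ (s + 1) / 2 ^ j = w) :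
    ∃ i : Fin 3, s = w * 2 ^ j + i.val * 2 ^ (j - 1) - 1 := by
  rcases Nat.eq_zero_or_pos j with rfl | hj0
  · rcases hw with hw | hw
    · refine ⟨1, ?_⟩
      simp at hw ⊢
      omega
    · refine ⟨0, ?_⟩
      simp at hw ⊢
      omega
  · have h1 : 2 ^ (j - 1) ∣ s + 1 :=
      dvd_trans (Nat.pow_dvd_pow 2 (show j - 1 ≤ nu s by omega))
        (pow_padicValNat_dvd : 2 ^ nu s ∣ s + 1)
    obtain ⟨c, hc⟩ := h1
    have h2 : 2 ^ j = 2 ^ (j - 1) * 2 := by
      rw [← pow_succ]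
      congr 1
      omega
    have hP : 0 < 2 ^ (j - 1) := by positivity
    generalize hPd : 2 ^ (j - 1) = P at *
    rw [h2] at hw ⊢
    rcases hw with hw | hw
    · have h3 : w * (P * 2) ≤ s ∧ s < (w + 1) * (P * 2) := by
        rw [← hw]
        constructor
        · exact Nat.div_mul_le_self _ _
        · exact Nat.lt_mul_of_div_lt (Nat.lt_succ_self _) (by omega)
      have h4 : w * 2 < c := by
        by_contra h5
        have h6 : P * c ≤ P * (w * 2) := Nat.mul_le_mul_left P (by omega)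
        have h7 : P * (w * 2) = w * (P * 2) := by ring
        omega
      have h5 : c ≤ w * 2 + 2 := by
        by_contra h5
        have h6 : P * (w * 2 + 3) ≤ P * c := Nat.mul_le_mul_left P (by omega)
        have h7 : P * (w * 2 + 3) = (w + 1) * (P * 2) + P := by ring
        omega
      refine ⟨⟨c - w * 2, by omega⟩, ?_⟩
      obtain ⟨d, rfl⟩ : ∃ d, c = w * 2 + d := ⟨c - w * 2, by omega⟩
      have h8 : w * 2 + d - w * 2 = d := by omega
      simp only [h8]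
      have h9 : P * (w * 2 + d) = w * (P * 2) + d * P := by ring
      omega
    · have h3 : w * (P * 2) ≤ s + 1 ∧ s + 1 < (w + 1) * (P * 2) := by
        rw [← hw]
        constructor
        · exact Nat.div_mul_le_self _ _
        · exact Nat.lt_mul_of_div_lt (Nat.lt_succ_self _) (by omega)
      have h4 : w * 2 ≤ c := by
        by_contra h5
        have h6 : P * (c + 1) ≤ P * (w * 2) := Nat.mul_le_mul_left P (by omega)
        have h7 : P * (w * 2) = w * (P * 2) := by ring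
        have h8 : P * (c + 1) = P * c + P := by ring
        omega
      have h5 : c ≤ w * 2 + 2 := by
        by_contra h5
        have h6 : P * (w * 2 + 3) ≤ P * c := Nat.mul_le_mul_left P (by omega)
        have h7 : P * (w * 2 + 3) = (w + 1) * (P * 2) + P := by ring
        omega
      refine ⟨⟨c - w * 2, by omega⟩, ?_⟩
      obtain ⟨d, rfl⟩ : ∃ d, c = w * 2 + d := ⟨c - w * 2, by omega⟩
      have h8 : w * 2 + d - w * 2 = d := by omega
      simp only [h8]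
      have h9 : P * (w * 2 + d) = w * (P * 2) + d * P := by ring
      omega

private theorem tf_cel {S : Sys} {j s z : ℕ} (hs : s < S.m) (h : EE S j s z) :
    ∃ c ∈ cel S j, c.1 = s / 2 ^ j ∧ ∃ e : Fin 2, z = (c.2 + e.val) * 2 ^ j := by
  rcases h with ⟨rfl, rfl⟩ | ⟨_, u, hu, hus, h1⟩
  · refine ⟨(s / 2 ^ 0, S.X s / 2 ^ 0), ?_, rfl, 0, by simp⟩
    rw [cel, Pool.Agent.SplPat.cells, Finset.mem_image]
    exact ⟨s, Finset.mem_range.2 hs, rfl⟩
  · refine ⟨(u / 2 ^ j, S.X u / 2 ^ j), ?_, hus, ?_⟩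
    · rw [cel, Pool.Agent.SplPat.cells, Finset.mem_image]
      exact ⟨u, Finset.mem_range.2 hu, rfl⟩
    · rcases h1 with h1 | h1
      · exact ⟨0, by simpa using h1⟩
      · exact ⟨1, by simpa using h1⟩

private theorem tf_log (hs : s + 1 < S.m) (hj : j ≤ nu s + 1) : j < Nat.log 2 S.m + 2 := by
  have h1 : 2 ^ nu s ∣ s + 1 := pow_padicValNat_dvd
  have h2 : 2 ^ nu s ≤ s + 1 := Nat.le_of_dvd (by omega) h1
  have h3 : nu s ≤ Nat.log 2 S.m := Nat.le_log_of_pow_le (by norm_num) (by omega)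
  omega

/-- Every active cell is used at most three times, with two ends. -/
theorem ess_card : (ess S).card ≤
    6 * ∑ j ∈ Finset.range (Nat.log 2 S.m + 2), (cel S j).card := by
  let A : Finset ((Σ _ : ℕ, ℕ × ℕ) × (Fin 3 × Fin 2)) :=
    ((Finset.range (Nat.log 2 S.m + 2)).sigma (fun j => cel S j)) ×ˢ Finset.univ
  let f : ((Σ _ : ℕ, ℕ × ℕ) × (Fin 3 × Fin 2)) → ℕ × ℕ := fun p =>
    (p.1.2.1 * 2 ^ p.1.1 + p.2.1.val * 2 ^ (p.1.1 - 1) - 1, (p.1.2.2 + p.2.2.val) * 2 ^ p.1.1)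
  have hA : A.card = 6 * ∑ j ∈ Finset.range (Nat.log 2 S.m + 2), (cel S j).card := by
    rw [Finset.card_product, Finset.card_sigma, mul_comm]
    simp
  rw [← hA]
  refine le_trans (Finset.card_le_card ?_) (Finset.card_image_le (s := A) (f := f))
  rintro ⟨s, z⟩ hq
  rw [ess, Finset.mem_filter, Finset.mem_product, Finset.mem_range] at hq
  obtain ⟨⟨hs, _⟩, j, hj, hE⟩ := hq
  simp only at hs hj hE
  rw [Finset.mem_image]
  have key : ∃ c ∈ cel S j, (s / 2 ^ j = c.1 ∨ (s + 1) / 2 ^ j = c.1) ∧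
      ∃ e : Fin 2, z = (c.2 + e.val) * 2 ^ j := by
    rcases hE with hE | hE
    · obtain ⟨c, hc, h1, h2⟩ := tf_cel (by omega) hE
      exact ⟨c, hc, Or.inl h1.symm, h2⟩
    · obtain ⟨c, hc, h1, h2⟩ := tf_cel (by omega) hE
      exact ⟨c, hc, Or.inr h1.symm, h2⟩
  obtain ⟨c, hc, hw, e, he⟩ := key
  obtain ⟨i, hi⟩ := tf_win hj hw
  refine ⟨(⟨j, c⟩, (i, e)), ?_, ?_⟩
  · rw [Finset.mem_product, Finset.mem_sigma]
    refine ⟨⟨Finset.mem_range.2 (tf_log (by omega) hj), hc⟩, Finset.mem_univ _⟩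
  · simp only [f]
    rw [← hi, ← he]
-- END tf

-- MODULE tg  (S)
theorem geo_half (n D : ℕ) : ∑ j ∈ Finset.range n, D / 2 ^ (j / 2) ≤ 4 * D := by
  have h1 : ∀ n, ∑ j ∈ Finset.range (2 * n), D / 2 ^ (j / 2) = 2 * ∑ j ∈ Finset.range n, D / 2 ^ j := by
    intro n
    induction n with
    | zero => simp
    | succ n ih =>
      rw [show 2 * (n + 1) = 2 * n + 1 + 1 by ring, Finset.sum_range_succ, Finset.sum_range_succ, ih,
        Finset.sum_range_succ, show (2 * n + 1) / 2 = n by omega, show 2 * n / 2 = n by omega]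
      ring
  have h2 : ∑ j ∈ Finset.range n, D / 2 ^ (j / 2) ≤ ∑ j ∈ Finset.range (2 * n), D / 2 ^ (j / 2) := by
    apply Finset.sum_le_sum_of_subset
    intro x hx
    rw [Finset.mem_range] at hx ⊢
    omega
  have h3 := Nat.geom_sum_le (le_refl 2) D n
  rw [h1] at h2
  omega

theorem sum_cel {D : ℕ} (h : GridH S D) :
    ∑ j ∈ Finset.range (Nat.log 2 S.m + 2), (cel S j).card ≤ 4 * D := by
  rcases Nat.eq_zero_or_pos S.m with hm | hm
  · have h0 : ∀ j, (cel S j).card = 0 := by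
      intro j
      simp [cel, Pool.Agent.SplPat.cells, hm]
    simp [h0]
  · have h1 : ∀ j ∈ Finset.range (Nat.log 2 S.m + 2), (cel S j).card ≤ D / 2 ^ (j / 2) := by
      intro j hj
      rw [Finset.mem_range] at hj
      have h2 : 2 ^ j ≤ 2 * S.m := by
        calc 2 ^ j ≤ 2 ^ (Nat.log 2 S.m + 1) := Nat.pow_le_pow_right (by norm_num) (by omega)
          _ = 2 * 2 ^ Nat.log 2 S.m := by rw [pow_succ, mul_comm]
          _ ≤ 2 * S.m := Nat.mul_le_mul_left 2 (Nat.pow_log_le_self 2 (by omega))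
      rw [Nat.le_div_iff_mul_le (by positivity), mul_comm]
      exact h j h2
    exact (Finset.sum_le_sum h1).trans (geo_half _ _)

theorem tle : TLe := by
  intro S D h
  have hw : ∀ t v, ∃ q : ℕ × ℕ, TL S t v → ∃ y, Wt S t v q.1 q.2 y := by
    intro t v
    by_cases hT : TL S t v
    · obtain ⟨s, x, y, hW⟩ := exists_Wt hT
      exact ⟨(s, x), fun _ => ⟨y, hW⟩⟩
    · exact ⟨(0, 0), fun hT' => absurd hT' hT⟩
  choose f hf using hw
  have h1 : S.cnt (TL S) ≤ (ess S).card := by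
    refine Sys.cnt_le_of_inj (ess S) f ?_ ?_
    · intro t v ht hv hT
      obtain ⟨y, hW⟩ := hf t v hT
      have hst := hW.st
      rw [ess, Finset.mem_filter, Finset.mem_product, Finset.mem_range, Finset.mem_range]
      exact ⟨⟨by omega, ess_lt (by omega) hW.ex⟩, hW.ex⟩
    · intro t v t' v' ht hv hT ht' hv' hT' hff
      obtain ⟨y, hW⟩ := hf t v hT
      obtain ⟨y', hW'⟩ := hf t' v' hT'
      rw [← hff] at hW'
      exact Wt_inj ht ht' hv hv' (Or.inr (Or.inl hT.1)) (Or.inr (Or.inl hT'.1)) hW hW'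
  have h2 := ess_card (S := S)
  have h3 := sum_cel h
  omega
-- END tg

end Pool.Agent.SplGd
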