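import Pool.Agent.SplGd.FinG
import Pool.Agent.SplGd.TLem
import Pool.Agent.SplGd.GHot
import Pool.Agent.SplGd.GNear
import Pool.Agent.SplGd.EBad
import Pool.Agent.SplGd.ClsS
import Pool.Agent.SplGd.ClsF
import Pool.Agent.SplGd.InsG
import Pool.Agent.SplGd.FFin
import Pool.Agent.SplGd.Asm

set_option autoImplicit false

/-!
# The grid theorem
-/

namespace Pool.Agent.SplGd

open Pool.Agent.SplTr

theorem clsCardG : ClsCardG := by
  obtain ⟨C, hC⟩ := class_bound
  exact clsCardG_of ⟨C, fun k top tm N Q A hA => hC Rnd k top tm N Q A hA⟩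

/-- **The grid theorem.** -/
theorem linG : LinG := linG_of tle thetaG hotG badG nearG clsSG clsFG clsCardG

end Pool.Agent.SplGd
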