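import Pool.Agent.SplGd.FinG

set_option autoImplicit false

/-!
# Active cells and the distances to earlier requests

`s t` is some request earlier than `t`, `u t = (t - s t) + |y t - y (s t)|`.  The number of active
cells of scale `j` is at most `9 (1 + ∑ min (u t) (2^j) / 2^j)`.
-/

namespace Pool.Agent.SplGd

open Pool.Agent.SplPat Pool.Agent.MP_c42954_lc.Scan BinaryTree
open scoped Classical

/-- The distance of two requests. -/
def dd (y : ℕ → ℕ) (a b : ℕ) : ℕ := (a - b) + (b - a) + ((y a - y b) + (y b - y a))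

theorem dd_tri (y : ℕ → ℕ) (a b c : ℕ) : dd y a c ≤ dd y a b + dd y b c := by
  unfold dd
  omega

/-- The weight of a request. -/
def mw (y s : ℕ → ℕ) (B v : ℕ) : ℕ := if v = 0 then B else min (dd y v (s v)) B

/-- `v` is in a neighbour cell of `q`. -/
def nbr (y : ℕ → ℕ) (B : ℕ) (q : ℕ × ℕ) (v : ℕ) : Prop :=
  v / B ≤ q.1 + 1 ∧ q.1 ≤ v / B + 1 ∧ y v / B ≤ q.2 + 1 ∧ q.2 ≤ y v / B + 1

theorem div_far {a b B : ℕ} (hB : 0 < B) (h : a / B + 1 < b / B) : B ≤ b - a := by
  have h1 : a < (a / B + 1) * B := by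
    rw [mul_comm]
    exact Nat.lt_mul_div_succ a hB
  have h2 : b / B * B ≤ b := Nat.div_mul_le_self b B
  have h3 : (a / B + 1) * B + B ≤ b / B * B := by
    calc (a / B + 1) * B + B = (a / B + 2) * B := by ring
      _ ≤ b / B * B := Nat.mul_le_mul_right _ h
  omega

theorem nbr_far {y : ℕ → ℕ} {B t v : ℕ} (hB : 0 < B) (h : ¬ nbr y B (t / B, y t / B) v) :
    B ≤ dd y t v := by
  unfold nbr at h
  simp only [not_and_or, not_le] at h
  unfold dd
  rcases h with h | h | h | h
  · have := div_far hB h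
    omega
  · have := div_far hB h
    omega
  · have := div_far hB h
    omega
  · have := div_far hB h
    omega

theorem nbr_sum {y s : ℕ → ℕ} {B m t : ℕ} (hB : 0 < B) (hs : ∀ v, 0 < v → v < m → s v < v) :
    ∀ v, v < m → nbr y B (t / B, y t / B) v →
      B ≤ dd y t v + ∑ w ∈ (Finset.range (v + 1)).filter (nbr y B (t / B, y t / B)), mw y s B w := by
  intro v
  induction v using Nat.strong_induction_on with
  | _ v ih =>
    intro hv hn
    have hsplit : ∀ w, w < v →
        ∑ x ∈ (Finset.range (w + 1)).filter (nbr y B (t / B, y t / B)), mw y s B x + mw y s B v ≤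
        ∑ x ∈ (Finset.range (v + 1)).filter (nbr y B (t / B, y t / B)), mw y s B x := by
      intro w hw
      have h1 : insert v ((Finset.range (w + 1)).filter (nbr y B (t / B, y t / B))) ⊆
          (Finset.range (v + 1)).filter (nbr y B (t / B, y t / B)) := by
        intro x hx
        rw [Finset.mem_insert, Finset.mem_filter, Finset.mem_range] at hx
        rw [Finset.mem_filter, Finset.mem_range]
        rcases hx with rfl | hx
        · exact ⟨by omega, hn⟩
        · exact ⟨by omega, hx.2⟩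
      have h2 := Finset.sum_le_sum_of_subset (f := mw y s B) h1
      rw [Finset.sum_insert (by
        rw [Finset.mem_filter, Finset.mem_range]
        omega)] at h2
      omega
    have hself : mw y s B v ≤
        ∑ x ∈ (Finset.range (v + 1)).filter (nbr y B (t / B, y t / B)), mw y s B x := by
      apply Finset.single_le_sum (f := mw y s B) (fun _ _ => Nat.zero_le _)
      rw [Finset.mem_filter, Finset.mem_range]
      exact ⟨by omega, hn⟩
    rcases Nat.eq_zero_or_pos v with h0 | h0
    · have : mw y s B v = B := by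
        unfold mw
        rw [if_pos h0]
      omega
    have hw : mw y s B v = min (dd y v (s v)) B := by
      unfold mw
      rw [if_neg (by omega)]
    rcases Nat.lt_or_ge (dd y v (s v)) B with h1 | h1
    · rw [min_eq_left h1.le] at hw
      have hsv := hs v h0 hv
      by_cases h2 : nbr y B (t / B, y t / B) (s v)
      · have h3 := ih (s v) hsv (by omega) h2
        have h4 := dd_tri y t v (s v)
        have h5 := hsplit (s v) hsv
        omega
      · have h3 := nbr_far hB h2
        have h4 := dd_tri y t v (s v)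
        omega
    · rw [min_eq_right h1] at hw
      omega

/-- The number of active cells of scale `j`. -/
theorem cells_dist {y s : ℕ → ℕ} {B m : ℕ} (hB : 0 < B) (hs : ∀ v, 0 < v → v < m → s v < v) :
    B * (cells B m y).card ≤ 9 * ∑ v ∈ Finset.range m, mw y s B v := by
  have h1 : ∀ q ∈ cells B m y, B ≤ ∑ v ∈ (Finset.range m).filter (nbr y B q), mw y s B v := by
    intro q hq
    unfold cells at hq
    obtain ⟨t, ht, rfl⟩ := Finset.mem_image.1 hq
    rw [Finset.mem_range] at ht
    have h2 := nbr_sum (y := y) (t := t) hB hs t ht (by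
      unfold nbr
      simp only
      omega)
    have h3 : dd y t t = 0 := by
      unfold dd
      omega
    rw [h3, Nat.zero_add] at h2
    refine h2.trans (Finset.sum_le_sum_of_subset ?_)
    intro x hx
    rw [Finset.mem_filter, Finset.mem_range] at hx ⊢
    exact ⟨by omega, hx.2⟩
  have h2 : B * (cells B m y).card ≤
      ∑ q ∈ cells B m y, ∑ v ∈ (Finset.range m).filter (nbr y B q), mw y s B v := by
    calc B * (cells B m y).card = ∑ _q ∈ cells B m y, B := by
          rw [Finset.sum_const, smul_eq_mul, mul_comm]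
      _ ≤ _ := Finset.sum_le_sum h1
  refine h2.trans ?_
  have h3 : ∑ q ∈ cells B m y, ∑ v ∈ (Finset.range m).filter (nbr y B q), mw y s B v =
      ∑ v ∈ Finset.range m, ((cells B m y).filter (fun q => nbr y B q v)).card * mw y s B v := by
    simp_rw [Finset.sum_filter]
    rw [Finset.sum_comm]
    apply Finset.sum_congr rfl
    intro v _
    rw [← Finset.sum_filter, Finset.sum_const, smul_eq_mul]
  rw [h3, Finset.mul_sum]
  apply Finset.sum_le_sum
  intro v _
  apply Nat.mul_le_mul_right
  have h4 : (cells B m y).filter (fun q => nbr y B q v) ⊆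
      (Finset.range 3 ×ˢ Finset.range 3).image
        (fun p => (v / B + 1 - p.1, y v / B + 1 - p.2)) := by
    rintro ⟨a, b⟩ hq
    rw [Finset.mem_filter] at hq
    obtain ⟨-, h5, h6, h7, h8⟩ := hq
    simp only at h5 h6 h7 h8
    rw [Finset.mem_image]
    refine ⟨(v / B + 1 - a, y v / B + 1 - b), ?_, ?_⟩
    · rw [Finset.mem_product, Finset.mem_range, Finset.mem_range]
      simp only
      omega
    · simp only [Prod.mk.injEq]
      omega
  refine (Finset.card_le_card h4).trans (Finset.card_image_le.trans ?_)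
  rw [Finset.card_product, Finset.card_range]

/-- The real form: `δ ≤ 1`. -/
theorem cells_rpow {y s : ℕ → ℕ} {m : ℕ} {δ : ℝ} (hδ : 0 ≤ δ) (hδ1 : δ ≤ 1)
    (hs : ∀ v, 0 < v → v < m → s v < v) (j : ℕ) (hj : 2 ^ j ≤ 2 * m) :
    (2 : ℝ) ^ (δ * j) * ((cells (2 ^ j) m y).card : ℝ) ≤
      27 * (1 + ∑ v ∈ Finset.Ico 1 m, (dd y v (s v) : ℝ) ^ δ) := by
  have hm : 0 < m := by
    rcases Nat.eq_zero_or_pos m with h | h
    · subst h
      have : 0 < 2 ^ j := by positivity
      omega
    · exact h
  obtain ⟨B, hBd⟩ : ∃ B : ℕ, B = 2 ^ j := ⟨_, rfl⟩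
  have hB : 0 < B := by rw [hBd]; positivity
  have hBr : (0 : ℝ) < B := by exact_mod_cast hB
  have e0 : (2 : ℝ) ^ (δ * j) = (B : ℝ) ^ δ := by
    rw [hBd, mul_comm, Real.rpow_mul (by norm_num), Real.rpow_natCast]
    push_cast
    rfl
  rw [e0, ← hBd]
  have h1 := cells_dist (y := y) (m := m) hB hs
  have h1' : (B : ℝ) * ((cells B m y).card : ℝ) ≤ 9 * ∑ v ∈ Finset.range m, (mw y s B v : ℝ) := by
    exact_mod_cast h1
  have e1 : (B : ℝ) ^ δ = (B : ℝ) ^ (δ - 1) * B := by
    rw [← Real.rpow_add_one hBr.ne']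
    congr 1
    ring
  have hp : (0 : ℝ) ≤ (B : ℝ) ^ (δ - 1) := Real.rpow_nonneg hBr.le _
  have h2 : (B : ℝ) ^ δ * ((cells B m y).card : ℝ) ≤
      9 * ∑ v ∈ Finset.range m, (B : ℝ) ^ (δ - 1) * (mw y s B v : ℝ) := by
    rw [← Finset.mul_sum, e1]
    nlinarith [mul_le_mul_of_nonneg_left h1' hp]
  -- the single terms
  have h3 : ∀ v ∈ Finset.Ico 1 m, (B : ℝ) ^ (δ - 1) * (mw y s B v : ℝ) ≤
      (dd y v (s v) : ℝ) ^ δ := by
    intro v hv
    rw [Finset.mem_Ico] at hv
    have hsv := hs v (by omega) hv.2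
    have hd1 : 1 ≤ dd y v (s v) := by
      unfold dd
      omega
    have hd : (0 : ℝ) < dd y v (s v) := by exact_mod_cast hd1
    have hmw : mw y s B v = min (dd y v (s v)) B := by
      unfold mw
      rw [if_neg (by omega)]
    rw [hmw]
    rcases Nat.le_total (dd y v (s v)) B with h | h
    · rw [min_eq_left h]
      have hle : (dd y v (s v) : ℝ) ≤ B := by exact_mod_cast h
      have h4 : (B : ℝ) ^ (δ - 1) ≤ (dd y v (s v) : ℝ) ^ (δ - 1) :=
        Real.rpow_le_rpow_of_nonpos hd hle (by linarith)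
      calc (B : ℝ) ^ (δ - 1) * (dd y v (s v) : ℝ)
          ≤ (dd y v (s v) : ℝ) ^ (δ - 1) * (dd y v (s v) : ℝ) :=
            mul_le_mul_of_nonneg_right h4 hd.le
        _ = (dd y v (s v) : ℝ) ^ δ := by
            rw [← Real.rpow_add_one hd.ne']
            congr 1
            ring
    · rw [min_eq_right h]
      have hle : (B : ℝ) ≤ dd y v (s v) := by exact_mod_cast h
      rw [← e1]
      exact Real.rpow_le_rpow hBr.le hle hδ
  have h5 : (B : ℝ) ^ (δ - 1) * (mw y s B 0 : ℝ) ≤ 2 * m := by
    have : mw y s B 0 = B := by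
      unfold mw
      rw [if_pos rfl]
    rw [this, ← e1]
    have h6 : (B : ℝ) ^ δ ≤ (B : ℝ) ^ (1 : ℝ) :=
      Real.rpow_le_rpow_of_exponent_le (by exact_mod_cast hB) hδ1
    rw [Real.rpow_one] at h6
    refine h6.trans ?_
    rw [← hBd] at hj
    exact_mod_cast hj
  have h6 : (m : ℝ) - 1 ≤ ∑ v ∈ Finset.Ico 1 m, (dd y v (s v) : ℝ) ^ δ := by
    have h7 : ∑ v ∈ Finset.Ico 1 m, (1 : ℝ) ≤ ∑ v ∈ Finset.Ico 1 m, (dd y v (s v) : ℝ) ^ δ := by
      apply Finset.sum_le_sum
      intro v hv
      rw [Finset.mem_Ico] at hv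
      have hsv := hs v (by omega) hv.2
      have hd1 : 1 ≤ dd y v (s v) := by
        unfold dd
        omega
      exact Real.one_le_rpow (by exact_mod_cast hd1) hδ
    rw [Finset.sum_const, Nat.card_Ico, nsmul_eq_mul, mul_one, Nat.cast_sub hm] at h7
    simpa using h7
  have h7 : ∑ v ∈ Finset.range m, (B : ℝ) ^ (δ - 1) * (mw y s B v : ℝ) ≤
      2 * m + ∑ v ∈ Finset.Ico 1 m, (dd y v (s v) : ℝ) ^ δ := by
    rw [Finset.range_eq_Ico, Finset.sum_eq_sum_Ico_succ_bot hm]
    exact add_le_add h5 (Finset.sum_le_sum h3)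
  nlinarith

end Pool.Agent.SplGd
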