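import Pool.Agent.SplTr.MirG
import Pool.Agent.SplPat.Defs

set_option autoImplicit false

/-!
# Bad elements (section 3 of the grid theorem): definitions

An element is a pair `e = (s, g)`: the key `g` is killed by the request `s` (on either side of the
path), afterwards its subtree interval is `(qe, we)`, both are keys; `re` is the first request after
`s` with a key `ze` in `[qe, g)`, no request of `(s, re)` lies in `[qe, we)`, and
`re - s < g - ze`.  `lv` is the level `log2 (re - s)`, `mu` the right end of the block of scale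
`lv - 1` of `ze`, `sy` the symbol.
-/

namespace Pool.Agent.SplGd

open Pool.Agent.SplLog Pool.Agent.SplLs Pool.Agent.SplTr Pool.Agent.SplPat
open scoped Classical

/-- The bound for the numbers of active cells. -/
def GrB (K : ℕ) (S : Sys) (D : ℕ) : Prop :=
  ∀ j, 2 ^ j ≤ S.m → 2 ^ (j / 2 + j / (2 * K)) * (cells (2 ^ j) S.m S.X).card ≤ D

/-- Left end of the range of the victim. -/
def qe (S : Sys) (e : ℕ × ℕ) : ℕ := S.lam (e.1 + 1) e.2

/-- Right end of the range of the victim. -/
def we (S : Sys) (e : ℕ × ℕ) : ℕ := S.rho (e.1 + 1) e.2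

/-- The release. -/
noncomputable def re (S : Sys) (e : ℕ × ℕ) : ℕ :=
  sInf {u | e.1 < u ∧ qe S e ≤ S.X u ∧ S.X u < e.2}

/-- The key of the release. -/
noncomputable def ze (S : Sys) (e : ℕ × ℕ) : ℕ := S.X (re S e)

/-- Bad elements. -/
structure Eb (S : Sys) (e : ℕ × ℕ) : Prop where
  sk : S.Kl e.1 e.2 (qe S e) ∨ Kr S e.1 e.2 (we S e)
  q0 : 0 < qe S e
  wt : we S e < S.top
  ex : ∃ u, u < S.m ∧ e.1 < u ∧ qe S e ≤ S.X u ∧ S.X u < e.2
  nr : ∀ u, e.1 < u → u < re S e → ¬ (qe S e ≤ S.X u ∧ S.X u < we S e)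
  bad : re S e + ze S e < e.1 + e.2

/-- The level. -/
noncomputable def lv (S : Sys) (e : ℕ × ℕ) : ℕ := Nat.log 2 (re S e - e.1)

/-- The scale. -/
noncomputable def sc (S : Sys) (e : ℕ × ℕ) : ℕ := lv S e - 1

/-- The right end of the block of the release. -/
noncomputable def mu (S : Sys) (e : ℕ × ℕ) : ℕ := (ze S e / 2 ^ sc S e + 1) * 2 ^ sc S e

/-- The symbol. -/
noncomputable def sy (S : Sys) (e : ℕ × ℕ) : ℕ × ℕ × ℕ :=
  (lv S e, re S e / 2 ^ sc S e, ze S e / 2 ^ sc S e)

/-- All elements. -/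
noncomputable def els (S : Sys) : Finset (ℕ × ℕ) := S.set (fun s g => Eb S (s, g))

/-- The elements of level at least `c`. -/
noncomputable def elc (S : Sys) (c : ℕ) : Finset (ℕ × ℕ) := (els S).filter (fun e => c ≤ lv S e)

/-- The time window of scale `c - 1`. -/
def om (c : ℕ) (e : ℕ × ℕ) : ℕ := e.1 / 2 ^ (c - 1)

/-- The index of the block of scale `c - 1` to the left of `mu`. -/
noncomputable def bk (S : Sys) (c : ℕ) (e : ℕ × ℕ) : ℕ := mu S e / 2 ^ (c - 1) - 1

/-- One more than the last block below `b` which is active in the window `W` (`0` if there is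
none). -/
def lab (S : Sys) (c W b : ℕ) : ℕ :=
  ((Finset.range b).filter (fun b' => (W, b') ∈ cells (2 ^ (c - 1)) S.m S.X)).sup (· + 1)

/-- The group of an element: window, `1` and the block if the block is active, `0` and `lab`
otherwise. -/
noncomputable def gid (S : Sys) (c : ℕ) (e : ℕ × ℕ) : ℕ × ℕ × ℕ :=
  if (om c e, bk S c e) ∈ cells (2 ^ (c - 1)) S.m S.X then (om c e, 1, bk S c e)
  else (om c e, 0, lab S c (om c e) (bk S c e))

/-- The order of the elements: time, then key. -/
def Lt (S : Sys) (e f : ℕ × ℕ) : Prop := e.1 < f.1 ∨ (e.1 = f.1 ∧ mu S e < mu S f)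

/-- Changes: elements whose predecessor in the group has another symbol. -/
noncomputable def chs (S : Sys) (c : ℕ) : Finset (ℕ × ℕ) := (elc S c).filter (fun y =>
  ∃ x ∈ elc S c, gid S c x = gid S c y ∧ Lt S x y ∧
    (∀ z ∈ elc S c, gid S c z = gid S c y → ¬ (Lt S x z ∧ Lt S z y)) ∧ sy S x ≠ sy S y)

/-- The pairs (window, symbol). -/
noncomputable def ssy (S : Sys) (c : ℕ) : Finset (ℕ × ℕ × ℕ × ℕ) :=
  (elc S c).image (fun e => (om c e, sy S e))

end Pool.Agent.SplGd
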