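import Pool.Agent.SplGd.EDef

set_option autoImplicit false

/-! # Bad elements: local facts -/

namespace Pool.Agent.SplGd

open Pool.Agent.SplLog Pool.Agent.SplLs Pool.Agent.SplTr Pool.Agent.SplPat

open scoped Classical

variable {S : Sys} {e f b y : ℕ × ℕ} {c u x : ℕ}

/-- MODULE la (S). `Nat.sInf_mem` for `re` (`Eb.ex`); `g < we` and `g ∈ K` from the kill
(`Sys.kl_facts`, `kr_facts`), `re ≤` the witness `< m`. -/
theorem Eb.facts (h : Eb S e) : e.1 < re S e ∧ re S e < S.m ∧ qe S e ≤ ze S e ∧ ze S e < e.2 ∧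
    e.2 < we S e ∧ e.2 ∈ S.K ∧ qe S e ∈ S.K ∧ we S e ∈ S.K ∧ S.E e.1 e.2 := by
  obtain ⟨u, h1, h2, h3, h4⟩ := h.ex
  have hne : {u | e.1 < u ∧ qe S e ≤ S.X u ∧ S.X u < e.2}.Nonempty := ⟨u, h2, h3, h4⟩
  obtain ⟨m1, m2, m3⟩ : e.1 < re S e ∧ qe S e ≤ ze S e ∧ ze S e < e.2 := Nat.sInf_mem hne
  have hle : re S e ≤ u := Nat.sInf_le ⟨h2, h3, h4⟩
  have hE : S.E e.1 e.2 := by
    rcases h.sk with k | k
    · exact Sys.R_E k.1
    · exact Sys.L_E k.1
  have hK := Sys.E_mem hE
  have hm : e.1 + 1 ≤ S.m := by omega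
  have hw := S.lt_rho (e.1 + 1) hm e.2 hK
  refine ⟨m1, by omega, m2, m3, hw, hK, ?_, ?_, hE⟩
  · rcases S.lam_mem (e.1 + 1) hm e.2 hK with k | k
    · have := h.q0
      unfold qe at this
      omega
    · exact k
  · rcases S.rho_mem (e.1 + 1) hm e.2 hK with k | k
    · have := h.wt
      unfold we at this
      omega
    · exact k

/-- MODULE lb (S). The victim is frozen until the release: induction on `u` (`Sys.untouched`,
`Sys.E_iff`): the range is `(qe, we)` and the requests of `(s, re)` are outside (`nr`; `= qe` is in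
`[qe, we)`). -/
theorem Eb.frozen (h : Eb S e) (h1 : e.1 < u) (h2 : u ≤ re S e) :
    S.lam u e.2 = qe S e ∧ S.rho u e.2 = we S e ∧ (u < re S e → ¬ S.E u e.2) := by
  obtain ⟨f1, f2, f3, f4, f5, f6, f7, f8, f9⟩ := h.facts
  have key : ∀ u, e.1 + 1 ≤ u → u ≤ re S e → S.lam u e.2 = qe S e ∧ S.rho u e.2 = we S e := by
    intro u hu
    induction u, hu using Nat.le_induction with
    | base => exact fun _ => ⟨rfl, rfl⟩
    | succ u hu ih =>
      intro h3
      obtain ⟨i1, i2⟩ := ih (by omega)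
      have h4 : ¬ S.E u e.2 := by
        intro hE
        have h5 := Sys.E_int hE
        rw [i1, i2] at h5
        exact h.nr u (by omega) (by omega) ⟨h5.1.le, h5.2⟩
      have h6 := Sys.untouched (S := S) (t := u) (by omega) f6 h4
      rw [h6.1, h6.2]
      exact ⟨i1, i2⟩
  obtain ⟨i1, i2⟩ := key u h1 h2
  refine ⟨i1, i2, ?_⟩
  intro h3 hE
  have h5 := Sys.E_int hE
  rw [i1, i2] at h5
  exact h.nr u (by omega) (by omega) ⟨h5.1.le, h5.2⟩

/-- MODULE lc (S). `ze < mu ≤ ze + 2 ^ sc` and `2 ^ sc ≤ re - s < g - ze` (`Nat.pow_log_le_self`). -/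
theorem Eb.mu_facts (h : Eb S e) : ze S e < mu S e ∧ mu S e ≤ ze S e + 2 ^ sc S e ∧
    mu S e < e.2 ∧ 2 ^ sc S e ∣ mu S e ∧ 2 ^ lv S e ≤ re S e - e.1 ∧
    re S e - e.1 < 2 ^ (lv S e + 1) := by
  obtain ⟨f1, f2, f3, f4, f5, f6, f7, f8, f9⟩ := h.facts
  have hb := h.bad
  have a1 : 2 ^ lv S e ≤ re S e - e.1 := Nat.pow_log_le_self 2 (by omega)
  have a2 : re S e - e.1 < 2 ^ (lv S e + 1) := Nat.lt_pow_succ_log_self (by norm_num) _
  have a3 : 2 ^ sc S e ≤ 2 ^ lv S e := Nat.pow_le_pow_right (by norm_num) (by unfold sc; omega)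
  have a4 : 2 ^ sc S e * (ze S e / 2 ^ sc S e) + ze S e % 2 ^ sc S e = ze S e := Nat.div_add_mod _ _
  have a5 : ze S e % 2 ^ sc S e < 2 ^ sc S e := Nat.mod_lt _ (by positivity)
  have a6 : mu S e = 2 ^ sc S e * (ze S e / 2 ^ sc S e) + 2 ^ sc S e := by
    unfold mu
    ring
  refine ⟨by omega, by omega, by omega, Dvd.intro_left _ rfl, a1, a2⟩

/-- MODULE ld (S). A touched pair: at the request `f.1` the keys `qe S f` and `f.2` are touched, on the
same side, and consecutive: a key strictly between them is untouched and has its subtree interval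
between them.  (Left kill: `qe` is the killer, `rho qe = f.2`. Right kill: `lam f.2 = qe`, so
`qe` is touched: mirror of `R_up`; a key `v` between them which is touched is an ancestor or a
descendant of `f.2` and of `qe`: `Sys.R_above`, `Sys.L_above`; untouched: `Sys.lamin`.) -/
theorem Eb.pair_facts (h : Eb S f) : S.E f.1 (qe S f) ∧
    ∀ v ∈ S.K, qe S f < v → v < f.2 → ¬ S.E f.1 v ∧ qe S f ≤ S.lam f.1 v ∧ S.rho f.1 v ≤ f.2 := by
  rcases h.sk with hk | hk
  · obtain ⟨h1, h2, h3, h4, h5, h6⟩ := Sys.kl_facts hk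
    have ht := hk.1.1
    refine ⟨Sys.R_E h1.1, fun v hv hv1 hv2 => ?_⟩
    have hx := h1.1.2.2.1
    have hl := S.lam_lt f.1 ht.le v hv
    rcases S.lamin f.1 ht.le _ h1.1.2.1 v hv hv1 with ⟨c1, c2, c3⟩ | ⟨c1, c2, c3⟩ | c1
    · refine ⟨fun hE => ?_, c2, by omega⟩
      have := (Sys.E_int hE).1
      omega
    · omega
    · omega
  · obtain ⟨h1, h2, h3, h4, h5, h6, h7⟩ := kr_facts hk
    have ht := hk.1.1
    have hg := hk.1.2.1
    have hgx := hk.1.2.2.1
    have hxg := hk.1.2.2.2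
    have hq0 := h.q0
    have hq : qe S f = S.lam f.1 f.2 := h7
    have hqK : qe S f ∈ S.K := by
      rcases S.lam_mem f.1 ht.le f.2 hg with h8 | h8
      · omega
      · rw [hq]
        exact h8
    have hlg := S.lam_lt f.1 ht.le f.2 hg
    have hanc : f.2 < S.rho f.1 (qe S f) := by
      have := S.lam_anc f.1 ht.le f.2 hg (by rw [← hq]; exact hqK)
      rwa [← hq] at this
    have hlq := S.lam_lt f.1 ht.le (qe S f) hqK
    have hsub := Sys.sub ht.le hg hqK (by omega) hanc
    refine ⟨(Sys.E_iff ht hqK).2 ⟨by omega, by omega⟩, fun v hv hv1 hv2 => ?_⟩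
    have hr := S.lt_rho f.1 ht.le v hv
    rcases S.lamin f.1 ht.le v hv f.2 hg hv2 with ⟨c1, c2, c3⟩ | ⟨c1, c2, c3⟩ | c1
    · omega
    · refine ⟨fun hE => ?_, by omega, c2⟩
      have := (Sys.E_int hE).2
      omega
    · omega

/-- MODULE le (M). NESTED. `e.2` is untouched at `f.1` (`Eb.frozen`). If `f.2 < e.2` or `f.2 = e.2` or
`e.2 ≤ qe S f` then a touched key (`f.2` resp. `qe S f`) lies in the range of `e.2` at `f.1`
(`Sys.E_up`): contradiction. So `qe S f < e.2 < f.2`: `Eb.pair_facts`, `lam`, `rho` of `e.2` are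
`qe S e`, `we S e`. -/
theorem Eb.nested (he : Eb S e) (hf : Eb S f) (h1 : e.1 < f.1) (h2 : f.1 < re S e)
    (a1 : qe S e < x) (a2 : x ≤ e.2) (a3 : qe S f < x) (a4 : x < f.2) :
    qe S f ≤ qe S e ∧ we S e ≤ f.2 := by
  obtain ⟨f1, f2, f3, f4, f5, f6, f7, f8, f9⟩ := he.facts
  obtain ⟨g1, g2, g3, g4, g5, g6, g7, g8, g9⟩ := hf.facts
  obtain ⟨hl, hr, hn⟩ := he.frozen h1 h2.le
  have hn' := hn h2
  have hlt : e.2 < f.2 := by
    by_contra hc
    exact hn' (Sys.E_up g9 f6 (by omega) (by omega))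
  obtain ⟨_, hp⟩ := hf.pair_facts
  obtain ⟨_, p1, p2⟩ := hp e.2 f6 (by omega) hlt
  rw [hl] at p1
  rw [hr] at p2
  exact ⟨p1, p2⟩

/-- MODULE lf (S). After NESTED the release of `f` is not later than the release of `e` (`re S e` is a
request in `[qe S f, we S f)`: `Eb.nr` for `f`), and the level does not increase. -/
theorem Eb.nested_re (he : Eb S e) (hf : Eb S f) (h1 : e.1 < f.1) (h2 : f.1 < re S e)
    (h3 : qe S f ≤ qe S e) (h4 : we S e ≤ f.2) : re S f ≤ re S e ∧ lv S f ≤ lv S e := by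
  obtain ⟨a1, a2, a3, a4, a5, -⟩ := he.facts
  obtain ⟨b1, b2, b3, b4, b5, -⟩ := hf.facts
  have h5 : re S f ≤ re S e := by
    by_contra hcon
    refine hf.nr (re S e) h2 (by omega) ⟨?_, ?_⟩
    · exact le_trans h3 a3
    · have : S.X (re S e) < e.2 := a4
      omega
  exact ⟨h5, Nat.log_mono_right (by omega)⟩

/-- MODULE lg (M). Elements of the same request: the gaps `(qe, g)` are disjoint. Two left kills:
consecutive touched keys (`Eb.pair_facts`); a left and a right kill: the gap of the right one is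
below the request, the gap of the left one above. -/
theorem Eb.same_time (he : Eb S e) (hf : Eb S f) (h1 : e.1 = f.1) (h2 : qe S e < f.2)
    (h3 : qe S f < e.2) : e = f := by
  have a1 := he.facts
  have a2 := hf.facts
  have b1 := he.pair_facts
  have b2 := hf.pair_facts
  rcases lt_trichotomy e.2 f.2 with h | h | h
  · have h5 := (b2.2 e.2 a1.2.2.2.2.2.1 h3 h).1
    rw [← h1] at h5
    exact absurd a1.2.2.2.2.2.2.2.2 h5
  · exact Prod.ext h1 h
  · have h5 := (b1.2 f.2 a2.2.2.2.2.2.1 h2 h).1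
    rw [h1] at h5
    exact absurd a2.2.2.2.2.2.2.2.2 h5

/-- MODULE lh (M). DEAD. Same request: `Eb.same_time` (`qe S f ≤ ze S f < mu S f ≤ e.2`,
`qe S e < mu S e < mu S f < f.2`). Later: NESTED with `x = mu S f`, so `re S f ≤ re S e`,
`lv S f ≤ lv S e`, `mu S e` is a multiple of `2 ^ sc S f`, so `mu S e ≤ mu S f - 2 ^ sc S f ≤ ze S f`;
`ze S f` is in `[qe S e, e.2)`, so `re S e ≤ re S f` (`Nat.sInf_le`), `ze S e = ze S f`: contradiction
to `ze S e < mu S e`. -/
theorem Eb.dead (he : Eb S e) (hf : Eb S f) (h0 : Lt S e f) (h2 : f.1 < re S e)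
    (h3 : mu S e < mu S f) (h4 : mu S f ≤ e.2) : False := by
  have a1 := he.facts
  have a2 := hf.facts
  have b1 := he.mu_facts
  have b2 := hf.mu_facts
  rcases h0 with h0 | ⟨h0, -⟩
  · obtain ⟨n1, n2⟩ := Eb.nested (x := mu S f) he hf h0 h2 (by omega) h4 (by omega) (by omega)
    obtain ⟨r1, r2⟩ := Eb.nested_re he hf h0 h2 n1 n2
    have hsc : sc S f ≤ sc S e := by
      unfold sc
      omega
    have hd1 : 2 ^ sc S f ∣ mu S e := (pow_dvd_pow 2 hsc).trans b1.2.2.2.1
    have hmu : mu S e ≤ ze S f := by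
      obtain ⟨k, hk⟩ := hd1
      have hf2 : mu S f = (ze S f / 2 ^ sc S f + 1) * 2 ^ sc S f := rfl
      have hpos : 0 < 2 ^ sc S f := Nat.two_pow_pos _
      have hlt : k < ze S f / 2 ^ sc S f + 1 := by
        have h5 : 2 ^ sc S f * k < 2 ^ sc S f * (ze S f / 2 ^ sc S f + 1) := by
          rw [← hk, Nat.mul_comm (2 ^ sc S f) (ze S f / 2 ^ sc S f + 1), ← hf2]
          exact h3
        exact Nat.lt_of_mul_lt_mul_left h5
      rw [hk]
      calc 2 ^ sc S f * k ≤ 2 ^ sc S f * (ze S f / 2 ^ sc S f) :=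
            Nat.mul_le_mul_left _ (by omega)
        _ ≤ ze S f := Nat.mul_div_le _ _
    have hre : re S e ≤ re S f := by
      refine Nat.sInf_le ⟨by omega, ?_, ?_⟩
      · change qe S e ≤ ze S f
        omega
      · change ze S f < e.2
        omega
    have heq : re S e = re S f := by omega
    have hz : ze S e = ze S f := by
      unfold ze
      rw [heq]
    omega
  · have h5 := Eb.same_time he hf h0 (by omega) (by omega)
    rw [h5] at h3
    exact absurd h3 (lt_irrefl _)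

/-- MODULE li (S). ENGULF. `mu S e = f.2` is impossible (`f.2` would be a touched key in the range of
`e.2`); otherwise NESTED with `x = mu S e`. -/
theorem Eb.engulf (he : Eb S e) (hf : Eb S f) (h1 : e.1 < f.1) (h2 : f.1 < re S e)
    (h3 : mu S f < mu S e) (h4 : mu S e ≤ f.2) : we S e ≤ f.2 := by
  obtain ⟨a1, a2, a3, a4, a5, a6, a7, a8, a9⟩ := he.facts
  obtain ⟨b1, b2, b3, b4, b5, b6, b7, b8, b9⟩ := hf.facts
  obtain ⟨c1, c2, c3, _⟩ := he.mu_facts
  obtain ⟨d1, d2, d3, _⟩ := hf.mu_facts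
  rcases Nat.eq_or_lt_of_le h4 with h5 | h5
  · exfalso
    obtain ⟨l1, l2, l3⟩ := he.frozen h1 h2.le
    exact l3 h2 (Sys.E_up b9 a6 (by omega) (by omega))
  · exact (Eb.nested he hf h1 h2 (x := mu S e) (by omega) c3.le (by omega) h5).2

/-- MODULE lj (L). PAIR LEMMA (text (3.2), mixed version of notice 7726). `e`, `y` over the same `mu`,
`b` over a larger one, `e.1 ≤ b.1 < y.1`, `y` before the releases of `e` and `b`; no request of
`[e.1, y.1]` in `U = [mu S e, mu S b)`. Suppose `y.2 < we S b`. `b.2` is untouched at `y.1`, so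
`y.2 ≤ qe S b`; if `y.2` is untouched on `[e.1, b.1]` then `y.2 < qe S b < mu S b`, and `mu S e < y.2`
(`Eb.nested`, `Eb.mu_facts`). (1) At `y.1` the key `y.2` is touched from outside `U`: `lam < mu S e` or
`mu S b ≤ rho`; as long as there is no request in `U` a key of `U` with `lam`, `rho` in `U` stays so
(`Sys.untouched`, `Sys.E_iff`), so at `e.1` also `lam < mu S e` or `mu S b ≤ rho`. (2) At `e.1` it is
untouched and larger than `e.2` (left kill: `> we S e`, which is touched; right kill: `> we S e`, the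
killer): `lam` is `≥ e.2 > mu S e`, so `mu S b ≤ rho`; both are unchanged until `b.1`. (3) At `b.1` the
key `qe S b` is touched (`Eb.pair_facts`) and lies in the range of `y.2`. Left kill: `lam (qe S b)` is
below the request, which is below `U`, but `lam (qe S b) ≥ y.2`. Right kill: the request is above `U`
and below `rho (qe S b) ≤ rho y.2`: `y.2` is touched. -/
theorem Eb.pair (he : Eb S e) (hb : Eb S b) (hy : Eb S y) (h1 : e.1 ≤ b.1) (h2 : b.1 < y.1)
    (h3 : y.1 < re S e) (h4 : y.1 < re S b) (h5 : mu S e = mu S y) (h6 : mu S e < mu S b)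
    (hid : ∀ u, e.1 ≤ u → u ≤ y.1 → ¬ (mu S e ≤ S.X u ∧ S.X u < mu S b)) :
    we S b ≤ y.2 ∨ ∃ u, e.1 ≤ u ∧ u ≤ b.1 ∧ S.E u y.2 := by
  by_contra hcon
  push Not at hcon
  obtain ⟨hc1, hc2⟩ := hcon
  have a1 := he.facts
  have a2 := hb.facts
  have a3 := hy.facts
  have m1 := he.mu_facts
  have m2 := hb.mu_facts
  have m3 := hy.mu_facts
  have gK : y.2 ∈ S.K := a3.2.2.2.2.2.1
  have hyt : y.1 < S.m := by omega
  -- the victim of `y` is at most `qe b`
  have hle : y.2 ≤ qe S b := by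
    by_contra hlt
    have hfr := hb.frozen h2 h4.le
    have hE : S.E y.1 b.2 := by
      refine Sys.E_up a3.2.2.2.2.2.2.2.2 a2.2.2.2.2.2.1 ?_ ?_
      · rw [hfr.1]
        omega
      · rw [hfr.2.1]
        exact hc1
    exact hfr.2.2 h4 hE
  have hpb := hb.pair_facts
  have hnb : ¬ S.E b.1 y.2 := hc2 b.1 h1 le_rfl
  have hlt : y.2 < qe S b := by
    rcases lt_or_eq_of_le hle with h | h
    · exact h
    · exact absurd (h ▸ hpb.1) hnb
  -- (2)
  obtain ⟨n1, n2⟩ := Eb.nested (x := mu S e) he hy (by omega) h3 (by omega) (by omega)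
    (by omega) (by omega)
  have hne : ¬ S.E e.1 y.2 := hc2 e.1 le_rfl h1
  have hem : e.1 < S.m := by omega
  have hlam : e.2 ≤ S.lam e.1 y.2 := by
    rcases S.lamin e.1 hem.le e.2 a1.2.2.2.2.2.1 y.2 gK (by omega) with h | h | h
    · exact h.2.1
    · exact absurd (Sys.E_up a1.2.2.2.2.2.2.2.2 gK h.1
        (by have := S.lt_rho e.1 hem.le y.2 gK; omega)) hne
    · have := S.lt_rho e.1 hem.le e.2 a1.2.2.2.2.2.1
      omega
  -- (1)
  have hrho : mu S b ≤ S.rho e.1 y.2 := by
    by_contra hr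
    have hind : ∀ u, e.1 ≤ u → u ≤ y.1 → mu S e ≤ S.lam u y.2 ∧ S.rho u y.2 < mu S b := by
      intro u hu
      induction u, hu using Nat.le_induction with
      | base => exact fun _ => ⟨by omega, by omega⟩
      | succ u hu ih =>
        intro hu2
        obtain ⟨i1, i2⟩ := ih (by omega)
        have hid' := hid u hu (by omega)
        have hnE : ¬ S.E u y.2 := by
          intro hE
          have := Sys.E_int hE
          omega
        have hun := Sys.untouched (S := S) (t := u) (by omega) gK hnE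
        rw [hun.1, hun.2]
        exact ⟨i1, i2⟩
    obtain ⟨i1, i2⟩ := hind y.1 (by omega) le_rfl
    have hE := Sys.E_int a3.2.2.2.2.2.2.2.2
    have := hid y.1 (by omega) le_rfl
    omega
  have hcst := Sys.NE_const (S := S) gK h1 (by omega) (fun u hu1 hu2 => hc2 u hu1 hu2.le)
  -- (3)
  refine hnb (Sys.E_up hpb.1 gK ?_ ?_)
  · have := S.lam_lt b.1 (by omega) y.2 gK
    omega
  · rw [hcst.2]
    omega

/-- MODULE lk (S). The symbol determines `mu`; together with the request it determines the element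
(`Eb.same_time` with `mu` in both gaps). -/
theorem Eb.sy_mu (h : sy S e = sy S f) : mu S e = mu S f := by
  have h1 : lv S e = lv S f := congrArg Prod.fst h
  have h2 : sc S e = sc S f := by
    unfold sc
    rw [h1]
  have h3 : ze S e / 2 ^ sc S e = ze S f / 2 ^ sc S f := congrArg (fun t => t.2.2) h
  unfold mu
  rw [h3, h2]

theorem Eb.ext_mu (he : Eb S e) (hf : Eb S f) (h1 : e.1 = f.1) (h2 : mu S e = mu S f) : e = f := by
  obtain ⟨a1, a2, a3, a4, a5, -⟩ := he.facts
  obtain ⟨b1, b2, b3, b4, b5, -⟩ := hf.facts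
  obtain ⟨c1, c2, c3, -⟩ := he.mu_facts
  obtain ⟨d1, d2, d3, -⟩ := hf.mu_facts
  exact Eb.same_time he hf h1 (by omega) (by omega)

/-- MODULE ll (S). Over one `mu` the symbols are contiguous: `re` and `lv` do not increase
(`Eb.nested_re`), so for equal symbols of `e` and `y` the symbol of `f` between them is the same
(`re / 2 ^ sc` is between two equal numbers; `ze / 2 ^ sc + 1 = mu / 2 ^ sc`). -/
theorem Eb.convex (he : Eb S e) (hf : Eb S f) (hy : Eb S y) (h1 : e.1 < f.1) (h2 : f.1 < y.1)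
    (h3 : y.1 < re S e) (h4 : y.1 < re S f) (h5 : mu S e = mu S f) (h6 : mu S f = mu S y)
    (h7 : sy S e = sy S y) : sy S e = sy S f := by
  obtain ⟨a1, a2, a3, a4, a5, -⟩ := he.facts
  obtain ⟨b1, b2, b3, b4, b5, -⟩ := hf.facts
  obtain ⟨e1, e2, e3, e4, e5, -⟩ := hy.facts
  obtain ⟨c1, c2, c3, -⟩ := he.mu_facts
  obtain ⟨d1, d2, d3, -⟩ := hf.mu_facts
  obtain ⟨g1, g2, g3, -⟩ := hy.mu_facts
  obtain ⟨n1, n2⟩ := he.nested hf h1 (by omega) (x := mu S e) (by omega) (by omega) (by omega)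
    (by omega)
  obtain ⟨n3, n4⟩ := hf.nested hy h2 h4 (x := mu S f) (by omega) (by omega) (by omega) (by omega)
  obtain ⟨r1, l1⟩ := he.nested_re hf h1 (by omega) n1 n2
  obtain ⟨r2, l2⟩ := hf.nested_re hy h2 h4 n3 n4
  have k1 : lv S e = lv S y := congrArg Prod.fst h7
  have k2 : re S e / 2 ^ sc S e = re S y / 2 ^ sc S y := congrArg (fun t => t.2.1) h7
  have k3 : lv S e = lv S f := by omega
  have k4 : sc S e = sc S f := by
    unfold sc
    rw [k3]
  have k5 : sc S e = sc S y := by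
    unfold sc
    rw [k1]
  have k6 : re S e / 2 ^ sc S e = re S f / 2 ^ sc S e := by
    rw [← k5] at k2
    apply le_antisymm
    · rw [k2]
      exact Nat.div_le_div_right r2
    · exact Nat.div_le_div_right r1
  have k7 : ze S e / 2 ^ sc S e = ze S f / 2 ^ sc S e := by
    have h8 := h5
    unfold mu at h8
    rw [← k4] at h8
    have h9 := Nat.eq_of_mul_eq_mul_right (pow_pos (by norm_num) _) h8
    omega
  unfold sy
  rw [← k3, ← k4, ← k6, ← k7]

/-- MODULE lm (S). In one window of scale `c - 1` an element of level `≥ c` is frozen (`1 ≤ c`). -/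
theorem Eb.window (he : Eb S e) (hc : 1 ≤ c) (h1 : c ≤ lv S e) (h2 : om c e = om c f) :
    f.1 < re S e := by
  obtain ⟨a1, _⟩ := he.facts
  obtain ⟨_, _, _, _, c5, _⟩ := he.mu_facts
  have hp : 0 < 2 ^ (c - 1) := by positivity
  have h3 : 2 ^ (c - 1) ≤ 2 ^ lv S e := Nat.pow_le_pow_right (by norm_num) (by omega)
  unfold om at h2
  have h4 := Nat.div_add_mod e.1 (2 ^ (c - 1))
  have h5 := Nat.div_add_mod f.1 (2 ^ (c - 1))
  have h6 := Nat.mod_lt f.1 hp
  rw [← h2] at h5
  omega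

end Pool.Agent.SplGd
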