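import Pool.Agent.SplGd.FWin

set_option autoImplicit false

/-!
# Grid theorem, section 5: stages of a cell (A', A, B, C, D)
-/

namespace Pool.Agent.SplGd

open scoped Classical

namespace FG

variable {ι : Type} {k top tm N : ℕ} {Q : FG ι k top tm N} {x y a : ι} {g m p t : ℕ}

-- MODULE ya
theorem Ef_F (ha : a ∈ Q.Ef x) : a ∈ Q.F := by
  unfold Ef at ha
  exact (mem_En.1 ha).1

theorem Ef_alive (hx : x ∈ Q.F) (ha : a ∈ Q.Ef x) : Q.s a < Q.rel x ∧ Q.s x < Q.rel a := by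
  have h := mem_Ef hx
  unfold Ef at ha h
  exact ⟨alive ha h, alive h ha⟩

theorem Ef_ord (hx : a ∈ Q.Ef x) (hy : y ∈ Q.Ef x) (h : Q.key a ≤ Q.key y) :
    Q.rel y ≤ Q.rel a ∧ Q.z y ≤ Q.z a := by
  unfold Ef at hx hy
  exact ord' hx hy h

/-- (F1) for a round released between `x` and an element `a` of its window -/
theorem early (hx : x ∈ Q.F) (hy : y ∈ Q.F) (ha : a ∈ Q.Ef x) (h1 : Q.rel x ≤ Q.rel y)
    (h2 : Q.rel y ≤ Q.rel a) (h3 : Q.z y < Q.key a) (h4 : Q.key a ≤ Q.key y) :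
    Q.s y < Q.rel x ∧ Q.z y ≤ Q.z a ∧ Q.z y + 2 ^ Q.Dx x ≤ Q.key y := by
  have haF := Ef_F ha
  have hal := (Ef_alive hx ha).1
  have h5 : Q.z y ≤ Q.z a := z_ge haF (by omega) h2 h3
  have h6 : Q.z a + 2 ^ Q.Dx x ≤ Q.key a := by
    have ha' := ha
    unfold Ef at ha'
    exact (mem_En.1 ha').2.1
  have h7 : Q.rel a < Q.rel x + Q.u (Q.Dx x) := by
    have h8 := mem_Ef hx
    unfold Ef at ha h8
    exact rel_lt_add h8 ha
  have hu := u_le (Q := Q) (D := Q.Dx x)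
  exact ⟨s_lt hy (D := Q.Dx x) (by omega) (by omega), h5, by omega⟩

theorem ya_pow (g : ℕ) : 2 ^ (g + g0 + 1) = 2 ^ 41 * 2 ^ g ∧ 2 ^ (g + g0) = 2 ^ 40 * 2 ^ g ∧
    2 ^ (g + g0 + 2) = 2 ^ 42 * 2 ^ g ∧ 2 ^ (g + g0 + 3) = 2 ^ 43 * 2 ^ g ∧
      2 ^ (g + 1) = 2 * 2 ^ g ∧ 2 ^ (g - 1) ≤ 2 ^ g ∧ 0 < 2 ^ g := by
  refine ⟨?_, ?_, ?_, ?_, by ring, Nat.pow_le_pow_right (by norm_num) (by omega), by positivity⟩
  · rw [show g + g0 + 1 = 41 + g by simp [g0]; omega, pow_add]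
  · rw [show g + g0 = 40 + g by simp [g0]; omega, pow_add]
  · rw [show g + g0 + 2 = 42 + g by simp [g0]; omega, pow_add]
  · rw [show g + g0 + 3 = 43 + g by simp [g0]; omega, pow_add]

/-- (A') -/
theorem stA' (hx : x ∈ Q.Mg g) (hy : y ∈ Q.Mg g) (hm : Q.mc g x = Q.mc g y)
    (h : Q.rel x < Q.rel y) : Q.rel (Q.ef x) < Q.rel y := by
  by_contra hc
  push Not at hc
  obtain ⟨hp1, hp2, hp3, hp4, hp5, hp6, hp0⟩ := ya_pow g
  have hxF := Ng_F (Mg_Ng hx)
  have hyF := Ng_F (Mg_Ng hy)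
  have mx := mc_spec (Mg_Ng hx)
  have my := mc_spec (Mg_Ng hy)
  have hfar := far hy (mem_Ef hyF)
  obtain ⟨he, hex, heF⟩ := Ng_ef (Mg_Ng hx)
  obtain ⟨e1, e2, e3⟩ := early hxF hyF he h.le hc (by omega) (by omega)
  have hsx := Q.sr x hxF
  have hqy := Q.qz y hyF
  have hzy : Q.X (Q.rel y) = Q.z y := rfl
  rcases lt_trichotomy (Q.key x) (Q.key y) with hxy | hxy | hxy
  · have := l1 hxF hyF hxy (by omega) e1 (by omega)
    omega
  · have := uni hxF hyF hxy (by omega) e1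
    rw [this] at h
    exact lt_irrefl _ h
  · have hfx := far hx (mem_Ef hxF)
    have h1 : Q.z x < Q.q y := q_gt hyF e1 h (by unfold z at *; omega)
    have hEx := mem_Ef hxF
    have hw : y ∈ Q.Ef x := by
      unfold Ef at he hEx ⊢
      exact betw hEx he hyF h.le hc (by omega) e2 e3
    have := (ef_max hw hxy).1
    omega

/-- (A) -/
theorem stA (hx : x ∈ Q.Mg g) (hy : y ∈ Q.Mg g) (hm : Q.mc g x = Q.mc g y)
    (h : Q.rel x < Q.rel y) : Q.rel x ≤ Q.s y := by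
  by_contra hc
  push Not at hc
  obtain ⟨hp1, hp2, hp3, hp4, hp5, hp6, hp0⟩ := ya_pow g
  have hxF := Ng_F (Mg_Ng hx)
  have hyF := Ng_F (Mg_Ng hy)
  have mx := mc_spec (Mg_Ng hx)
  have my := mc_spec (Mg_Ng hy)
  have hfar := far hy (mem_Ef hyF)
  obtain ⟨he, hex, heF⟩ := Ng_ef (Mg_Ng hx)
  have hsx := Q.sr x hxF
  have hqy := Q.qz y hyF
  have hzy : Q.X (Q.rel y) = Q.z y := rfl
  rcases lt_trichotomy (Q.key x) (Q.key y) with hxy | hxy | hxy
  · have := l1 hxF hyF hxy (by omega) hc (by omega)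
    omega
  · have := uni hxF hyF hxy (by omega) hc
    rw [this] at h
    exact lt_irrefl _ h
  · have h1 := stA' hx hy hm h
    have h2 := (Ef_alive hxF he).1
    have h3 := Ef_ord he (mem_Ef hxF) hex.le
    have := l1 heF hyF (by omega) (by omega) (by omega) (by omega)
    omega

/-- the times of the stages are different -/
theorem teq (hx : x ∈ Q.Mg g) (hy : y ∈ Q.Mg g) (hm : Q.mc g x = Q.mc g y)
    (h : Q.rel x = Q.rel y) : x = y := by
  wlog hxy : Q.key x ≤ Q.key y generalizing x y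
  · exact (this hy hx hm.symm h.symm (by omega)).symm
  have hxF := Ng_F (Mg_Ng hx)
  have hyF := Ng_F (Mg_Ng hy)
  rcases Nat.eq_or_lt_of_le hxy with h0 | h0
  · exact Q.inj x hxF y hyF h0 h
  have mx := mc_spec (Mg_Ng hx)
  have my := mc_spec (Mg_Ng hy)
  have hz : Q.z x = Q.z y := by
    unfold z
    rw [h]
  have dx := Dx_spec hxF
  have dy := Dx_spec hyF
  have hle : Q.Dx x ≤ Q.Dx y := by
    unfold Dx
    apply Nat.log_mono_right
    omega
  rcases Nat.eq_or_lt_of_le hle with hD | hD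
  · have hyE : y ∈ Q.Ef x := by
      unfold Ef
      rw [mem_En]
      refine ⟨hyF, ?_, ?_⟩
      · rw [hD]
        exact dy.1
      · unfold ky
        rw [hz, h]
    have hxE : x ∈ Q.Ef y := by
      rw [Ef_eq hyE hD.symm]
      exact mem_Ef hxF
    exact cell_uniq (Mg_Ng hx) (Mg_Ng hy) hyE hxE hm
  · exfalso
    obtain ⟨he, hey, heF⟩ := Ng_ef (Mg_Ng hy)
    have h1 := Ef_ord he (mem_Ef hyF) hey.le
    have h2 : Q.z (Q.ef y) + 2 ^ Q.Dx y ≤ Q.key (Q.ef y) := by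
      unfold Ef at he
      exact (mem_En.1 he).2.1
    have h3 : 2 ^ (Q.Dx x + 1) ≤ 2 ^ Q.Dx y := Nat.pow_le_pow_right (by norm_num) hD
    omega

/-- stages are far apart in time -/
theorem stgap (hx : x ∈ Q.Mg g) (hy : y ∈ Q.Mg g) (hm : Q.mc g x = Q.mc g y)
    (h : Q.rel x < Q.rel y) : Q.rel x + 2 ^ g < Q.rel y := by
  obtain ⟨hp1, hp2, hp3, hp4, hp5, hp6, hp0⟩ := ya_pow g
  have h1 := stA hx hy hm h
  have hyF := Ng_F (Mg_Ng hy)
  have h2 := far hy (mem_Ef hyF)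
  have h3 := Q.ok y hyF
  have hzy : Q.X (Q.rel y) = Q.z y := rfl
  omega
-- END ya

-- MODULE yb
/-- (B) for any element `a` of the window of `x` near the cell and below `ef y` -/
theorem stB (hx : x ∈ Q.Mg g) (hy : y ∈ Q.Mg g) (hm : Q.mc g x = Q.mc g y)
    (h : Q.rel x < Q.rel y) (ha : a ∈ Q.Ef x) (h1 : Q.key a ≤ Q.key (Q.ef y))
    (h2 : Q.mc g x ≤ Q.key a + 2 ^ (g - 1) + 2 ^ (g + g0)) : Q.rel a ≤ Q.s (Q.ef y) := by
  obtain ⟨hp1, hp2, hp3, hp4, hp5, hp6, hp0⟩ := ya_pow g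
  have hxF := Ng_F (Mg_Ng hx)
  have hyF := Ng_F (Mg_Ng hy)
  have haF := Ef_F ha
  obtain ⟨he, hey, heF⟩ := Ng_ef (Mg_Ng hy)
  have my := mc_spec (Mg_Ng hy)
  have hst := stA hx hy hm h
  have hord := Ef_ord he (mem_Ef hyF) hey.le
  have hfar := far hy he
  have hfary := far hy (mem_Ef hyF)
  have hsa := (Ef_alive hxF ha).1
  have hqz := Q.qz _ heF
  have hzz : Q.X (Q.rel (Q.ef y)) = Q.z (Q.ef y) := rfl
  -- `y` is released after `a`
  have key : Q.rel a < Q.rel y := by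
    by_contra hc
    push Not at hc
    have := (early hxF hyF ha h.le hc (by omega) (by omega)).1
    omega
  have hsra := Q.sr a haF
  by_contra hcon
  push Not at hcon
  rcases Nat.eq_or_lt_of_le h1 with h0 | h0
  · have := uni haF heF h0 (by omega) (by omega)
    rw [this] at key
    omega
  · have := l1 haF heF h0 (by omega) (by omega) (by omega)
    omega
-- END yb

-- MODULE yi
theorem pd_mono (g m : ℕ) {t t' : ℕ} (h : t ≤ t') : Q.pd g m t ≤ Q.pd g m t' := by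
  unfold pd
  apply Finset.sup_mono
  intro a ha
  rw [Finset.mem_filter, Finset.mem_range] at ha ⊢
  have := Nat.div_le_div_right (c := 2 ^ g) h
  exact ⟨by omega, ha.2⟩

theorem pd_le (g m t : ℕ) : Q.pd g m t ≤ t / 2 ^ g := by
  unfold pd
  apply Finset.sup_le
  intro a ha
  rw [Finset.mem_filter, Finset.mem_range] at ha
  omega

/-- between two moments of one idle period the neighbourhood of the cell is not requested -/
theorem pd_idle (he : Q.pd g m t = Q.pd g m p) (hb : ¬ Q.Bz g m (p / 2 ^ g)) {u : ℕ}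
    (h1 : t ≤ u) (h2 : u ≤ p) (hu : u < tm) :
    Q.X u + 2 ^ (g + g0 + 2) < m ∨ m + 2 ^ (g + g0 + 3) < Q.X u := by
  by_contra hc
  push Not at hc
  have hB : Q.Bz g m (u / 2 ^ g) := ⟨u, hu, rfl, hc.1, hc.2⟩
  have h3 : u / 2 ^ g ≤ p / 2 ^ g := Nat.div_le_div_right h2
  have h4 : t / 2 ^ g ≤ u / 2 ^ g := Nat.div_le_div_right h1
  rcases Nat.eq_or_lt_of_le h3 with h5 | h5
  · rw [h5] at hB
    exact hb hB
  · have h6 : u / 2 ^ g + 1 ≤ Q.pd g m p := by
      unfold pd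
      exact Finset.le_sup (f := fun a => a + 1)
        (Finset.mem_filter.2 ⟨Finset.mem_range.2 h5, hB⟩)
    have h7 := pd_le (Q := Q) g m t
    omega

theorem mem_St : x ∈ Q.St g m p ↔ x ∈ Q.Mg g ∧ (¬ Q.LI g x ∧ ¬ Q.RI g x ∧
    ¬ Q.Bz g (Q.mc g x) (Q.rel x / 2 ^ g)) ∧ Q.mc g x = m ∧ Q.pd g m (Q.rel x) = p := by
  unfold St Rm
  rw [Finset.mem_filter, Finset.mem_filter]
  tauto

/-- idle times between two stages -/
theorem St_idle (hx : x ∈ Q.St g m p) (hy : y ∈ Q.St g m p) {u : ℕ} (h1 : Q.rel x ≤ u)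
    (h2 : u ≤ Q.rel y) : Q.X u + 2 ^ (g + g0 + 2) < m ∨ m + 2 ^ (g + g0 + 3) < Q.X u := by
  rw [mem_St] at hx hy
  have hyF := Ng_F (Mg_Ng hy.1)
  have h3 := Q.rm y hyF
  refine pd_idle (t := Q.rel x) (p := Q.rel y) (by rw [hx.2.2.2, hy.2.2.2]) ?_ h1 h2 (by omega)
  have := hy.2.1.2.2
  rwa [hy.2.2.1] at this

theorem St_pd (hx : x ∈ Q.St g m p) (hy : y ∈ Q.St g m p) {u : ℕ} (h1 : Q.rel x ≤ u)
    (h2 : u ≤ Q.rel y) : Q.pd g m u = p := by
  rw [mem_St] at hx hy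
  have h3 := pd_mono (Q := Q) g m h1
  have h4 := pd_mono (Q := Q) g m h2
  omega

/-- two stages of an idle period have different keys -/
theorem St_key (hx : x ∈ Q.St g m p) (hy : y ∈ Q.St g m p) (h : Q.key x = Q.key y) : x = y := by
  wlog hxy : Q.rel x ≤ Q.rel y generalizing x y
  · exact (this hy hx h.symm (by omega)).symm
  obtain ⟨hp1, hp2, hp3, hp4, hp5, hp6, hp0⟩ := ya_pow g
  have hx' := mem_St.1 hx
  have hy' := mem_St.1 hy
  have hxF := Ng_F (Mg_Ng hx'.1)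
  have hyF := Ng_F (Mg_Ng hy'.1)
  rcases Nat.eq_or_lt_of_le hxy with h0 | h0
  · exact Q.inj x hxF y hyF h h0
  exfalso
  obtain ⟨u, h1, h2, h3, h4⟩ := Q.two x hxF y hyF h h0
  have h5 := Q.sr y hyF
  have mx := mc_spec (Mg_Ng hx'.1)
  rw [hx'.2.2.1] at mx
  have hk : 2 ^ (k + 1) ≤ 2 ^ g := Nat.pow_le_pow_right (by norm_num) (by
    have := Ng_k (Mg_Ng hx'.1)
    omega)
  rcases St_idle hx hy h1 (by omega) with h6 | h6 <;> omega

/-- the predecessors of two stages of an idle period have different keys -/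
theorem St_ef (hx : x ∈ Q.St g m p) (hy : y ∈ Q.St g m p)
    (h : Q.key (Q.ef x) = Q.key (Q.ef y)) : x = y := by
  wlog hxy : Q.rel x ≤ Q.rel y generalizing x y
  · exact (this hy hx h.symm (by omega)).symm
  obtain ⟨hp1, hp2, hp3, hp4, hp5, hp6, hp0⟩ := ya_pow g
  have hx' := mem_St.1 hx
  have hy' := mem_St.1 hy
  have hm : Q.mc g x = Q.mc g y := by rw [hx'.2.2.1, hy'.2.2.1]
  rcases Nat.eq_or_lt_of_le hxy with h0 | h0
  · exact teq hx'.1 hy'.1 hm h0
  exfalso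
  have hxF := Ng_F (Mg_Ng hx'.1)
  have hyF := Ng_F (Mg_Ng hy'.1)
  obtain ⟨hex, hlx, hexF⟩ := Ng_ef (Mg_Ng hx'.1)
  obtain ⟨hey, hly, heyF⟩ := Ng_ef (Mg_Ng hy'.1)
  have h1 := stA' hx'.1 hy'.1 hm h0
  have h2 := Ef_ord hey (mem_Ef hyF) hly.le
  have h3 := Ef_ord hex (mem_Ef hxF) hlx.le
  have h4 := (Ef_alive hyF hey).1
  obtain ⟨u, h5, h6, h7, h8⟩ := Q.two _ hexF _ heyF h (by omega)
  have mx := mc_spec (Mg_Ng hx'.1)
  rw [hx'.2.2.1] at mx
  have hk : 2 ^ (k + 1) ≤ 2 ^ g := Nat.pow_le_pow_right (by norm_num) (by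
    have := Ng_k (Mg_Ng hx'.1)
    omega)
  rcases St_idle hx hy (u := u) (by omega) (by omega) with h9 | h9 <;> omega
-- END yi

-- MODULE yc
/-- (C) dormant stages -/
theorem dormant (hx : x ∈ Q.St g m p) :
    ((Q.St g m p).filter (fun y => Q.rel x < Q.rel y ∧ Q.B (Q.ef y) ≤ Q.rel x)).card ≤
      4 * (g + g0 + 2) + 20 := by
  obtain ⟨hp1, hp2, hp3, hp4, hp5, hp6, hp0⟩ := ya_pow g
  have hx' := mem_St.1 hx
  have hxF := Ng_F (Mg_Ng hx'.1)
  have hmx := mc_spec (Mg_Ng hx'.1)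
  have hL' : ∃ a ∈ Q.Ef x, Q.key a + 2 ^ (g - 1) < Q.mc g x ∧
      Q.mc g x ≤ Q.key a + 2 ^ (g - 1) + 2 ^ (g + g0) := by
    by_contra hcon
    apply hx'.2.1.1
    intro a ha h1
    by_contra h2
    exact hcon ⟨a, ha, h1, by omega⟩
  obtain ⟨a, haE, ha1, ha2⟩ := hL'
  have haF : a ∈ Q.F := Ef_F haE
  have hmm := hx'.2.2.1
  rw [hmm] at ha1 ha2 hmx
  have hax := Ef_ord haE (mem_Ef hxF) (by omega)
  set S := (Q.St g m p).filter (fun y => Q.rel x < Q.rel y ∧ Q.B (Q.ef y) ≤ Q.rel x) with hS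
  have hSm : ∀ y ∈ S, y ∈ Q.St g m p ∧ Q.rel x < Q.rel y ∧ Q.B (Q.ef y) ≤ Q.rel x := by
    intro y hy
    rw [hS, Finset.mem_filter] at hy
    exact hy
  have hinj : Set.InjOn Q.ef (S : Set ι) := by
    intro y hy y' hy' he
    exact St_ef (hSm y hy).1 (hSm y' hy').1 (by rw [he])
  have hd := Q.dorm a haF m (S.image Q.ef) (by
      intro j hj
      obtain ⟨y, hy, rfl⟩ := Finset.mem_image.1 hj
      exact (Ng_ef (Mg_Ng (mem_St.1 (hSm y hy).1).1)).2.2) (by
      intro j hj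
      obtain ⟨y, hy, rfl⟩ := Finset.mem_image.1 hj
      obtain ⟨hyS, hr, hb⟩ := hSm y hy
      have hy' := mem_St.1 hyS
      have hyF := Ng_F (Mg_Ng hy'.1)
      obtain ⟨he1, he2, heF⟩ := Ng_ef (Mg_Ng hy'.1)
      have hmy := mc_spec (Mg_Ng hy'.1)
      rw [hy'.2.2.1] at hmy
      have hfar := far hy'.1 he1
      have hqz := Q.qz _ heF
      have hzz : Q.z (Q.ef y) = Q.X (Q.rel (Q.ef y)) := rfl
      have hal := (Ef_alive hyF he1).1
      have hsB := stB hx'.1 hy'.1 (by rw [hmm, hy'.2.2.1]) hr haE (by omega) (by rw [hmm]; omega)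
      refine ⟨by omega, by omega, by omega, hsB, by omega, ?_⟩
      intro u hu1 hu2
      rcases St_idle hx hyS (u := u) (by omega) (by omega) with h6 | h6 <;> omega) (by
      intro i hi j hj hij
      obtain ⟨y, hy, rfl⟩ := Finset.mem_image.1 hi
      obtain ⟨y', hy', rfl⟩ := Finset.mem_image.1 hj
      rw [St_ef (hSm y hy).1 (hSm y' hy').1 hij])
  rw [Finset.card_image_of_injOn hinj] at hd
  have hlog : Nat.log 2 (m - Q.key a) ≤ g + g0 + 2 := by
    have h1 : m - Q.key a ≤ 2 ^ (g + g0 + 2) := by omega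
    have h2 := Nat.log_mono_right (b := 2) h1
    rwa [Nat.log_pow (by norm_num)] at h2
  omega
-- END yc

-- MODULE yd
/-- (D) sweep -/
theorem sweep {x0 : ι} (hx0 : x0 ∈ Q.St g m p) (hx : x ∈ Q.St g m p) (hy : y ∈ Q.St g m p)
    (h0 : Q.rel x0 < Q.B (Q.ef x)) (h : Q.rel x < Q.rel y) (h1 : Q.rel x < Q.B (Q.ef y)) :
    ∃ τ, Q.B (Q.ef x) ≤ τ + 1 ∧ τ < Q.rel x ∧ (τ, Q.key y) ∈ Q.RT := by
  obtain ⟨hp1, hp2, hp3, hp4, hp5, hp6, hp0⟩ := ya_pow g
  have hx' := mem_St.1 hx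
  have hy' := mem_St.1 hy
  have hxF := Ng_F (Mg_Ng hx'.1)
  have hyF := Ng_F (Mg_Ng hy'.1)
  have hmx := mc_spec (Mg_Ng hx'.1)
  have hmy := mc_spec (Mg_Ng hy'.1)
  have hm : Q.mc g x = Q.mc g y := by rw [hx'.2.2.1, hy'.2.2.1]
  rw [hx'.2.2.1] at hmx
  rw [hy'.2.2.1] at hmy
  obtain ⟨hex, hlx, hexF⟩ := Ng_ef (Mg_Ng hx'.1)
  obtain ⟨hey, hly, heyF⟩ := Ng_ef (Mg_Ng hy'.1)
  have hsy := Q.sr y hyF
  have hsx := Q.sr x hxF
  -- idle: between `x0` and `y`
  have hid : ∀ u, Q.rel x0 ≤ u → u ≤ Q.rel y →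
      Q.X u + 2 ^ (g + g0 + 2) < m ∨ m + 2 ^ (g + g0 + 3) < Q.X u :=
    fun u h1 h2 => St_idle hx0 hy h1 h2
  have hIdl : ∀ b b' u u' : ℕ, Q.rel x0 ≤ u → u' ≤ Q.rel y → m ≤ b + 2 ^ (g + g0 + 2) →
      b' ≤ m + 2 ^ (g + g0 + 3) → Idl Q.X b b' u u' := by
    intro b b' u u' e1 e2 e3 e4 w hw1 hw2
    rcases hid w (by omega) (by omega) with h6 | h6
    · left; omega
    · right; omega
  have hx0B : Q.rel x0 ≤ Q.B (Q.ef x) - 1 := by omega
  have hBe := Q.bs _ hexF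
  have hse := (Ef_alive hxF hex).1
  have hx0x : Q.rel x0 ≤ Q.rel x := by omega
  -- Step 1
  have hBy : Q.B (Q.ef y) ≤ Q.B y := by
    have hal := Ef_alive hyF hey
    have hE := mem_Ef hyF
    have hl : Q.q y < Q.key (Q.ef y) := by
      unfold Ef at hey hE
      exact lnk hey hE
    exact Q.l3 _ heyF _ hyF hly hal.1 hal.2 hl (by omega)
      (hIdl _ _ _ _ (by omega) (by omega) (by omega) (by omega))
  -- the neighbours
  have hR' : ∃ a ∈ Q.Ef x, m + 2 ^ (g + 1) ≤ Q.key a ∧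
      Q.key a < m + 2 ^ (g + 1) + 2 ^ (g + g0) := by
    by_contra hcon
    apply hx'.2.1.2.1
    intro a ha h3
    rw [hx'.2.2.1] at h3 ⊢
    by_contra h4
    exact hcon ⟨a, ha, h3, by omega⟩
  obtain ⟨a, haE, ha1, ha2⟩ := hR'
  obtain ⟨r, hr, hrmax⟩ := Finset.exists_max_image
    ((Q.Ef x).filter (fun a => Q.key a ≤ Q.key y)) Q.key
    ⟨Q.ef x, Finset.mem_filter.2 ⟨hex, by omega⟩⟩
  obtain ⟨r', hr', hrmin⟩ := Finset.exists_min_image
    ((Q.Ef x).filter (fun a => Q.key y < Q.key a)) Q.key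
    ⟨a, Finset.mem_filter.2 ⟨haE, by omega⟩⟩
  rw [Finset.mem_filter] at hr hr'
  have hre : Q.key (Q.ef x) ≤ Q.key r := hrmax _ (Finset.mem_filter.2 ⟨hex, by omega⟩)
  have hra : Q.key r' ≤ Q.key a := hrmin a (Finset.mem_filter.2 ⟨haE, by omega⟩)
  have hrF := Ef_F hr.1
  have hr'F := Ef_F hr'.1
  have hsr := (Ef_alive hxF hr.1).1
  have hsr' := (Ef_alive hxF hr'.1).1
  have hbr := Q.bs r hrF
  have hBr : Q.B (Q.ef x) ≤ Q.B r := by
    rcases Nat.eq_or_lt_of_le hre with h3 | h3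
    · rw [(show Q.ef x = r by
        have e1 := hr.1
        have e2 := hex
        unfold Ef at e1 e2
        exact En_uni e2 e1 h3)]
    · have e1 := hr.1
      have e2 := hex
      unfold Ef at e1 e2
      exact Q.l3 _ hexF _ hrF h3 (alive e2 e1) (alive e1 e2) (lnk e2 e1) (by omega)
        (hIdl _ _ _ _ (by omega) (by omega) (by omega) (by omega))
  have hby := Q.bs y hyF
  rcases Nat.eq_or_lt_of_le hr.2 with hk | hk
  · -- the key of `y` is the key of `r`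
    refine ⟨Q.B r - 1, by omega, by omega, ?_⟩
    rcases Q.bt r hrF (by omega) with h3 | h3
    · rwa [hk] at h3
    · exfalso
      rcases hid (Q.B r - 1) (by omega) (by omega) with h6 | h6 <;> omega
  · have hty : (Q.B y - 1, Q.key y) ∈ Q.RT := by
      rcases Q.bt y hyF (by omega) with h3 | h3
      · exact h3
      · exfalso
        rcases hid (Q.B y - 1) (by omega) (by omega) with h6 | h6 <;> omega
    have e1 := hr.1
    have e2 := hr'.1
    unfold Ef at e1 e2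
    obtain ⟨u, u1, u2, u3⟩ := Q.sw r hrF r' hr'F (by omega) (alive e1 e2) (alive e2 e1)
      (lnk e1 e2) (by omega) (Q.key y) (Q.B y - 1) hk hr'.2 hty (by omega)
      (hIdl _ _ _ _ (by omega) (by omega) (by omega) (by omega))
    exact ⟨u, by omega, by omega, u3⟩
-- END yd

end FG

-- MODULE ye
/-- Counting the pairs. -/
theorem sweep_pairs {ι : Type} (T : Finset (ℕ × ℕ)) (tm bb key : ι → ℕ) (F : Finset ι)
    (hinj : ∀ i ∈ F, ∀ j ∈ F, tm i = tm j → i = j)
    (hkey : ∀ i ∈ F, ∀ j ∈ F, key i = key j → i = j)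
    (hF : ∀ i ∈ F, ∀ j ∈ F, tm i < tm j → tm i < bb j)
    (hsw : ∀ i0 ∈ F, ∀ i ∈ F, ∀ j ∈ F, tm i0 < tm i → tm i < tm j →
      ∃ u, bb i ≤ u + 1 ∧ u < tm i ∧ (u, key j) ∈ T) :
    (F.card - 1) * (F.card - 2) ≤ 2 * T.card := by
  rcases F.eq_empty_or_nonempty with h0 | hne
  · rw [h0]
    simp
  obtain ⟨i0, hi0, hmin⟩ := Finset.exists_min_image F tm hne
  set F1 := F.erase i0 with hF1
  have hc : F1.card = F.card - 1 := Finset.card_erase_of_mem hi0
  set P := (F1 ×ˢ F1).filter (fun q => tm q.1 < tm q.2) with hP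
  have h1 : F1.offDiag ⊆ P ∪ P.image Prod.swap := by
    intro q hq
    obtain ⟨hq1, hq2, hq3⟩ := Finset.mem_offDiag.1 hq
    have h2 : tm q.1 ≠ tm q.2 := fun h => hq3
      (hinj _ (Finset.mem_of_mem_erase hq1) _ (Finset.mem_of_mem_erase hq2) h)
    rcases lt_or_gt_of_ne h2 with h3 | h3
    · exact Finset.mem_union_left _ (Finset.mem_filter.2 ⟨Finset.mem_product.2 ⟨hq1, hq2⟩, h3⟩)
    · refine Finset.mem_union_right _ (Finset.mem_image.2 ⟨(q.2, q.1), ?_, rfl⟩)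
      exact Finset.mem_filter.2 ⟨Finset.mem_product.2 ⟨hq2, hq1⟩, h3⟩
  have h2 : (F.card - 1) * (F.card - 2) ≤ 2 * P.card := by
    have h3 := (Finset.card_le_card h1).trans (Finset.card_union_le _ _)
    have h4 : (P.image Prod.swap).card ≤ P.card := Finset.card_image_le
    rw [Finset.offDiag_card, hc] at h3
    have h5 : (F.card - 1) * (F.card - 2) =
        (F.card - 1) * (F.card - 1) - (F.card - 1) := by
      rcases Nat.lt_or_ge F.card 2 with h6 | h6
      · interval_cases F.card <;> rfl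
      · obtain ⟨c, hc'⟩ : ∃ c, F.card = c + 2 := ⟨F.card - 2, by omega⟩
        rw [hc']
        show (c + 1) * c = (c + 1) * (c + 1) - (c + 1)
        rw [Nat.mul_succ]
        omega
    omega
  -- the injection
  have h3 : ∀ q ∈ P, ∃ u, bb q.1 ≤ u + 1 ∧ u < tm q.1 ∧ (u, key q.2) ∈ T := by
    intro q hq
    obtain ⟨hq1, hq2⟩ := Finset.mem_filter.1 hq
    obtain ⟨hq3, hq4⟩ := Finset.mem_product.1 hq1
    have e1 := Finset.mem_of_mem_erase hq3
    have e2 := Finset.mem_of_mem_erase hq4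
    have h4 : tm i0 < tm q.1 := by
      have h5 := hmin q.1 e1
      have h6 : tm i0 ≠ tm q.1 := fun h => Finset.ne_of_mem_erase hq3 (hinj _ hi0 _ e1 h).symm
      omega
    exact hsw i0 hi0 q.1 e1 q.2 e2 h4 hq2
  choose! U hU1 hU2 hU3 using h3
  have h4 : P.card ≤ T.card := by
    apply Finset.card_le_card_of_injOn (fun q => (U q, key q.2))
    · intro q hq
      exact hU3 q hq
    · intro q hq q' hq' heq
      have hq0 := Finset.mem_coe.1 hq
      have hq0' := Finset.mem_coe.1 hq'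
      simp only [Prod.mk.injEq] at heq
      obtain ⟨heq1, heq2⟩ := heq
      obtain ⟨hq1, hq2⟩ := Finset.mem_filter.1 hq0
      obtain ⟨hq3, hq4⟩ := Finset.mem_product.1 hq1
      obtain ⟨hq1', hq2'⟩ := Finset.mem_filter.1 hq0'
      obtain ⟨hq3', hq4'⟩ := Finset.mem_product.1 hq1'
      have e1 := Finset.mem_of_mem_erase hq3
      have e2 := Finset.mem_of_mem_erase hq4
      have e1' := Finset.mem_of_mem_erase hq3'
      have e2' := Finset.mem_of_mem_erase hq4'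
      have h5 := hkey _ e2 _ e2' heq2
      have g1 := hU1 q hq0
      have g2 := hU2 q hq0
      have g1' := hU1 q' hq0'
      have g2' := hU2 q' hq0'
      have h6 : q.1 = q'.1 := by
        apply hinj _ e1 _ e1'
        rcases lt_trichotomy (tm q.1) (tm q'.1) with h7 | h7 | h7
        · have := hF _ e1 _ e1' h7
          omega
        · exact h7
        · have := hF _ e1' _ e1 h7
          omega
      exact Prod.ext h6 h5
  omega

/-- an independent set -/
theorem indep {ι : Type} (V : Finset ι) (r : ι → ℕ) (bad : ι → ι → Prop) (d : ℕ)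
    (hd : ∀ x ∈ V, (V.filter (fun y => r x < r y ∧ bad x y)).card ≤ d) :
    ∃ U ⊆ V, V.card ≤ (d + 1) * U.card ∧ ∀ x ∈ U, ∀ y ∈ U, r x < r y → ¬ bad x y := by
  induction hn : V.card using Nat.strong_induction_on generalizing V with
  | _ n ih =>
    rcases V.eq_empty_or_nonempty with h0 | hne
    · refine ⟨∅, Finset.empty_subset _, ?_, by simp⟩
      rw [← hn, h0]
      simp
    · obtain ⟨i, hi, hmin⟩ := Finset.exists_min_image V r hne
      set V1 := (V.erase i).filter (fun j => ¬ (r i < r j ∧ bad i j)) with hV1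
      have h1 : V1 ⊆ V := fun x hx => Finset.mem_of_mem_erase (Finset.mem_filter.1 hx).1
      have h2 : V1.card < n := by
        rw [← hn]
        apply Finset.card_lt_card
        rw [Finset.ssubset_iff_of_subset h1]
        exact ⟨i, hi, by simp [hV1]⟩
      obtain ⟨F, h3, h4, h5⟩ := ih V1.card h2 V1
        (fun x hx => (Finset.card_le_card (Finset.filter_subset_filter _ h1)).trans
          (hd x (h1 hx))) rfl
      have hiF : i ∉ F := fun hx => by
        have := h3 hx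
        simp [hV1] at this
      refine ⟨insert i F, ?_, ?_, ?_⟩
      · intro x hx
        rcases Finset.mem_insert.1 hx with h6 | h6
        · rw [h6]; exact hi
        · exact h1 (h3 h6)
      · rw [Finset.card_insert_of_notMem hiF]
        have h6 : V ⊆ insert i (V1 ∪ V.filter (fun j => r i < r j ∧ bad i j)) := by
          intro x hx
          by_cases hxi : x = i
          · rw [hxi]; exact Finset.mem_insert_self _ _
          · apply Finset.mem_insert_of_mem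
            by_cases hb : r i < r x ∧ bad i x
            · exact Finset.mem_union_right _ (Finset.mem_filter.2 ⟨hx, hb⟩)
            · exact Finset.mem_union_left _ (Finset.mem_filter.2
                ⟨Finset.mem_erase.2 ⟨hxi, hx⟩, hb⟩)
        have h7 := (Finset.card_le_card h6).trans (Finset.card_insert_le _ _)
        have h8 := Finset.card_union_le V1 (V.filter (fun j => r i < r j ∧ bad i j))
        have h9 := hd i hi
        rw [hn] at h7
        nlinarith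
      · intro x hx y hy hxy
        rcases Finset.mem_insert.1 hx with h6 | h6
        · rcases Finset.mem_insert.1 hy with h7 | h7
          · rw [h6, h7] at hxy
            omega
          · rw [h6] at hxy ⊢
            have := (Finset.mem_filter.1 (h3 h7)).2
            exact fun hb => this ⟨hxy, hb⟩
        · rcases Finset.mem_insert.1 hy with h7 | h7
          · rw [h7] at hxy
            have := hmin x (h1 (h3 h6))
            omega
          · exact h5 x h6 y h7 hxy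

/-- pairs of an independent set and touches -/
theorem pairs {ι : Type} (U : Finset ι) (r B key : ι → ℕ) (T : Finset (ℕ × ℕ)) (L : ℕ)
    (hL : 1 ≤ L) (hr : ∀ x ∈ U, ∀ y ∈ U, r x = r y → x = y)
    (hk : ∀ x ∈ U, ∀ y ∈ U, key x = key y → x = y)
    (h1 : ∀ x ∈ U, ∀ y ∈ U, r x < r y → r x < B y)
    (h2 : ∀ x0 ∈ U, ∀ x ∈ U, ∀ y ∈ U, r x0 < r x → r x < r y →
      ∃ τ, B x ≤ τ + 1 ∧ τ < r x ∧ (τ, key y) ∈ T) :
    L * U.card ≤ L ^ 2 + 3 * L + 2 * T.card := by
  have h4 := sweep_pairs T r B key U hr hk h1 h2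
  rcases Nat.lt_or_ge U.card 3 with h6 | h6
  · have := Nat.mul_le_mul_left L h6.le
    nlinarith
  · obtain ⟨c, hc⟩ : ∃ c, U.card = c + 3 := ⟨U.card - 3, by omega⟩
    rw [hc] at h4 ⊢
    have h7 : c + 3 - 1 = c + 2 := by omega
    have h8 : c + 3 - 2 = c + 1 := by omega
    rw [h7, h8] at h4
    have h9 : L * c ≤ L ^ 2 + c ^ 2 := by
      rcases le_total L c with h10 | h10
      · obtain ⟨d, rfl⟩ := Nat.exists_eq_add_of_le h10
        nlinarith
      · obtain ⟨d, rfl⟩ := Nat.exists_eq_add_of_le h10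
        nlinarith
    nlinarith
-- END ye

namespace FG

variable {ι : Type} {k top tm N : ℕ} {Q : FG ι k top tm N} {x y a : ι} {g m p t : ℕ}

-- MODULE yf
/-- (D) one cell and one idle period -/
theorem cell (L : ℕ) (hL : 1 ≤ L) (g m p : ℕ) :
    L * (Q.St g m p).card ≤
      (4 * (g + g0 + 2) + 21) * (L ^ 2 + 3 * L + 2 * (Q.Tc g m p).card) := by
  obtain ⟨U, hU1, hU2, hU3⟩ := indep (Q.St g m p) Q.rel (fun x y => Q.B (Q.ef y) ≤ Q.rel x)
    (4 * (g + g0 + 2) + 20) (fun x hx => by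
      refine le_trans (le_of_eq ?_) (dormant hx)
      congr)
  have hSt : ∀ x ∈ U, x ∈ Q.St g m p := fun x hx => hU1 hx
  have h4 := pairs U Q.rel (fun x => Q.B (Q.ef x)) Q.key (Q.Tc g m p) L hL
    (fun x hx y hy h => by
      have hx' := mem_St.1 (hSt x hx)
      have hy' := mem_St.1 (hSt y hy)
      exact teq hx'.1 hy'.1 (by rw [hx'.2.2.1, hy'.2.2.1]) h)
    (fun x hx y hy h => St_key (hSt x hx) (hSt y hy) h)
    (fun x hx y hy h => not_le.1 (hU3 x hx y hy h))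
    (fun x0 hx0 x hx y hy h0 h => by
      have hB0 := not_le.1 (hU3 x0 hx0 x hx h0)
      obtain ⟨τ, t1, t2, t3⟩ := sweep (hSt x0 hx0) (hSt x hx) (hSt y hy) hB0 h
        (not_le.1 (hU3 x hx y hy h))
      refine ⟨τ, t1, t2, ?_⟩
      have hy' := mem_St.1 (hSt y hy)
      have hmy := mc_spec (Mg_Ng hy'.1)
      rw [hy'.2.2.1] at hmy
      have hp : Q.pd g m τ = p := St_pd (hSt x0 hx0) (hSt x hx) (by omega) t2.le
      unfold Tc
      rw [Finset.mem_filter]
      exact ⟨t3, hmy.2.2.1, hmy.2.2.2, hp⟩)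
  calc L * (Q.St g m p).card ≤ L * ((4 * (g + g0 + 2) + 20 + 1) * U.card) :=
        Nat.mul_le_mul_left _ hU2
    _ = (4 * (g + g0 + 2) + 21) * (L * U.card) := by ring
    _ ≤ _ := Nat.mul_le_mul_left _ h4
-- END yf

end FG

end Pool.Agent.SplGd
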