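import Pool.Agent.SplGd.FCnt
import Pool.Agent.SplGd.FStg

set_option autoImplicit false

/-!
# Grid theorem, section 5: busy windows, idle periods, all cells
-/

namespace Pool.Agent.SplGd

open Pool.Agent.SplPat
open scoped Classical

namespace FG

variable {ι : Type} {k top tm N : ℕ} (Q : FG ι k top tm N) {x y : ι} {g m p a : ℕ}

-- MODULE ga
/-- the possible busy pairs (cell, time window) -/
noncomputable def BP (g : ℕ) : Finset (ℕ × ℕ) :=
  (cells (2 ^ g) tm Q.X ×ˢ Finset.range (2 ^ (g0 + 5))).image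
    (fun q => ((2 * q.1.2 + 2 ^ (g0 + 3) + 1 - q.2) * 2 ^ (g - 1), q.1.1))

theorem BP_card (h : 2 ^ g ≤ tm) : 2 ^ (g / 2) * (Q.BP g).card ≤ 2 ^ (g0 + 5) * N := by
  have h1 : (Q.BP g).card ≤ (cells (2 ^ g) tm Q.X).card * 2 ^ (g0 + 5) := by
    unfold BP
    refine Finset.card_image_le.trans ?_
    rw [Finset.card_product, Finset.card_range]
  have h2 := Q.act g h
  calc 2 ^ (g / 2) * (Q.BP g).card ≤ 2 ^ (g / 2) * ((cells (2 ^ g) tm Q.X).card * 2 ^ (g0 + 5)) :=
        Nat.mul_le_mul_left _ h1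
    _ = 2 ^ (g0 + 5) * (2 ^ (g / 2) * (cells (2 ^ g) tm Q.X).card) := by ring
    _ ≤ _ := Nat.mul_le_mul_left _ h2

theorem mem_BP (hg : 1 ≤ g) (hm : 2 ^ (g - 1) ∣ m) (h : Q.Bz g m a) : (m, a) ∈ Q.BP g := by
  obtain ⟨t, ht, hta, h1, h2⟩ := h
  obtain ⟨j, rfl⟩ := hm
  obtain ⟨P, hP⟩ : ∃ P, P = 2 ^ (g - 1) := ⟨_, rfl⟩
  obtain ⟨W, hW⟩ : ∃ W, W = 2 ^ (g0 + 3) := ⟨_, rfl⟩
  have hP0 : 0 < P := by rw [hP]; positivity
  have hW1 : 1 < W := by
    rw [hW]
    exact Nat.one_lt_two_pow (by omega)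
  have e1 : 2 ^ g = 2 * P := by
    rw [hP, ← pow_succ', show g - 1 + 1 = g by omega]
  have e2 : 2 ^ (g + g0 + 2) = W * P := by
    rw [hP, hW, ← pow_add, show g0 + 3 + (g - 1) = g + g0 + 2 by omega]
  have e3 : 2 ^ (g + g0 + 3) = 2 * W * P := by
    rw [show g + g0 + 3 = g + g0 + 2 + 1 by omega, pow_succ, e2]
    ring
  have e4 : 2 ^ (g0 + 5) = 4 * W := by
    rw [show g0 + 5 = g0 + 3 + 2 by omega, pow_add, ← hW]
    ring
  rw [← hP, e2] at h1
  rw [← hP, e3] at h2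
  obtain ⟨c, hc⟩ : ∃ c, c = Q.X t / 2 ^ g := ⟨_, rfl⟩
  have h3 : 2 * P * c ≤ Q.X t ∧ Q.X t < 2 * P * (c + 1) := by
    rw [hc, e1]
    constructor
    · exact Nat.mul_div_le _ _
    · have h3 := Nat.div_add_mod (Q.X t) (2 * P)
      have h4 := Nat.mod_lt (Q.X t) (show 0 < 2 * P by omega)
      rw [Nat.mul_add, Nat.mul_one]
      omega
  have h4 : j < 2 * c + 2 + W := by
    have : P * j < P * (2 * c + 2 + W) := by
      calc P * j ≤ Q.X t + W * P := h1
        _ < 2 * P * (c + 1) + W * P := Nat.add_lt_add_right h3.2 _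
        _ = _ := by ring
    exact lt_of_mul_lt_mul_left this (Nat.zero_le P)
  have h5 : 2 * c ≤ j + 2 * W := by
    have : P * (2 * c) ≤ P * (j + 2 * W) := by
      calc P * (2 * c) = 2 * P * c := by ring
        _ ≤ Q.X t := h3.1
        _ ≤ P * j + 2 * W * P := h2
        _ = _ := by ring
    exact le_of_mul_le_mul_left this hP0
  unfold BP
  rw [Finset.mem_image]
  refine ⟨((a, c), 2 * c + W + 1 - j), ?_, ?_⟩
  · rw [Finset.mem_product, Finset.mem_range]
    constructor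
    · unfold cells
      rw [Finset.mem_image]
      exact ⟨t, Finset.mem_range.2 ht, by rw [hta, hc]⟩
    · rw [e4]
      show 2 * c + W + 1 - j < 4 * W
      omega
  · rw [← hW, ← hP]
    show ((2 * c + W + 1 - (2 * c + W + 1 - j)) * P, a) = (P * j, a)
    have h9 : 2 * c + W + 1 - (2 * c + W + 1 - j) = j := by omega
    rw [h9, mul_comm]

/-- main rounds released in a busy window -/
theorem cBz (g : ℕ) : 2 ^ (g / 2) * ((Q.Mg g).filter
    (fun x => Q.Bz g (Q.mc g x) (Q.rel x / 2 ^ g))).card ≤ 2 ^ (g0 + 5) * N := by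
  set A := (Q.Mg g).filter (fun x => Q.Bz g (Q.mc g x) (Q.rel x / 2 ^ g)) with hA
  rcases A.eq_empty_or_nonempty with h0 | ⟨x0, hx0⟩
  · rw [h0, Finset.card_empty]
    omega
  have hM : ∀ x ∈ A, x ∈ Q.Mg g := fun x hx => (Finset.mem_filter.1 hx).1
  have hx0N := Mg_Ng (hM x0 hx0)
  have htm : 2 ^ g ≤ tm :=
    le_trans (Nat.pow_le_pow_right (by norm_num) (Ng_Dx hx0N)) (two_Dx_tm (Ng_F hx0N))
  have hg : 1 ≤ g := by
    have := Ng_k hx0N
    omega
  refine le_trans (Nat.mul_le_mul_left _ ?_) (Q.BP_card htm)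
  have hp : 0 < 2 ^ g := by positivity
  apply Finset.card_le_card_of_injOn (fun x => (Q.mc g x, Q.rel x / 2 ^ g))
  · intro x hx
    have h1 := Finset.mem_filter.1 (Finset.mem_coe.1 hx)
    exact Finset.mem_coe.2 (Q.mem_BP hg (mc_dvd g x) h1.2)
  · have key : ∀ x ∈ A, ∀ y ∈ A, Q.mc g x = Q.mc g y → Q.rel x < Q.rel y →
        Q.rel x / 2 ^ g ≠ Q.rel y / 2 ^ g := by
      intro x hx y hy hm h he
      have h1 := stgap (hM x hx) (hM y hy) hm h
      have h2 : (Q.rel x + 2 ^ g) / 2 ^ g ≤ Q.rel y / 2 ^ g := Nat.div_le_div_right h1.le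
      rw [Nat.add_div_right _ hp] at h2
      omega
    intro x hx y hy he
    have hx' := Finset.mem_coe.1 hx
    have hy' := Finset.mem_coe.1 hy
    simp only [Prod.mk.injEq] at he
    rcases lt_trichotomy (Q.rel x) (Q.rel y) with h | h | h
    · exact absurd he.2 (key x hx' y hy' he.1 h)
    · exact teq (hM x hx') (hM y hy') he.1 h
    · exact absurd he.2.symm (key y hy' x hx' he.1.symm h)
-- END ga

-- MODULE gb
/-- the pairs (cell, idle period) -/
noncomputable def PP (g : ℕ) : Finset (ℕ × ℕ) :=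
  (Q.Rm g).image (fun x => (Q.mc g x, Q.pd g (Q.mc g x) (Q.rel x)))

theorem Rm_Mg (hx : x ∈ Q.Rm g) : x ∈ Q.Mg g := by
  unfold Rm at hx
  exact (Finset.mem_filter.1 hx).1

theorem PP_card (g : ℕ) : 2 ^ (g / 2) * (Q.PP g).card ≤ 2 ^ (g0 + 5) * (top + N) := by
  rcases (Q.Rm g).eq_empty_or_nonempty with h0 | ⟨x0, hx0⟩
  · unfold PP
    rw [h0, Finset.image_empty, Finset.card_empty]
    omega
  have hx0N := Mg_Ng (Q.Rm_Mg hx0)
  have htm : 2 ^ g ≤ tm :=
    le_trans (Nat.pow_le_pow_right (by norm_num) (Ng_Dx hx0N)) (two_Dx_tm (Ng_F hx0N))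
  have htop : 2 ^ g ≤ top :=
    le_trans (Nat.pow_le_pow_right (by norm_num) (Ng_Dx hx0N)) (two_Dx_le (Ng_F hx0N))
  have hg : 1 ≤ g := by
    have := Ng_k hx0N
    omega
  obtain ⟨P, hP⟩ : ∃ P, P = 2 ^ (g - 1) := ⟨_, rfl⟩
  have hP0 : 0 < P := by rw [hP]; positivity
  have hPg : 2 ^ g = 2 * P := by
    rw [hP, ← pow_succ']
    congr 1
    omega
  have hsub : Q.PP g ⊆ ((Finset.range (2 * (top / 2 ^ g + 1))).image (fun j => (j * P, 0))) ∪
      (Q.BP g).image (fun q => (q.1, q.2 + 1)) := by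
    intro q hq
    unfold PP at hq
    obtain ⟨x, hx, rfl⟩ := Finset.mem_image.1 hq
    have hxN := Mg_Ng (Q.Rm_Mg hx)
    have hmx := mc_spec hxN
    rw [Finset.mem_union]
    by_cases hz : Q.pd g (Q.mc g x) (Q.rel x) = 0
    · left
      rw [hz, Finset.mem_image]
      refine ⟨Q.key (Q.ef x) / P + 1, ?_, ?_⟩
      · have hxw := Q.xw x (Ng_F hxN)
        have hwt := Q.wt x (Ng_F hxN)
        have hmc : Q.mc g x = (Q.key (Q.ef x) / P + 1) * P := by
          rw [hP]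
          rfl
        have h1 : (Q.key (Q.ef x) / P + 1) * P < top := by omega
        have h2 : top < 2 ^ g * (top / 2 ^ g + 1) := by
          have h3 := Nat.div_add_mod top (2 ^ g)
          have h4 := Nat.mod_lt top (show 0 < 2 ^ g by positivity)
          rw [Nat.mul_add, Nat.mul_one]
          omega
        rw [hPg] at h2
        have h3 : (Q.key (Q.ef x) / P + 1) * P < (2 * (top / (2 * P) + 1)) * P := by
          calc (Q.key (Q.ef x) / P + 1) * P < top := h1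
            _ < 2 * P * (top / (2 * P) + 1) := h2
            _ = _ := by ring
        have h4 := lt_of_mul_lt_mul_right h3 (Nat.zero_le P)
        rw [Finset.mem_range, hPg]
        exact h4
      · rw [hP]
        rfl
    · right
      have hne : ((Finset.range (Q.rel x / 2 ^ g)).filter
          (fun a => Q.Bz g (Q.mc g x) a)).Nonempty := by
        rw [Finset.nonempty_iff_ne_empty]
        intro h0
        apply hz
        unfold pd
        rw [h0]
        rfl
      obtain ⟨a, ha, hb⟩ := Finset.exists_mem_eq_sup _ hne (fun a => a + 1)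
      have hpd : Q.pd g (Q.mc g x) (Q.rel x) = a + 1 := hb
      rw [hpd, Finset.mem_image]
      exact ⟨(Q.mc g x, a), Q.mem_BP hg (mc_dvd g x) (Finset.mem_filter.1 ha).2, rfl⟩
  have h1 : (Q.PP g).card ≤ 2 * (top / 2 ^ g + 1) + (Q.BP g).card := by
    refine (Finset.card_le_card hsub).trans ((Finset.card_union_le _ _).trans ?_)
    refine Nat.add_le_add ?_ Finset.card_image_le
    exact Finset.card_image_le.trans (by rw [Finset.card_range])
  have h2 := Q.BP_card htm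
  have h3 : 2 ^ g * (2 * (top / 2 ^ g + 1)) ≤ 4 * top := by
    have h4 : 2 ^ g * (top / 2 ^ g) ≤ top := Nat.mul_div_le _ _
    calc 2 ^ g * (2 * (top / 2 ^ g + 1)) = 2 * (2 ^ g * (top / 2 ^ g) + 2 ^ g) := by ring
      _ ≤ 2 * (top + top) := by omega
      _ = 4 * top := by ring
  have h5 : 2 ^ (g / 2) ≤ 2 ^ g := Nat.pow_le_pow_right (by norm_num) (Nat.div_le_self _ _)
  calc 2 ^ (g / 2) * (Q.PP g).card ≤ 2 ^ (g / 2) * (2 * (top / 2 ^ g + 1) + (Q.BP g).card) :=
        Nat.mul_le_mul_left _ h1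
    _ = 2 ^ (g / 2) * (2 * (top / 2 ^ g + 1)) + 2 ^ (g / 2) * (Q.BP g).card := by ring
    _ ≤ 2 ^ g * (2 * (top / 2 ^ g + 1)) + 2 ^ (g / 2) * (Q.BP g).card :=
        Nat.add_le_add_right (Nat.mul_le_mul_right _ h5) _
    _ ≤ 4 * top + 2 ^ (g0 + 5) * N := Nat.add_le_add h3 h2
    _ ≤ 2 ^ (g0 + 5) * top + 2 ^ (g0 + 5) * N := by
        have : 4 ≤ 2 ^ (g0 + 5) := by
          calc 4 = 2 ^ 2 := by norm_num
            _ ≤ 2 ^ (g0 + 5) := Nat.pow_le_pow_right (by norm_num) (by omega)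
        exact Nat.add_le_add_right (Nat.mul_le_mul_right _ this) _
    _ = _ := by ring
-- END gb

-- MODULE gc
/-- all cells -/
theorem cellsG (L : ℕ) (hL : 1 ≤ L) (g : ℕ) :
    L * (Q.Rm g).card ≤ 2 ^ 16 * (g + 1) * (L ^ 2 * (Q.PP g).card + Q.RT.card) := by
  rcases (Q.Rm g).eq_empty_or_nonempty with h0 | ⟨x0, hx0⟩
  · rw [h0]
    simp
  have hg : 2 ≤ g := by
    have := Ng_k (Mg_Ng (Q.Rm_Mg hx0))
    omega
  set P : ℕ := 2 ^ (g - 1) with hP
  have hP0 : 0 < P := by positivity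
  have hPg1 : 2 ^ (g + 1) = 4 * P := by
    rw [hP, show 4 = 2 ^ 2 by norm_num, ← pow_add]
    congr 1
    omega
  -- the cells
  have hsub : Q.Rm g ⊆ (Q.PP g).biUnion (fun q => Q.St g q.1 q.2) := by
    intro x hx
    rw [Finset.mem_biUnion]
    refine ⟨(Q.mc g x, Q.pd g (Q.mc g x) (Q.rel x)), ?_, ?_⟩
    · unfold PP
      exact Finset.mem_image_of_mem _ hx
    · unfold St
      rw [Finset.mem_filter]
      exact ⟨hx, rfl, rfl⟩
  have h1 : L * (Q.Rm g).card ≤ ∑ q ∈ Q.PP g, L * (Q.St g q.1 q.2).card := by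
    rw [← Finset.mul_sum]
    exact Nat.mul_le_mul_left _ ((Finset.card_le_card hsub).trans Finset.card_biUnion_le)
  have h2 : ∑ q ∈ Q.PP g, L * (Q.St g q.1 q.2).card ≤
      ∑ q ∈ Q.PP g, (4 * (g + g0 + 2) + 21) * (L ^ 2 + 3 * L + 2 * (Q.Tc g q.1 q.2).card) :=
    Finset.sum_le_sum (fun q _ => cell L hL g _ _)
  have h3 : ∑ q ∈ Q.PP g, (4 * (g + g0 + 2) + 21) *
        (L ^ 2 + 3 * L + 2 * (Q.Tc g q.1 q.2).card) =
      (4 * (g + g0 + 2) + 21) * ((Q.PP g).card * (L ^ 2 + 3 * L) +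
        2 * ∑ q ∈ Q.PP g, (Q.Tc g q.1 q.2).card) := by
    rw [← Finset.mul_sum, Finset.sum_add_distrib, Finset.sum_const, smul_eq_mul, Finset.mul_sum]
  have h4 : ∑ q ∈ Q.PP g, (Q.Tc g q.1 q.2).card ≤ 4 * Q.RT.card := by
    have h5 : ∀ q ∈ Q.PP g, (Q.Tc g q.1 q.2).card =
        ∑ r ∈ Q.RT, if (q.1 < r.2 ∧ r.2 < q.1 + 2 ^ (g + 1) ∧ Q.pd g q.1 r.1 = q.2) then 1
          else 0 := by
      intro q _
      unfold Tc
      rw [Finset.card_filter]
    rw [Finset.sum_congr rfl h5, Finset.sum_comm]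
    calc ∑ r ∈ Q.RT, ∑ q ∈ Q.PP g, (if (q.1 < r.2 ∧ r.2 < q.1 + 2 ^ (g + 1) ∧
          Q.pd g q.1 r.1 = q.2) then 1 else 0)
        ≤ ∑ r ∈ Q.RT, 4 := by
          refine Finset.sum_le_sum (fun r _ => ?_)
          rw [← Finset.card_filter]
          have h6 : (Q.PP g).filter (fun q => q.1 < r.2 ∧ r.2 < q.1 + 2 ^ (g + 1) ∧
              Q.pd g q.1 r.1 = q.2) ⊆
              (Finset.Icc (r.2 / P - 3) (r.2 / P)).image (fun j => (j * P, Q.pd g (j * P) r.1)) := by
            intro q hq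
            rw [Finset.mem_filter] at hq
            obtain ⟨q1, j1, j2, j3⟩ := hq
            unfold PP at q1
            obtain ⟨x, hx, rfl⟩ := Finset.mem_image.1 q1
            obtain ⟨j, hj⟩ := mc_dvd (Q := Q) g x
            simp only at j1 j2 j3 ⊢
            have hjP : Q.mc g x = j * P := by rw [hj, mul_comm]
            rw [hjP, hPg1] at j2
            rw [hjP] at j1 j3
            rw [Finset.mem_image]
            refine ⟨j, ?_, by rw [hjP, j3]⟩
            rw [Finset.mem_Icc]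
            have j4 : j ≤ r.2 / P := (Nat.le_div_iff_mul_le hP0).2 j1.le
            have j5 : r.2 / P < j + 4 := by
              rw [Nat.div_lt_iff_lt_mul hP0]
              calc r.2 < j * P + 4 * P := j2
                _ = (j + 4) * P := by ring
            omega
          refine (Finset.card_le_card h6).trans (Finset.card_image_le.trans ?_)
          rw [Nat.card_Icc]
          omega
      _ = 4 * Q.RT.card := by rw [Finset.sum_const, smul_eq_mul, mul_comm]
  have h6 : L ^ 2 + 3 * L ≤ 4 * L ^ 2 := by nlinarith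
  calc L * (Q.Rm g).card ≤ (4 * (g + g0 + 2) + 21) * ((Q.PP g).card * (L ^ 2 + 3 * L) +
        2 * ∑ q ∈ Q.PP g, (Q.Tc g q.1 q.2).card) := by
        rw [← h3]
        exact h1.trans h2
    _ ≤ (4 * (g + g0 + 2) + 21) * ((Q.PP g).card * (4 * L ^ 2) + 2 * (4 * Q.RT.card)) := by
        gcongr
    _ ≤ (189 * (g + 1)) * (8 * (L ^ 2 * (Q.PP g).card + Q.RT.card)) := by
        apply Nat.mul_le_mul
        · simp only [g0]
          omega
        · nlinarith [Nat.zero_le (L ^ 2 * (Q.PP g).card)]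
    _ ≤ 2 ^ 16 * (g + 1) * (L ^ 2 * (Q.PP g).card + Q.RT.card) := by
        have e1 : (189 * (g + 1)) * (8 * (L ^ 2 * (Q.PP g).card + Q.RT.card)) =
            1512 * ((g + 1) * (L ^ 2 * (Q.PP g).card + Q.RT.card)) := by ring
        have e2 : 2 ^ 16 * (g + 1) * (L ^ 2 * (Q.PP g).card + Q.RT.card) =
            65536 * ((g + 1) * (L ^ 2 * (Q.PP g).card + Q.RT.card)) := by ring
        rw [e1, e2]
        exact Nat.mul_le_mul_right _ (by norm_num)
-- END gc

end FG

end Pool.Agent.SplGd
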