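import Pool.Agent.SplGd.FWin
import Pool.Agent.SplTr.CCnt

set_option autoImplicit false

/-!
# Grid theorem, section 5, counting lemmas: minima, not main, isolated
-/

namespace Pool.Agent.SplGd

open Pool.Agent.SplTr (sp_card)
open scoped Classical

-- MODULE xa
/-- a spaced set in an interval -/
theorem sp_cardk {ι : Type} (A : Finset ι) (f : ι → ℕ) (g a b : ℕ)
    (h : ∀ x ∈ A, a ≤ f x ∧ f x < b)
    (hs : ∀ x ∈ A, ∀ y ∈ A, f x < f y → f x + 2 ^ g ≤ f y)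
    (hi : ∀ x ∈ A, ∀ y ∈ A, f x = f y → x = y) : A.card * 2 ^ g ≤ (b - a) + 2 ^ g := by
  have h1 : (A.image f).card = A.card := Finset.card_image_of_injOn (fun x hx y hy he => hi x hx y hy he)
  rw [← h1]
  apply sp_card (A.image f) g a b
  · intro x hx
    obtain ⟨y, hy, rfl⟩ := Finset.mem_image.1 hx
    exact h y hy
  · intro x hx y hy hxy
    obtain ⟨x', hx', rfl⟩ := Finset.mem_image.1 hx
    obtain ⟨y', hy', rfl⟩ := Finset.mem_image.1 hy
    exact hs x' hx' y' hy' hxy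

theorem geo_half' (n D : ℕ) : ∑ j ∈ Finset.range n, D / 2 ^ (j / 2) ≤ 4 * D := by
  have h1 : ∀ n, ∑ j ∈ Finset.range (2 * n), D / 2 ^ (j / 2) = 2 * ∑ j ∈ Finset.range n, D / 2 ^ j := by
    intro n
    induction n with
    | zero => simp
    | succ n ih =>
      rw [show 2 * (n + 1) = 2 * n + 1 + 1 by ring, Finset.sum_range_succ, Finset.sum_range_succ, ih,
        Finset.sum_range_succ, show (2 * n + 1) / 2 = n by omega, show 2 * n / 2 = n by omega]
      ring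
  have h2 : ∑ j ∈ Finset.range n, D / 2 ^ (j / 2) ≤ ∑ j ∈ Finset.range (2 * n), D / 2 ^ (j / 2) := by
    apply Finset.sum_le_sum_of_subset
    intro x hx
    rw [Finset.mem_range] at hx ⊢
    omega
  have h3 := Nat.geom_sum_le (le_refl 2) D n
  rw [h1] at h2
  omega

theorem geo_le (N a G : ℕ) (f : ℕ → ℕ)
    (hf : ∀ D ∈ Finset.Icc a G, 2 ^ ((D - 1) / 2) * f D ≤ N) :
    2 ^ (a / 2) * ∑ D ∈ Finset.Icc a G, f D ≤ 16 * N := by
  rcases Nat.lt_or_ge G a with hL | hL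
  · rw [Finset.Icc_eq_empty (by omega), Finset.sum_empty]
    omega
  · obtain ⟨n, hn⟩ := Nat.exists_eq_add_of_le hL
    have e1 : Finset.Icc a G = (Finset.range (n + 1)).image (fun i => a + i) := by
      ext x
      simp only [Finset.mem_Icc, Finset.mem_image, Finset.mem_range]
      constructor
      · intro hx
        exact ⟨x - a, by omega, by omega⟩
      · rintro ⟨i, hi, rfl⟩
        omega
    rw [e1, Finset.sum_image (by intro x _ y _ hxy; simpa using hxy), Finset.mul_sum]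
    calc ∑ i ∈ Finset.range (n + 1), 2 ^ (a / 2) * f (a + i)
        ≤ ∑ i ∈ Finset.range (n + 1), (4 * N) / 2 ^ (i / 2) := by
          apply Finset.sum_le_sum
          intro i hi
          rw [Finset.mem_range] at hi
          rw [Nat.le_div_iff_mul_le (Nat.two_pow_pos _)]
          have h1 := hf (a + i) (Finset.mem_Icc.2 ⟨by omega, by omega⟩)
          have h2 : 2 ^ (a / 2 + i / 2) ≤ 4 * 2 ^ ((a + i - 1) / 2) := by
            rw [show (4 : ℕ) = 2 ^ 2 by norm_num, ← pow_add]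
            exact Nat.pow_le_pow_right (by norm_num) (by omega)
          calc 2 ^ (a / 2) * f (a + i) * 2 ^ (i / 2) = 2 ^ (a / 2 + i / 2) * f (a + i) := by
                rw [pow_add]; ring
            _ ≤ 4 * 2 ^ ((a + i - 1) / 2) * f (a + i) := Nat.mul_le_mul_right _ h2
            _ = 4 * (2 ^ ((a + i - 1) / 2) * f (a + i)) := by ring
            _ ≤ 4 * N := Nat.mul_le_mul_left _ h1
      _ ≤ 4 * (4 * N) := geo_half' _ _
      _ = 16 * N := by ring
-- END xa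

namespace FG

variable {ι : Type} {k top tm N : ℕ} (Q : FG ι k top tm N)

-- MODULE xb
theorem xb_key (B : Finset (ℕ × (ℕ × ℕ)))
    (hB : ∀ b ∈ B, ∃ x ∈ Q.F, Q.z x + 2 ^ b.1 ≤ Q.key x ∧ Q.ky b.1 x = b.2) (D : ℕ)
    (hD : 2 ^ (D - 1) ≤ tm) :
    2 ^ ((D - 1) / 2) * (B.filter (fun b => b.1 = D)).card ≤ N := by
  refine le_trans (Nat.mul_le_mul_left _ ?_) (Q.act (D - 1) hD)
  apply Finset.card_le_card_of_injOn (fun b => b.2)
  · intro b hb
    have hb' := Finset.mem_coe.1 hb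
    rw [Finset.mem_filter] at hb'
    obtain ⟨x, hx, h1, h2⟩ := hB b hb'.1
    rw [hb'.2] at h2
    rw [Finset.mem_coe]
    unfold Pool.Agent.SplPat.cells
    rw [Finset.mem_image]
    exact ⟨Q.rel x, Finset.mem_range.2 (Q.rm x hx), h2⟩
  · intro b hb b' hb' he
    have h1 := (Finset.mem_filter.1 (Finset.mem_coe.1 hb)).2
    have h2 := (Finset.mem_filter.1 (Finset.mem_coe.1 hb')).2
    exact Prod.ext (h1.trans h2.symm) he

theorem Wn_card (a : ℕ) : 2 ^ (a / 2) * (Q.Wn a).card ≤ 16 * N := by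
  have hB : ∀ b ∈ Q.Wn a, ∃ x ∈ Q.F, Q.z x + 2 ^ b.1 ≤ Q.key x ∧ Q.ky b.1 x = b.2 := by
    intro b hb
    unfold Wn at hb
    rw [Finset.mem_image] at hb
    obtain ⟨x, hx, rfl⟩ := hb
    rw [Finset.mem_filter] at hx
    exact ⟨x, hx.1, (Dx_spec hx.1).1, rfl⟩
  have hm : ∀ b ∈ Q.Wn a, b.1 ∈ Finset.Icc a (Nat.log 2 tm) := by
    intro b hb
    unfold Wn at hb
    rw [Finset.mem_image] at hb
    obtain ⟨x, hx, rfl⟩ := hb
    rw [Finset.mem_filter] at hx
    rw [Finset.mem_Icc]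
    exact ⟨hx.2, Nat.le_log_of_pow_le (by norm_num) (two_Dx_tm hx.1)⟩
  rcases (Q.Wn a).eq_empty_or_nonempty with h0 | ⟨b0, hb0⟩
  · rw [h0, Finset.card_empty]
    omega
  have htm : 0 < tm := by
    obtain ⟨x, hx, -⟩ := hB b0 hb0
    have := Q.rm x hx
    omega
  have h1 : (Q.Wn a).card = ∑ D ∈ Finset.Icc a (Nat.log 2 tm), ((Q.Wn a).filter (fun b => b.1 = D)).card :=
    Finset.card_eq_sum_card_fiberwise (f := Prod.fst) (t := Finset.Icc a (Nat.log 2 tm)) hm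
  rw [h1]
  apply geo_le
  intro D hD
  apply Q.xb_key _ hB
  rw [Finset.mem_Icc] at hD
  have h2 : 2 ^ D ≤ tm := Nat.pow_le_of_le_log (by omega) hD.2
  exact le_trans (Nat.pow_le_pow_right (by norm_num) (by omega)) h2

theorem xb_Ef {x y : ι} (he : (Q.Dx x, Q.ky (Q.Dx x) x) = (Q.Dx y, Q.ky (Q.Dx y) y)) :
    Q.Ef x = Q.Ef y := by
  rw [Prod.mk.injEq] at he
  unfold Ef
  rw [he.2, he.1]

theorem Ef_uni {x y a : ι} (hx : x ∈ Q.Ef a) (hy : y ∈ Q.Ef a) (h : Q.key x = Q.key y) :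
    x = y := by
  unfold Ef at hx hy
  exact En_uni hx hy h

theorem minc (a : ℕ) : (Q.F.filter (fun x => ¬ Q.HP x ∧ a ≤ Q.Dx x)).card ≤ (Q.Wn a).card := by
  apply Finset.card_le_card_of_injOn (fun x => (Q.Dx x, Q.ky (Q.Dx x) x))
  · intro x hx
    have hx' := Finset.mem_filter.1 (Finset.mem_coe.1 hx)
    exact Finset.mem_coe.2 (Finset.mem_image.2 ⟨x, Finset.mem_filter.2 ⟨hx'.1, hx'.2.2⟩, rfl⟩)
  · have key : ∀ x ∈ Q.F, ∀ y, ¬ Q.HP y → Q.key x < Q.key y →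
        (Q.Dx x, Q.ky (Q.Dx x) x) ≠ (Q.Dx y, Q.ky (Q.Dx y) y) := by
      intro x hx y hy hxy he
      have h1 : Q.Ef x = Q.Ef y := Q.xb_Ef he
      have h2 := mem_Ef hx
      rw [h1] at h2
      exact hy (ef_max h2 hxy).2
    intro x hx y hy he
    have hx' := Finset.mem_filter.1 (Finset.mem_coe.1 hx)
    have hy' := Finset.mem_filter.1 (Finset.mem_coe.1 hy)
    rcases lt_trichotomy (Q.key x) (Q.key y) with h' | h' | h'
    · exact absurd he (key x hx'.1 y hy'.2.1 h')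
    · have h1 : Q.Ef x = Q.Ef y := Q.xb_Ef he
      have h2 := mem_Ef hx'.1
      rw [h1] at h2
      exact Q.Ef_uni h2 (mem_Ef hy'.1) h'
    · exact absurd he.symm (key y hy'.1 x hx'.2.1 h')
-- END xb

-- MODULE xc
/-- not main -/
theorem nmain (g : ℕ) : 2 ^ (g / 2) * ((Q.Ng g).filter (fun x => ¬ g + g0 < Q.Dx x)).card ≤
    2 ^ 30 * N := by
  set A := (Q.Ng g).filter (fun x => ¬ g + g0 < Q.Dx x) with hA
  set f : ι → ℕ × (ℕ × ℕ) := fun x => (Q.Dx x, Q.ky (Q.Dx x) x) with hf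
  have hAF : ∀ x ∈ A, x ∈ Q.F := fun x hx => Ng_F (Finset.mem_filter.1 hx).1
  have hAN : ∀ x ∈ A, x ∈ Q.Ng g := fun x hx => (Finset.mem_filter.1 hx).1
  -- the fibres
  have hfib : ∀ b ∈ A.image f, (A.filter (fun x => f x = b)).card * 2 ^ g ≤ 2 ^ (b.1 + 2) := by
    intro b hb
    obtain ⟨x0, hx0, hb0⟩ := Finset.mem_image.1 hb
    have hD : Q.Dx x0 = b.1 := by rw [← hb0]
    have hmem : ∀ x ∈ A.filter (fun x => f x = b), x ∈ Q.Ef x0 ∧ Q.Ef x = Q.Ef x0 ∧ Q.Dx x = b.1 := by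
      intro x hx
      have hx' := Finset.mem_filter.1 hx
      have h1 : Q.Ef x = Q.Ef x0 := Q.xb_Ef (hx'.2.trans hb0.symm)
      have h2 := mem_Ef (hAF x hx'.1)
      rw [h1] at h2
      exact ⟨h2, h1, by rw [← hx'.2]⟩
    have hgD : g ≤ b.1 := by rw [← hD]; exact Ng_Dx (hAN x0 hx0)
    have hk := k_le_Dx (hAF x0 hx0)
    have hu : 2 * Q.u (Q.Dx x0) = 2 ^ b.1 := by
      unfold u
      rw [← pow_succ', hD]
      congr 1
      omega
    have h3 := sp_cardk (A.filter (fun x => f x = b)) Q.key g (Q.z x0 + 2 ^ b.1 - Q.u (Q.Dx x0))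
      (Q.z x0 + Q.u (Q.Dx x0) + 2 ^ (b.1 + 1)) (by
        intro x hx
        obtain ⟨h1, h2, h4⟩ := hmem x hx
        have h5 := Dx_spec (hAF x (Finset.mem_filter.1 hx).1)
        rw [h4] at h5
        have h8 := mem_Ef (hAF x0 hx0)
        unfold Ef at h1 h8
        have h6 := z_lt_add h8 h1
        have h7 := z_lt_add h1 h8
        omega) (by
        intro x hx y hy hxy
        obtain ⟨h1, h2, -⟩ := hmem y hy
        have h3 := (hmem x hx).1
        rw [← h2] at h3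
        exact Ng_space (hAN y (Finset.mem_filter.1 hy).1) h3 hxy) (by
        intro x hx y hy hxy
        exact Q.Ef_uni (hmem x hx).1 (hmem y hy).1 hxy)
    refine le_trans h3 ?_
    have h4 : 2 ^ g ≤ 2 ^ b.1 := Nat.pow_le_pow_right (by norm_num) hgD
    have h5 : 2 ^ (b.1 + 1) = 2 * 2 ^ b.1 := by rw [pow_succ]; ring
    have h6 : 2 ^ (b.1 + 2) = 4 * 2 ^ b.1 := by rw [pow_add]; ring
    omega
  have h1 : 2 ^ g * A.card ≤ ∑ b ∈ A.image f, 2 ^ (b.1 + 2) := by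
    rw [Finset.card_eq_sum_card_image f A, mul_comm, Finset.sum_mul]
    exact Finset.sum_le_sum hfib
  apply Nat.le_of_mul_le_mul_left _ (Nat.two_pow_pos g)
  have h1' : 2 ^ g * (2 ^ (g / 2) * A.card) ≤ 2 ^ (g / 2) * ∑ b ∈ A.image f, 2 ^ (b.1 + 2) := by
    calc 2 ^ g * (2 ^ (g / 2) * A.card) = 2 ^ (g / 2) * (2 ^ g * A.card) := by ring
      _ ≤ _ := Nat.mul_le_mul_left _ h1
  refine le_trans h1' ?_
  set T := (Finset.Icc g (g + g0)).filter (fun D => 2 ^ D ≤ tm) with hT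
  have hmaps : ∀ b ∈ A.image f, b.1 ∈ T := by
    intro b hb
    obtain ⟨x, hx, rfl⟩ := Finset.mem_image.1 hb
    have h2 := Finset.mem_filter.1 hx
    exact Finset.mem_filter.2 ⟨Finset.mem_Icc.2 ⟨Ng_Dx h2.1, not_lt.1 h2.2⟩, two_Dx_tm (hAF x hx)⟩
  have hB : ∀ b ∈ A.image f, ∃ x ∈ Q.F, Q.z x + 2 ^ b.1 ≤ Q.key x ∧ Q.ky b.1 x = b.2 := by
    intro b hb
    obtain ⟨x, hx, rfl⟩ := Finset.mem_image.1 hb
    exact ⟨x, hAF x hx, (Dx_spec (hAF x hx)).1, rfl⟩
  rw [← Finset.sum_fiberwise_of_maps_to hmaps, Finset.mul_sum]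
  have h2 : ∀ D ∈ T, 2 ^ (g / 2) * ∑ b ∈ (A.image f).filter (fun b => b.1 = D), 2 ^ (b.1 + 2) ≤
      2 ^ 24 * (2 ^ g * N) := by
    intro D hD
    have h3 : ∑ b ∈ (A.image f).filter (fun b => b.1 = D), 2 ^ (b.1 + 2)
        = ((A.image f).filter (fun b => b.1 = D)).card * 2 ^ (D + 2) := by
      rw [Finset.sum_const_nat]
      intro b hb
      rw [(Finset.mem_filter.1 hb).2]
    rw [h3]
    have h4 := Q.xb_key _ hB D (le_trans (Nat.pow_le_pow_right (by norm_num) (by omega))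
      (Finset.mem_filter.1 hD).2)
    have hDg : D ≤ g + 40 := (Finset.mem_Icc.1 (Finset.mem_filter.1 hD).1).2
    have h5 : 2 ^ (g / 2) * 2 ^ (D + 2) ≤ 2 ^ 24 * 2 ^ g * 2 ^ ((D - 1) / 2) := by
      rw [← pow_add, ← pow_add, ← pow_add]
      exact Nat.pow_le_pow_right (by norm_num) (by omega)
    calc 2 ^ (g / 2) * (((A.image f).filter (fun b => b.1 = D)).card * 2 ^ (D + 2))
        = ((A.image f).filter (fun b => b.1 = D)).card * (2 ^ (g / 2) * 2 ^ (D + 2)) := by ring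
      _ ≤ ((A.image f).filter (fun b => b.1 = D)).card * (2 ^ 24 * 2 ^ g * 2 ^ ((D - 1) / 2)) :=
          Nat.mul_le_mul_left _ h5
      _ = 2 ^ 24 * 2 ^ g * (2 ^ ((D - 1) / 2) * ((A.image f).filter (fun b => b.1 = D)).card) := by
          ring
      _ ≤ 2 ^ 24 * 2 ^ g * N := Nat.mul_le_mul_left _ h4
      _ = 2 ^ 24 * (2 ^ g * N) := by ring
  refine le_trans (Finset.sum_le_sum h2) ?_
  rw [Finset.sum_const, smul_eq_mul]
  have h4 : T.card ≤ 2 ^ 6 := by
    refine le_trans (Finset.card_filter_le _ _) ?_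
    rw [Nat.card_Icc]
    have : g0 = 40 := rfl
    omega
  calc T.card * (2 ^ 24 * (2 ^ g * N)) ≤ 2 ^ 6 * (2 ^ 24 * (2 ^ g * N)) := Nat.mul_le_mul_right _ h4
    _ = 2 ^ g * (2 ^ 30 * N) := by ring
-- END xc

-- MODULE xd
private theorem xd_psi {g : ℕ} {x : ι} (hx : x ∈ Q.Ng g) : ∃ p, p ∈ Q.Ef x ∧ Q.key p < Q.key x ∧
    Q.mc g x ≤ Q.key p + 2 ^ (g - 1) ∧ Q.key p < Q.mc g x ∧
      (∀ y ∈ Q.Ef x, Q.key y < Q.key p → Q.key y + 2 ^ (g - 1) < Q.mc g x) ∧
        Q.Dx p = Q.Dx x ∧ Q.Ef p = Q.Ef x := by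
  have hxF := Ng_F hx
  obtain ⟨he1, he2, -⟩ := Ng_ef hx
  obtain ⟨hm1, hm2, hm3, hm4⟩ := mc_spec hx
  have hS : ((Q.Ef x).filter (fun y => Q.mc g x ≤ Q.key y + 2 ^ (g - 1))).Nonempty :=
    ⟨Q.ef x, Finset.mem_filter.2 ⟨he1, hm2⟩⟩
  obtain ⟨p, hp, hmin⟩ := Finset.exists_min_image _ Q.key hS
  obtain ⟨hp1, hp2⟩ := Finset.mem_filter.1 hp
  have hpe : Q.key p ≤ Q.key (Q.ef x) := hmin _ (Finset.mem_filter.2 ⟨he1, hm2⟩)
  have hpx : Q.key p < Q.key x := lt_of_le_of_lt hpe he2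
  have hxE := mem_Ef hxF
  have hp1' := hp1
  unfold Ef at hp1' hxE
  have hD : Q.Dx p = Q.Dx x := le_antisymm (Dx_mono hp1' hxE hpx.le) (D_le_Dx hp1')
  refine ⟨p, hp1, hpx, hp2, by omega, ?_, hD, Ef_eq hp1 hD⟩
  intro y hy hyp
  by_contra hc
  have := hmin y (Finset.mem_filter.2 ⟨hy, by omega⟩)
  omega

/-- left-isolated -/
theorem cLI (g : ℕ) : ((Q.Mg g).filter (fun x => Q.LI g x)).card ≤
    (∑ R ∈ Finset.Icc (g + g0) (Nat.log 2 top), (Q.Ng R).card) + (Q.Wn g).card := by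
  set A := (Q.Mg g).filter (fun x => Q.LI g x) with hA
  have hAM : ∀ x ∈ A, x ∈ Q.Mg g := fun x hx => (Finset.mem_filter.1 hx).1
  have hAN : ∀ x ∈ A, x ∈ Q.Ng g := fun x hx => Mg_Ng (hAM x hx)
  have hAF : ∀ x ∈ A, x ∈ Q.F := fun x hx => Ng_F (hAN x hx)
  have hps : ∀ x, ∃ p, x ∈ A → (p ∈ Q.Ef x ∧ Q.key p < Q.key x ∧
      Q.mc g x ≤ Q.key p + 2 ^ (g - 1) ∧ Q.key p < Q.mc g x ∧
      (∀ y ∈ Q.Ef x, Q.key y < Q.key p → Q.key y + 2 ^ (g - 1) < Q.mc g x) ∧
        Q.Dx p = Q.Dx x ∧ Q.Ef p = Q.Ef x) := by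
    intro x
    by_cases hx : x ∈ A
    · obtain ⟨p, h⟩ := Q.xd_psi (hAN x hx)
      exact ⟨p, fun _ => h⟩
    · exact ⟨x, fun h => absurd h hx⟩
  choose ps hps using hps
  -- the same representative and the same window: the same round
  have huniq : ∀ x ∈ A, ∀ y ∈ A, Q.Ef x = Q.Ef y → ps x = ps y → x = y := by
    intro x hx y hy hE hp
    obtain ⟨-, -, h3, h4, -⟩ := hps x hx
    obtain ⟨-, -, h5, h6, -⟩ := hps y hy
    rw [← hp] at h5 h6
    have hm : Q.mc g x = Q.mc g y := by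
      obtain ⟨a, ha⟩ := mc_dvd (Q := Q) g x
      obtain ⟨b, hb⟩ := mc_dvd (Q := Q) g y
      have hpos : 0 < 2 ^ (g - 1) := Nat.two_pow_pos _
      rw [ha, hb]
      congr 1
      rw [ha] at h3 h4
      rw [hb] at h5 h6
      by_contra hne
      rcases Nat.lt_or_gt_of_ne hne with h | h
      · have : 2 ^ (g - 1) * (a + 1) ≤ 2 ^ (g - 1) * b := Nat.mul_le_mul_left _ h
        rw [mul_add, mul_one] at this
        omega
      · have : 2 ^ (g - 1) * (b + 1) ≤ 2 ^ (g - 1) * a := Nat.mul_le_mul_left _ h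
        rw [mul_add, mul_one] at this
        omega
    exact cell_uniq (hAN x hx) (hAN y hy) (by rw [hE]; exact mem_Ef (hAF y hy))
      (by rw [← hE]; exact mem_Ef (hAF x hx)) hm
  have hsplit : A.card = (A.filter (fun x => Q.HP (ps x))).card +
      (A.filter (fun x => ¬ Q.HP (ps x))).card :=
    (Finset.card_filter_add_card_filter_not _).symm
  rw [hsplit]
  apply Nat.add_le_add
  · refine le_trans ?_ (Finset.card_biUnion_le)
    apply Finset.card_le_card_of_injOn ps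
    · intro x hx
      obtain ⟨hxA, hne⟩ := Finset.mem_filter.1 (Finset.mem_coe.1 hx)
      obtain ⟨h1, h2, h3, h4, h5, h6, h7⟩ := hps x hxA
      have h8 := ef_mem hne
      rw [h7] at h8
      have h9 := h5 _ h8.1 h8.2
      have h10 := (Finset.mem_filter.1 hxA).2 _ h8.1 h9
      rw [Finset.mem_coe, Finset.mem_biUnion]
      have hpF : ps x ∈ Q.F := by
        unfold Ef at h1
        exact (mem_En.1 h1).1
      have hle : 2 ^ (g + g0) ≤ Q.key (ps x) - Q.key (Q.ef (ps x)) := by omega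
      refine ⟨Q.gf (ps x), Finset.mem_Icc.2 ⟨?_, ?_⟩, Finset.mem_filter.2 ⟨hpF, hne, rfl⟩⟩
      · unfold gf
        exact Nat.le_log_of_pow_le (by norm_num) hle
      · unfold gf
        apply Nat.log_mono_right
        have ha := Q.xw _ hpF
        have hb := Q.wt _ hpF
        omega
    · intro x hx y hy he
      have hxA := (Finset.mem_filter.1 (Finset.mem_coe.1 hx)).1
      have hyA := (Finset.mem_filter.1 (Finset.mem_coe.1 hy)).1
      have h1 := (hps x hxA).2.2.2.2.2.2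
      have h2 := (hps y hyA).2.2.2.2.2.2
      have he' : ps x = ps y := he
      exact huniq x hxA y hyA (by rw [← h1, ← h2, he']) he'
  · apply Finset.card_le_card_of_injOn (fun x => (Q.Dx x, Q.ky (Q.Dx x) x))
    · intro x hx
      have hxA := (Finset.mem_filter.1 (Finset.mem_coe.1 hx)).1
      refine Finset.mem_coe.2 (Finset.mem_image.2 ⟨x, Finset.mem_filter.2 ⟨hAF x hxA, Ng_Dx (hAN x hxA)⟩, rfl⟩)
    · intro x hx y hy he
      obtain ⟨hxA, hex⟩ := Finset.mem_filter.1 (Finset.mem_coe.1 hx)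
      obtain ⟨hyA, hey⟩ := Finset.mem_filter.1 (Finset.mem_coe.1 hy)
      have hE : Q.Ef x = Q.Ef y := Q.xb_Ef he
      have h1 := hps x hxA
      have h2 := hps y hyA
      apply huniq x hxA y hyA hE
      have m1 : ps x ∈ Q.Ef (ps y) := by
        rw [h2.2.2.2.2.2.2, ← hE]
        exact h1.1
      have m2 : ps y ∈ Q.Ef (ps x) := by
        rw [h1.2.2.2.2.2.2, hE]
        exact h2.1
      rcases lt_trichotomy (Q.key (ps x)) (Q.key (ps y)) with h' | h' | h'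
      · exact absurd (ef_max m1 h').2 hey
      · exact Q.Ef_uni h1.1 (by rw [hE]; exact h2.1) h'
      · exact absurd (ef_max m2 h').2 hex
-- END xd

-- MODULE xe
/-- right-isolated -/
theorem cRI (g : ℕ) : ((Q.Mg g).filter (fun x => Q.RI g x)).card ≤
    4 * (∑ R ∈ Finset.Icc (g + g0) (Nat.log 2 top), (Q.Ng R).card) + 4 * (Q.Wn g).card := by
  set A := (Q.Mg g).filter (fun x => Q.RI g x) with hA
  have hAM : ∀ x ∈ A, x ∈ Q.Mg g := fun x hx => (Finset.mem_filter.1 hx).1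
  have hAN : ∀ x ∈ A, x ∈ Q.Ng g := fun x hx => Mg_Ng (hAM x hx)
  have hAF : ∀ x ∈ A, x ∈ Q.F := fun x hx => Ng_F (hAN x hx)
  have hsp : ∀ x ∈ A, ∀ y ∈ A, Q.Ef x = Q.Ef y → Q.key x < Q.key y →
      Q.key x + 2 ^ g ≤ Q.key y := by
    intro x hx y hy hE hxy
    exact Ng_space (hAN y hy) (by rw [← hE]; exact mem_Ef (hAF x hx)) hxy
  have huni : ∀ x ∈ A, ∀ y ∈ A, Q.Ef x = Q.Ef y → Q.key x = Q.key y → x = y := by
    intro x hx y hy hE hxy
    exact Q.Ef_uni (mem_Ef (hAF x hx)) (by rw [hE]; exact mem_Ef (hAF y hy)) hxy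
  have hpg : 2 ^ (g + 1) = 2 * 2 ^ g := by rw [pow_succ]; ring
  have hp0 : 0 < 2 ^ g := Nat.two_pow_pos g
  have hsplit := (Finset.card_filter_add_card_filter_not (s := A)
    (fun x => ∃ y ∈ Q.Ef x, Q.Dx y = Q.Dx x ∧ Q.mc g x + 2 ^ (g + 1) ≤ Q.key y)).symm
  rw [hsplit]
  apply Nat.add_le_add
  · set A1 := A.filter (fun x => ∃ y ∈ Q.Ef x, Q.Dx y = Q.Dx x ∧ Q.mc g x + 2 ^ (g + 1) ≤ Q.key y) with hA1
    have hps : ∀ x, ∃ p, x ∈ A1 → (p ∈ Q.F ∧ Q.Ef p = Q.Ef x ∧ Q.HP p ∧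
        Q.key x ≤ Q.key (Q.ef p) ∧ Q.key (Q.ef p) < Q.key x + 2 ^ (g + 1) ∧
          Q.key (Q.ef p) + 2 ^ (g + g0) ≤ Q.key p) := by
      intro x
      by_cases hx : x ∈ A1
      · obtain ⟨hxA, y, hy, hyD, hyl⟩ := Finset.mem_filter.1 hx
        have hS : ((Q.Ef x).filter (fun y => Q.Dx y = Q.Dx x ∧ Q.mc g x + 2 ^ (g + 1) ≤ Q.key y)).Nonempty :=
          ⟨y, Finset.mem_filter.2 ⟨hy, hyD, hyl⟩⟩
        obtain ⟨p, hp, hmin⟩ := Finset.exists_min_image _ Q.key hS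
        obtain ⟨hp1, hp2, hp3⟩ := Finset.mem_filter.1 hp
        have hE : Q.Ef p = Q.Ef x := Ef_eq hp1 hp2
        obtain ⟨hm1, hm2, hm3, hm4⟩ := mc_spec (hAN x hxA)
        have hxp : Q.key x < Q.key p := by omega
        have h1 := ef_max (x := p) (y := x) (by rw [hE]; exact mem_Ef (hAF x hxA)) hxp
        have h2 := ef_mem h1.2
        rw [hE] at h2
        have h3 : Q.key (Q.ef p) < Q.mc g x + 2 ^ (g + 1) := by
          by_contra hc
          have g1 := h2.1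
          have g2 := hp1
          unfold Ef at g1 g2
          have h4 : Q.Dx (Q.ef p) = Q.Dx x :=
            le_antisymm (le_trans (Dx_mono g1 g2 h2.2.le) (le_of_eq hp2)) (D_le_Dx g1)
          have h5 := hmin _ (Finset.mem_filter.2 ⟨h2.1, h4, not_lt.1 hc⟩)
          have h6 := h2.2
          omega
        have h7 := (Finset.mem_filter.1 hxA).2 p hp1 hp3
        refine ⟨p, fun _ => ⟨?_, hE, h1.2, h1.1, by omega, by omega⟩⟩
        unfold Ef at hp1
        exact (mem_En.1 hp1).1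
      · exact ⟨x, fun h => absurd h hx⟩
    choose ps hps using hps
    have hfib : ∀ b ∈ A1.image ps, (A1.filter (fun x => ps x = b)).card ≤ 4 := by
      intro b hb
      have h3 := sp_cardk (A1.filter (fun x => ps x = b)) Q.key g
        (Q.key (Q.ef b) + 1 - 2 ^ (g + 1)) (Q.key (Q.ef b) + 1) (by
        intro x hx
        obtain ⟨hx1, hx2⟩ := Finset.mem_filter.1 hx
        have h4 := hps x hx1
        rw [hx2] at h4
        omega) (by
        intro x hx y hy hxy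
        obtain ⟨hx1, hx2⟩ := Finset.mem_filter.1 hx
        obtain ⟨hy1, hy2⟩ := Finset.mem_filter.1 hy
        have h4 := (hps x hx1).2.1
        have h5 := (hps y hy1).2.1
        rw [hx2] at h4
        rw [hy2] at h5
        exact hsp x (Finset.mem_filter.1 hx1).1 y (Finset.mem_filter.1 hy1).1 (h4.symm.trans h5) hxy) (by
        intro x hx y hy hxy
        obtain ⟨hx1, hx2⟩ := Finset.mem_filter.1 hx
        obtain ⟨hy1, hy2⟩ := Finset.mem_filter.1 hy
        have h4 := (hps x hx1).2.1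
        have h5 := (hps y hy1).2.1
        rw [hx2] at h4
        rw [hy2] at h5
        exact huni x (Finset.mem_filter.1 hx1).1 y (Finset.mem_filter.1 hy1).1 (h4.symm.trans h5) hxy)
      have h4 : (A1.filter (fun x => ps x = b)).card * 2 ^ g ≤ 4 * 2 ^ g := by omega
      exact Nat.le_of_mul_le_mul_right h4 hp0
    have h1 := Finset.card_le_mul_card_image (f := ps) A1 4 hfib
    refine le_trans h1 (Nat.mul_le_mul_left _ (le_trans (Finset.card_le_card ?_) Finset.card_biUnion_le))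
    intro p hp
    obtain ⟨x, hx, rfl⟩ := Finset.mem_image.1 hp
    obtain ⟨h2, h3, h4, h5, h6, h7⟩ := hps x hx
    rw [Finset.mem_biUnion]
    refine ⟨Q.gf (ps x), Finset.mem_Icc.2 ⟨?_, ?_⟩, Finset.mem_filter.2 ⟨h2, h4, rfl⟩⟩
    · unfold gf
      exact Nat.le_log_of_pow_le (by norm_num) (by omega)
    · unfold gf
      apply Nat.log_mono_right
      have ha := Q.xw _ h2
      have hb := Q.wt _ h2
      omega
  · set A2 := A.filter (fun x => ¬ ∃ y ∈ Q.Ef x, Q.Dx y = Q.Dx x ∧ Q.mc g x + 2 ^ (g + 1) ≤ Q.key y) with hA2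
    set f : ι → ℕ × (ℕ × ℕ) := fun x => (Q.Dx x, Q.ky (Q.Dx x) x) with hf
    have hfib : ∀ b ∈ A2.image f, (A2.filter (fun x => f x = b)).card ≤ 4 := by
      intro b hb
      obtain ⟨x0, hx0, hmin⟩ := Finset.exists_min_image (A2.filter (fun x => f x = b)) Q.key (by
        obtain ⟨x, hx, hxb⟩ := Finset.mem_image.1 hb
        exact ⟨x, Finset.mem_filter.2 ⟨hx, hxb⟩⟩)
      obtain ⟨hx0A, hx0b⟩ := Finset.mem_filter.1 hx0
      have h3 := sp_cardk (A2.filter (fun x => f x = b)) Q.key g (Q.key x0) (Q.key x0 + 2 ^ (g + 1)) (by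
        intro x hx
        obtain ⟨hx1, hx2⟩ := Finset.mem_filter.1 hx
        refine ⟨hmin x hx, ?_⟩
        have hfe : f x = f x0 := hx2.trans hx0b.symm
        have hE : Q.Ef x = Q.Ef x0 := Q.xb_Ef hfe
        have hD : Q.Dx x = Q.Dx x0 := congrArg Prod.fst hfe
        by_contra hc
        obtain ⟨hx0A1, hno⟩ := Finset.mem_filter.1 hx0A
        apply hno
        obtain ⟨hm1, hm2, hm3, hm4⟩ := mc_spec (hAN x0 hx0A1)
        refine ⟨x, ?_, hD, by omega⟩
        rw [← hE]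
        exact mem_Ef (hAF x (Finset.mem_filter.1 hx1).1)) (by
        intro x hx y hy hxy
        obtain ⟨hx1, hx2⟩ := Finset.mem_filter.1 hx
        obtain ⟨hy1, hy2⟩ := Finset.mem_filter.1 hy
        exact hsp x (Finset.mem_filter.1 hx1).1 y (Finset.mem_filter.1 hy1).1 (Q.xb_Ef (hx2.trans hy2.symm)) hxy) (by
        intro x hx y hy hxy
        obtain ⟨hx1, hx2⟩ := Finset.mem_filter.1 hx
        obtain ⟨hy1, hy2⟩ := Finset.mem_filter.1 hy
        exact huni x (Finset.mem_filter.1 hx1).1 y (Finset.mem_filter.1 hy1).1 (Q.xb_Ef (hx2.trans hy2.symm)) hxy)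
      have h4 : (A2.filter (fun x => f x = b)).card * 2 ^ g ≤ 4 * 2 ^ g := by omega
      exact Nat.le_of_mul_le_mul_right h4 hp0
    have h1 := Finset.card_le_mul_card_image (f := f) A2 4 hfib
    refine le_trans h1 (Nat.mul_le_mul_left _ (Finset.card_le_card ?_))
    intro b hb
    obtain ⟨x, hx, rfl⟩ := Finset.mem_image.1 hb
    have hxA := (Finset.mem_filter.1 hx).1
    exact Finset.mem_image.2 ⟨x, Finset.mem_filter.2 ⟨hAF x hxA, Ng_Dx (hAN x hxA)⟩, rfl⟩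
-- END xe

end FG

end Pool.Agent.SplGd
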