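import Pool.Agent.SplGd.FDef

set_option autoImplicit false

/-!
# Grid theorem, section 5: windows
-/

namespace Pool.Agent.SplGd

open scoped Classical

namespace FG

variable {ι : Type} {k top tm N : ℕ} {Q : FG ι k top tm N} {D g t : ℕ} {x y a : ι} {v : ℕ × ℕ}

-- MODULE wa
theorem u_pos : 0 < Q.u D := pow_pos (by norm_num) _

theorem u_le : Q.u D ≤ 2 ^ D := Nat.pow_le_pow_right (by norm_num) (Nat.sub_le _ _)

theorem mem_En : x ∈ Q.En D v ↔ x ∈ Q.F ∧ Q.z x + 2 ^ D ≤ Q.key x ∧ Q.ky D x = v := by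
  unfold En
  rw [Finset.mem_filter]

private theorem wa_ky (hx : x ∈ Q.En D v) (hy : y ∈ Q.En D v) :
    Q.rel y / Q.u D = Q.rel x / Q.u D ∧ Q.z y / Q.u D = Q.z x / Q.u D := by
  have h1 := (mem_En.mp hx).2.2
  have h2 := (mem_En.mp hy).2.2
  have h3 : Q.ky D y = Q.ky D x := h2.trans h1.symm
  unfold ky at h3
  exact ⟨congrArg Prod.fst h3, congrArg Prod.snd h3⟩

private theorem wa_div {a b c : ℕ} (hc : 0 < c) (h : a / c = b / c) : a < b + c := by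
  have h2 := Nat.div_add_mod a c
  have h3 := Nat.mod_lt a hc
  have h4 := Nat.div_mul_le_self b c
  rw [h, mul_comm] at h2
  omega

/-- two elements of a window: the requests differ by less than the unit -/
theorem z_lt_add (hx : x ∈ Q.En D v) (hy : y ∈ Q.En D v) : Q.z y < Q.z x + Q.u D :=
  wa_div u_pos (wa_ky hx hy).2

/-- two elements of a window: the releases differ by less than the unit -/
theorem rel_lt_add (hx : x ∈ Q.En D v) (hy : y ∈ Q.En D v) : Q.rel y < Q.rel x + Q.u D :=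
  wa_div u_pos (wa_ky hx hy).1

/-- rounds with the same key which are alive at a common time are equal -/
theorem uni (hx : x ∈ Q.F) (hy : y ∈ Q.F) (h : Q.key x = Q.key y) (h1 : Q.s x < Q.rel y)
    (h2 : Q.s y < Q.rel x) : x = y := by
  rcases lt_trichotomy (Q.rel x) (Q.rel y) with h3 | h3 | h3
  · obtain ⟨u, h4, h5, -⟩ := Q.two x hx y hy h h3
    omega
  · exact Q.inj x hx y hy h h3
  · obtain ⟨u, h4, h5, -⟩ := Q.two y hy x hx h.symm h3
    omega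

/-- (F1) -/
theorem s_lt (hx : x ∈ Q.F) (h : Q.z x + 2 ^ D ≤ Q.key x) (ht : Q.rel x < t + 2 ^ D) :
    Q.s x < t := by
  have := Q.ok x hx
  unfold z at h
  omega
-- END wa

-- MODULE wb
/-- (W1) all elements of a window are alive just before the first release -/
theorem alive (hx : x ∈ Q.En D v) (hy : y ∈ Q.En D v) : Q.s x < Q.rel y := by
  obtain ⟨hxF, hxD, -⟩ := mem_En.mp hx
  refine s_lt hxF hxD ?_
  have h1 := rel_lt_add hy hx
  have h2 := u_le (Q := Q) (D := D)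
  omega

theorem En_uni (hx : x ∈ Q.En D v) (hy : y ∈ Q.En D v) (h : Q.key x = Q.key y) : x = y :=
  uni (mem_En.mp hx).1 (mem_En.mp hy).1 h (alive hx hy) (alive hy hx)

/-- pairwise linked -/
theorem lnk (hx : x ∈ Q.En D v) (hy : y ∈ Q.En D v) : Q.q y < Q.key x := by
  obtain ⟨hxF, hxD, -⟩ := mem_En.mp hx
  obtain ⟨hyF, hyD, -⟩ := mem_En.mp hy
  have hu := u_le (Q := Q) (D := D)
  have h1 := z_lt_add hx hy
  have h5 : Q.q y ≤ Q.z y := Q.qz y hyF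
  omega

/-- a request below the key while the round is alive is not above the release request -/
theorem z_ge (hx : x ∈ Q.F) (h1 : Q.s x < t) (h2 : t ≤ Q.rel x) (h3 : Q.X t < Q.key x) :
    Q.X t ≤ Q.z x := by
  rcases Nat.eq_or_lt_of_le h2 with h | h
  · rw [h]
    exact le_rfl
  · have h4 := Q.qz x hx
    have h5 := Q.xw x hx
    rcases Q.nr x hx t h1 h with h6 | h6
    · unfold z
      omega
    · omega

/-- the same for a request before the release: it is below `q` -/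
theorem q_gt (hx : x ∈ Q.F) (h1 : Q.s x < t) (h2 : t < Q.rel x) (h3 : Q.X t < Q.key x) :
    Q.X t < Q.q x := by
  have h5 := Q.xw x hx
  rcases Q.nr x hx t h1 h2 with h6 | h6
  · exact h6
  · omega

/-- (L1) -/
theorem l1 (hx : x ∈ Q.F) (hy : y ∈ Q.F) (h : Q.key x < Q.key y) (h1 : Q.s x < Q.rel y)
    (h2 : Q.s y < Q.rel x) (h3 : Q.q y < Q.key x) : Q.rel y ≤ Q.rel x := by
  by_contra hc
  push Not at hc
  have h4 := Q.nest x hx y hy h h1 h2 h3
  have h5 := Q.qz x hx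
  have h6 := Q.zx x hx
  have h7 := Q.xw y hy
  rcases Q.nr y hy (Q.rel x) h2 hc with h8 | h8
  · omega
  · omega

theorem ord (hx : x ∈ Q.En D v) (hy : y ∈ Q.En D v) (h : Q.key x < Q.key y) :
    Q.rel y ≤ Q.rel x ∧ Q.z y ≤ Q.z x := by
  obtain ⟨hxF, hxD, -⟩ := mem_En.mp hx
  obtain ⟨hyF, hyD, -⟩ := mem_En.mp hy
  have h1 := l1 hxF hyF h (alive hx hy) (alive hy hx) (lnk hx hy)
  refine ⟨h1, ?_⟩
  have hu := u_le (Q := Q) (D := D)
  have h2 := z_lt_add hx hy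
  exact z_ge hxF (alive hx hy) h1 (by unfold z at *; omega)

theorem ord' (hx : x ∈ Q.En D v) (hy : y ∈ Q.En D v) (h : Q.key x ≤ Q.key y) :
    Q.rel y ≤ Q.rel x ∧ Q.z y ≤ Q.z x := by
  rcases Nat.eq_or_lt_of_le h with h1 | h1
  · rw [En_uni hx hy h1]
    exact ⟨le_rfl, le_rfl⟩
  · exact ord hx hy h1

/-- (W2) -/
theorem betw (hx : x ∈ Q.En D v) (ha : a ∈ Q.En D v) (hy : y ∈ Q.F) (h1 : Q.rel x ≤ Q.rel y)
    (h2 : Q.rel y ≤ Q.rel a) (h3 : Q.z x ≤ Q.z y) (h4 : Q.z y ≤ Q.z a)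
    (h5 : Q.z y + 2 ^ D ≤ Q.key y) : y ∈ Q.En D v := by
  obtain ⟨hxF, hxD, hxv⟩ := mem_En.mp hx
  obtain ⟨k1, k2⟩ := wa_ky hx ha
  refine mem_En.mpr ⟨hy, h5, ?_⟩
  rw [← hxv]
  unfold ky
  have q1 : Q.rel x / Q.u D ≤ Q.rel y / Q.u D := Nat.div_le_div_right h1
  have q2 : Q.rel y / Q.u D ≤ Q.rel a / Q.u D := Nat.div_le_div_right h2
  have q3 : Q.z x / Q.u D ≤ Q.z y / Q.u D := Nat.div_le_div_right h3
  have q4 : Q.z y / Q.u D ≤ Q.z a / Q.u D := Nat.div_le_div_right h4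
  exact Prod.ext (by show Q.rel y / Q.u D = Q.rel x / Q.u D; omega)
    (by show Q.z y / Q.u D = Q.z x / Q.u D; omega)
-- END wb

-- MODULE wc
theorem z_lt (hx : x ∈ Q.F) : Q.z x + 4 * 2 ^ k ≤ Q.key x := Q.zx x hx

theorem Dx_spec (hx : x ∈ Q.F) :
    Q.z x + 2 ^ Q.Dx x ≤ Q.key x ∧ Q.key x < Q.z x + 2 ^ (Q.Dx x + 1) := by
  have h := z_lt hx
  have hp : 0 < 2 ^ k := Nat.two_pow_pos k
  unfold Dx
  have h1 : 2 ^ Nat.log 2 (Q.key x - Q.z x) ≤ Q.key x - Q.z x := Nat.pow_log_le_self 2 (by omega)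
  have h2 : Q.key x - Q.z x < 2 ^ (Nat.log 2 (Q.key x - Q.z x) + 1) :=
    Nat.lt_pow_succ_log_self (by norm_num) _
  omega

theorem k_le_Dx (hx : x ∈ Q.F) : k + 2 ≤ Q.Dx x := by
  have h := z_lt hx
  unfold Dx
  apply Nat.le_log_of_pow_le (by norm_num)
  have : 2 ^ (k + 2) = 4 * 2 ^ k := by rw [pow_add]; ring
  omega

theorem mem_Ef (hx : x ∈ Q.F) : x ∈ Q.Ef x := by
  unfold Ef
  rw [mem_En]
  exact ⟨hx, (Dx_spec hx).1, rfl⟩

theorem ef_mem (he : Q.HP x) : Q.ef x ∈ Q.Ef x ∧ Q.key (Q.ef x) < Q.key x := by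
  refine ⟨?_, he⟩
  by_cases h : ((Q.Ef x).filter (fun y => Q.key y < Q.key x)).Nonempty
  · have h1 : Q.ef x = Classical.choose (Finset.exists_max_image _ Q.key h) := by
      unfold ef
      rw [dif_pos h]
    rw [h1]
    exact (Finset.mem_filter.1 (Classical.choose_spec (Finset.exists_max_image _ Q.key h)).1).1
  · exfalso
    have h1 : Q.ef x = x := by
      unfold ef
      rw [dif_neg h]
    unfold HP at he
    rw [h1] at he
    exact lt_irrefl _ he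

theorem ef_max (hy : y ∈ Q.Ef x) (h : Q.key y < Q.key x) :
    Q.key y ≤ Q.key (Q.ef x) ∧ Q.HP x := by
  have hn : ((Q.Ef x).filter (fun y => Q.key y < Q.key x)).Nonempty :=
    ⟨y, Finset.mem_filter.2 ⟨hy, h⟩⟩
  have h1 : Q.ef x = Classical.choose (Finset.exists_max_image _ Q.key hn) := by
    unfold ef
    rw [dif_pos hn]
  obtain ⟨h2, h3⟩ := Classical.choose_spec (Finset.exists_max_image _ Q.key hn)
  unfold HP
  rw [h1]
  exact ⟨h3 y (Finset.mem_filter.2 ⟨hy, h⟩), (Finset.mem_filter.1 h2).2⟩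

theorem D_le_Dx (hx : x ∈ Q.En D v) : D ≤ Q.Dx x := by
  rw [mem_En] at hx
  unfold Dx
  apply Nat.le_log_of_pow_le (by norm_num)
  have := hx.2.1
  omega

theorem Dx_mono (hx : x ∈ Q.En D v) (hy : y ∈ Q.En D v) (h : Q.key x ≤ Q.key y) :
    Q.Dx x ≤ Q.Dx y := by
  have h1 := (ord' hx hy h).2
  unfold Dx
  apply Nat.log_mono_right
  omega

theorem Ef_eq (hy : y ∈ Q.Ef x) (h : Q.Dx y = Q.Dx x) : Q.Ef y = Q.Ef x := by
  unfold Ef at hy ⊢
  rw [mem_En] at hy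
  rw [h, hy.2.2]

theorem two_Dx_le (hx : x ∈ Q.F) : 2 ^ Q.Dx x ≤ top := by
  have h1 := (Dx_spec hx).1
  have h2 := Q.xw x hx
  have h3 := Q.wt x hx
  omega

theorem two_Dx_tm (hx : x ∈ Q.F) : 2 ^ Q.Dx x ≤ tm := by
  have h1 := (Dx_spec hx).1
  have h2 := Q.ok x hx
  have h3 := Q.rm x hx
  unfold z at h1
  omega
-- END wc

-- MODULE wd
theorem Ng_F (hx : x ∈ Q.Ng g) : x ∈ Q.F := by
  unfold Ng at hx
  exact (Finset.mem_filter.1 hx).1

theorem Ng_HP (hx : x ∈ Q.Ng g) : Q.HP x := by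
  unfold Ng at hx
  exact (Finset.mem_filter.1 hx).2.1

/-- the predecessor -/
theorem Ng_ef (hx : x ∈ Q.Ng g) : Q.ef x ∈ Q.Ef x ∧ Q.key (Q.ef x) < Q.key x ∧ Q.ef x ∈ Q.F := by
  have h1 := ef_mem (Ng_HP hx)
  refine ⟨h1.1, h1.2, ?_⟩
  have h2 := h1.1
  unfold Ef at h2
  exact (mem_En.1 h2).1

theorem Ng_spec (hx : x ∈ Q.Ng g) :
    Q.key (Q.ef x) + 2 ^ g ≤ Q.key x ∧ Q.key x < Q.key (Q.ef x) + 2 ^ (g + 1) := by
  have hlt := Ng_HP hx
  have hg : Q.gf x = g := by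
    unfold Ng at hx
    exact (Finset.mem_filter.1 hx).2.2
  unfold HP at hlt
  have h1 : 2 ^ Nat.log 2 (Q.key x - Q.key (Q.ef x)) ≤ Q.key x - Q.key (Q.ef x) :=
    Nat.pow_log_le_self 2 (by omega)
  have h2 : Q.key x - Q.key (Q.ef x) < 2 ^ (Nat.log 2 (Q.key x - Q.key (Q.ef x)) + 1) :=
    Nat.lt_pow_succ_log_self (by norm_num) _
  unfold gf at hg
  rw [hg] at h1 h2
  omega

/-- (H1) -/
theorem Ng_k (hx : x ∈ Q.Ng g) : k + 2 ≤ g := by
  obtain ⟨hm, hlt, heF⟩ := Ng_ef hx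
  have hF := Ng_F hx
  have hxE := mem_Ef hF
  unfold Ef at hm hxE
  have h1 := Q.sep _ heF _ hF hlt (alive hm hxE) (alive hxE hm)
  have h2 := (Ng_spec hx).2
  have h3 : 2 ^ (k + 2) < 2 ^ (g + 1) := by
    have : 2 ^ (k + 2) = 4 * 2 ^ k := by rw [pow_add]; ring
    omega
  have h4 := (Nat.pow_lt_pow_iff_right (by norm_num : 1 < 2)).1 h3
  omega

theorem Ng_Dx (hx : x ∈ Q.Ng g) : g ≤ Q.Dx x := by
  obtain ⟨hm, hlt, heF⟩ := Ng_ef hx
  have hF := Ng_F hx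
  have hxE := mem_Ef hF
  have hg : Q.gf x = g := by
    unfold Ng at hx
    exact (Finset.mem_filter.1 hx).2.2
  unfold Ef at hm hxE
  have h1 := (ord hm hxE hlt).2
  have h2 := z_lt heF
  rw [← hg]
  unfold gf Dx
  exact Nat.log_mono_right (by omega)

theorem mc_spec (hx : x ∈ Q.Ng g) : Q.key (Q.ef x) < Q.mc g x ∧
    Q.mc g x ≤ Q.key (Q.ef x) + 2 ^ (g - 1) ∧ Q.mc g x < Q.key x ∧
      Q.key x < Q.mc g x + 2 ^ (g + 1) := by
  have hk := Ng_k hx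
  have hs := Ng_spec hx
  obtain ⟨g', rfl⟩ : ∃ g', g = g' + 1 := ⟨g - 1, by omega⟩
  have hu : 0 < 2 ^ g' := by positivity
  have h1 : 2 ^ (g' + 1) = 2 * 2 ^ g' := by ring
  have h2 : 2 ^ (g' + 1 + 1) = 4 * 2 ^ g' := by ring
  have hd := Nat.div_add_mod (Q.key (Q.ef x)) (2 ^ g')
  have hm := Nat.mod_lt (Q.key (Q.ef x)) hu
  have hmc : Q.mc (g' + 1) x = 2 ^ g' * (Q.key (Q.ef x) / 2 ^ g') + 2 ^ g' := by
    unfold mc
    rw [Nat.add_sub_cancel]
    ring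
  rw [hmc, Nat.add_sub_cancel]
  rw [h1, h2] at hs
  rw [h2]
  generalize 2 ^ g' * (Q.key (Q.ef x) / 2 ^ g') = t at *
  generalize Q.key (Q.ef x) % 2 ^ g' = r at *
  generalize 2 ^ g' = U at *
  omega

theorem mc_dvd (g : ℕ) (x : ι) : 2 ^ (g - 1) ∣ Q.mc g x := by
  exact Dvd.intro_left _ rfl

theorem Mg_Ng (hx : x ∈ Q.Mg g) : x ∈ Q.Ng g := by
  unfold Mg at hx
  exact (Finset.mem_filter.1 hx).1

theorem Mg_Dx (hx : x ∈ Q.Mg g) : g + g0 < Q.Dx x := by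
  unfold Mg at hx
  exact (Finset.mem_filter.1 hx).2

/-- the elements of the window of a main round are far from the request -/
theorem far (hx : x ∈ Q.Mg g) (hy : y ∈ Q.Ef x) : Q.z y + 2 ^ (g + g0 + 1) ≤ Q.key y := by
  have h1 := Mg_Dx hx
  have h2 : Q.z y + 2 ^ Q.Dx x ≤ Q.key y := by
    unfold Ef at hy
    exact (mem_En.1 hy).2.1
  have h3 : 2 ^ (g + g0 + 1) ≤ 2 ^ Q.Dx x := Nat.pow_le_pow_right (by norm_num) h1
  omega

/-- a window has at most one main round in a cell -/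
theorem cell_uniq (hx : x ∈ Q.Ng g) (hy : y ∈ Q.Ng g) (hE : y ∈ Q.Ef x) (hE' : x ∈ Q.Ef y)
    (hm : Q.mc g x = Q.mc g y) : x = y := by
  have h1 := mc_spec hx
  have h2 := mc_spec hy
  rcases lt_trichotomy (Q.key x) (Q.key y) with h | h | h
  · have h3 := (ef_max hE' h).1
    omega
  · have h3 := mem_Ef (Ng_F hx)
    unfold Ef at hE h3
    exact En_uni h3 hE h
  · have h3 := (ef_max hE h).1
    omega

/-- rounds of one gap level in one window are spaced -/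
theorem Ng_space (hx : x ∈ Q.Ng g) (hE : y ∈ Q.Ef x) (h : Q.key y < Q.key x) :
    Q.key y + 2 ^ g ≤ Q.key x := by
  have h1 := (ef_max hE h).1
  have h2 := (Ng_spec hx).1
  omega
-- END wd

end FG

end Pool.Agent.SplGd
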