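import Pool.Agent.SplGd.Defs
import Pool.Agent.SplTr.SepFin
import Pool.Agent.SplAll.Red

set_option autoImplicit false

/-!
# The grid theorem: from systems to splay trees
-/

namespace Pool.Agent.SplGd

open BinaryTree Pool.Agent.MP_c42954_lc.Scan Pool.Agent.SplLog Pool.Agent.SplPat Pool.Agent.SplLs
open Pool.Agent.SplDq Pool.Agent.SplTr
open scoped Classical

/-! ### The mirror image -/

theorem div_sub_or {A r b : ℕ} (hr : r < b) (hA : r ≤ A) :
    (A - r) / b = A / b ∨ (A - r) / b = A / b - 1 := by
  have hb : 0 < b := by omega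
  have h1 : b * (A / b) + A % b = A := Nat.div_add_mod A b
  have h2 : A % b < b := Nat.mod_lt A hb
  have h6 : A / b * b = b * (A / b) := Nat.mul_comm _ _
  rcases Nat.lt_or_ge (A % b) r with h3 | h3
  · right
    have h4 : 1 ≤ A / b := by
      by_contra hc
      have h5 : A / b = 0 := Nat.lt_one_iff.1 (not_le.1 hc)
      rw [h5, Nat.mul_zero, Nat.zero_add] at h1
      omega
    obtain ⟨c, hc⟩ : ∃ c, A / b = c + 1 := ⟨A / b - 1, by omega⟩
    rw [hc] at h1 ⊢
    apply Nat.div_eq_of_lt_le
    · simp only [Nat.add_sub_cancel]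
      have : b * (c + 1) = b * c + b := by ring
      have : c * b = b * c := Nat.mul_comm _ _
      omega
    · simp only [Nat.add_sub_cancel]
      have : b * (c + 1) = b * c + b := by ring
      have : (c + 1) * b = b * c + b := by ring
      omega
  · left
    apply Nat.div_eq_of_lt_le
    · omega
    · have : (A / b + 1) * b = b * (A / b) + b := by ring
      omega

theorem cells_mir_le (S : Sys) {b : ℕ} (hb : 0 < b) :
    (cells b S.m S.mir.X).card ≤ 2 * (cells b S.m S.X).card := by
  have h1 : cells b S.m S.mir.X ⊆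
      (cells b S.m S.X).image (fun p => (p.1, (S.top - b * p.2) / b)) ∪
        (cells b S.m S.X).image (fun p => (p.1, (S.top - b * p.2) / b - 1)) := by
    intro p hp
    unfold cells at hp
    rw [Finset.mem_image] at hp
    obtain ⟨t, ht, rfl⟩ := hp
    have ht' : t < S.m := Finset.mem_range.1 ht
    have hk := S.key _ (S.req t ht')
    have e1 : S.mir.X t = S.top - S.X t := rfl
    have e2 : b * (S.X t / b) + S.X t % b = S.X t := Nat.div_add_mod _ _
    have e3 : S.X t % b < b := Nat.mod_lt _ hb
    have e4 : S.top - S.X t = (S.top - b * (S.X t / b)) - S.X t % b := by omega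
    have hc : (t / b, S.X t / b) ∈ cells b S.m S.X := Finset.mem_image_of_mem _ ht
    rw [Finset.mem_union, Finset.mem_image, Finset.mem_image]
    rcases div_sub_or (A := S.top - b * (S.X t / b)) e3 (by omega) with h | h
    · left
      exact ⟨_, hc, by rw [e1, e4, h]⟩
    · right
      exact ⟨_, hc, by rw [e1, e4, h]⟩
  refine (Finset.card_le_card h1).trans ((Finset.card_union_le _ _).trans ?_)
  have h2 := Finset.card_image_le (s := cells b S.m S.X)
    (f := fun p : ℕ × ℕ => (p.1, (S.top - b * p.2) / b))
  have h3 := Finset.card_image_le (s := cells b S.m S.X)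
    (f := fun p : ℕ × ℕ => (p.1, (S.top - b * p.2) / b - 1))
  omega

theorem gr_of {K : ℕ} {S : Sys} {D : ℕ} (hT : Thr S) (hT' : Thr S.mir) (hG : Grid K S D) :
    GrK K S (2 * D) := by
  refine ⟨hT, hT', fun j hj => (hG j hj).trans (by omega), fun j hj => ?_⟩
  have h1 := hG j hj
  have h2 := cells_mir_le S (b := 2 ^ j) (by positivity)
  have h3 : (cel S.mir j).card ≤ 2 * (cel S j).card := h2
  calc 2 ^ ex K j * (cel S.mir j).card ≤ 2 ^ ex K j * (2 * (cel S j).card) :=
        Nat.mul_le_mul_left _ h3
    _ = 2 * (2 ^ ex K j * (cel S j).card) := by ring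
    _ ≤ 2 * D := by omega

/-! ### Runs -/

theorem grid_run_le (hLin : LinG) {K : ℕ} (hK : 0 < K) :
    ∃ C : ℕ, ∀ (T : BinaryTree ℕ) (X : ℕ → ℕ) (m D : ℕ), IsBST T →
    (∀ t, t < m → X t ∈ inorder T) → (∀ v ∈ inorder T, 1 ≤ v ∧ v ≤ (inorder T).length) →
    (∀ j, 2 ^ j ≤ 2 * m → 2 ^ ex K j * (cells (2 ^ j) m X).card ≤ D) →
    ∑ t ∈ Finset.range m, depth (X t) (tr T X t) ≤ C * ((inorder T).length + D) := by
  obtain ⟨C, hC⟩ := hLin K hK
  refine ⟨2 * C, ?_⟩
  intro T X m D hb hX hA hG
  have hB : Bd 0 ((inorder T).length + 1) T := by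
    intro v hv
    have h1 := hA v hv
    exact ⟨by omega, by omega⟩
  set S := sysOf T X m ((inorder T).length + 1) hb hX hB with hS
  have hT : Thr S := thr_sys hb hX hB
  have hT' : Thr S.mir := thr_mir hb hX hB
  have hGS : Grid K S D := hG
  have h1 := hC S (2 * D) (gr_of hT hT' hGS)
  have h4 : ∑ t ∈ Finset.range m, depth (X t) (tr T X t) ≤ tch S := by
    unfold tch
    rw [sum_cnt]
    apply Finset.sum_le_sum
    intro t ht
    rw [Finset.mem_range] at ht
    refine (depth_le hb hX hB ht).trans (Finset.card_le_card ?_)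
    intro v hv
    rw [Finset.mem_filter] at hv ⊢
    exact ⟨hv.1, hv.2.2⟩
  have h6 : S.top = (inorder T).length + 1 := rfl
  rw [h6] at h1
  rcases Nat.eq_zero_or_pos m with h7 | h7
  · subst h7
    simp
  · have h8 : 1 ≤ (inorder T).length := List.length_pos_of_mem (hX 0 h7)
    calc ∑ t ∈ Finset.range m, depth (X t) (tr T X t) ≤ tch S := h4
      _ ≤ C * ((inorder T).length + 1 + 2 * D) := h1
      _ ≤ C * (2 * ((inorder T).length + D)) := Nat.mul_le_mul_left _ (by omega)
      _ = 2 * C * ((inorder T).length + D) := by ring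

/-- The position of a key: the number of keys which are not larger. -/
def ps (K : List ℕ) (v : ℕ) : ℕ := (K.filter (fun a => a ≤ v)).length

theorem ps_eq : ∀ (K : List ℕ), K.Pairwise (· < ·) → ∀ v ∈ K, ps K v = 1 + REL_rank K v
  | [], _, v, hv => by simp at hv
  | a :: K, hK, v, hv => by
      rw [List.pairwise_cons] at hK
      obtain ⟨h1, h2⟩ := hK
      unfold ps REL_rank at *
      rw [List.mem_cons] at hv
      rcases hv with rfl | hv
      · have e1 : K.filter (fun a => a ≤ v) = [] := by
          rw [List.filter_eq_nil_iff]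
          intro b hb
          have := h1 b hb
          simpa using this
        have e2 : K.filter (fun a => a < v) = [] := by
          rw [List.filter_eq_nil_iff]
          intro b hb
          have := h1 b hb
          simp only [decide_eq_true_eq]
          omega
        simp [List.filter_cons, e1, e2]
      · have h3 := h1 v hv
        have ih := ps_eq K h2 v hv
        unfold ps REL_rank at ih
        simp only [List.filter_cons, h3, h3.le, decide_true, if_true, List.length_cons]
        omega

theorem ps_mono (K : List ℕ) {v w : ℕ} (h : v ≤ w) : ps K v ≤ ps K w := by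
  have : REL_rank K (v + 1) ≤ REL_rank K (w + 1) := REL_rank_mono K (by omega)
  unfold ps
  unfold REL_rank at this
  simpa only [Nat.lt_succ_iff] using this

/-- **The grid theorem for splay trees.** -/
theorem grid_le (hLin : LinG) {k : ℕ} (hk : 0 < k) :
    ∃ C : ℕ, ∀ (T : BinaryTree ℕ) (X : List ℕ) (D : ℕ), IsBST T →
    (∀ x ∈ X, x ∈ inorder T) →
    (∀ j, 2 ^ j ≤ 2 * X.length →
      2 ^ ex k j * (cells (2 ^ j) X.length (fun i => ps (inorder T) (X.getD i 0))).card ≤ D) →
    splayCost X T ≤ C * ((inorder T).length + D) := by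
  obtain ⟨C, hC⟩ := grid_run_le hLin hk
  refine ⟨C + 1, fun T X D hb hX hD => ?_⟩
  have hpw0 : (inorder T).Pairwise (· < ·) := hb
  rcases Nat.eq_zero_or_pos X.length with h0 | h0
  · have : X = [] := List.length_eq_zero_iff.mp h0
    subst this
    simp [splayCost]
  set K := inorder T with hK
  set f : ℕ → ℕ := ps K with hf
  set X' := X.map f with hX'
  set T' := mapT f T with hT'
  have hlen : X'.length = X.length := List.length_map _
  have hfl : ∀ a ∈ K, ∀ b ∈ K, a < b → f a < f b := by
    intro a ha b hb' hab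
    have := REL_rank_lt K ha hab
    simp only [hf]
    rw [ps_eq K hpw0 a ha, ps_eq K hpw0 b hb']
    omega
  have hb' : IsBST T' := by
    have h1 : (K.map f).Pairwise (· < ·) := by
      rw [List.pairwise_map]
      refine List.Pairwise.imp_of_mem (fun {a b} ha hb' hab => ?_) hpw0
      exact hfl a ha b hb' hab
    unfold IsBST
    rw [hT', mapT_inorder]
    exact h1
  have hmem' : ∀ x ∈ X', x ∈ inorder T' := by
    intro x hx
    rw [hX', List.mem_map] at hx
    obtain ⟨y, hy, rfl⟩ := hx
    rw [hT', mapT_inorder]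
    exact List.mem_map_of_mem (hX y hy)
  have hcost : splayCost X' T' = splayCost X T :=
    REL_cost (fun x hx a ha => ⟨fun h => hfl _ hx _ ha h, fun h => hfl _ ha _ hx h⟩) X T hb rfl hX
  have hlen' : (inorder T').length = K.length := by
    rw [hT', mapT_inorder, List.length_map]
  have hrng : ∀ v ∈ inorder T', 1 ≤ v ∧ v ≤ (inorder T').length := by
    intro v hv
    rw [hlen']
    rw [hT', mapT_inorder, List.mem_map] at hv
    obtain ⟨y, hy, rfl⟩ := hv
    have h1 := REL_rank_len K hy
    simp only [hf]
    rw [ps_eq K hpw0 y hy]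
    omega
  have hget : ∀ a, a < X.length → X'.getD a 0 = f (X.getD a 0) := by
    intro a ha
    rw [List.getD_eq_getElem _ 0 (by rw [List.length_map]; exact ha), List.getElem_map,
      List.getD_eq_getElem _ 0 ha]
  have hcell : ∀ b, cells b X.length (fun i => X'.getD i 0) =
      cells b X.length (fun i => ps K (X.getD i 0)) := by
    intro b
    unfold cells
    apply Finset.image_congr
    intro t ht
    rw [Finset.mem_coe, Finset.mem_range] at ht
    simp only [hget t ht, hf]
  have h5 := hC T' (fun i => X'.getD i 0) X'.length D hb' (getD_mem hmem') hrng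
    (fun j hj => by
      rw [hlen] at hj ⊢
      rw [hcell]
      exact hD j hj)
  have h6 := cost_eq X' T'
  rw [hcost] at h6
  rw [h6, hlen]
  rw [hlen, hlen'] at h5
  have h7 : X.length ≤ D := by
    have h8 := hD 0 (by rw [pow_zero]; omega)
    have h8' : ex k 0 = 0 := by simp [ex]
    rw [h8', pow_zero, Nat.one_mul] at h8
    refine le_trans ?_ h8
    have h9 : cells 1 X.length (fun i => ps K (X.getD i 0)) =
        (Finset.range X.length).image (fun t => (t, ps K (X.getD t 0))) := by
      unfold cells
      simp only [Nat.div_one]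
    rw [h9, Finset.card_image_of_injective, Finset.card_range]
    intro a b hab
    simp only [Prod.mk.injEq] at hab
    exact hab.1
  calc X.length + ∑ t ∈ Finset.range X.length,
        depth (X'.getD t 0) (tr T' (fun s => X'.getD s 0) t)
      ≤ D + C * (K.length + D) := Nat.add_le_add h7 h5
    _ ≤ (C + 1) * (K.length + D) := by
        have : (C + 1) * (K.length + D) = C * (K.length + D) + (K.length + D) := by ring
        omega

/-- **The grid theorem with a real exponent `δ > 1/2`.** -/
theorem grid_real (hLin : LinG) {δ : ℝ} (hδ : 1 / 2 < δ) :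
    ∃ C : ℝ, 0 ≤ C ∧ ∀ (T : BinaryTree ℕ) (X : List ℕ) (D : ℝ), IsBST T →
    (∀ x ∈ X, x ∈ inorder T) → 0 ≤ D →
    (∀ j : ℕ, 2 ^ j ≤ 2 * X.length →
      (2 : ℝ) ^ (δ * j) *
        ((cells (2 ^ j) X.length (fun i => ps (inorder T) (X.getD i 0))).card : ℝ) ≤ D) →
    (splayCost X T : ℝ) ≤ C * (((inorder T).length : ℝ) + D) := by
  obtain ⟨K, hK⟩ := exists_nat_gt (1 / (2 * δ - 1))
  have hd : (0 : ℝ) < 2 * δ - 1 := by linarith
  have hK0 : (0 : ℝ) < K := lt_trans (by positivity) hK
  have hK1 : 0 < K := by exact_mod_cast hK0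
  have hK2 : 1 < (2 * δ - 1) * K := by
    rw [div_lt_iff₀ hd] at hK
    linarith
  obtain ⟨C, hC⟩ := grid_le hLin hK1
  refine ⟨C, Nat.cast_nonneg _, fun T X D hb hX hD0 hD => ?_⟩
  have h1 := hC T X ⌊D⌋₊ hb hX (fun j hj => by
    apply Nat.le_floor
    refine le_trans ?_ (hD j hj)
    push_cast
    apply mul_le_mul_of_nonneg_right _ (Nat.cast_nonneg _)
    rw [← Real.rpow_natCast]
    apply Real.rpow_le_rpow_of_exponent_le (by norm_num)
    have e1 : ((j / 2 : ℕ) : ℝ) ≤ (j : ℝ) / 2 := by
      have := @Nat.cast_div_le ℝ _ _ _ j 2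
      simpa using this
    have e2 : ((j / (2 * K) : ℕ) : ℝ) ≤ (j : ℝ) / (2 * K) := by
      have := @Nat.cast_div_le ℝ _ _ _ j (2 * K)
      simpa using this
    have e3 : (j : ℝ) / (2 * K) ≤ (δ - 1 / 2) * j := by
      rw [div_le_iff₀ (by positivity)]
      have : (0 : ℝ) ≤ j := Nat.cast_nonneg _
      nlinarith
    unfold ex
    push_cast
    linarith)
  have h2 : (splayCost X T : ℝ) ≤ C * (((inorder T).length : ℝ) + ⌊D⌋₊) := by exact_mod_cast h1
  refine h2.trans ?_
  have h3 := Nat.floor_le hD0
  have : (0 : ℝ) ≤ C := Nat.cast_nonneg _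
  nlinarith

/-- **Pattern-avoiding sequences are linear.** -/
theorem pat_le (hLin : LinG) (k : ℕ) : ∃ C : ℕ, ∀ (π : Equiv.Perm (Fin k)) (T : BinaryTree ℕ)
    (X : List ℕ), IsBST T → (∀ x ∈ X, x ∈ inorder T) → AvoidsL π X →
    splayCost X T ≤ C * ((inorder T).length + X.length) := by
  obtain ⟨C, hC⟩ := grid_le hLin (k := 1) one_pos
  obtain ⟨c, hc⟩ := cells_le k
  refine ⟨C * (6 * c + 1), fun π T X hb hX hav => ?_⟩
  rcases Nat.eq_zero_or_pos X.length with h0 | h0
  · have : X = [] := List.length_eq_zero_iff.mp h0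
    subst this
    simp [splayCost]
  set K := inorder T with hK
  have hn : 1 ≤ K.length := by
    obtain ⟨x, hx⟩ := List.exists_mem_of_length_pos h0
    exact List.length_pos_of_mem (hX x hx)
  have hav' : Avoids π X.length (fun i => ps K (X.getD i 0)) := by
    rintro ⟨f, hf, hm, hp⟩
    apply hav
    refine ⟨fun i => ⟨f i, hm i⟩, fun i j hij => hf hij, fun i j hij => ?_⟩
    have h1 := hp i j hij
    simp only [List.getD_eq_getElem _ 0 (hm _)] at h1
    by_contra h3
    exact absurd h1 (not_lt.mpr (ps_mono K (not_lt.mp h3)))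
  have h1 := hC T X (c * (X.length + (K.length + 1) + 2 * X.length)) hb hX (fun j hj => by
    refine (Nat.mul_le_mul_right _ (Nat.pow_le_pow_right (by norm_num)
      (show ex 1 j ≤ j by unfold ex; omega))).trans ?_
    refine (hc π _ X.length (K.length + 1) (2 ^ j) (by positivity) hav' ?_).trans ?_
    · intro t _
      exact Nat.lt_succ_of_le (List.length_filter_le _ _)
    · exact Nat.mul_le_mul_left _ (by omega))
  refine h1.trans ?_
  rw [Nat.mul_assoc]
  apply Nat.mul_le_mul_left
  have h2 : c * (X.length + (K.length + 1) + 2 * X.length) ≤ 6 * c * (K.length + X.length) := by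
    calc c * (X.length + (K.length + 1) + 2 * X.length) ≤ c * (6 * (K.length + X.length)) :=
          Nat.mul_le_mul_left _ (by omega)
      _ = 6 * c * (K.length + X.length) := by ring
  calc K.length + c * (X.length + (K.length + 1) + 2 * X.length)
      ≤ (K.length + X.length) + 6 * c * (K.length + X.length) :=
        Nat.add_le_add (Nat.le_add_right _ _) h2
    _ = (6 * c + 1) * (K.length + X.length) := by ring

theorem exec_length {T : BinaryTree ℕ} {X : List ℕ} {c : ℕ} (h : Exec T X c) : X.length ≤ c := by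
  induction h with
  | nil T => simp
  | cons h1 h2 ih => simp only [List.length_cons]; omega

/-- **Splaying is constant-competitive on pattern-avoiding sequences.** -/
theorem pat_exec (hLin : LinG) (k : ℕ) : ∃ C : ℕ, ∀ (π : Equiv.Perm (Fin k)) (T : BinaryTree ℕ)
    (X : List ℕ) (c : ℕ), IsBST T → (∀ x ∈ X, x ∈ inorder T) → AvoidsL π X → Exec T X c →
    splayCost X T ≤ C * c := by
  obtain ⟨C, hC⟩ := pat_le hLin k
  refine ⟨2 * C, fun π T X c hb hX hav he => ?_⟩
  obtain ⟨T', h1, h2, h3, h4, h5⟩ := SplAll.RED hb hX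
  have h6 := SplAll.ucard he hb hX
  have h7 := exec_length he
  have hav' : AvoidsL π (X.map (SplAll.rk (SplAll.Un X T))) := by
    rintro ⟨f, hf, hp⟩
    apply hav
    have hl : (X.map (SplAll.rk (SplAll.Un X T))).length = X.length := List.length_map _
    refine ⟨fun i => Fin.cast hl (f i), fun i j hij => hf hij, fun i j hij => ?_⟩
    have h8 := hp i j hij
    have h9 : ∀ i, (X.map (SplAll.rk (SplAll.Un X T))).get (f i) =
        SplAll.rk (SplAll.Un X T) (X.get (Fin.cast hl (f i))) := by
      intro i
      simp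
    rw [h9, h9] at h8
    by_contra hc
    have hc' := not_lt.mp hc
    have h10 : SplAll.rk (SplAll.Un X T) (X.get (Fin.cast hl (f j))) ≤
        SplAll.rk (SplAll.Un X T) (X.get (Fin.cast hl (f i))) := by
      unfold SplAll.rk
      apply Finset.card_le_card
      intro u hu
      rw [Finset.mem_filter] at hu ⊢
      exact ⟨hu.1, lt_of_lt_of_le hu.2 hc'⟩
    omega
  have h8 := hC π T' _ h1 h2 hav'
  rw [h5, h4, List.length_map] at h8
  calc splayCost X T ≤ C * ((SplAll.Un X T).card + X.length) := h8
    _ ≤ C * (2 * c) := Nat.mul_le_mul_left _ (by omega)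
    _ = 2 * C * c := by ring

/-- The pattern 312. -/
def p312 : Equiv.Perm (Fin 3) := (finRotate 3).symm

theorem postorder_avoids {t : BinaryTree ℕ} (hb : IsBST t) : AvoidsL p312 (postorder t) := by
  rintro ⟨f, hf, h⟩
  have hsub : List.Sublist [(postorder t).get (f 0), (postorder t).get (f 1),
      (postorder t).get (f 2)] (postorder t) := by
    rw [List.sublist_iff_exists_fin_orderEmbedding_get_eq]
    refine ⟨OrderEmbedding.ofStrictMono (fun i => f i) ?_, ?_⟩
    · intro i j hij
      exact hf hij
    · intro i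
      fin_cases i <;> rfl
  refine postorder_sub hb hsub ?_ ?_
  · exact h 1 2 (by decide)
  · exact h 2 0 (by decide)

/-- **The traversal conjecture.** -/
theorem trav_le (hLin : LinG) : ∃ C : ℕ, ∀ T T' : BinaryTree ℕ, IsBST T →
    inorder T' = inorder T → splayCost (Pool.Agent.SplLs.preorder T') T ≤ C * (inorder T).length ∧
      splayCost (postorder T') T ≤ C * (inorder T).length := by
  obtain ⟨C, hC⟩ := pat_le hLin 3
  refine ⟨2 * C, fun T T' hb hi => ?_⟩
  have hb' : IsBST T' := by
    unfold IsBST at hb ⊢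
    rw [hi]
    exact hb
  have e1 : (Pool.Agent.SplLs.preorder T').length = (inorder T).length := by
    rw [(preorder_perm T').length_eq, hi]
  have e2 : (postorder T').length = (inorder T).length := by
    rw [(postorder_perm T').length_eq, hi]
  have h1 := hC Pool.Agent.SplLs.p231 T (Pool.Agent.SplLs.preorder T') hb
    (fun x hx => by rw [← hi]; exact (preorder_perm T').mem_iff.1 hx) (preorder_avoids hb')
  have h2 := hC p312 T (postorder T') hb
    (fun x hx => by rw [← hi]; exact (postorder_perm T').mem_iff.1 hx) (postorder_avoids hb')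
  rw [e1] at h1
  rw [e2] at h2
  constructor
  · exact h1.trans (le_of_eq (by ring))
  · exact h2.trans (le_of_eq (by ring))

end Pool.Agent.SplGd
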