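import Pool.Agent.SplGd.Defs
import Pool.Agent.SplTr.Hot

set_option autoImplicit false

/-!
# Section 2.1: old nodes, blocks, number of touches

Useful without `Spl`: `SplTr.killer_le`, `SplTr.cnt_sum`, `SplTr.cnt_or_le`, `SplTr.up_down`,
`SplTr.K_le` (Theta), `Ht.killer_victim`, `Ht.last_unique` (Hot), `R_cases`, `Sys.R_above`.
-/

namespace Pool.Agent.SplGd

open Pool.Agent.SplLog Pool.Agent.SplLs Pool.Agent.SplDq Pool.Agent.SplTr
open scoped Classical

variable {S : Sys} {s t u v w g p τ τ' : ℕ}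

-- MODULE oa  (S)
/-- A node kept at `τ` and its subtree. -/
private theorem oa_kp (hz : S.R τ v) (hu : u ∈ S.K) (hvu : v ≤ u) (hl : S.lam (τ + 1) u = S.X τ) :
    S.Kp τ u := by
  have hx := R_gt hz
  by_cases h : S.R τ u
  · exact ⟨h, hl⟩
  · exfalso
    have h1 := not_R hz.1 hu (by omega) h
    have h2 : S.lam τ u = S.X τ := by omega
    have h3 := S.lam_anc τ hz.1.le u hu (by rw [h2]; exact S.req τ hz.1)
    rw [h2] at h3
    have h4 := S.lt_rho τ hz.1.le v hz.2.1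
    have h5 := Sys.sub hz.1.le (S.req τ hz.1) hz.2.1 hz.2.2.2 (by omega)
    rcases S.lamin τ hz.1.le _ (S.req τ hz.1) v hz.2.1 hx with c | c | c
    · have := hz.2.2.2
      omega
    · omega
    · have := hz.2.2.2
      have := S.lt_rho τ hz.1.le _ (S.req τ hz.1)
      omega

theorem Stp_unique (h : Stp S τ t v) (h' : Stp S τ' t v) : τ = τ' := by
  rcases Nat.lt_trichotomy τ τ' with c | c | c
  · exact absurd (Sys.R_E h'.2.2.1.1) (h.2.2.2 τ' (by omega) h'.2.1)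
  · exact c
  · exact absurd (Sys.R_E h.2.2.1.1) (h'.2.2.2 τ (by omega) h.2.1)

theorem Stp_lam (h : Stp S τ t v) : S.lam t v = S.X τ := by
  have h1 := Sys.NE_const h.1.2.1 (show τ + 1 ≤ t from h.2.1) h.1.1.le h.2.2.2
  rw [h1.1]
  exact h.2.2.1.2

/-- A key in the subtree of an untouched key is untouched. -/
theorem NE_sub (hu : u ≤ t) (ht : t ≤ S.m) (hv : v ∈ S.K) (hw : w ∈ S.K) (h : S.NE v u t)
    (h1 : S.lam u v < w) (h2 : w < S.rho u v) :
    S.NE w u t ∧ S.lam t w = S.lam u w ∧ S.rho t w = S.rho u w := by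
  have h3 := Sys.NE_const hv hu ht h
  have h4 := Sys.stamp ht hw hv (by omega) (by omega) h
  exact ⟨h4, Sys.NE_const hw hu ht h4⟩

/-- Between two nodes of a block there are only nodes of the block. -/
theorem Stp_mid (h : Stp S τ t v) (h' : Stp S τ t w) (hu : S.R t u) (h1 : v ≤ u) (h2 : u ≤ w) :
    Stp S τ t u := by
  have hv := Stp_lam h
  have hw := Stp_lam h'
  have hx := R_gt hu
  have hr := S.lt_rho t hu.1.le w h'.1.2.1
  have hlw := h'.1.2.2.2
  have hl : S.lam t u = S.X τ := by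
    rcases Nat.eq_or_lt_of_le h1 with c | c
    · rw [← c]
      exact hv
    · have h3 := (Sys.R_above h.1 hu c).2
      rcases Nat.eq_or_lt_of_le h2 with d | d
      · rw [d]
        exact hw
      · have h4 := (Sys.R_above hu h'.1 d).2
        omega
  have hNE : S.NE u (τ + 1) t :=
    Sys.stamp hu.1.le hu.2.1 h'.1.2.1 (by omega) (by omega) h'.2.2.2
  have h5 := Sys.NE_const hu.2.1 (show τ + 1 ≤ t from h.2.1) hu.1.le hNE
  exact ⟨hu, h.2.1, oa_kp h.2.2.1.1 hu.2.1 h1 (by omega), hNE⟩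
-- END oa

-- MODULE ob  (M)
/-- The keys of the right side after the request. -/
private theorem ob_lam (ht : t < S.m) (hu : u ∈ S.K) (hx : S.X t < u) :
    S.X t ≤ S.lam (t + 1) u := by
  have h1 := S.acc t ht
  have h2 := S.key u hu
  rcases S.lamin (t + 1) ht _ (S.req t ht) u hu hx with c | c | c
  · exact c.2.1
  · omega
  · omega

/-- The next smaller kept node. -/
private theorem ob_pred (hw : S.Kp τ w) (hv : S.Kp τ v) (hwv : w < v) :
    ∃ z, S.Kp τ z ∧ w ≤ z ∧ z < v ∧ S.rho (τ + 1) z = v := by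
  have hne : (S.K.filter (fun z => S.Kp τ z ∧ z < v)).Nonempty :=
    ⟨w, Finset.mem_filter.2 ⟨hw.1.2.1, hw, hwv⟩⟩
  obtain ⟨z, hz⟩ : ∃ z, z = (S.K.filter (fun z => S.Kp τ z ∧ z < v)).max' hne := ⟨_, rfl⟩
  have h1 := Finset.max'_mem _ hne
  rw [← hz, Finset.mem_filter] at h1
  obtain ⟨h1, h2, h3⟩ := h1
  have h4 : w ≤ z := by
    rw [hz]
    exact Finset.le_max' _ _ (Finset.mem_filter.2 ⟨hw.1.2.1, hw, hwv⟩)
  refine ⟨z, h2, h4, h3, ?_⟩
  have hm : τ + 1 ≤ S.m := hv.1.1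
  have hzx := R_gt h2.1
  have l1 := S.lt_rho (τ + 1) hm z h1
  have l2 := h2.2
  have l3 := hv.2
  have l4 := S.key v hv.1.2.1
  have h5 : S.rho (τ + 1) z ≤ v := by
    rcases S.lamin (τ + 1) hm z h1 v hv.1.2.1 h3 with c | c | c
    · omega
    · omega
    · omega
  by_contra h6
  have h7 : S.rho (τ + 1) z ∈ S.K := by
    rcases S.rho_mem (τ + 1) hm z h1 with c | c
    · omega
    · exact c
  have h8 := S.rho_anc (τ + 1) hm z h1 h7
  have h9 := ob_lam hv.1.1 h7 (by omega)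
  have h10 : S.lam (τ + 1) (S.rho (τ + 1) z) = S.X τ := by
    rcases S.lamin (τ + 1) hm z h1 _ h7 l1 with c | c | c
    · omega
    · omega
    · omega
  have h11 := oa_kp h2.1 h7 (by omega) h10
  have h12 : S.rho (τ + 1) z ≤ z := by
    conv_rhs => rw [hz]
    exact Finset.le_max' _ _ (Finset.mem_filter.2 ⟨h7, h11, by omega⟩)
  omega

/-- The lowest node of a block: the stamp is used up, or a node with this stamp is requested, or
a node with this stamp is touched from the right. -/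
theorem blk_cases (h : Stp S τ t v) :
    (∀ w, S.Kp τ w → ¬ S.NE w (τ + 1) (t + 1)) ∨
    (S.Kp τ (S.X t) ∧ S.NE (S.X t) (τ + 1) t) ∨
    (∃ w, S.L t w ∧ S.Kp τ w ∧ S.NE w (τ + 1) t) := by
  by_cases hA : ∀ w, S.Kp τ w → ¬ S.NE w (τ + 1) (t + 1)
  · exact Or.inl hA
  right
  push Not at hA
  obtain ⟨w, hw, hwN⟩ := hA
  have ht : t < S.m := h.1.1
  have hτ : τ + 1 ≤ t := h.2.1
  have hne : (S.K.filter (fun z => Stp S τ t z)).Nonempty :=
    ⟨v, Finset.mem_filter.2 ⟨h.1.2.1, h⟩⟩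
  obtain ⟨y, hy⟩ : ∃ y, y = (S.K.filter (fun z => Stp S τ t z)).min' hne := ⟨_, rfl⟩
  have h1 := Finset.min'_mem _ hne
  rw [← hy, Finset.mem_filter] at h1
  obtain ⟨h1, h2⟩ := h1
  have hmin : ∀ z, Stp S τ t z → y ≤ z := by
    intro z hz
    rw [hy]
    exact Finset.min'_le _ _ (Finset.mem_filter.2 ⟨hz.1.2.1, hz⟩)
  have hwK : w ∈ S.K := hw.1.2.1
  have hwu : ¬ S.E t w := hwN t hτ (Nat.lt_succ_self t)
  have hwl := Sys.NE_const hwK hτ ht.le (hwN.mono le_rfl (Nat.le_succ t))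
  have hwx := hw.2
  have hwy : w < y := by
    rcases Nat.lt_trichotomy w y with c | c | c
    · exact c
    · exact absurd (c ▸ Sys.R_E h2.1) hwu
    · exfalso
      apply hwu
      have e1 := S.lt_rho t ht.le w hwK
      have e2 := Stp_lam h2
      have e3 := h2.1.2.2.2
      have e4 := R_gt h2.1
      exact Sys.E_up (Sys.R_E h2.1) hwK (by omega) (by omega)
  obtain ⟨z, z1, z2, z3, z4⟩ := ob_pred hw h2.2.2.1 hwy
  have hzx := R_gt z1.1
  have hzK : z ∈ S.K := z1.1.2.1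
  have hyl := h2.2.2.1.2
  have hyr := S.lt_rho (τ + 1) h2.2.2.1.1.1 y h1
  obtain ⟨hzN, hzl, hzr⟩ := NE_sub (S := S) hτ ht.le h1 hzK h2.2.2.2 (by omega) (by omega)
  have e1 := z1.2
  have e2 := Stp_lam h2
  have e3 := h2.1.2.2.2
  have e4 := R_gt h2.1
  have hzE : S.E t z := (Sys.E_iff ht hzK).2 ⟨by omega, by omega⟩
  rcases hzE with c | c | c
  · have := hmin z ⟨c, h2.2.1, z1, hzN⟩
    omega
  · exact Or.inr ⟨z, c, z1, hzN⟩
  · left
    rw [← c.2.2]
    exact ⟨z1, hzN⟩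

theorem blkLe : BlkLe := by
  intro S
  set B := blks S with hB
  set B1 := B.filter (fun q => ∀ w, S.Kp q.1 w → ¬ S.NE w (q.1 + 1) (q.2 + 1)) with hB1
  set B2 := B.filter (fun q => S.Kp q.1 (S.X q.2) ∧ S.NE (S.X q.2) (q.1 + 1) q.2) with hB2
  set B3 := B.filter (fun q => ∃ w, S.L q.2 w ∧ S.Kp q.1 w ∧ S.NE w (q.1 + 1) q.2) with hB3
  have hmem : ∀ q ∈ B, q.1 < S.m ∧ q.2 < S.m ∧ ∃ v, Stp S q.1 q.2 v := by
    intro q hq
    rw [hB, blks, Finset.mem_filter, Finset.mem_product, Finset.mem_range, Finset.mem_range] at hq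
    exact ⟨hq.1.1, hq.1.2, hq.2⟩
  have hsub : B ⊆ B1 ∪ (B2 ∪ B3) := by
    intro q hq
    obtain ⟨_, _, v, hv⟩ := hmem q hq
    rw [Finset.mem_union, Finset.mem_union, hB1, hB2, hB3, Finset.mem_filter, Finset.mem_filter,
      Finset.mem_filter]
    rcases blk_cases hv with c | c | c
    · exact Or.inl ⟨hq, c⟩
    · exact Or.inr (Or.inl ⟨hq, c⟩)
    · exact Or.inr (Or.inr ⟨hq, c⟩)
  have c1 : B1.card ≤ S.m := by
    conv_rhs => rw [← Finset.card_range S.m]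
    refine Finset.card_le_card_of_injOn (fun q => q.1) ?_ ?_
    · intro q hq
      rw [Finset.mem_coe, hB1, Finset.mem_filter] at hq
      rw [Finset.mem_coe, Finset.mem_range]
      exact (hmem q hq.1).1
    · have key : ∀ q ∈ B1, ∀ q' ∈ B1, q.1 = q'.1 → ¬ q.2 < q'.2 := by
        intro q hq q' hq' he hlt
        rw [hB1, Finset.mem_filter] at hq hq'
        obtain ⟨_, _, v, hv⟩ := hmem q' hq'.1
        rw [← he] at hv
        exact hq.2 v hv.2.2.1 (hv.2.2.2.mono le_rfl hlt)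
      intro q hq q' hq' he
      rw [Finset.mem_coe] at hq hq'
      simp only at he
      rcases Nat.lt_trichotomy q.2 q'.2 with c | c | c
      · exact absurd c (key q hq q' hq' he)
      · exact Prod.ext he c
      · exact absurd c (key q' hq' q hq he.symm)
  have c2 : B2.card ≤ S.m := by
    conv_rhs => rw [← Finset.card_range S.m]
    refine Finset.card_le_card_of_injOn (fun q => q.2) ?_ ?_
    · intro q hq
      rw [Finset.mem_coe, hB2, Finset.mem_filter] at hq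
      rw [Finset.mem_coe, Finset.mem_range]
      exact (hmem q hq.1).2.1
    · have key : ∀ q ∈ B2, ∀ q' ∈ B2, q.2 = q'.2 → ¬ q.1 < q'.1 := by
        intro q hq q' hq' he hlt
        rw [hB2, Finset.mem_filter] at hq hq'
        obtain ⟨_, _, v, hv⟩ := hmem q' hq'.1
        refine hq.2.2 q'.1 (by omega) ?_ ?_
        · rw [he]
          exact hv.2.1
        · rw [he]
          exact Sys.R_E hq'.2.1.1
      intro q hq q' hq' he
      rw [Finset.mem_coe] at hq hq'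
      simp only at he
      rcases Nat.lt_trichotomy q.1 q'.1 with c | c | c
      · exact absurd c (key q hq q' hq' he)
      · exact Prod.ext c he
      · exact absurd c (key q' hq' q hq he.symm)
  have c3 : B3.card ≤ S.cnt (TL S) := by
    have hch : ∀ q : ℕ × ℕ, q ∈ B3 → ∃ w, S.L q.2 w ∧ S.Kp q.1 w ∧ S.NE w (q.1 + 1) q.2 := by
      intro q hq
      rw [hB3, Finset.mem_filter] at hq
      exact hq.2
    choose! f hf using hch
    have hlt : ∀ q ∈ B3, q.1 < q.2 := by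
      intro q hq
      rw [hB3, Finset.mem_filter] at hq
      obtain ⟨_, _, v, hv⟩ := hmem q hq.1
      exact hv.2.1
    unfold Sys.cnt
    refine Finset.card_le_card_of_injOn (fun q => (q.2, f q)) ?_ ?_
    · intro q hq
      rw [Finset.mem_coe] at hq
      obtain ⟨h1, h2, h3⟩ := hf q hq
      rw [Finset.mem_coe, Sys.mem_set]
      exact ⟨h1.1, h1.2.1, h1, q.1, hlt q hq, h2, h3⟩
    · have key : ∀ q ∈ B3, ∀ q' ∈ B3, q.2 = q'.2 → f q = f q' → ¬ q.1 < q'.1 := by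
        intro q hq q' hq' he hef hl
        obtain ⟨h1, h2, h3⟩ := hf q hq
        obtain ⟨g1, g2, g3⟩ := hf q' hq'
        have := hlt q' hq'
        refine h3 q'.1 (by omega) (by omega) ?_
        rw [hef]
        exact Sys.R_E g2.1
      intro q hq q' hq' he
      rw [Finset.mem_coe] at hq hq'
      simp only [Prod.mk.injEq] at he
      rcases Nat.lt_trichotomy q.1 q'.1 with c | c | c
      · exact absurd c (key q hq q' hq' he.1 he.2)
      · exact Prod.ext c he.1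
      · exact absurd c (key q' hq' q hq he.1.symm he.2.symm)
  have e1 := Finset.card_le_card hsub
  have e2 := Finset.card_union_le B1 (B2 ∪ B3)
  have e3 := Finset.card_union_le B2 B3
  omega
-- END ob

-- MODULE oc  (M)
/-- In a block only the lowest and the highest node are neither killed nor killers. -/
theorem oldFree : OldFree := by
  intro S hT
  set P : ℕ → ℕ → Prop := fun t v => OldG S t v ∧ (¬ ∃ p, S.Kl t v p) ∧
    ¬ S.Kl t (S.rho t v) v with hP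
  set P1 : ℕ → ℕ → Prop := fun t v => ∃ τ, Stp S τ t v ∧ ∀ z, Stp S τ t z → v ≤ z with hP1
  set P2 : ℕ → ℕ → Prop := fun t v => ∃ τ, Stp S τ t v ∧ ∀ z, Stp S τ t z → z ≤ v with hP2
  have h0 : S.cnt P ≤ S.cnt P1 + S.cnt P2 := by
    refine Th.cnt_or_le S ?_
    rintro t v ⟨⟨τ, h⟩, h1, h2⟩
    by_cases c1 : ∀ z, Stp S τ t z → v ≤ z
    · exact Or.inl ⟨τ, h, c1⟩
    by_cases c2 : ∀ z, Stp S τ t z → z ≤ v
    · exact Or.inr ⟨τ, h, c2⟩
    exfalso
    push Not at c1 c2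
    obtain ⟨a, ha, hav⟩ := c1
    obtain ⟨b, hb, hvb⟩ := c2
    obtain ⟨z, z1, z2, z3, z4⟩ := exists_below ha.1 h.1 hav
    have hz := Stp_mid ha h z1 z2 z3.le
    obtain ⟨r1, r2⟩ := R_up_le h.1 hb.1 hvb
    have hr := Stp_mid h hb r1 (R_rho h.1).le r2
    have e1 := Stp_lam hz
    have e2 := Stp_lam h
    have e3 := Stp_lam hr
    rcases hT t z z1 (by rw [z4]; exact h.1) (by rw [z4]; exact r1) (by rw [z4]; omega)
      (by rw [z4]; omega) with c | c
    · rw [z4] at c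
      exact h1 ⟨z, c⟩
    · rw [z4] at c
      exact h2 c
  have hone : ∀ Q : ℕ → ℕ → ℕ → Prop, (∀ τ t v w, Stp S τ t v → Q τ t v → Stp S τ t w →
      Q τ t w → v = w) → S.cnt (fun t v => ∃ τ, Stp S τ t v ∧ Q τ t v) ≤ (blks S).card := by
    intro Q hQ
    have hch : ∀ t v, (∃ τ, Stp S τ t v ∧ Q τ t v) → ∃ τ, Stp S τ t v ∧ Q τ t v := fun _ _ h => h
    choose! f hf using hch
    refine Sys.cnt_le_of_inj (blks S) (fun t v => (f t v, t)) ?_ ?_
    · intro t v ht hv h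
      obtain ⟨h1, h2⟩ := hf t v h
      rw [blks, Finset.mem_filter, Finset.mem_product, Finset.mem_range, Finset.mem_range]
      have := h1.2.1
      exact ⟨⟨by simp only; omega, ht⟩, v, h1⟩
    · intro t v t' v' ht hv h ht' hv' h' he
      simp only [Prod.mk.injEq] at he
      obtain ⟨he, rfl⟩ := he
      obtain ⟨h1, h2⟩ := hf t v h
      obtain ⟨g1, g2⟩ := hf t v' h'
      rw [← he] at g1 g2
      exact ⟨rfl, hQ _ _ _ _ h1 h2 g1 g2⟩
  have h1 : S.cnt P1 ≤ (blks S).card := by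
    refine hone (fun τ t v => ∀ z, Stp S τ t z → v ≤ z) ?_
    intro τ t v w h1 h2 h3 h4
    have := h2 w h3
    have := h4 v h1
    omega
  have h2 : S.cnt P2 ≤ (blks S).card := by
    refine hone (fun τ t v => ∀ z, Stp S τ t z → z ≤ v) ?_
    intro τ t v w h1 h2 h3 h4
    have := h2 w h3
    have := h4 v h1
    omega
  omega
-- END oc

-- MODULE od  (M)
/-- Old nodes. -/
theorem old_le (hT : Thr S) : S.cnt (OldG S) ≤ 2 * S.NR + 2 * (blks S).card := by
  have h1 : S.cnt (OldG S) ≤ S.NR +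
      S.cnt (fun t v => (∃ g, S.Kl t g v) ∨ (OldG S t v ∧ (¬ ∃ p, S.Kl t v p) ∧
        ¬ S.Kl t (S.rho t v) v)) := by
    refine Th.cnt_or_le S ?_
    intro t v h
    by_cases c1 : ∃ p, S.Kl t v p
    · exact Or.inl c1
    by_cases c2 : S.Kl t (S.rho t v) v
    · exact Or.inr (Or.inl ⟨_, c2⟩)
    · exact Or.inr (Or.inr ⟨h, c1, c2⟩)
  have h2 : S.cnt (fun t v => (∃ g, S.Kl t g v) ∨ (OldG S t v ∧ (¬ ∃ p, S.Kl t v p) ∧
        ¬ S.Kl t (S.rho t v) v)) ≤ S.cnt (fun t v => ∃ g, S.Kl t g v) +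
      S.cnt (fun t v => OldG S t v ∧ (¬ ∃ p, S.Kl t v p) ∧ ¬ S.Kl t (S.rho t v) v) :=
    Th.cnt_or_le S (fun _ _ h => h)
  have h3 := Th.killer_le S
  have h4 := oldFree S hT
  omega

/-- The last event before `t`. -/
private theorem od_prev (S : Sys) (t v : ℕ) :
    (∀ s, s < t → ¬ S.E s v) ∨ ∃ τ, τ < t ∧ S.E τ v ∧ S.NE v (τ + 1) t := by
  by_cases h : ∃ s, s < t ∧ S.E s v
  · obtain ⟨s, h1, h2, h3⟩ := Sys.exists_prev (P := fun s => S.E s v) h
    exact Or.inr ⟨s, h1, h2, fun a ha hb => h3 a (by omega) hb⟩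
  · left
    intro s hs hE
    exact h ⟨s, hs, hE⟩

/-- The next event after `τ` is unique. -/
private theorem od_next {t t' : ℕ} (h : S.E t v) (h' : S.E t' v) (hl : τ < t) (hl' : τ < t')
    (hN : S.NE v (τ + 1) t) (hN' : S.NE v (τ + 1) t') : t = t' := by
  rcases Nat.lt_trichotomy t t' with c | c | c
  · exact absurd h (hN' t (by omega) c)
  · exact c
  · exact absurd h' (hN t' (by omega) c)

/-- Counting by the previous event. -/
private theorem od_cnt (S : Sys) (Q : ℕ → ℕ → Prop) :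
    S.cnt (fun t v => S.E t v ∧ ∃ τ, τ < t ∧ Q τ v ∧ S.NE v (τ + 1) t) ≤ S.cnt Q := by
  have hch : ∀ t v, (S.E t v ∧ ∃ τ, τ < t ∧ Q τ v ∧ S.NE v (τ + 1) t) →
      ∃ τ, τ < t ∧ Q τ v ∧ S.NE v (τ + 1) t := fun _ _ h => h.2
  choose! f hf using hch
  refine Sys.cnt_le_of_inj (S.set Q) (fun t v => (f t v, v)) ?_ ?_
  · intro t v ht hv h
    obtain ⟨h1, h2, h3⟩ := hf t v h
    rw [Sys.mem_set]
    exact ⟨by simp only; omega, hv, h2⟩
  · intro t v t' v' ht hv h ht' hv' h' he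
    simp only [Prod.mk.injEq] at he
    obtain ⟨he, rfl⟩ := he
    obtain ⟨h1, h2, h3⟩ := hf t v h
    obtain ⟨g1, g2, g3⟩ := hf t' v h'
    rw [← he] at g1 g2 g3
    exact ⟨od_next h.1 h'.1 h1 g1 h3 g3, rfl⟩

/-- The events whose previous event is not a keep of the same side: no event, an access, a kill, a
keep of the other side. -/
theorem new_le (S : Sys) :
    S.cnt (fun t v => S.E t v ∧ ¬ S.Ac t v ∧
      ¬ (∃ τ, τ < t ∧ S.NE v (τ + 1) t ∧ ((S.R t v ∧ S.Kp τ v) ∨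
        (S.L t v ∧ S.L τ v ∧ S.rho (τ + 1) v = S.X τ)))) ≤
      S.top + S.m + (S.NR + S.mir.NR) + TT S := by
  set P : ℕ → ℕ → Prop := fun t v => S.E t v ∧ ¬ S.Ac t v ∧
      ¬ (∃ τ, τ < t ∧ S.NE v (τ + 1) t ∧ ((S.R t v ∧ S.Kp τ v) ∨
        (S.L t v ∧ S.L τ v ∧ S.rho (τ + 1) v = S.X τ))) with hP
  set P0 : ℕ → ℕ → Prop := fun t v => S.E t v ∧ ∀ s, s < t → ¬ S.E s v with hP0
  set PA : ℕ → ℕ → Prop := fun t v => S.E t v ∧ ∃ τ, τ < t ∧ S.Ac τ v ∧ S.NE v (τ + 1) t with hPA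
  set PK : ℕ → ℕ → Prop := fun t v => S.E t v ∧ ∃ τ, τ < t ∧ (∃ p, S.Kl τ v p) ∧
    S.NE v (τ + 1) t with hPK
  set PM : ℕ → ℕ → Prop := fun t v => S.E t v ∧ ∃ τ, τ < t ∧ (S.L τ v ∧ S.rho (τ + 1) v < S.X τ) ∧
    S.NE v (τ + 1) t with hPM
  set PR : ℕ → ℕ → Prop := fun t v => S.R t v ∧ ∃ τ, τ < t ∧ (S.L τ v ∧ S.rho (τ + 1) v = S.X τ) ∧
    S.NE v (τ + 1) t with hPR
  have h0 : S.cnt P ≤ S.cnt P0 + S.cnt (fun t v => PA t v ∨ PK t v ∨ PM t v ∨ TL S t v ∨
      PR t v) := by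
    refine Th.cnt_or_le S ?_
    rintro t v ⟨hE, hA, hN⟩
    rcases od_prev S t v with c | ⟨τ, h1, h2, h3⟩
    · exact Or.inl ⟨hE, c⟩
    right
    rcases h2 with h2 | h2 | h2
    · rcases Sys.kp_or_kl h2 with c | c
      · right; right; right; left
        rcases hE with hE | hE | hE
        · exact absurd ⟨τ, h1, h3, Or.inl ⟨hE, c⟩⟩ hN
        · exact ⟨hE, τ, h1, c, h3⟩
        · exact absurd hE hA
      · right; left
        exact ⟨hE, τ, h1, c, h3⟩
    · rcases LC h2 with c | c | ⟨w, c⟩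
      · rcases hE with hE | hE | hE
        · right; right; right; right
          exact ⟨hE, τ, h1, ⟨h2, c.1⟩, h3⟩
        · exact absurd ⟨τ, h1, h3, Or.inr ⟨hE, h2, c.1⟩⟩ hN
        · exact absurd hE hA
      · rcases hE with hE | hE | hE
        · right; right; right; right
          exact ⟨hE, τ, h1, ⟨h2, c.1⟩, h3⟩
        · exact absurd ⟨τ, h1, h3, Or.inr ⟨hE, h2, c.1⟩⟩ hN
        · exact absurd hE hA
      · right; right; left
        have := c.1.2.1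
        have := c.1.2.2
        exact ⟨hE, τ, h1, ⟨h2, by omega⟩, h3⟩
    · left
      exact ⟨hE, τ, h1, h2, h3⟩
  have h1 : S.cnt (fun t v => PA t v ∨ PK t v ∨ PM t v ∨ TL S t v ∨ PR t v) ≤
      S.cnt PA + S.cnt (fun t v => PK t v ∨ PM t v ∨ TL S t v ∨ PR t v) :=
    Th.cnt_or_le S (fun _ _ h => h)
  have h2 : S.cnt (fun t v => PK t v ∨ PM t v ∨ TL S t v ∨ PR t v) ≤
      S.cnt PK + S.cnt (fun t v => PM t v ∨ TL S t v ∨ PR t v) :=
    Th.cnt_or_le S (fun _ _ h => h)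
  have h3 : S.cnt (fun t v => PM t v ∨ TL S t v ∨ PR t v) ≤
      S.cnt PM + S.cnt (fun t v => TL S t v ∨ PR t v) :=
    Th.cnt_or_le S (fun _ _ h => h)
  have h4 : S.cnt (fun t v => TL S t v ∨ PR t v) ≤ S.cnt (TL S) + S.cnt PR :=
    Th.cnt_or_le S (fun _ _ h => h)
  have k0 : S.cnt P0 ≤ S.top := by
    refine le_trans ?_ (Th.K_le S)
    refine Sys.cnt_le_of_inj S.K (fun _ v => v) (fun _ _ _ h _ => h) ?_
    intro t v t' v' _ _ h _ _ h' he
    have he : v = v' := he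
    subst he
    refine ⟨?_, rfl⟩
    rcases Nat.lt_trichotomy t t' with c | c | c
    · exact absurd h.1 (h'.2 t c)
    · exact c
    · exact absurd h'.1 (h.2 t' c)
  have kA : S.cnt PA ≤ S.m := by
    refine (od_cnt S S.Ac).trans ?_
    conv_rhs => rw [← Finset.card_range S.m]
    refine Sys.cnt_le_of_inj _ (fun t _ => t) ?_ ?_
    · intro t v ht _ _
      exact Finset.mem_range.2 ht
    · intro t v t' v' ht _ _h _ _ h' he
      subst he
      exact ⟨rfl, by rw [_h.2.2, h'.2.2]⟩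
  have kK : S.cnt PK ≤ S.NR := od_cnt S (fun t v => ∃ p, S.Kl t v p)
  have kM : S.cnt PM ≤ S.mir.NR := by
    rw [Sys.mir_NR]
    exact od_cnt S (fun t v => S.L t v ∧ S.rho (t + 1) v < S.X t)
  have kR : S.cnt PR = S.mir.cnt (TL S.mir) := by
    symm
    apply Sys.mir_cnt
    intro t u hu
    unfold TL
    rw [Sys.mir_L hu, hPR]
    constructor
    · rintro ⟨g1, τ, g2, g3, g4⟩
      refine ⟨g1, τ, g2, ?_, (Sys.mir_NE hu).1 g4⟩
      obtain ⟨g5, g6⟩ := g3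
      rw [Sys.mir_R hu] at g5
      rw [Sys.mir_lam hu, mir_X] at g6
      have g7 := S.key _ (S.req τ g5.1)
      have g8 := S.rho_le_top (show τ + 1 ≤ S.m from g5.1) hu
      exact ⟨g5, by omega⟩
    · rintro ⟨g1, τ, g2, g3, g4⟩
      refine ⟨g1, τ, g2, ⟨(Sys.mir_R hu).2 g3.1, ?_⟩, (Sys.mir_NE hu).2 g4⟩
      rw [Sys.mir_lam hu, mir_X, g3.2]
  unfold TT
  omega
-- END od

-- MODULE oe  (S)
private theorem oe_kp (hu : u ∈ S.K) : S.mir.Kp τ (S.top - u) ↔
    (S.L τ u ∧ S.rho (τ + 1) u = S.X τ) := by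
  unfold Sys.Kp
  rw [Sys.mir_R hu, Sys.mir_lam hu]
  refine and_congr_right fun h => ?_
  show S.top - S.rho (τ + 1) u = S.top - S.X τ ↔ _
  have h1 := Sys.rho_le_top S (t := τ + 1) h.1 hu
  have h2 := (S.key _ (S.req τ h.1)).2
  omega

private theorem oe_old (S : Sys) : S.mir.cnt (OldG S.mir) =
    S.cnt (fun t v => S.L t v ∧ ∃ τ, τ < t ∧ (S.L τ v ∧ S.rho (τ + 1) v = S.X τ) ∧
      S.NE v (τ + 1) t) := by
  apply Sys.mir_cnt
  intro t u hu
  unfold OldG Stp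
  constructor
  · rintro ⟨τ, h1, h2, h3, h4⟩
    exact ⟨(Sys.mir_R hu).1 h1, τ, h2, (oe_kp hu).1 h3, (Sys.mir_NE hu).1 h4⟩
  · rintro ⟨h1, τ, h2, h3, h4⟩
    exact ⟨τ, (Sys.mir_R hu).2 h1, h2, (oe_kp hu).2 h3, (Sys.mir_NE hu).2 h4⟩

private theorem oe_ac (S : Sys) : S.cnt S.Ac ≤ S.m := by
  have := Sys.cnt_le_of_inj (S := S) (P := S.Ac) (Finset.range S.m) (fun t _ => t) ?_ ?_
  · rwa [Finset.card_range] at this
  · intro t v ht _ _
    exact Finset.mem_range.2 ht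
  · intro t v t' v' _ _ h _ _ h' he
    subst he
    exact ⟨rfl, by rw [h.2.2, h'.2.2]⟩

theorem thetaG : ThetaG := by
  refine ⟨10, fun S hT hT' => ?_⟩
  have h1 := old_le hT
  have h2 := old_le hT'
  have h3 := new_le S
  have h4 := blkLe S
  have h5 := blkLe S.mir
  have h6 := oe_ac S
  rw [oe_old] at h2
  have e1 : S.mir.m = S.m := rfl
  have c1 : tch S ≤ S.cnt S.Ac + S.cnt (fun t v => S.E t v ∧ ¬ S.Ac t v) := by
    apply Th.cnt_or_le
    intro t v h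
    by_cases ha : S.Ac t v
    · exact Or.inl ha
    · exact Or.inr ⟨h, ha⟩
  have c2 : S.cnt (fun t v => S.E t v ∧ ¬ S.Ac t v) ≤
      S.cnt (fun t v => S.E t v ∧ ¬ S.Ac t v ∧
        ¬ (∃ τ, τ < t ∧ S.NE v (τ + 1) t ∧ ((S.R t v ∧ S.Kp τ v) ∨
          (S.L t v ∧ S.L τ v ∧ S.rho (τ + 1) v = S.X τ)))) +
      S.cnt (fun t v => OldG S t v ∨ (S.L t v ∧ ∃ τ, τ < t ∧ (S.L τ v ∧
        S.rho (τ + 1) v = S.X τ) ∧ S.NE v (τ + 1) t)) := by
    apply Th.cnt_or_le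
    intro t v h
    by_cases ha : ∃ τ, τ < t ∧ S.NE v (τ + 1) t ∧ ((S.R t v ∧ S.Kp τ v) ∨
          (S.L t v ∧ S.L τ v ∧ S.rho (τ + 1) v = S.X τ))
    · right
      obtain ⟨τ, a1, a2, a3⟩ := ha
      rcases a3 with ⟨a3, a4⟩ | ⟨a3, a4, a5⟩
      · exact Or.inl ⟨τ, a3, a1, a4, a2⟩
      · exact Or.inr ⟨a3, τ, a1, ⟨a4, a5⟩, a2⟩
    · exact Or.inl ⟨h.1, h.2, ha⟩
  have c3 : S.cnt (fun t v => OldG S t v ∨ (S.L t v ∧ ∃ τ, τ < t ∧ (S.L τ v ∧
        S.rho (τ + 1) v = S.X τ) ∧ S.NE v (τ + 1) t)) ≤ S.cnt (OldG S) +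
      S.cnt (fun t v => S.L t v ∧ ∃ τ, τ < t ∧ (S.L τ v ∧ S.rho (τ + 1) v = S.X τ) ∧
        S.NE v (τ + 1) t) := Th.cnt_or_le S fun _ _ h => h
  rw [e1] at h5
  unfold TT at h3 ⊢
  omega
-- END oe

end Pool.Agent.SplGd
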