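import Pool.Agent.SplGd.RapG
import Pool.Agent.SplTr.Pair

set_option autoImplicit false

/-!
# Two rounds which are alive at a common time: the linked case (grid version)

`r.g < r'.g` and `r'.q < r.g`.
-/

namespace Pool.Agent.SplGd

open Pool.Agent.SplLog Pool.Agent.SplLs Pool.Agent.SplDq Pool.Agent.SplTr
open scoped Classical

variable {S : Sys} {s t u v w g h p q a b τ : ℕ} {r r' : Rnd}

/-- The subtree of `g` lies in the subtree of `g'`. -/
theorem lg_sub (hr : Rg S r) (hr' : Rg S r') (h1 : Alv r τ) (h2 : Alv r' τ) (hlt : r.g < r'.g)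
    (hq : r'.q < r.g) : r'.q ≤ r.q ∧ r.h ≤ r'.g := by
  have a1 := hr.lam_alv h1
  have a2 := hr'.lam_alv h2
  have hm := hr.alv_m h1
  have h3 := hr.gh
  rcases S.lamin τ hm.le r.g hr.gK r'.g hr'.gK hlt with h4 | h4 | h4 <;> omega

/-- **(L1)** -/
theorem lg_rel (hr : Rg S r) (hr' : Rg S r') (h1 : Alv r τ) (h2 : Alv r' τ) (hlt : r.g < r'.g)
    (hq : r'.q < r.g) : r'.rel ≤ r.rel := by
  by_contra hc
  push Not at hc
  have h3 := lg_sub hr hr' h1 h2 hlt hq
  have h4 := hr.rq
  have h5 := hr.rg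
  have h6 := hr'.gh
  exact hr'.nr r.rel (by have := h1.2; have := h2.1; omega) hc (by omega)

/-- **(L1)**, second part: the request `rel'` is not in `[q, h)` if it comes before `rel`. -/
theorem lg_z (hr : Rg S r) (hr' : Rg S r') (h1 : Alv r τ) (h2 : Alv r' τ) (hlt : r.g < r'.g)
    (hq : r'.q < r.g) (h : r'.rel < r.rel) : S.X r'.rel < r.q ∨ r.h ≤ S.X r'.rel := by
  by_contra hc
  exact hr.nr r'.rel (by have := h1.1; have := h2.2; omega) h (by omega)

/-- At the request `s'` the root of `[g, g']` is `g'`. -/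
theorem lg_root (hr' : Rg S r') (hlt : r.g < r'.g) (hq : r'.q < r.g) :
    S.lam r'.s r'.g < r.g := by
  rcases hr'.sk with h1 | h1
  · have h2 := Sys.kl_facts h1.1
    have h3 := R_lam h1.1.1
    have h4 := h1.1.2.1
    omega
  · have h2 := (kr_facts h1.1).2.2.2.2.2.2
    have h3 := h1.2
    omega

/-- While the larger round is alive the smaller key of a linked pair is not touched. -/
theorem lg_unt (hr : Rg S r) (hr' : Rg S r') (hu : Alv r' u) (hu' : u < r'.rel)
    (hlt : r.g < r'.g) (hq : r'.q < r.g) : ¬ S.E u r.g := by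
  intro h9
  have h4 := hr'.lam_alv hu
  have h5 := hr'.alv_m hu
  have h8 := hr'.nr u hu.1 hu'
  have h6 := hr'.gh
  have h11 := Sys.sub (S := S) h5.le hr.gK hr'.gK (by omega) (by omega)
  rcases h9 with h9 | h9 | h9
  · have := h9.2.2.1
    have := h9.2.2.2
    omega
  · have := h9.2.2.1
    have := h9.2.2.2
    omega
  · have := h9.2.2
    omega

/-- **(L4)**: `s ≤ s'`. -/
theorem lg_ss (hr : Rg S r) (hr' : Rg S r') (h1 : Alv r τ) (h2 : Alv r' τ) (hlt : r.g < r'.g)
    (hq : r'.q < r.g) : r.s ≤ r'.s := by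
  by_contra hc
  push Not at hc
  have h3 : r.s < r'.rel := by have := h1.1; have := h2.2; omega
  exact lg_unt hr hr' ⟨hc, h3.le⟩ h3 hlt hq hr.Es

/-- **(L4)**: `s < s'`. -/
theorem lg_ss' (hr : Rg S r) (hr' : Rg S r') (h1 : Alv r τ) (h2 : Alv r' τ) (hlt : r.g < r'.g)
    (hq : r'.q < r.g) : r.s < r'.s := by
  rcases Nat.eq_or_lt_of_le (lg_ss hr hr' h1 h2 hlt hq) with h3 | h3
  · exfalso
    have h4 := lg_root hr' hlt hq
    rcases hr.sk with h7 | h7
    · rcases hr'.sk with h8 | h8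
      · -- both left kills of one pass: the killer of `g'` is its path child
        have h10 := Sys.kl_facts h8.1
        have h11 := kl_R' h8.1
        have h12 := kl_R h7.1
        rw [h3] at h12
        have h13 := (Sys.R_above h11 h12 hq).1
        omega
      · have h9 := h7.1.1.2.2.1
        have h10 := h8.1.1.2.2.1
        rw [h3] at h9
        omega
    · rcases hr'.sk with h8 | h8
      · have h9 := h7.1.1.2.2.1
        have h10 := h8.1.2.1
        rw [h3] at h9
        omega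
      · have h9 := h7.1.1
        rw [h3] at h9
        have := (Sys.L_above h9 h8.1.1 hlt).1
        omega
  · exact h3

/-- **(L2)** -/
theorem lg_bs (hr : Rg S r) (hr' : Rg S r') (h1 : Alv r τ) (h2 : Alv r' τ) (hlt : r.g < r'.g)
    (hq : r'.q < r.g) : bt S r ≤ r'.s := by
  rcases bt_spec S r with h3 | ⟨u, h3, h4, h5⟩
  · omega
  · have := lg_ss' hr hr' h1 h2 hlt hq
    omega

/-- the root just before `s'` -/
theorem lg_root' (hr : Rg S r) (hr' : Rg S r') (hlt : r.g < r'.g) (hq : r'.q < r.g) :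
    Rt S r.g (r'.g + 1) r'.s r'.g :=
  ⟨hr'.gK, by omega, by omega, lg_root hr' hlt hq, S.lt_rho _ hr'.sm.le _ hr'.gK⟩

/-- the root just before a right touch of `g` by a request which is not in `[g, g']` -/
theorem lg_rootb (hr : Rg S r) (hlt : r.g < r'.g) (hL : S.L u r.g)
    (hX : ¬ (r.g ≤ S.X u ∧ S.X u < r'.g + 1)) : Rt S r.g (r'.g + 1) u r.g := by
  have h4 := hL.2.2.1
  have h5 := hL.2.2.2
  exact ⟨hr.gK, le_rfl, by omega, S.lam_lt _ hL.1.le _ hr.gK, by omega⟩

/-- the interval `[g, g']` is not requested between the last right touch of `g` and `s'` -/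
def IdlR (S : Sys) (r r' : Rnd) : Prop :=
  ∀ u, bt S r ≤ u + 1 → u < r'.s → ¬ (r.g ≤ S.X u ∧ S.X u ≤ r'.g)

/-- **(L3)** -/
theorem lg_bb (hr : Rg S r) (hr' : Rg S r') (h1 : Alv r τ) (h2 : Alv r' τ)
    (hlt : r.g < r'.g) (hq : r'.q < r.g) (hI : IdlR S r r') : bt S r ≤ bt S r' := by
  have h3 := lg_bs hr hr' h1 h2 hlt hq
  rcases bt_spec S r with h4 | ⟨u, h4, h5, h6⟩
  · omega
  · have h7 := S.key _ hr.gK
    have h8 := S.key _ hr'.gK
    have h9 := hr'.sm
    have h10 : Unc S r.g (r'.g + 1) u r'.s := fun x hx1 hx2 hx3 => hI x (by omega) hx2 (by omega)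
    obtain ⟨x, hx1, hx2, hx3⟩ := root_touch (S := S) (by omega) (by omega)
      (show u ≤ r'.s by omega) (by omega) h10 rfl
      (lg_rootb hr hlt h5 (h10 u le_rfl (by omega)))
      (lg_root' hr hr' hlt hq) hlt
    have := le_bt (r := r') (S := S) hx2.le hx3
    omega

/-- **(L6)** the sweep. -/
theorem lg_sweep (hr : Rg S r) (hr' : Rg S r') (h1 : Alv r τ) (h2 : Alv r' τ)
    (hlt : r.g < r'.g) (hq : r'.q < r.g) (hI : IdlR S r r') (hb : 0 < bt S r) (hh1 : r.g < h)
    (hh2 : h < r'.g)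
    (hh : SU S r.g (r'.g + 1) r'.s h) : ∃ u, bt S r ≤ u + 1 ∧ u < r'.s ∧ S.L u h := by
  have h3 := lg_bs hr hr' h1 h2 hlt hq
  rcases bt_spec S r with h4 | ⟨u, h4, h5, h6⟩
  · omega
  · have h7 := S.key _ hr.gK
    have h8 := S.key _ hr'.gK
    have h9 := hr'.sm
    have h10 : Unc S r.g (r'.g + 1) u r'.s := fun x hx1 hx2 hx3 => hI x (by omega) hx2 (by omega)
    obtain ⟨x, hx1, hx2, hx3⟩ := passing (S := S) (by omega) (by omega)
      (show u ≤ r'.s by omega) (by omega) h10
      (lg_rootb hr hlt h5 (h10 u le_rfl (by omega)))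
      (lg_root' hr hr' hlt hq) hh1 hh2 hh
    exact ⟨x, by omega, hx2, hx3⟩

/-- **(L6)**, all keys `h` of `[g, g']` which are right-touched at a later time `v`, `[g, g']`
being not requested in `[s', v]`. -/
theorem lg_sweep' (hr : Rg S r) (hr' : Rg S r') (h1 : Alv r τ) (h2 : Alv r' τ)
    (hlt : r.g < r'.g) (hq : r'.q < r.g) (hI : IdlR S r r') (hb : 0 < bt S r) (hh1 : r.g ≤ h)
    (hh2 : h ≤ r'.g) (hv : r'.s ≤ v) (hU : Unc S r.g (r'.g + 1) r'.s (v + 1)) (hL : S.L v h) :
    ∃ u, bt S r ≤ u + 1 ∧ u < r'.s ∧ S.L u h := by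
  have h0 := lg_ss' hr hr' h1 h2 hlt hq
  rcases Nat.eq_or_lt_of_le hh1 with h6 | h6
  · -- the last right touch of `g`
    subst h6
    rcases bt_spec S r with h4 | ⟨u, h4, h5, h6⟩
    · omega
    · exact ⟨u, by omega, by omega, h5⟩
  rcases Nat.eq_or_lt_of_le hh2 with h7 | h7
  · subst h7
    have h9 := hr'.sm
    rcases bt_spec S r with h4 | ⟨u, h4, h5, h6⟩
    · omega
    · have h7 := S.key _ hr.gK
      have h8 := S.key _ hr'.gK
      have h10 : Unc S r.g (r'.g + 1) u r'.s :=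
        fun x hx1 hx2 hx3 => hI x (by omega) hx2 (by omega)
      obtain ⟨x, hx1, hx2, hx3⟩ := root_touch (S := S) (by omega) (by omega)
        (show u ≤ r'.s by omega) (by omega) h10 rfl
        (lg_rootb hr hlt h5 (h10 u le_rfl (by omega)))
        (lg_root' hr hr' hlt hq) hlt
      exact ⟨x, by omega, hx2, hx3⟩
  · have h3 := hU v hv (by omega)
    have h4 := hL.2.2.1
    have h5 := hL.2.2.2
    have h8 : SU S r.g (r'.g + 1) v h := Or.inr ⟨hL.2.1, by omega, by omega, by omega⟩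
    exact lg_sweep hr hr' h1 h2 hlt hq hI hb h6 h7
      (SU_mono hv hL.1.le (hU.mono le_rfl (by omega)) h8)

end Pool.Agent.SplGd
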