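import Pool.Agent.SplGd.Defs
import Pool.Agent.SplTr.Rap

set_option autoImplicit false

/-!
# Basic facts on one round (grid version)
-/

namespace Pool.Agent.SplGd

open Pool.Agent.SplLog Pool.Agent.SplLs Pool.Agent.SplDq Pool.Agent.SplTr
open scoped Classical

variable {S : Sys} {s t u v w g p q a b τ : ℕ} {r r' : Rnd}

namespace Rg

theorem tm (h : Rg S r) : r.t < S.m := kl_R h.kl |>.1

theorem gK (h : Rg S r) : r.g ∈ S.K := kl_R h.kl |>.2.1

theorem pK (h : Rg S r) : r.p ∈ S.K := kl_R' h.kl |>.2.1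

theorem pg (h : Rg S r) : r.p < r.g := kl_lt h.kl

theorem Xp (h : Rg S r) : S.X r.t < r.p := h.kl.2.1

theorem gh (h : Rg S r) : r.g < r.h := by
  rw [← h.hh]
  exact S.lt_rho r.t h.tm.le r.g h.gK

theorem hK (h : Rg S r) : r.h ∈ S.K := by
  have h1 := h.hh
  have h2 := h.ht
  rcases S.rho_mem r.t h.tm.le r.g h.gK with h3 | h3
  · omega
  · rwa [h1] at h3

theorem relm (h : Rg S r) : r.rel < S.m := by
  have := h.rt
  have := h.tm
  omega

theorem sm (h : Rg S r) : r.s < S.m := by
  have := h.st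
  have := h.tm
  omega

/-- just after `s` -/
theorem lam_s (h : Rg S r) : S.lam (r.s + 1) r.g = r.q := by
  rcases h.sk with h1 | h1
  · exact h1.1.2.2
  · exact h1.2

theorem rho_s (h : Rg S r) : S.rho (r.s + 1) r.g = r.h := by
  rcases h.sk with h1 | h1
  · exact h1.2
  · exact h1.1.2.2

theorem qg (h : Rg S r) : r.q < r.g := by
  rw [← h.lam_s]
  exact S.lam_lt _ (by have := h.sm; omega) _ h.gK

theorem qK (h : Rg S r) : r.q ∈ S.K := by
  have h1 := h.q0
  rcases S.lam_mem (r.s + 1) (by have := h.sm; omega) r.g h.gK with h2 | h2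
  · rw [h.lam_s] at h2
    omega
  · rwa [h.lam_s] at h2

/-- `g` is touched at `s` -/
theorem Es (h : Rg S r) : S.E r.s r.g := by
  rcases h.sk with h1 | h1
  · exact Sys.R_E h1.1.1
  · exact Or.inr (Or.inl h1.1.1)

/-- no event of `g` after `s` and before `rel` -/
theorem ne_rel (h : Rg S r) : S.NE r.g (r.s + 1) r.rel := by
  intro u h1 h2 h3
  have h4 := h.rt
  have := (h.ne u (by omega) (by omega) h3).1
  omega

theorem lam_alv (h : Rg S r) (hτ : Alv r τ) : S.lam τ r.g = r.q ∧ S.rho τ r.g = r.h := by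
  obtain ⟨h1, h2⟩ := hτ
  have h3 := h.relm
  have h4 := Sys.NE_const (S := S) h.gK (show r.s + 1 ≤ τ by omega) (by omega)
    (h.ne_rel.mono le_rfl h2)
  rw [h4.1, h4.2, h.lam_s, h.rho_s]
  exact ⟨rfl, rfl⟩

theorem alv_m (h : Rg S r) (hτ : Alv r τ) : τ < S.m := by
  have := hτ.2
  have := h.relm
  omega

/-- the upper end after `s` is `h` -/
theorem rho_aft (h : Rg S r) (h1 : r.s < u) (h2 : u ≤ r.t) : S.rho u r.g = r.h := by
  have h3 := h.tm
  induction u with
  | zero => omega
  | succ u ih =>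
    rcases Nat.lt_or_ge r.s u with h4 | h4
    · by_cases hE : S.E u r.g
      · exact (h.ne u h4 (by omega) hE).2.2
      · rw [(Sys.untouched (by omega) h.gK hE).2]
        exact ih h4 (by omega)
    · have : u = r.s := by omega
      subst this
      exact h.rho_s

/-- the lower end does not move to the left after `s` -/
theorem lam_aft (h : Rg S r) {x y : ℕ} (h1 : r.s < x) (hxy : x ≤ y) (h2 : y ≤ r.t) :
    S.lam x r.g ≤ S.lam y r.g := by
  have h3 := h.tm
  induction y, hxy using Nat.le_induction with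
  | base => exact le_rfl
  | succ y hy ih =>
    have h4 := ih (by omega)
    by_cases hE : S.E y r.g
    · have h5 := (h.ne y (by omega) (by omega) hE).2.1
      have h6 := (Sys.R_mono h5.1).1
      omega
    · rw [(Sys.untouched (by omega) h.gK hE).1]
      exact h4

/-- the request `s` is not in `[q, h]` -/
theorem Xs (h : Rg S r) : S.X r.s < r.q ∨ r.h < S.X r.s := by
  rcases h.sk with h1 | h1
  · exact Or.inl h1.1.2.1
  · exact Or.inr h1.1.2.1

/-- no request in `[q, h)` after `s` and before `rel` -/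
theorem unc (h : Rg S r) : Unc S r.q r.h r.s r.rel := by
  intro u h1 h2 h3
  rcases Nat.eq_or_lt_of_le h1 with h4 | h4
  · subst h4
    have := h.Xs
    omega
  · exact h.nr u h4 h2 h3

/-- The time of the last kill and the key determine the time of the kill. -/
theorem t_eq (h : Rg S r) (h' : Rg S r') (hs : r.s = r'.s) (hg : r.g = r'.g) : r.t = r'.t := by
  rcases Nat.lt_trichotomy r.t r'.t with h1 | h1 | h1
  · exfalso
    have h2 := h'.ne r.t (by rw [← hs]; exact h.st) h1 (by rw [← hg]; exact Sys.R_E h.kl.1)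
    rw [← hg] at h2
    exact Sys.not_kp_kl h2.2.1 h.kl
  · exact h1
  · exfalso
    have h2 := h.ne r'.t (by rw [hs]; exact h'.st) h1 (by rw [hg]; exact Sys.R_E h'.kl.1)
    rw [hg] at h2
    exact Sys.not_kp_kl h2.2.1 h'.kl

end Rg

end Pool.Agent.SplGd
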