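import Pool.Agent.SplGd.Defs

set_option autoImplicit false

/-!
# Lemma T: definitions and statements

`EE S j s z`: `z` is an end of a block of scale `j` which is active in the time window of scale `j`
of `s` (scale 0: `z` is the request).  `pk S s z`: the priority of `z` at time `s` (smaller = better):
first the least such `j`, then the 2-adic valuation (larger is better), then `z` (smaller is better).
`nu s` is the valuation of `s + 1`: the windows of scale `> nu s` of `s` and `s + 1` are the same.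
-/

namespace Pool.Agent.SplGd

open Pool.Agent.SplLog Pool.Agent.SplLs Pool.Agent.SplDq Pool.Agent.SplTr
open scoped Classical

/-- Ends of active blocks. -/
def EE (S : Sys) (j s z : ℕ) : Prop :=
  (j = 0 ∧ z = S.X s) ∨
  (0 < j ∧ ∃ u, u < S.m ∧ u / 2 ^ j = s / 2 ^ j ∧
    (z = S.X u / 2 ^ j * 2 ^ j ∨ z = (S.X u / 2 ^ j + 1) * 2 ^ j))

/-- The least scale. -/
noncomputable def gg (S : Sys) (s z : ℕ) : WithTop ℕ :=
  if h : ∃ j, EE S j s z then ((Nat.find h : ℕ) : WithTop ℕ) else ⊤

/-- The priority. -/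
noncomputable def pk (S : Sys) (s z : ℕ) : WithTop ℕ ×ₗ (ℕᵒᵈ ×ₗ ℕ) :=
  toLex (gg S s z, toLex (OrderDual.toDual (padicValNat 2 z), z))

/-- The valuation of `s + 1`. -/
noncomputable def nu (s : ℕ) : ℕ := padicValNat 2 (s + 1)

/-- The essential keys of the step from `s` to `s + 1`. -/
def Ess (S : Sys) (s z : ℕ) : Prop := ∃ j, j ≤ nu s + 1 ∧ (EE S j s z ∨ EE S j (s + 1) z)

/-- `x` is the best element of `[a, b]` at time `s`. -/
def Bst (S : Sys) (a b s x : ℕ) : Prop :=
  a ≤ x ∧ x ≤ b ∧ ∀ z, a ≤ z → z ≤ b → z ≠ x → pk S s x < pk S s z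

/-- A witness of a T-event. -/
structure Wt (S : Sys) (t v s x y : ℕ) : Prop where
  st : s < t
  ex : Ess S s x
  ey : Ess S s y
  xv : x < v
  vy : v ≤ y
  lx : S.lam (s + 1) v ≤ x
  yr : y < S.rho (s + 1) v
  ne : S.NE v (s + 1) t
  xy : pk S (s + 1) y < pk S (s + 1) x
  mn : ∀ z, Ess S s z → x < z → pk S (s + 1) z < pk S (s + 1) x → y ≤ z

end Pool.Agent.SplGd
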